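import Pool.Agent.Lib.Pa7c826t.LeafHolder
import Pool.Agent.Lib.Pa7c826t.Nu
import Pool.Agent.Lib.Pa7c826t.CovMatch
import Pool.Agent.Lib.Pa7c826y.Alg
import Pool.Agent.Lib.Pa7c826.Fptas

/-!
Multiway expansion of regular bipartite graphs, approximation of the number of independent sets on
sets of pairs (graph, precision), and the objects used for the algorithm on graphs with large
multiway expansion.
-/

namespace Pool.Agent.Lib.Pa7c826m

open Finset Pool.Agent.Lib.Pa7c826 Pool.Agent.Lib.Pa7c826t Pool.Agent.Lib.Pa7c826y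

/-! ### Classes -/

/-- every vertex has degree `d` -/
def RegularOf (d : ℕ) (G : BGraph) : Prop := (∀ i, G.rowDeg i = d) ∧ ∀ j, G.colDeg j = d

/-- the number of edges with exactly one end in `W` -/
def bdry (G : BGraph) (W : Finset (Fin G.a ⊕ Fin G.b)) : ℕ :=
  (univ.filter fun e : Fin G.a × Fin G.b =>
    G.E e.1 e.2 = true ∧ ¬ (Sum.inl e.1 ∈ W ↔ Sum.inr e.2 ∈ W)).card

/-- `k`-way expansion at least `x`: among any `k` pairwise disjoint nonempty sets of vertices there is
one, `W`, with at least `x |W|` edges leaving it -/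
def MultiExp (k : ℕ) (x : ℝ) (G : BGraph) : Prop :=
  ∀ W : Fin k → Finset (Fin G.a ⊕ Fin G.b), (∀ i, (W i).Nonempty) →
    (∀ i j, i ≠ j → Disjoint (W i) (W j)) → ∃ i, x * (W i).card ≤ bdry G (W i)

/-- A machine that on input `(G, 1^t)` with `t ≥ 1` and `P G t` runs in time polynomial in the length
of the input and outputs a number within a factor `1 ± 1 / t` of the number of independent sets
of `G`. -/
def HasApx (P : BGraph → ℕ → Prop) : Prop :=
  ∃ f : {x : BGraph × ℕ // P x.1 x.2 ∧ 1 ≤ x.2} → List Bool,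
    Nonempty (Turing.TM2ComputableInPolyTime (α := {x : BGraph × ℕ // P x.1 x.2 ∧ 1 ≤ x.2})
      (αΓ := Bool) (βΓ := Bool) (fun x => inCode x.1.1 x.1.2) id f) ∧
    ∀ x, Good x.1.1 x.1.2 (f x)

/-- The randomised version: on input `(G, 1^t)` with `t ≥ 1` and `P G t`, followed by a string of
`m(length)` random bits, a machine outputs in polynomial time, for at least three quarters of these
strings, a number within a factor `1 ± 1 / t` of the number of independent sets of `G`. -/
def HasRApx (P : BGraph → ℕ → Prop) : Prop :=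
  ∃ (m : Polynomial ℕ) (f : BGraph → ℕ → List Bool → List Bool),
    Nonempty (Turing.TM2ComputableInPolyTime
      (α := {x : BGraph × ℕ × List Bool //
        P x.1 x.2.1 ∧ 1 ≤ x.2.1 ∧ x.2.2.length = m.eval (inCode x.1 x.2.1).length})
      (αΓ := Bool) (βΓ := Bool) (fun x => inCode x.1.1 x.1.2.1 ++ x.1.2.2) id
      (fun x => f x.1.1 x.1.2.1 x.1.2.2)) ∧
    ∀ G t, P G t → 1 ≤ t →
      3 * 2 ^ m.eval (inCode G t).length ≤
        4 * Nat.card {r : Fin (m.eval (inCode G t).length) → Bool //
          Good G t (f G t (List.ofFn r))}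

/-! ### Regular bipartite graphs on `range n` -/

/-- the number of pairs of adjacent vertices, the first in `A`, the second in `B` -/
def ed (adj : ℕ → ℕ → Bool) (A B : Finset ℕ) : ℕ := ∑ v ∈ A, dg adj B v

/-- `adj` is a `d`-regular bipartite graph on `range n`, with the sides `v < a` and `a ≤ v` of the same
size -/
structure RegBip (n a d : ℕ) (adj : ℕ → ℕ → Bool) : Prop where
  symm : ∀ u v, adj u v = adj v u
  bip : ∀ u v, adj u v = true → (u < a ↔ ¬ v < a)
  rng : ∀ u v, adj u v = true → v < n
  deg : ∀ v < n, dg adj (range n) v = d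
  two : n = 2 * a

/-- `k`-way expansion at least `κ` -/
def KW (n : ℕ) (adj : ℕ → ℕ → Bool) (k κ : ℕ) : Prop :=
  ∀ W : Fin k → Finset ℕ, (∀ i, (W i).Nonempty) → (∀ i, W i ⊆ range n) →
    (∀ i j, i ≠ j → Disjoint (W i) (W j)) → ∃ i, κ * (W i).card ≤ ed adj (W i) (range n \ W i)

/-- the part number `i` of the colouring `c` -/
def part (n : ℕ) (c : ℕ → ℕ) (i : ℕ) : Finset ℕ := (range n).filter (fun v => c v = i)

/-- a partition into fewer than `k + 1` parts with edge expansion at least `κ`, such that every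
vertex has at least `d / (2 k)` neighbours in its part -/
structure Parts (n k d κ : ℕ) (adj : ℕ → ℕ → Bool) (c : ℕ → ℕ) : Prop where
  lt : ∀ v, c v < k
  exp : ∀ i, ∀ S ⊆ part n c i,
    κ * min S.card (part n c i \ S).card ≤ ed adj S (part n c i \ S)
  deg : ∀ v < n, d ≤ 2 * k * dg adj (part n c (c v)) v

/-- the number of edges of the induced subgraph on `V` both of whose ends lie outside `S` -/
def eo (a : ℕ) (adj : ℕ → ℕ → Bool) (V S : Finset ℕ) : ℕ :=
  ed adj ((V.filter (fun v => v < a)) \ S) ((V.filter (fun v => ¬ v < a)) \ S)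

/-! ### Cells -/

/-- neighbours in `V` of the set `Z` -/
def nbd (adj : ℕ → ℕ → Bool) (V Z : Finset ℕ) : Finset ℕ :=
  V.filter (fun u => ∃ z ∈ Z, adj z u = true)

section cells

variable (a : ℕ) (adj : ℕ → ℕ → Bool) (V : Finset ℕ) (τ : Bool) (t1 t2 : ℕ) (Z J : Finset ℕ)

/-- vertices on the side `τ` with fewer than `t1` neighbours in `V` outside the neighbourhood
of `Z` -/
def cP : Finset ℕ :=
  V.filter (fun x => decide (x < a) = τ ∧ dg adj (V \ nbd adj V Z) x < t1)

/-- those without neighbours in `J` -/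
def cX : Finset ℕ := (cP a adj V τ t1 Z).filter (fun x => ∀ y ∈ J, adj x y = false)

/-- vertices on the other side outside the neighbourhood of `Z` with fewer than `t2` neighbours
in `cX` -/
def cY : Finset ℕ :=
  V.filter (fun y => decide (y < a) = !τ ∧ y ∉ nbd adj V Z ∧ dg adj (cX a adj V τ t1 Z J) y < t2)

/-- the cell of the data `(τ, Z, J)` in the part `V` -/
def cell : Finset ℕ := cX a adj V τ t1 Z J ∪ cY a adj V τ t1 t2 Z J

/-- admissible data: every vertex of the cell has at least `2 m` neighbours in `V` outside the cell,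
and `κ (|Z| + |J|) d ≤ 26 q² (e + d ν)` -/
structure AdmC (n d κ q m : ℕ) : Prop where
  light : ∀ v ∈ cell a adj V τ t1 t2 Z J, 2 * m ≤ dg adj (V \ cell a adj V τ t1 t2 Z J) v
  gain : κ * ((Z.card + J.card) * d) ≤ 26 * q ^ 2 *
    (eo a adj V (cell a adj V τ t1 t2 Z J) + d * nu n a adj (cell a adj V τ t1 t2 Z J))

end cells

/-- the union of the cells of all parts; the part `i` has the type `decide (i ∈ P)` -/
def gcell (n a k : ℕ) (adj : ℕ → ℕ → Bool) (c : ℕ → ℕ) (t1 t2 : ℕ) (P Z J : Finset ℕ) :
    Finset ℕ :=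
  (range k).biUnion (fun i => cell a adj (part n c i) (decide (i ∈ P)) t1 t2
    (Z ∩ part n c i) (J ∩ part n c i))

/-! ### Good independent sets -/

/-- the independent sets -/
def inds (n : ℕ) (adj : ℕ → ℕ → Bool) : Finset (Finset ℕ) :=
  (range n).powerset.filter (fun I => ∀ u ∈ I, ∀ v ∈ I, adj u v = false)

/-- the vertices on the left side of the parts `i ∈ P` and on the right side of the other parts -/
def pat (n a : ℕ) (c : ℕ → ℕ) (P : Finset ℕ) : Finset ℕ :=
  (range n).filter (fun v => decide (v < a) = decide (c v ∈ P))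

/-- some part meets `I` on both sides -/
def Mixed (a k : ℕ) (c : ℕ → ℕ) (I : Finset ℕ) : Prop :=
  ∃ i < k, (∃ u ∈ I, c u = i ∧ u < a) ∧ ∃ v ∈ I, c v = i ∧ ¬ v < a

/-- vertices that can be added to `S` -/
def fr (n : ℕ) (adj : ℕ → ℕ → Bool) (S : Finset ℕ) : Finset ℕ :=
  (range n).filter (fun v => (!decide (v ∈ S) && !decide (∃ u < n, (decide (u ∈ S) && adj u v) = true))
    = true)

/-- the largest size of an independent set containing the independent set `S` -/
def alp (n a : ℕ) (adj : ℕ → ℕ → Bool) (S : Finset ℕ) : ℕ :=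
  (S.card + (fr n adj S).card) - nu n a adj (fr n adj S)

/-- good independent sets -/
structure GoodI (n a k h X : ℕ) (adj : ℕ → ℕ → Bool) (c : ℕ → ℕ) (I : Finset ℕ) : Prop where
  sub : I ⊆ range n
  ind : ∀ u ∈ I, ∀ v ∈ I, adj u v = false
  ne : ∀ i < k, (part n c i).Nonempty → (I ∩ part n c i).Nonempty
  pure : ∃ P ⊆ range k, I ⊆ pat n a c P ∧ nu n a adj (pat n a c P) ≤ X
  big : a ≤ alp n a adj I + h

open Classical in
/-- bad independent sets -/
noncomputable def bads (n a k h X : ℕ) (adj : ℕ → ℕ → Bool) (c : ℕ → ℕ) : Finset (Finset ℕ) :=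
  (inds n adj).filter (fun I => ¬ GoodI n a k h X adj c I)

/-! ### The algorithm -/

section alg

variable (n a k d h X : ℕ) (adj : ℕ → ℕ → Bool)

/-- `insert v S` -/
def ins (v : ℕ) (S : Finset ℕ) : Finset ℕ :=
  (range n).filter (fun u => (decide (u = v) || decide (u ∈ S)) = true)

/-- vertices `v` for which `S ∪ {v}` lies in an independent set with at least `a - h` elements -/
def US (S : Finset ℕ) : Finset ℕ :=
  (range n).filter (fun v => (indB n adj (ins n v S) &&
    decide (a ≤ alp n a adj (ins n v S) + h)) = true)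

/-- the test -/
def passB (S : Finset ℕ) : Bool :=
  indB n adj S && (decide (a ≤ alp n a adj S + h) && decide (nu n a adj (US n a h adj S) ≤ X))

/-- vertices with fewer than `d / (4 k)` neighbours in `US S` -/
def Ub (S : Finset ℕ) : Finset ℕ :=
  (range n).filter (fun v => decide (dg adj (US n a h adj S) v < d / (4 * k)) = true)

/-- size of the symmetric difference -/
def sdc (S T : Finset ℕ) : ℕ :=
  ((range n).filter (fun v => (decide (v ∈ S) ^^ decide (v ∈ T)) = true)).card

/-- the tuple number `j` is the first of its class -/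
def repB (j : ℕ) : Bool :=
  passB n a h X adj (tup n k j) && !decide (∃ j' < j, (passB n a h X adj (tup n k j') &&
    decide (2 * k * sdc n (US n a h adj (tup n k j')) (US n a h adj (tup n k j)) ≤ d)) = true)

/-- the output -/
def outM (K : ℕ) : ℕ :=
  ∑ j ∈ range ((n + 1) ^ k), if repB n a k d h X adj j then
    leaf n adj K (Ub n a k d h adj (tup n k j)) else 0

end alg

end Pool.Agent.Lib.Pa7c826m
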