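import Pool.Agent.Lib.Pa7c826m.EdLem

/-!
Large independent sets and the parts.

PROOF. `alp_spec`, `alp_max`: `fr S` = vertices that can be added; an independent set `J ⊇ S` is `S ∪ (J \ S)` with
`J \ S ⊆ fr S` independent: `indep_nu`, `nu_indep` for `fr n adj S` (`fr` is defined with Booleans; `adj` symmetric, without loops because of
`bip`, all neighbours are `< n` by `rng`).
`reg_side` (r1, r2): `J` independent, `a ≤ |J| + hh`; `W := (J ∩ left) ∪ (right \ J)`. The edges between `W` and the rest are those with both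
ends outside `J` (`J` is independent): `ed W (range n \ W) = eo a adj (range n) J = d (a - |J|) ≤ d hh` (`eo_indep`). Inside the part `V` the
edges between `W ∩ V` and `V \ W` are among them, so `κ min(|W ∩ V|, |V \ W|) ≤ d hh`. Let `u ∈ J ∩ V`, say `u < a` (the other case is
symmetric): `u` and its at least `d/(2k)` neighbours in `V` lie in `W ∩ V`; so `|W ∩ V| > d/(2k)` (as reals) and, because
`κ d/(2k) > d hh` (`2 k hh < κ`), the minimum is `|V \ W|`: `κ |V \ W| ≤ d hh`. A vertex `v ∈ J ∩ V` on the right lies with its `d/(2k)`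
neighbours in `V \ W`: impossible. And `(left ∩ V) \ J ⊆ V \ W`.
`reg_meets`: `V ≠ ∅` and `J ∩ V = ∅`: then `V ∩ W` = right side, `V \ W` = left side of `V`, both with at least `d/(2k)` elements: contradiction to
`κ min ≤ d hh`.
-/

namespace Pool.Agent.Lib.Pa7c826m

open Finset Pool.Agent.Lib.Pa7c826 Pool.Agent.Lib.Pa7c826t

variable {n a d k κ : ℕ} {adj : ℕ → ℕ → Bool} {c : ℕ → ℕ}

namespace RegionAux

theorem mem_fr {S : Finset ℕ} {v : ℕ} :
    v ∈ fr n adj S ↔ v < n ∧ v ∉ S ∧ ∀ u < n, u ∈ S → adj u v = false := by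
  unfold fr
  rw [mem_filter, mem_range, Bool.and_eq_true, Bool.not_eq_true', Bool.not_eq_true',
    decide_eq_false_iff_not, decide_eq_false_iff_not]
  constructor
  · rintro ⟨h1, h2, h3⟩
    refine ⟨h1, h2, fun u hu huS => ?_⟩
    by_contra hc
    apply h3
    refine ⟨u, hu, ?_⟩
    rw [Bool.and_eq_true]
    exact ⟨decide_eq_true huS, by simpa using hc⟩
  · rintro ⟨h1, h2, h3⟩
    refine ⟨h1, h2, ?_⟩
    rintro ⟨u, hu, h4⟩
    rw [Bool.and_eq_true] at h4
    have h5 := h3 u hu (of_decide_eq_true h4.1)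
    rw [h5] at h4
    exact absurd h4.2 (by simp)

theorem fr_sub (S : Finset ℕ) : fr n adj S ⊆ range n := filter_subset _ _

/-- the vertices of `V` on the side of the region -/
def sd (a : ℕ) (V J : Finset ℕ) (τ : Bool) : Finset ℕ :=
  V.filter (fun v => (decide (v < a) = τ) ↔ v ∈ J)

theorem mem_sd {V J : Finset ℕ} {τ : Bool} {v : ℕ} :
    v ∈ sd a V J τ ↔ v ∈ V ∧ ((decide (v < a) = τ) ↔ v ∈ J) := by
  unfold sd; rw [mem_filter]

theorem mem_part {i v : ℕ} : v ∈ part n c i ↔ v < n ∧ c v = i := by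
  unfold part; rw [mem_filter, mem_range]

theorem part_sub (i : ℕ) : part n c i ⊆ range n := filter_subset _ _

theorem side_of_adj (h : RegBip n a d adj) {u v : ℕ} (huv : adj u v = true) :
    decide (v < a) = !decide (u < a) := by
  have := h.bip u v huv
  by_cases h1 : u < a <;> by_cases h2 : v < a <;> simp_all

theorem ed_cut (h : RegBip n a d adj) {J V : Finset ℕ} (hV : V ⊆ range n)
    (hI : ∀ u ∈ J, ∀ v ∈ J, adj u v = false) (τ : Bool) :
    ed adj (sd a V J τ) (V \ sd a V J τ) ≤
      ed adj (((range n).filter (fun v => decide (v < a) = !τ)) \ J)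
        (((range n).filter (fun v => decide (v < a) = τ)) \ J) := by
  classical
  unfold ed
  set T := ((range n).filter (fun v => decide (v < a) = τ)) \ J with hT
  have h1 : ∀ u ∈ sd a V J τ, dg adj (V \ sd a V J τ) u ≤
      if decide (u < a) = !τ then dg adj T u else 0 := by
    intro u hu
    rw [mem_sd] at hu
    split_ifs with hs
    · unfold dg
      apply card_le_card
      intro v hv
      rw [mem_filter, mem_sdiff, mem_sd] at hv
      obtain ⟨⟨hvV, hvn⟩, huv⟩ := hv
      have hside := side_of_adj h huv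
      rw [hs, Bool.not_not] at hside
      have hvJ : v ∉ J := by
        intro hvJ
        exact hvn ⟨hvV, ⟨fun _ => hvJ, fun _ => hside⟩⟩
      rw [mem_filter, hT, mem_sdiff, mem_filter]
      exact ⟨⟨⟨hV hvV, hside⟩, hvJ⟩, huv⟩
    · have hs' : decide (u < a) = τ := by
        cases τ <;> simp_all
      have huJ : u ∈ J := hu.2.mp hs'
      apply le_of_eq
      unfold dg
      rw [card_eq_zero, filter_eq_empty_iff]
      intro v hv huv
      rw [mem_sdiff, mem_sd] at hv
      have hside := side_of_adj h huv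
      rw [hs'] at hside
      apply hv.2
      refine ⟨hv.1, ?_⟩
      constructor
      · intro h2
        rw [hside] at h2
        cases τ <;> simp_all
      · intro hvJ
        have := hI u huJ v hvJ
        rw [this] at huv
        exact absurd huv (by simp)
  refine (sum_le_sum h1).trans ?_
  rw [← sum_filter]
  apply sum_le_sum_of_subset
  intro u hu
  rw [mem_filter, mem_sd] at hu
  obtain ⟨⟨huV, huJ⟩, hs⟩ := hu
  rw [mem_sdiff, mem_filter]
  refine ⟨⟨hV huV, hs⟩, fun hJu => ?_⟩
  have := huJ.mpr hJu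
  rw [hs] at this
  cases τ <;> simp_all

theorem cut (h : RegBip n a d adj) (hP : Parts n k d κ adj c)
    {J : Finset ℕ} {hh : ℕ} (hJ : J ⊆ range n) (hI : ∀ u ∈ J, ∀ v ∈ J, adj u v = false)
    (hbig : a ≤ J.card + hh) (i : ℕ) (τ : Bool) :
    κ * min (sd a (part n c i) J τ).card (part n c i \ sd a (part n c i) J τ).card ≤ d * hh := by
  refine (hP.exp i _ (filter_subset _ _)).trans ?_
  refine (ed_cut h (part_sub i) hI τ).trans ?_
  have he := eo_indep h hJ hI
  have h2 : eo a adj (range n) J ≤ d * hh := by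
    have h3 : d * a ≤ d * (J.card + hh) := Nat.mul_le_mul_left d hbig
    rw [Nat.mul_add] at h3
    omega
  refine le_trans (le_of_eq ?_) h2
  unfold eo
  have e1 : (range n).filter (fun v => decide (v < a) = true) = (range n).filter (fun v => v < a) :=
    filter_congr fun v _ => by simp
  have e2 : (range n).filter (fun v => decide (v < a) = false) =
      (range n).filter (fun v => ¬ v < a) :=
    filter_congr fun v _ => by simp
  cases τ
  · rw [Bool.not_false, e1, e2]
  · rw [Bool.not_true, e1, e2, ed_comm h.symm]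

theorem small {x y : ℕ} (hd : 0 < d) (hκ : 2 * k * y < κ) (hx : d ≤ 2 * k * x)
    (h : κ * x ≤ d * y) : False := by
  have h1 : κ * d ≤ κ * (2 * k * x) := Nat.mul_le_mul_left κ hx
  have h2 : 2 * k * (κ * x) ≤ 2 * k * (d * y) := Nat.mul_le_mul_left _ h
  have h3 : κ * (2 * k * x) = 2 * k * (κ * x) := by ring
  have h4 : 2 * k * (d * y) = (2 * k * y) * d := by ring
  have h5 : (2 * k * y) * d < κ * d := Nat.mul_lt_mul_of_pos_right hκ hd
  omega

/-- a vertex of `J` and its neighbours lie on its side of the region -/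
theorem nb_side (h : RegBip n a d adj) (hP : Parts n k d κ adj c)
    {J : Finset ℕ} (hJ : J ⊆ range n) (hI : ∀ u ∈ J, ∀ v ∈ J, adj u v = false)
    {u : ℕ} (hu : u ∈ J) (T : Finset ℕ)
    (hT : ∀ v ∈ part n c (c u), decide (v < a) = !decide (u < a) → v ∉ J → v ∈ T) :
    d ≤ 2 * k * T.card := by
  refine (hP.deg u (mem_range.mp (hJ hu))).trans (Nat.mul_le_mul_left _ ?_)
  unfold dg
  apply card_le_card
  intro v hv
  rw [mem_filter] at hv
  refine hT v hv.1 (side_of_adj h hv.2) (fun hvJ => ?_)
  have := hI u hu v hvJ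
  rw [this] at hv
  exact absurd hv.2 (by simp)

theorem core (h : RegBip n a d adj) (hP : Parts n k d κ adj c) (hd : 0 < d)
    {J : Finset ℕ} {hh : ℕ} (hJ : J ⊆ range n) (hI : ∀ u ∈ J, ∀ v ∈ J, adj u v = false)
    (hbig : a ≤ J.card + hh) (hκ : 2 * k * hh < κ) {u : ℕ} (hu : u ∈ J) :
    κ * (part n c (c u) \ sd a (part n c (c u)) J (decide (u < a))).card ≤ d * hh := by
  have hc := cut h hP hJ hI hbig (c u) (decide (u < a))
  rcases le_total (sd a (part n c (c u)) J (decide (u < a))).card
    (part n c (c u) \ sd a (part n c (c u)) J (decide (u < a))).card with hle | hle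
  · rw [min_eq_left hle] at hc
    exfalso
    refine small hd hκ ?_ hc
    apply nb_side h hP hJ hI hu
    intro v hv hs hvJ
    rw [mem_sd]
    refine ⟨hv, ?_⟩
    constructor
    · intro h2
      rw [hs] at h2
      cases hdec : decide (u < a) <;> simp_all
    · intro h2
      exact absurd h2 hvJ
  · rwa [min_eq_right hle] at hc

end RegionAux

open RegionAux

/-- a largest independent set containing `S` -/
theorem alp_spec (h : RegBip n a d adj) {S : Finset ℕ} (hS : S ⊆ range n)
    (hI : ∀ u ∈ S, ∀ v ∈ S, adj u v = false) :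
    ∃ J, S ⊆ J ∧ J ⊆ range n ∧ (∀ u ∈ J, ∀ v ∈ J, adj u v = false) ∧
      J.card = alp n a adj S := by
  obtain ⟨J₀, hJ₀, hc, hI₀⟩ := nu_indep (fr_sub (n := n) (adj := adj) S) h.symm h.bip
  have hdis : Disjoint S J₀ := by
    rw [Finset.disjoint_left]
    intro v hv hv'
    exact (mem_fr.mp (hJ₀ hv')).2.1 hv
  refine ⟨S ∪ J₀, subset_union_left, union_subset hS (hJ₀.trans (fr_sub S)), ?_, ?_⟩
  · intro u hu v hv
    rw [mem_union] at hu hv
    rcases hu with hu | hu <;> rcases hv with hv | hv
    · exact hI u hu v hv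
    · exact (mem_fr.mp (hJ₀ hv)).2.2 u (mem_range.mp (hS hu)) hu
    · rw [h.symm]
      exact (mem_fr.mp (hJ₀ hu)).2.2 v (mem_range.mp (hS hv)) hv
    · exact hI₀ u hu v hv
  · rw [card_union_of_disjoint hdis]
    unfold alp
    omega

theorem alp_max (h : RegBip n a d adj) {S J : Finset ℕ} (hSJ : S ⊆ J) (hJ : J ⊆ range n)
    (hI : ∀ u ∈ J, ∀ v ∈ J, adj u v = false) : J.card ≤ alp n a adj S := by
  have h1 : J \ S ⊆ fr n adj S := by
    intro v hv
    rw [mem_sdiff] at hv
    exact mem_fr.mpr ⟨mem_range.mp (hJ hv.1), hv.2, fun u _ huS => hI u (hSJ huS) v hv.1⟩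
  have h2 := indep_nu (fr_sub (n := n) (adj := adj) S) h.symm h.bip h1
    (fun u hu v hv => hI u (mem_sdiff.mp hu).1 v (mem_sdiff.mp hv).1)
  have h3 := card_sdiff_add_card_eq_card hSJ
  unfold alp
  omega

theorem alp_anti (h : RegBip n a d adj) {S T : Finset ℕ} (hST : S ⊆ T) (hT : T ⊆ range n)
    (hI : ∀ u ∈ T, ∀ v ∈ T, adj u v = false) : alp n a adj T ≤ alp n a adj S := by
  obtain ⟨J, hTJ, hJ, hIJ, hc⟩ := alp_spec h hT hI
  rw [← hc]
  exact alp_max h (hST.trans hTJ) hJ hIJ

theorem part_side (h : RegBip n a d adj) (hP : Parts n k d κ adj c) (hk : 2 ≤ k) (hd : 0 < d)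
    {i : ℕ} (hi : (part n c i).Nonempty) (τ : Bool) :
    d ≤ 2 * k * ((part n c i).filter (fun v => decide (v < a) = τ)).card := by
  -- a vertex of the part on the other side
  have key : ∀ x ∈ part n c i, decide (x < a) = !τ →
      d ≤ 2 * k * ((part n c i).filter (fun v => decide (v < a) = τ)).card := by
    intro x hx hs
    rw [mem_part] at hx
    have h1 := hP.deg x hx.1
    rw [hx.2, dg_sides h (!τ) hs, Bool.not_not] at h1
    refine h1.trans (Nat.mul_le_mul_left _ ?_)
    unfold dg
    exact card_filter_le _ _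
  obtain ⟨x, hx⟩ := hi
  by_cases hs : decide (x < a) = !τ
  · exact key x hx hs
  · have hs' : decide (x < a) = τ := by cases τ <;> simp_all
    have hx' := mem_part.mp hx
    have h1 := hP.deg x hx'.1
    rw [hx'.2] at h1
    have h2 : 0 < dg adj (part n c i) x := by
      rcases Nat.eq_zero_or_pos (dg adj (part n c i) x) with h0 | h0
      · rw [h0] at h1; omega
      · exact h0
    unfold dg at h2
    obtain ⟨y, hy⟩ := card_pos.mp h2
    rw [mem_filter] at hy
    refine key y hy.1 ?_
    rw [side_of_adj h hy.2, hs']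

theorem reg_side (h : RegBip n a d adj) (hP : Parts n k d κ adj c) (hk : 2 ≤ k) (hd : 0 < d)
    {J : Finset ℕ} {hh : ℕ} (hJ : J ⊆ range n) (hI : ∀ u ∈ J, ∀ v ∈ J, adj u v = false)
    (hbig : a ≤ J.card + hh) (hκ : 2 * k * hh < κ) {u : ℕ} (hu : u ∈ J) :
    (∀ v ∈ J, c v = c u → (v < a ↔ u < a)) ∧
      κ * ((part n c (c u)).filter (fun v => decide (v < a) = decide (u < a)) \ J).card ≤
        d * hh := by
  have hcore := core h hP hd hJ hI hbig hκ hu
  constructor
  · intro v hv hcv
    by_contra hne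
    have hs : decide (v < a) = !decide (u < a) := by
      by_cases h1 : u < a <;> by_cases h2 : v < a <;> simp_all
    refine small hd hκ ?_ hcore
    apply nb_side h hP hJ hI hv
    intro w hw hws hwJ
    rw [hcv] at hw
    rw [mem_sdiff, mem_sd]
    refine ⟨hw, fun hc => ?_⟩
    apply hwJ
    apply hc.2.mp
    rw [hws, hs, Bool.not_not]
  · refine le_trans (Nat.mul_le_mul_left κ (card_le_card ?_)) hcore
    intro v hv
    rw [mem_sdiff, mem_filter] at hv
    rw [mem_sdiff, mem_sd]
    exact ⟨hv.1.1, fun hc => hv.2 (hc.2.mp hv.1.2)⟩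

theorem reg_meets (h : RegBip n a d adj) (hP : Parts n k d κ adj c) (hk : 2 ≤ k) (hd : 0 < d)
    {J : Finset ℕ} {hh : ℕ} (hJ : J ⊆ range n) (hI : ∀ u ∈ J, ∀ v ∈ J, adj u v = false)
    (hbig : a ≤ J.card + hh) (hκ : 2 * k * hh < κ) {i : ℕ} (hi : (part n c i).Nonempty) :
    (J ∩ part n c i).Nonempty := by
  by_contra hne
  rw [not_nonempty_iff_eq_empty] at hne
  have hnJ : ∀ v ∈ part n c i, v ∉ J := by
    intro v hv hvJ
    have : v ∈ J ∩ part n c i := mem_inter.mpr ⟨hvJ, hv⟩
    rw [hne] at this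
    exact absurd this (notMem_empty v)
  have hc := cut h hP hJ hI hbig i true
  have e1 : sd a (part n c i) J true = (part n c i).filter (fun v => decide (v < a) = false) := by
    ext v
    rw [mem_sd, mem_filter]
    constructor
    · rintro ⟨hv, h2⟩
      refine ⟨hv, ?_⟩
      have := hnJ v hv
      by_contra h3
      exact this (h2.mp (by simpa using h3))
    · rintro ⟨hv, h2⟩
      refine ⟨hv, ?_⟩
      rw [h2]
      constructor
      · intro h3; exact absurd h3 (by simp)
      · intro h3; exact absurd h3 (hnJ v hv)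
  have e2 : part n c i \ sd a (part n c i) J true =
      (part n c i).filter (fun v => decide (v < a) = true) := by
    rw [e1]
    ext v
    rw [mem_sdiff, mem_filter, mem_filter]
    constructor
    · rintro ⟨hv, h2⟩
      refine ⟨hv, ?_⟩
      by_contra h3
      exact h2 ⟨hv, by simpa using h3⟩
    · rintro ⟨hv, h2⟩
      refine ⟨hv, fun h3 => ?_⟩
      rw [h2] at h3
      exact absurd h3.2 (by simp)
  rw [e2, e1] at hc
  rcases le_total ((part n c i).filter (fun v => decide (v < a) = false)).card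
    ((part n c i).filter (fun v => decide (v < a) = true)).card with hle | hle
  · rw [min_eq_left hle] at hc
    exact small hd hκ (part_side h hP hk hd hi false) hc
  · rw [min_eq_right hle] at hc
    exact small hd hκ (part_side h hP hk hd hi true) hc

end Pool.Agent.Lib.Pa7c826m
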