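import Pool.Agent.Lib.Pa7c826m.NuLem
import Pool.Agent.Lib.Pa7c826m.Region

/-!
The sets `US S` of passing `S`.

PROOF. `Cnd`: `40 k³ h < κ`, so `κ s ≤ d h` implies `40 k³ s ≤ d` (`cnd_small`; `h = 0` gives `s = 0`), in particular
`2 k h < κ`.
`us_mem`: for `v ∈ US S` there is an independent `J ⊇ S ∪ {v}` with `a ≤ |J| + h` (`alp_spec` for `ins n v S`; `indB` is the independence
test, see `indB` in `Pa7c826/Leaf.lean`), and `J ⊆ US S` (`alp_anti`).
`pass_pat` (r3): let `S` pass. `alp_spec` for `S`: `J0 ⊇ S`, `J0 ⊆ US S`, `J0` meets every nonempty part (`reg_meets`). Suppose `u, v ∈ US S` lie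
in the same part `V`, `u < a`, `¬ v < a`; take `J_u ∋ u`, `J_v ∋ v` as in `us_mem`: `US S ⊇ J_u` misses at most `s` vertices of the left
side of `V`, `40 k³ s ≤ d` (`reg_side`), and at most `s` of the right side. So the number of edges between `US ∩ V ∩ left` and
`US ∩ V ∩ right` is at least `|left side| d/(2k) - 2 s d ≥ d²/(4k²) - d²/(20 k³) > d X` (`8 k² X < d`), but it is at most
`d nu (US S) ≤ d X` (`nu_edges`). Contradiction. So every part is met on one side only, the side of `lpat`, and the missing set is small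
(`reg_side` for an element of `J0` in this part).
`us_close`, `us_far` (r4): same `lpat`: in every part the symmetric difference has at most `2 s` elements, altogether at most
`2 k d / (40 k³)`. Different: in some part `i` (nonempty) `US S` has all but `s` of one side, `US T` all but `s` of the other side, each side
has at least `d / (2k)` elements (`part_side`).
`ub_pat` (r5): `v ∈ Ub S` on the wrong side of its part `V`: its neighbours in `V` are on the right side, at least `d / (2 k) - s` of them lie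
in `US S`; this is at least `d / (4 k)`.
-/

namespace Pool.Agent.Lib.Pa7c826m

open Finset Pool.Agent.Lib.Pa7c826 Pool.Agent.Lib.Pa7c826t Pool.Agent.Lib.Pa7c826y

/-- conditions on the parameters -/
structure Cnd (k d κ h X : ℕ) : Prop where
  hk : 2 ≤ k
  hd : 400 * k ≤ d
  hκ : 40 * k ^ 3 * h < κ
  hX : 8 * k ^ 2 * X < d

/-- the parts in which `S` has a left vertex -/
def lpat (k a : ℕ) (c : ℕ → ℕ) (S : Finset ℕ) : Finset ℕ :=
  (range k).filter (fun i => ∃ v ∈ S, c v = i ∧ v < a)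

variable {n a d k κ h X : ℕ} {adj : ℕ → ℕ → Bool} {c : ℕ → ℕ}

theorem cnd_small (hC : Cnd k d κ h X) {s : ℕ} (hs : κ * s ≤ d * h) : 40 * k ^ 3 * s ≤ d := by
  by_contra hcon
  push Not at hcon
  have h1 := hC.hκ
  have hs0 : 0 < s := by
    rcases Nat.eq_zero_or_pos s with h0 | h0
    · rw [h0, Nat.mul_zero] at hcon
      omega
    · exact h0
  have h2 : (40 * k ^ 3 * h + 1) * s ≤ κ * s := Nat.mul_le_mul_right _ h1
  have h3 : (d + 1) * h ≤ 40 * k ^ 3 * s * h := Nat.mul_le_mul_right _ hcon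
  have h4 : (40 * k ^ 3 * h + 1) * s = 40 * k ^ 3 * s * h + s := by ring
  have h5 : (d + 1) * h = d * h + h := by ring
  omega

namespace AlgAAux

theorem ins_sub {S J : Finset ℕ} {v : ℕ} (hSJ : S ⊆ J) (hv : v ∈ J) : ins n v S ⊆ J := by
  intro u hu
  unfold ins at hu
  rw [mem_filter, Bool.or_eq_true, decide_eq_true_eq, decide_eq_true_eq] at hu
  rcases hu.2 with h1 | h1
  · rw [h1]
    exact hv
  · exact hSJ h1

theorem sub_ins {S : Finset ℕ} (hS : S ⊆ range n) (v : ℕ) : S ⊆ ins n v S := by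
  intro u hu
  unfold ins
  rw [mem_filter, Bool.or_eq_true, decide_eq_true_eq, decide_eq_true_eq]
  exact ⟨hS hu, Or.inr hu⟩

theorem mem_ins {S : Finset ℕ} {v : ℕ} (hv : v < n) : v ∈ ins n v S := by
  unfold ins
  rw [mem_filter, Bool.or_eq_true, decide_eq_true_eq, decide_eq_true_eq]
  exact ⟨mem_range.2 hv, Or.inl rfl⟩

theorem ins_range {S : Finset ℕ} (v : ℕ) : ins n v S ⊆ range n := filter_subset _ _

theorem mem_US {S : Finset ℕ} {v : ℕ} : v ∈ US n a h adj S ↔ v < n ∧
    indB n adj (ins n v S) = true ∧ a ≤ alp n a adj (ins n v S) + h := by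
  unfold US
  rw [mem_filter, Bool.and_eq_true, decide_eq_true_eq, mem_range]

theorem US_range (S : Finset ℕ) : US n a h adj S ⊆ range n := filter_subset _ _

/-- an independent set with at least `a - h` elements containing `S` lies in `US S` -/
theorem sub_us' (hR : RegBip n a d adj) {S J : Finset ℕ} (hSJ : S ⊆ J) (hJ : J ⊆ range n)
    (hI : ∀ x ∈ J, ∀ y ∈ J, adj x y = false) (hbig : a ≤ J.card + h) : J ⊆ US n a h adj S := by
  intro x hx
  rw [mem_US]
  have h1 : ins n x S ⊆ J := ins_sub hSJ hx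
  refine ⟨mem_range.1 (hJ hx), ?_, ?_⟩
  · rw [indB_iff (ins_range x)]
    exact fun u hu v hv => hI u (h1 hu) v (h1 hv)
  · have := alp_max hR h1 hJ hI
    omega

theorem two_k (hC : Cnd k d κ h X) : 2 * k * h < κ := by
  have h1 := hC.hκ
  have hk := hC.hk
  have h2 : 2 * k * h ≤ 40 * k ^ 3 * h := by
    apply Nat.mul_le_mul_right
    calc 2 * k = 2 * k * 1 := by ring
      _ ≤ 2 * k * (20 * k ^ 2) := Nat.mul_le_mul_left _ (by nlinarith)
      _ = 40 * k ^ 3 := by ring
  omega

theorem d_pos (hC : Cnd k d κ h X) : 0 < d := by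
  have h1 := hC.hd
  have hk := hC.hk
  nlinarith

theorem pass_iff {S : Finset ℕ} (hS : S ⊆ range n) (hp : passB n a h X adj S = true) :
    (∀ u ∈ S, ∀ v ∈ S, adj u v = false) ∧ a ≤ alp n a adj S + h ∧
      nu n a adj (US n a h adj S) ≤ X := by
  unfold passB at hp
  rw [Bool.and_eq_true, Bool.and_eq_true, decide_eq_true_eq, decide_eq_true_eq, indB_iff hS] at hp
  exact hp

theorem exists_J0 (hR : RegBip n a d adj) {S : Finset ℕ} (hS : S ⊆ range n)
    (hp : passB n a h X adj S = true) :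
    ∃ J, J ⊆ US n a h adj S ∧ J ⊆ range n ∧ (∀ x ∈ J, ∀ y ∈ J, adj x y = false) ∧
      a ≤ J.card + h := by
  obtain ⟨h1, h2, -⟩ := pass_iff hS hp
  obtain ⟨J, g1, g2, g3, g4⟩ := alp_spec hR hS h1
  have g5 : a ≤ J.card + h := by rw [g4]; exact h2
  exact ⟨J, sub_us' hR g1 g2 g3 g5, g2, g3, g5⟩

end AlgAAux

open AlgAAux

theorem us_mem (hR : RegBip n a d adj) {S : Finset ℕ} (hS : S ⊆ range n) {v : ℕ}
    (hv : v ∈ US n a h adj S) :
    ∃ J, S ⊆ J ∧ v ∈ J ∧ J ⊆ US n a h adj S ∧ J ⊆ range n ∧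
      (∀ x ∈ J, ∀ y ∈ J, adj x y = false) ∧ a ≤ J.card + h := by
  rw [mem_US] at hv
  obtain ⟨h1, h2, h3⟩ := hv
  rw [indB_iff (ins_range v)] at h2
  obtain ⟨J, g1, g2, g3, g4⟩ := alp_spec hR (ins_range v) h2
  have g5 : a ≤ J.card + h := by rw [g4]; exact h3
  have g6 : S ⊆ J := (sub_ins hS v).trans g1
  exact ⟨J, g6, g1 (mem_ins h1), sub_us' hR g6 g2 g3 g5, g2, g3, g5⟩

/-- an independent set with at least `a - h` elements that contains `S` lies in `US S` -/
theorem sub_us (hR : RegBip n a d adj) {S J : Finset ℕ} (hSJ : S ⊆ J) (hJ : J ⊆ range n)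
    (hI : ∀ x ∈ J, ∀ y ∈ J, adj x y = false) (hbig : a ≤ alp n a adj J + h) :
    J ⊆ US n a h adj S := by
  intro x hx
  rw [mem_US]
  have h1 : ins n x S ⊆ J := ins_sub hSJ hx
  refine ⟨mem_range.1 (hJ hx), ?_, ?_⟩
  · rw [indB_iff (ins_range x)]
    exact fun u hu v hv => hI u (h1 hu) v (h1 hv)
  · have := alp_anti hR h1 hJ hI
    omega

namespace AlgAAux

theorem mem_part {i v : ℕ} : v ∈ part n c i ↔ v < n ∧ c v = i := by
  unfold part
  rw [mem_filter, mem_range]

theorem dg_union {A B : Finset ℕ} (hd : Disjoint A B) (v : ℕ) :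
    dg adj (A ∪ B) v = dg adj A v + dg adj B v := by
  unfold dg
  rw [filter_union, card_union_of_disjoint (disjoint_filter_filter hd)]

theorem dg_le_card (A : Finset ℕ) (v : ℕ) : dg adj A v ≤ A.card := card_filter_le _ _

/-- the edges between the two sides of a part -/
theorem part_edges (hR : RegBip n a d adj) (hP : Parts n k d κ adj c) (i : ℕ) :
    d * ((part n c i).filter (fun v => decide (v < a) = true)).card ≤
      2 * k * ed adj ((part n c i).filter (fun v => decide (v < a) = true))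
        ((part n c i).filter (fun v => decide (v < a) = false)) := by
  unfold ed
  rw [Finset.mul_sum, mul_comm, ← smul_eq_mul, ← Finset.sum_const]
  apply Finset.sum_le_sum
  intro v hv
  rw [mem_filter, mem_part] at hv
  obtain ⟨⟨h1, h2⟩, h3⟩ := hv
  have h4 := hP.deg v h1
  rw [h2, dg_sides hR (S := part n c i) true h3] at h4
  exact h4

/-- no part is met on both sides -/
theorem not_mixed (hR : RegBip n a d adj) (hP : Parts n k d κ adj c) (hC : Cnd k d κ h X)
    {S : Finset ℕ} (hS : S ⊆ range n) (hp : passB n a h X adj S = true) {u v : ℕ}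
    (hu : u ∈ US n a h adj S) (hv : v ∈ US n a h adj S) (huv : c u = c v) (hua : u < a)
    (hva : ¬ v < a) : False := by
  have hk := hC.hk
  have hd := d_pos hC
  obtain ⟨i, hi⟩ : ∃ i, i = c u := ⟨_, rfl⟩
  obtain ⟨A, hA⟩ : ∃ A, A = (part n c i).filter (fun w => decide (w < a) = true) := ⟨_, rfl⟩
  obtain ⟨B, hB⟩ : ∃ B, B = (part n c i).filter (fun w => decide (w < a) = false) := ⟨_, rfl⟩
  obtain ⟨U, hU⟩ : ∃ U, U = US n a h adj S := ⟨_, rfl⟩
  have hUr : U ⊆ range n := by rw [hU]; exact US_range S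
  have hAr : A ⊆ range n := by
    rw [hA]
    exact (filter_subset _ _).trans (filter_subset _ _)
  have hBr : B ⊆ range n := by
    rw [hB]
    exact (filter_subset _ _).trans (filter_subset _ _)
  -- the missing sets are small
  have hs1 : 40 * k ^ 3 * (A \ U).card ≤ d := by
    obtain ⟨J, _, g2, g3, g4, g5, g6⟩ := us_mem hR hS hu
    have h1 := (reg_side hR hP hk hd g4 g5 g6 (two_k hC) g2).2
    rw [← hi] at h1
    have h2 : decide (u < a) = true := decide_eq_true hua
    rw [h2, ← hA] at h1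
    refine le_trans (Nat.mul_le_mul_left _ (card_le_card ?_)) (cnd_small hC h1)
    rw [hU]
    exact sdiff_subset_sdiff (Subset.refl _) g3
  have hs2 : 40 * k ^ 3 * (B \ U).card ≤ d := by
    obtain ⟨J, _, g2, g3, g4, g5, g6⟩ := us_mem hR hS hv
    have h1 := (reg_side hR hP hk hd g4 g5 g6 (two_k hC) g2).2
    rw [← huv, ← hi] at h1
    have h2 : decide (v < a) = false := decide_eq_false hva
    rw [h2, ← hB] at h1
    refine le_trans (Nat.mul_le_mul_left _ (card_le_card ?_)) (cnd_small hC h1)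
    rw [hU]
    exact sdiff_subset_sdiff (Subset.refl _) g3
  -- many edges
  have hne : (part n c i).Nonempty := by
    refine ⟨u, mem_part.2 ⟨?_, hi.symm⟩⟩
    exact mem_range.1 (US_range S hu)
  have e1 := part_edges (c := c) hR hP i
  rw [← hA, ← hB] at e1
  have e2 := part_side hR hP hk hd hne true
  rw [← hA] at e2
  have e3 : ed adj A B ≤ ed adj (A ∩ U) (B ∩ U) + d * (A \ U).card + d * (B \ U).card := by
    have a1 : ed adj A B = ed adj (A ∩ U) B + ed adj (A \ U) B := by
      rw [← ed_union_left]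
      · congr 1
        rw [union_comm, sdiff_union_inter]
      · exact (disjoint_sdiff_inter A U).symm
    have a2 : ed adj (A ∩ U) B = ed adj (A ∩ U) (B ∩ U) + ed adj (A ∩ U) (B \ U) := by
      rw [← ed_union_right]
      · congr 1
        rw [union_comm, sdiff_union_inter]
      · exact (disjoint_sdiff_inter B U).symm
    have a3 : ed adj (A \ U) B ≤ d * (A \ U).card :=
      ed_le_mul hR (sdiff_subset.trans hAr) hBr
    have a4 : ed adj (A ∩ U) (B \ U) ≤ d * (B \ U).card :=
      ed_le_mul' hR (inter_subset_left.trans hAr) (sdiff_subset.trans hBr)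
    omega
  have e4 : ed adj (A ∩ U) (B ∩ U) ≤ d * X := by
    have a1 := nu_edges hR (S := U) (X := A ∩ U) (Y := B ∩ U) hUr inter_subset_right
      inter_subset_right (by
        intro w hw
        rw [hA, mem_inter, mem_filter] at hw
        exact of_decide_eq_true hw.1.2) (by
        intro w hw
        rw [hB, mem_inter, mem_filter] at hw
        exact of_decide_eq_false hw.1.2)
    refine a1.trans (Nat.mul_le_mul_left _ ?_)
    rw [hU]
    exact (pass_iff hS hp).2.2
  -- contradiction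
  obtain ⟨s1, hs1'⟩ : ∃ s, s = (A \ U).card := ⟨_, rfl⟩
  obtain ⟨s2, hs2'⟩ : ∃ s, s = (B \ U).card := ⟨_, rfl⟩
  obtain ⟨E, hE⟩ : ∃ E, E = ed adj A B := ⟨_, rfl⟩
  obtain ⟨E', hE'⟩ : ∃ E', E' = ed adj (A ∩ U) (B ∩ U) := ⟨_, rfl⟩
  obtain ⟨m, hm⟩ : ∃ m, m = A.card := ⟨_, rfl⟩
  rw [← hs1'] at hs1 e3
  rw [← hs2'] at hs2 e3
  rw [← hE] at e1 e3
  rw [← hE'] at e3 e4
  rw [← hm] at e1 e2
  have f1 : d * d ≤ 4 * k ^ 2 * E := by
    calc d * d ≤ d * (2 * k * m) := Nat.mul_le_mul_left _ e2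
      _ = 2 * k * (d * m) := by ring
      _ ≤ 2 * k * (2 * k * E) := Nat.mul_le_mul_left _ e1
      _ = 4 * k ^ 2 * E := by ring
  have f2 : E ≤ d * (X + s1 + s2) := by
    calc E ≤ d * X + d * s1 + d * s2 := by omega
      _ = d * (X + s1 + s2) := by ring
  have f3 : d * d ≤ d * (4 * k ^ 2 * (X + s1 + s2)) := by
    calc d * d ≤ 4 * k ^ 2 * E := f1
      _ ≤ 4 * k ^ 2 * (d * (X + s1 + s2)) := Nat.mul_le_mul_left _ f2
      _ = d * (4 * k ^ 2 * (X + s1 + s2)) := by ring
  have f4 : d ≤ 4 * k ^ 2 * (X + s1 + s2) := Nat.le_of_mul_le_mul_left f3 hd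
  have f5 := hC.hX
  have f6 : 10 * k * d ≤ 5 * k * (8 * k ^ 2 * X) + (40 * k ^ 3 * s1 + 40 * k ^ 3 * s2) := by
    calc 10 * k * d ≤ 10 * k * (4 * k ^ 2 * (X + s1 + s2)) := Nat.mul_le_mul_left _ f4
      _ = 5 * k * (8 * k ^ 2 * X) + (40 * k ^ 3 * s1 + 40 * k ^ 3 * s2) := by ring
  have f7 : 5 * k * (8 * k ^ 2 * X) ≤ 5 * k * d := Nat.mul_le_mul_left _ f5.le
  have f8 : 5 * k * d ≤ 2 * d := by
    have : 10 * k * d = 5 * k * d + 5 * k * d := by ring
    omega
  have f9 : 5 * 2 * d ≤ 5 * k * d := Nat.mul_le_mul_right _ (Nat.mul_le_mul_left _ hk)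
  omega

end AlgAAux

theorem pass_pat (hR : RegBip n a d adj) (hP : Parts n k d κ adj c) (hC : Cnd k d κ h X)
    {S : Finset ℕ} (hS : S ⊆ range n) (hp : passB n a h X adj S = true) :
    US n a h adj S ⊆ pat n a c (lpat k a c (US n a h adj S)) ∧
      (∀ i < k, (part n c i).Nonempty → (US n a h adj S ∩ part n c i).Nonempty) ∧
      ∀ i < k, 40 * k ^ 3 * (((part n c i).filter (fun v =>
        decide (v < a) = decide (i ∈ lpat k a c (US n a h adj S)))) \ US n a h adj S).card ≤
        d := by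
  have hk := hC.hk
  have hd := d_pos hC
  have hsub : US n a h adj S ⊆ pat n a c (lpat k a c (US n a h adj S)) := by
    intro v hv
    unfold pat
    rw [mem_filter]
    refine ⟨US_range S hv, ?_⟩
    rw [decide_eq_decide]
    unfold lpat
    rw [mem_filter, mem_range]
    constructor
    · intro hva
      exact ⟨hP.lt v, v, hv, rfl, hva⟩
    · rintro ⟨-, u, hu, huv, hua⟩
      by_contra hva
      exact not_mixed hR hP hC hS hp hu hv huv hua hva
  obtain ⟨J, g1, g2, g3, g4⟩ := exists_J0 hR hS hp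
  refine ⟨hsub, ?_, ?_⟩
  · intro i _ hi
    obtain ⟨x, hx⟩ := reg_meets hR hP hk hd g2 g3 g4 (two_k hC) hi
    rw [mem_inter] at hx
    exact ⟨x, mem_inter.2 ⟨g1 hx.1, hx.2⟩⟩
  · intro i _
    rcases (part n c i).eq_empty_or_nonempty with he | hi
    · rw [he]
      simp
    · obtain ⟨x, hx⟩ := reg_meets hR hP hk hd g2 g3 g4 (two_k hC) hi
      rw [mem_inter] at hx
      have hxc : c x = i := (mem_part.1 hx.2).2
      have h1 := (reg_side hR hP hk hd g2 g3 g4 (two_k hC) hx.1).2
      rw [hxc] at h1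
      have h2 := hsub (g1 hx.1)
      unfold pat at h2
      rw [mem_filter, hxc] at h2
      rw [h2.2] at h1
      refine le_trans (Nat.mul_le_mul_left _ (card_le_card ?_)) (cnd_small hC h1)
      exact sdiff_subset_sdiff (Subset.refl _) g1

theorem us_close (hR : RegBip n a d adj) (hP : Parts n k d κ adj c) (hC : Cnd k d κ h X)
    {S T : Finset ℕ} (hS : S ⊆ range n) (hT : T ⊆ range n) (hp : passB n a h X adj S = true)
    (hq : passB n a h X adj T = true)
    (he : lpat k a c (US n a h adj S) = lpat k a c (US n a h adj T)) :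
    2 * k * sdc n (US n a h adj S) (US n a h adj T) ≤ d := by
  have hk := hC.hk
  obtain ⟨a1, -, a3⟩ := pass_pat hR hP hC hS hp
  obtain ⟨b1, -, b3⟩ := pass_pat hR hP hC hT hq
  rw [he] at a1 a3
  obtain ⟨P, hPP⟩ : ∃ P, P = lpat k a c (US n a h adj T) := ⟨_, rfl⟩
  rw [← hPP] at a1 a3 b1 b3
  obtain ⟨F, hF⟩ : ∃ F : ℕ → Finset ℕ, F = fun i => (part n c i).filter (fun v =>
    decide (v < a) = decide (i ∈ P)) := ⟨_, rfl⟩
  have hsub : (range n).filter (fun v => (decide (v ∈ US n a h adj S) ^^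
      decide (v ∈ US n a h adj T)) = true) ⊆
      (range k).biUnion (fun i => (F i \ US n a h adj S) ∪ (F i \ US n a h adj T)) := by
    intro v hv
    rw [mem_filter] at hv
    obtain ⟨h1, h2⟩ := hv
    rw [mem_biUnion]
    refine ⟨c v, mem_range.2 (hP.lt v), ?_⟩
    have h3 : ∀ W : Finset ℕ, W ⊆ pat n a c P → v ∈ W → v ∈ F (c v) := by
      intro W hW hvW
      have h4 := hW hvW
      unfold pat at h4
      rw [mem_filter] at h4
      rw [hF]
      exact mem_filter.2 ⟨mem_part.2 ⟨mem_range.1 h1, rfl⟩, h4.2⟩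
    rw [mem_union, mem_sdiff, mem_sdiff]
    by_cases h5 : v ∈ US n a h adj S
    · by_cases h6 : v ∈ US n a h adj T
      · rw [decide_eq_true h5, decide_eq_true h6] at h2
        simp at h2
      · exact Or.inr ⟨h3 _ a1 h5, h6⟩
    · by_cases h6 : v ∈ US n a h adj T
      · exact Or.inl ⟨h3 _ b1 h6, h5⟩
      · rw [decide_eq_false h5, decide_eq_false h6] at h2
        simp at h2
  have hcard : 40 * k ^ 3 * sdc n (US n a h adj S) (US n a h adj T) ≤ 2 * k * d := by
    unfold sdc
    calc 40 * k ^ 3 * ((range n).filter (fun v => (decide (v ∈ US n a h adj S) ^^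
        decide (v ∈ US n a h adj T)) = true)).card ≤
        40 * k ^ 3 * ∑ i ∈ range k, ((F i \ US n a h adj S).card +
          (F i \ US n a h adj T).card) := by
          apply Nat.mul_le_mul_left
          refine (card_le_card hsub).trans (card_biUnion_le.trans ?_)
          exact sum_le_sum fun i _ => card_union_le _ _
      _ = ∑ i ∈ range k, (40 * k ^ 3 * (F i \ US n a h adj S).card +
          40 * k ^ 3 * (F i \ US n a h adj T).card) := by
          rw [mul_sum]
          exact sum_congr rfl fun i _ => by ring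
      _ ≤ ∑ i ∈ range k, (d + d) := by
          apply sum_le_sum
          intro i hi
          have hi' := mem_range.1 hi
          rw [hF]
          exact Nat.add_le_add (a3 i hi') (b3 i hi')
      _ = 2 * k * d := by
          rw [sum_const, card_range, smul_eq_mul]
          ring
  obtain ⟨m, hm⟩ : ∃ m, m = sdc n (US n a h adj S) (US n a h adj T) := ⟨_, rfl⟩
  rw [← hm] at hcard ⊢
  have h1 : 2 * k * (20 * k ^ 2 * m) ≤ 2 * k * d := by
    calc 2 * k * (20 * k ^ 2 * m) = 40 * k ^ 3 * m := by ring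
      _ ≤ 2 * k * d := hcard
  have h2 : 20 * k ^ 2 * m ≤ d := Nat.le_of_mul_le_mul_left h1 (by omega)
  refine le_trans ?_ h2
  apply Nat.mul_le_mul_right
  nlinarith

namespace AlgAAux

/-- a part of different types -/
theorem far_aux (hR : RegBip n a d adj) (hP : Parts n k d κ adj c) (hC : Cnd k d κ h X)
    {S T : Finset ℕ} (hS : S ⊆ range n) (hT : T ⊆ range n) (hp : passB n a h X adj S = true)
    (hq : passB n a h X adj T = true) {i : ℕ} (h1 : i ∈ lpat k a c (US n a h adj S))
    (h2 : i ∉ lpat k a c (US n a h adj T)) {D : Finset ℕ}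
    (hD1 : ∀ v ∈ US n a h adj S, v ∉ US n a h adj T → v ∈ D)
    (hD2 : ∀ v ∈ US n a h adj T, v ∉ US n a h adj S → v ∈ D) : d < 2 * k * D.card := by
  have hk := hC.hk
  have hd := d_pos hC
  obtain ⟨a1, -, a3⟩ := pass_pat hR hP hC hS hp
  obtain ⟨b1, -, b3⟩ := pass_pat hR hP hC hT hq
  have hik : i < k := by
    unfold lpat at h1
    rw [mem_filter, mem_range] at h1
    exact h1.1
  have hne : (part n c i).Nonempty := by
    unfold lpat at h1
    rw [mem_filter] at h1
    obtain ⟨-, v, hv, hvi, -⟩ := h1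
    exact ⟨v, mem_part.2 ⟨mem_range.1 (US_range S hv), hvi⟩⟩
  have a4 := a3 i hik
  have b4 := b3 i hik
  rw [decide_eq_true h1] at a4
  rw [decide_eq_false h2] at b4
  obtain ⟨F, hF⟩ : ∃ F, F = (part n c i).filter (fun w => decide (w < a) = true) := ⟨_, rfl⟩
  obtain ⟨G, hG⟩ : ∃ G, G = (part n c i).filter (fun w => decide (w < a) = false) := ⟨_, rfl⟩
  have e1 := part_side hR hP hk hd hne true
  have e2 := part_side hR hP hk hd hne false
  rw [← hF] at a4 e1
  rw [← hG] at b4 e2
  have hpF : ∀ v ∈ F, v ∉ US n a h adj T := by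
    intro v hv hvT
    rw [hF, mem_filter, mem_part] at hv
    have h3 := b1 hvT
    unfold pat at h3
    rw [mem_filter, hv.1.2, decide_eq_false h2, hv.2] at h3
    exact absurd h3.2 (by simp)
  have hpG : ∀ v ∈ G, v ∉ US n a h adj S := by
    intro v hv hvS
    rw [hG, mem_filter, mem_part] at hv
    have h3 := a1 hvS
    unfold pat at h3
    rw [mem_filter, hv.1.2, decide_eq_true h1, hv.2] at h3
    exact absurd h3.2 (by simp)
  have hsub : (F ∩ US n a h adj S) ∪ (G ∩ US n a h adj T) ⊆ D := by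
    intro v hv
    rw [mem_union, mem_inter, mem_inter] at hv
    rcases hv with ⟨g1, g2⟩ | ⟨g1, g2⟩
    · exact hD1 v g2 (hpF v g1)
    · exact hD2 v g2 (hpG v g1)
  have hdis : Disjoint (F ∩ US n a h adj S) (G ∩ US n a h adj T) := by
    rw [disjoint_left]
    intro v hv hv'
    rw [mem_inter] at hv hv'
    exact hpG v hv'.1 hv.2
  have hc := card_le_card hsub
  rw [card_union_of_disjoint hdis] at hc
  have c1 := card_inter_add_card_sdiff F (US n a h adj S)
  have c2 := card_inter_add_card_sdiff G (US n a h adj T)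
  obtain ⟨s1, hs1⟩ : ∃ s, s = (F \ US n a h adj S).card := ⟨_, rfl⟩
  obtain ⟨s2, hs2⟩ : ∃ s, s = (G \ US n a h adj T).card := ⟨_, rfl⟩
  rw [← hs1] at a4 c1
  rw [← hs2] at b4 c2
  have f1 : 2 * k * (F.card + G.card) ≤ 2 * k * (D.card + (s1 + s2)) :=
    Nat.mul_le_mul_left _ (by omega)
  have f2 : 2 * k * (F.card + G.card) = 2 * k * F.card + 2 * k * G.card := by ring
  have f3 : 2 * k * (D.card + (s1 + s2)) = 2 * k * D.card + 2 * k * (s1 + s2) := by ring
  have f4 : 2 * k * (s1 + s2) * 80 ≤ 2 * d := by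
    calc 2 * k * (s1 + s2) * 80 ≤ 2 * k * (s1 + s2) * (20 * k ^ 2) := by
          apply Nat.mul_le_mul_left
          nlinarith
      _ = 40 * k ^ 3 * s1 + 40 * k ^ 3 * s2 := by ring
      _ ≤ 2 * d := by omega
  omega

end AlgAAux

theorem us_far (hR : RegBip n a d adj) (hP : Parts n k d κ adj c) (hC : Cnd k d κ h X)
    {S T : Finset ℕ} (hS : S ⊆ range n) (hT : T ⊆ range n) (hp : passB n a h X adj S = true)
    (hq : passB n a h X adj T = true)
    (he : lpat k a c (US n a h adj S) ≠ lpat k a c (US n a h adj T)) :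
    d < 2 * k * sdc n (US n a h adj S) (US n a h adj T) := by
  unfold sdc
  obtain ⟨i, hi⟩ : ∃ i, ¬ (i ∈ lpat k a c (US n a h adj S) ↔ i ∈ lpat k a c (US n a h adj T)) := by
    by_contra hcon
    push Not at hcon
    exact he (Finset.ext hcon)
  by_cases h1 : i ∈ lpat k a c (US n a h adj S)
  · have h2 : i ∉ lpat k a c (US n a h adj T) := fun h2 => hi ⟨fun _ => h2, fun _ => h1⟩
    refine far_aux hR hP hC hS hT hp hq h1 h2 ?_ ?_
    · intro v hv hv'
      rw [mem_filter, decide_eq_true hv, decide_eq_false hv']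
      exact ⟨US_range S hv, rfl⟩
    · intro v hv hv'
      rw [mem_filter, decide_eq_true hv, decide_eq_false hv']
      exact ⟨US_range T hv, rfl⟩
  · have h2 : i ∈ lpat k a c (US n a h adj T) := by
      by_contra h2
      exact hi ⟨fun h => absurd h h1, fun h => absurd h h2⟩
    refine far_aux hR hP hC hT hS hq hp h2 h1 ?_ ?_
    · intro v hv hv'
      rw [mem_filter, decide_eq_true hv, decide_eq_false hv']
      exact ⟨US_range T hv, rfl⟩
    · intro v hv hv'
      rw [mem_filter, decide_eq_true hv, decide_eq_false hv']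
      exact ⟨US_range S hv, rfl⟩

theorem ub_pat (hR : RegBip n a d adj) (hP : Parts n k d κ adj c) (hC : Cnd k d κ h X)
    {S : Finset ℕ} (hS : S ⊆ range n) (hp : passB n a h X adj S = true) :
    Ub n a k d h adj S ⊆ pat n a c (lpat k a c (US n a h adj S)) := by
  have hk := hC.hk
  have hd := d_pos hC
  obtain ⟨-, -, a3⟩ := pass_pat hR hP hC hS hp
  intro v hv
  unfold Ub at hv
  rw [mem_filter, decide_eq_true_eq, mem_range] at hv
  obtain ⟨hvn, hvd⟩ := hv
  unfold pat
  rw [mem_filter, mem_range]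
  refine ⟨hvn, ?_⟩
  by_contra hcon
  obtain ⟨U, hU⟩ : ∃ U, U = US n a h adj S := ⟨_, rfl⟩
  rw [← hU] at hvd hcon a3
  have h1 := a3 (c v) (hP.lt v)
  have h2 := hP.deg v hvn
  rw [dg_sides hR (S := part n c (c v)) (decide (v < a)) rfl] at h2
  have h3 : (!decide (v < a)) = decide (c v ∈ lpat k a c U) := by
    revert hcon
    cases decide (v < a) <;> cases decide (c v ∈ lpat k a c U) <;> simp
  rw [h3] at h2
  obtain ⟨F, hF⟩ : ∃ F, F = (part n c (c v)).filter
    (fun w => decide (w < a) = decide (c v ∈ lpat k a c U)) := ⟨_, rfl⟩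
  rw [← hF] at h1 h2
  have h4 : dg adj F v ≤ dg adj U v + (F \ U).card := by
    have e1 : dg adj F v = dg adj (F ∩ U) v + dg adj (F \ U) v := by
      rw [← dg_union (disjoint_sdiff_inter F U).symm, union_comm, sdiff_union_inter]
    have e2 : dg adj (F ∩ U) v ≤ dg adj U v := dg_mono' inter_subset_right v
    have e3 : dg adj (F \ U) v ≤ (F \ U).card := dg_le_card _ _
    omega
  obtain ⟨s, hs⟩ : ∃ s, s = (F \ U).card := ⟨_, rfl⟩
  obtain ⟨g, hg⟩ : ∃ g, g = dg adj U v := ⟨_, rfl⟩
  rw [← hs] at h1 h4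
  rw [← hg] at hvd h4
  have h5 : 4 * k * (g + 1) ≤ d := by
    have := (Nat.le_div_iff_mul_le (show 0 < 4 * k by omega)).1 (Nat.succ_le_of_lt hvd)
    rw [mul_comm]
    exact this
  have h6 : 2 * d ≤ 4 * k * (g + s) := by
    calc 2 * d ≤ 2 * (2 * k * dg adj F v) := Nat.mul_le_mul_left _ h2
      _ = 4 * k * dg adj F v := by ring
      _ ≤ 4 * k * (g + s) := Nat.mul_le_mul_left _ h4
  have h7 : 4 * k * s ≤ 40 * k ^ 3 * s := by
    apply Nat.mul_le_mul_right
    calc 4 * k = 4 * k * 1 := by ring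
      _ ≤ 4 * k * (10 * k ^ 2) := Nat.mul_le_mul_left _ (by nlinarith)
      _ = 40 * k ^ 3 := by ring
  have h8 : 4 * k * (g + 1) = 4 * k * g + 4 * k := by ring
  have h9 : 4 * k * (g + s) = 4 * k * g + 4 * k * s := by ring
  omega

end Pool.Agent.Lib.Pa7c826m
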