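import Pool.Agent.Lib.Pa7c826m.AlgA

/-!
What the algorithm computes.

PROOF. `good_ub` (r6): `I` good, `lpat I = lpat (US S)`, `v ∈ I`, say `v < a`. By `pass_pat` the neighbours of `v` in `US S` lie in the parts `j`
that are not in `lpat`, on the right side. For such a nonempty part `j`, let `M ⊇ I` be independent with `a ≤ |M| + h` (`alp_spec`, `GoodI.big`);
`I` meets the part `j` (`GoodI.ne`), not on the left side, so on the right side; by `reg_side` `M` misses at most `s` vertices of the
right side of the part `j` (`40 k³ s ≤ d`), and the neighbours of `v` are not in `M`: at most `s` of them in this part. Altogether at most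
`k s ≤ d / (40 k²) < d / (4 k)`. The case `¬ v < a` is symmetric.
`good_seed` (r7): choose one element of `I` in every nonempty part, `S` = the set of these (`|S| ≤ k`), `S = tup n k j` (`exists_tup`).
`alp S ≥ alp I`. `US S ⊆ pat (lpat I)`: `v ∈ US S` in the part `V`; `V` is nonempty, let `u` be the seed in `V`; `us_mem`: an independent `J ∋ u, v`
with `a ≤ |J| + h`; by `reg_side` `v` is on the side of `u`. So `nu (US S) ≤ nu (pat (lpat I)) ≤ X` (`nu_sub`; the `P` of `GoodI.pure` gives
the same `pat` on the nonempty parts, because `I` meets them all). `lpat (US S) = lpat I` (`I ⊆ US S` by `sub_us`).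
`lpat_eq`: `I ⊆ pat P`, `P = lpat (US S)`, `I` meets every nonempty part.
`outM_spec` (r8): by `us_close`, `us_far` the tuples `j` with `repB j` have different `lpat (US (tup j))`, and for every passing `j` there is one
with the same `lpat` (the first passing one with this `lpat`). For good `I` there is exactly one representative `j` with `I ⊆ Ub (tup j)`, and for it
`leaf` is exact (`leaf_exact`, `nu (Ub) ≤ nu (pat) ≤ X`). In general `leaf ≤ ind` (`leaf_le_ind`), and there are at most `2 ^ k`
representatives. So `outM ≤ #good + 2^k #bad`, `#good ≤ outM`, `#good + #bad = ind (range n)`.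
-/

namespace Pool.Agent.Lib.Pa7c826m

open Finset Pool.Agent.Lib.Pa7c826 Pool.Agent.Lib.Pa7c826t Pool.Agent.Lib.Pa7c826y

variable {n a d k κ h X : ℕ} {adj : ℕ → ℕ → Bool} {c : ℕ → ℕ}

theorem AlgBAux.cnd_h (hC : Cnd k d κ h X) : 2 * k * h < κ := by
  refine lt_of_le_of_lt ?_ hC.hκ
  have hk := hC.hk
  have h1 : 2 * k ≤ 40 * k ^ 3 := by
    have h2 : k ≤ k ^ 3 := Nat.le_self_pow (by norm_num) k
    omega
  exact Nat.mul_le_mul_right _ h1

theorem AlgBAux.cnd_d (hC : Cnd k d κ h X) : 0 < d := by
  have h1 := hC.hk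
  have h2 := hC.hd
  omega

theorem AlgBAux.mem_part {i v : ℕ} : v ∈ part n c i ↔ v < n ∧ c v = i := by
  unfold part
  rw [mem_filter, mem_range]

theorem AlgBAux.mem_pat {P : Finset ℕ} {v : ℕ} :
    v ∈ pat n a c P ↔ v < n ∧ (v < a ↔ c v ∈ P) := by
  unfold pat
  rw [mem_filter, mem_range, decide_eq_decide]

theorem AlgBAux.mem_lpat {S : Finset ℕ} {i : ℕ} :
    i ∈ lpat k a c S ↔ i < k ∧ ∃ v ∈ S, c v = i ∧ v < a := by
  unfold lpat
  rw [mem_filter, mem_range]

theorem AlgBAux.us_range (S : Finset ℕ) : US n a h adj S ⊆ range n := filter_subset _ _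

theorem AlgBAux.pat_range (P : Finset ℕ) : pat n a c P ⊆ range n := filter_subset _ _

theorem AlgBAux.ub_range (S : Finset ℕ) : Ub n a k d h adj S ⊆ range n := filter_subset _ _

open AlgBAux

/-- a good set has the pattern `P` -/
theorem AlgBAux.good_meets {P I : Finset ℕ} (hP : Parts n k d κ adj c)
    (hI : GoodI n a k h X adj c I) (hIP : I ⊆ pat n a c P) {v : ℕ} (hv : v < n) :
    c v ∈ lpat k a c I ↔ c v ∈ P := by
  rw [mem_lpat]
  constructor
  · rintro ⟨_, x, hx, h1, h2⟩
    have h3 := (mem_pat.1 (hIP hx)).2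
    rw [← h1]
    exact h3.1 h2
  · intro h1
    refine ⟨hP.lt v, ?_⟩
    obtain ⟨x, hx⟩ := hI.ne (c v) (hP.lt v) ⟨v, mem_part.2 ⟨hv, rfl⟩⟩
    rw [mem_inter, mem_part] at hx
    refine ⟨x, hx.1, hx.2.2, ?_⟩
    have h3 := (mem_pat.1 (hIP hx.1)).2
    rw [h3, hx.2.2]
    exact h1

theorem good_ub (hR : RegBip n a d adj) (hP : Parts n k d κ adj c) (hC : Cnd k d κ h X)
    {S I : Finset ℕ} (hS : S ⊆ range n) (hp : passB n a h X adj S = true)
    (hI : GoodI n a k h X adj c I) (he : lpat k a c (US n a h adj S) = lpat k a c I) :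
    I ⊆ Ub n a k d h adj S := by
  intro v hv
  have hvn : v < n := mem_range.1 (hI.sub hv)
  unfold Ub
  rw [mem_filter, decide_eq_true_eq]
  refine ⟨hI.sub hv, ?_⟩
  obtain ⟨P, hPk, hIP, hnuP⟩ := hI.pure
  obtain ⟨M, hIM, hMn, hMi, hMc⟩ := alp_spec hR hI.sub hI.ind
  have hbig : a ≤ M.card + h := by
    rw [hMc]
    exact hI.big
  have hpp := (pass_pat hR hP hC hS hp).1
  -- the neighbours in the part `j`
  have key : ∀ j < k, 40 * k ^ 3 *
      (((US n a h adj S).filter (fun u => adj v u = true)).filter (fun u => c u = j)).card ≤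
        d := by
    intro j hj
    rcases (((US n a h adj S).filter (fun u => adj v u = true)).filter
      (fun u => c u = j)).eq_empty_or_nonempty with h0 | ⟨u, hu⟩
    · rw [h0, card_empty, mul_zero]
      exact Nat.zero_le _
    · rw [mem_filter, mem_filter] at hu
      obtain ⟨⟨huS, huv⟩, huj⟩ := hu
      have hun : u < n := mem_range.1 (us_range S huS)
      obtain ⟨x, hx⟩ := hI.ne j hj ⟨u, mem_part.2 ⟨hun, huj⟩⟩
      rw [mem_inter, mem_part] at hx
      obtain ⟨hxI, hxn, hxj⟩ := hx
      have hside : ∀ w ∈ US n a h adj S, c w = j → (w < a ↔ x < a) := by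
        intro w hw hwj
        have h1 := (mem_pat.1 (hpp hw))
        rw [he] at h1
        rw [h1.2, good_meets hP hI hIP h1.1, hwj, ← hxj]
        exact ((mem_pat.1 (hIP hxI)).2).symm
      have h2 := (reg_side hR hP hC.hk (cnd_d hC) hMn hMi hbig (cnd_h hC) (hIM hxI)).2
      have h3 := cnd_small hC h2
      refine le_trans (Nat.mul_le_mul_left _ (card_le_card ?_)) h3
      intro w hw
      rw [mem_filter, mem_filter] at hw
      obtain ⟨⟨hwS, hwv⟩, hwj⟩ := hw
      rw [mem_sdiff, mem_filter, mem_part, decide_eq_decide]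
      refine ⟨⟨⟨mem_range.1 (us_range S hwS), ?_⟩, ?_⟩, ?_⟩
      · rw [hwj, hxj]
      · exact hside w hwS hwj
      · intro hwM
        have h4 := hMi v (hIM hv) w hwM
        rw [hwv] at h4
        exact absurd h4 (by simp)
  have hsum : dg adj (US n a h adj S) v = ∑ j ∈ range k,
      (((US n a h adj S).filter (fun u => adj v u = true)).filter (fun u => c u = j)).card := by
    unfold dg
    exact card_eq_sum_card_fiberwise (fun u _ => mem_coe.2 (mem_range.2 (hP.lt u)))
  have h1 : 40 * k ^ 3 * dg adj (US n a h adj S) v ≤ k * d := by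
    rw [hsum, mul_sum]
    refine (sum_le_sum (fun j hj => key j (mem_range.1 hj))).trans ?_
    rw [sum_const, card_range, smul_eq_mul]
  have hk := hC.hk
  have hd := hC.hd
  obtain ⟨D, hD⟩ : ∃ D, D = dg adj (US n a h adj S) v := ⟨_, rfl⟩
  rw [← hD] at h1 ⊢
  have h2 : 40 * k ^ 2 * D ≤ d := by
    have h3 : k * (40 * k ^ 2 * D) ≤ k * d := by
      refine le_trans (le_of_eq ?_) h1
      ring
    exact Nat.le_of_mul_le_mul_left h3 (by omega)
  have h4 : 20 * (4 * k * D) ≤ d := by
    refine le_trans ?_ h2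
    have h5 : 80 * k ≤ 40 * k ^ 2 := by nlinarith
    calc 20 * (4 * k * D) = 80 * k * D := by ring
      _ ≤ 40 * k ^ 2 * D := Nat.mul_le_mul_right _ h5
  rw [Nat.lt_iff_add_one_le, Nat.le_div_iff_mul_le (by omega)]
  have h6 : (D + 1) * (4 * k) = 4 * k * D + 4 * k := by ring
  rw [h6]
  omega

theorem good_seed (hR : RegBip n a d adj) (hP : Parts n k d κ adj c) (hC : Cnd k d κ h X)
    {I : Finset ℕ} (hI : GoodI n a k h X adj c I) :
    ∃ j < (n + 1) ^ k, passB n a h X adj (tup n k j) = true ∧
      lpat k a c (US n a h adj (tup n k j)) = lpat k a c I := by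
  classical
  obtain ⟨P, hPk, hIP, hnuP⟩ := hI.pure
  have hf : ∀ i, ∃ x, i < k → (part n c i).Nonempty → x ∈ I ∧ c x = i := by
    intro i
    by_cases h1 : i < k ∧ (part n c i).Nonempty
    · obtain ⟨x, hx⟩ := hI.ne i h1.1 h1.2
      rw [mem_inter, mem_part] at hx
      exact ⟨x, fun _ _ => ⟨hx.1, hx.2.2⟩⟩
    · exact ⟨0, fun h2 h3 => absurd ⟨h2, h3⟩ h1⟩
  choose f hf using hf
  obtain ⟨S, hSd⟩ : ∃ S : Finset ℕ, S = ((range k).filter
    (fun i => (part n c i).Nonempty)).image f := ⟨_, rfl⟩
  have hSI : S ⊆ I := by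
    intro x hx
    rw [hSd, mem_image] at hx
    obtain ⟨i, hi, rfl⟩ := hx
    rw [mem_filter, mem_range] at hi
    exact (hf i hi.1 hi.2).1
  have hSn : S ⊆ range n := hSI.trans hI.sub
  have hSc : S.card ≤ k := by
    rw [hSd]
    refine card_image_le.trans ((card_filter_le _ _).trans ?_)
    rw [card_range]
  obtain ⟨j, hj, hjS⟩ := Pa7c826y.exists_tup (n := n) k S hSn hSc
  have hSi : ∀ u ∈ S, ∀ v ∈ S, adj u v = false := fun u hu v hv => hI.ind u (hSI hu) v (hSI hv)
  -- the seeds
  have hseed : ∀ v < n, ∃ u ∈ S, u ∈ I ∧ c u = c v := by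
    intro v hv
    have hne : (part n c (c v)).Nonempty := ⟨v, mem_part.2 ⟨hv, rfl⟩⟩
    refine ⟨f (c v), ?_, hf (c v) (hP.lt v) hne⟩
    rw [hSd]
    exact mem_image_of_mem f (mem_filter.2 ⟨mem_range.2 (hP.lt v), hne⟩)
  have hUS : US n a h adj S ⊆ pat n a c (lpat k a c I) := by
    intro v hv
    have hvn : v < n := mem_range.1 (us_range S hv)
    obtain ⟨J, hSJ, hvJ, _, hJn, hJi, hJb⟩ := us_mem hR hSn hv
    obtain ⟨u, huS, huI, huc⟩ := hseed v hvn
    have h1 := (reg_side hR hP hC.hk (cnd_d hC) hJn hJi hJb (cnd_h hC) (hSJ huS)).1 v hvJ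
      huc.symm
    rw [mem_pat]
    refine ⟨hvn, ?_⟩
    rw [h1, good_meets hP hI hIP hvn, ← huc]
    exact (mem_pat.1 (hIP huI)).2
  have hIUS : I ⊆ US n a h adj S := sub_us hR hSI hI.sub hI.ind hI.big
  have hpat : pat n a c (lpat k a c I) = pat n a c P := by
    ext v
    rw [mem_pat, mem_pat]
    refine and_congr_right fun hv => ?_
    rw [good_meets hP hI hIP hv]
  refine ⟨j, hj, ?_, ?_⟩
  · rw [hjS]
    unfold passB
    rw [Bool.and_eq_true, Bool.and_eq_true, decide_eq_true_eq, decide_eq_true_eq]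
    refine ⟨(indB_iff hSn).2 hSi, ?_, ?_⟩
    · have h1 := alp_anti hR hSI hI.sub hI.ind
      have h2 := hI.big
      omega
    · refine (nu_sub hR (pat_range _) hUS).trans ?_
      rw [hpat]
      exact hnuP
  · rw [hjS]
    ext i
    constructor
    · intro hi
      obtain ⟨hik, v, hv, hvi, hva⟩ := mem_lpat.1 hi
      have h1 := (mem_pat.1 (hUS hv)).2.1 hva
      rw [← hvi]
      exact h1
    · intro hi
      obtain ⟨hik, v, hv, hvi, hva⟩ := mem_lpat.1 hi
      exact mem_lpat.2 ⟨hik, v, hIUS hv, hvi, hva⟩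

/-- a good set in `Ub S` has the pattern of `S` -/
theorem AlgBAux.lpat_eq (hR : RegBip n a d adj) (hP : Parts n k d κ adj c) (hC : Cnd k d κ h X)
    {S I : Finset ℕ} (hS : S ⊆ range n) (hp : passB n a h X adj S = true)
    (hI : GoodI n a k h X adj c I) (hIU : I ⊆ Ub n a k d h adj S) :
    lpat k a c (US n a h adj S) = lpat k a c I := by
  have hIP : I ⊆ pat n a c (lpat k a c (US n a h adj S)) := hIU.trans (ub_pat hR hP hC hS hp)
  ext i
  constructor
  · intro hi
    obtain ⟨hik, v, hv, hvi, hva⟩ := mem_lpat.1 hi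
    have hvn : v < n := mem_range.1 (us_range S hv)
    have h1 := (good_meets hP hI hIP hvn).2
    rw [hvi] at h1
    exact h1 hi
  · intro hi
    obtain ⟨hik, v, hv, hvi, hva⟩ := mem_lpat.1 hi
    have hvn : v < n := mem_range.1 (hI.sub hv)
    have h1 := (good_meets hP hI hIP hvn).1
    rw [hvi] at h1
    exact h1 hi

theorem AlgBAux.tup_range (j : ℕ) : tup n k j ⊆ range n := Pa7c826y.tup_subset k j

theorem AlgBAux.rep_pass {j : ℕ} (hj : repB n a k d h X adj j = true) :
    passB n a h X adj (tup n k j) = true := by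
  unfold repB at hj
  rw [Bool.and_eq_true] at hj
  exact hj.1

theorem AlgBAux.rep_first {j j' : ℕ} (hj : repB n a k d h X adj j = true) (hlt : j' < j)
    (hp : passB n a h X adj (tup n k j') = true) :
    d < 2 * k * sdc n (US n a h adj (tup n k j')) (US n a h adj (tup n k j)) := by
  unfold repB at hj
  rw [Bool.and_eq_true, Bool.not_eq_true', decide_eq_false_iff_not] at hj
  by_contra hcon
  exact hj.2 ⟨j', hlt, by
    rw [Bool.and_eq_true, decide_eq_true_eq]
    exact ⟨hp, not_lt.1 hcon⟩⟩

theorem AlgBAux.rep_inj (hR : RegBip n a d adj) (hP : Parts n k d κ adj c)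
    (hC : Cnd k d κ h X) {j j' : ℕ} (hj : repB n a k d h X adj j = true)
    (hj' : repB n a k d h X adj j' = true)
    (he : lpat k a c (US n a h adj (tup n k j)) = lpat k a c (US n a h adj (tup n k j'))) :
    j = j' := by
  rcases lt_trichotomy j j' with hlt | heq | hlt
  · have h1 := rep_first hj' hlt (rep_pass hj)
    have h2 := us_close hR hP hC (tup_range j) (tup_range j') (rep_pass hj) (rep_pass hj') he
    omega
  · exact heq
  · have h1 := rep_first hj hlt (rep_pass hj')
    have h2 := us_close hR hP hC (tup_range j') (tup_range j) (rep_pass hj') (rep_pass hj)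
      he.symm
    omega

theorem AlgBAux.exists_rep (hR : RegBip n a d adj) (hP : Parts n k d κ adj c)
    (hC : Cnd k d κ h X) {I : Finset ℕ} (hI : GoodI n a k h X adj c I) :
    ∃ j < (n + 1) ^ k, repB n a k d h X adj j = true ∧
      lpat k a c (US n a h adj (tup n k j)) = lpat k a c I := by
  classical
  have hex : ∃ j, j < (n + 1) ^ k ∧ passB n a h X adj (tup n k j) = true ∧
      lpat k a c (US n a h adj (tup n k j)) = lpat k a c I := by
    obtain ⟨j, h1, h2, h3⟩ := good_seed hR hP hC hI
    exact ⟨j, h1, h2, h3⟩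
  obtain ⟨h1, h2, h3⟩ := Nat.find_spec hex
  refine ⟨Nat.find hex, h1, ?_, h3⟩
  unfold repB
  rw [Bool.and_eq_true, Bool.not_eq_true', decide_eq_false_iff_not]
  refine ⟨h2, ?_⟩
  rintro ⟨j', hlt, hj'⟩
  rw [Bool.and_eq_true, decide_eq_true_eq] at hj'
  by_cases he : lpat k a c (US n a h adj (tup n k j')) =
      lpat k a c (US n a h adj (tup n k (Nat.find hex)))
  · exact Nat.find_min hex hlt ⟨hlt.trans h1, hj'.1, he.trans h3⟩
  · have h4 := us_far hR hP hC (tup_range j') (tup_range (Nat.find hex)) hj'.1 h2 he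
    omega

theorem AlgBAux.rep_card (hR : RegBip n a d adj) (hP : Parts n k d κ adj c)
    (hC : Cnd k d κ h X) :
    ((range ((n + 1) ^ k)).filter (fun j => repB n a k d h X adj j = true)).card ≤ 2 ^ k := by
  have h1 : ((range ((n + 1) ^ k)).filter (fun j => repB n a k d h X adj j = true)).card ≤
      ((range k).powerset).card := by
    refine card_le_card_of_injOn (fun j => lpat k a c (US n a h adj (tup n k j))) ?_ ?_
    · intro j _
      exact mem_coe.2 (mem_powerset.2 (filter_subset _ _))
    · intro j hj j' hj' he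
      exact rep_inj hR hP hC (mem_filter.1 (mem_coe.1 hj)).2 (mem_filter.1 (mem_coe.1 hj')).2 he
  rwa [card_powerset, card_range] at h1

theorem AlgBAux.outM_eq (K : ℕ) : outM n a k d h X adj K =
    ∑ j ∈ (range ((n + 1) ^ k)).filter (fun j => repB n a k d h X adj j = true),
      leaf n adj K (Ub n a k d h adj (tup n k j)) := by
  unfold outM
  rw [sum_filter]

open Classical in
theorem AlgBAux.ind_eq (S : Finset ℕ) (hS : S ⊆ range n) :
    ind adj S = ((inds n adj).filter (fun I => I ⊆ S)).card := by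
  unfold ind inds
  congr 1
  ext I
  rw [mem_filter, mem_filter, mem_filter, mem_powerset, mem_powerset]
  constructor
  · rintro ⟨h1, h2⟩
    exact ⟨⟨h1.trans hS, h2⟩, h1⟩
  · rintro ⟨⟨_, h2⟩, h1⟩
    exact ⟨h1, h2⟩

theorem outM_spec (hR : RegBip n a d adj) (hP : Parts n k d κ adj c) (hC : Cnd k d κ h X)
    {K : ℕ} (hK : 4 ^ X ≤ K) :
    outM n a k d h X adj K ≤ ind adj (range n) + 2 ^ k * (bads n a k h X adj c).card ∧
      ind adj (range n) ≤ outM n a k d h X adj K + (bads n a k h X adj c).card := by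
  classical
  obtain ⟨R, hRd⟩ : ∃ R : Finset ℕ, R = (range ((n + 1) ^ k)).filter
    (fun j => repB n a k d h X adj j = true) := ⟨_, rfl⟩
  have hRc : R.card ≤ 2 ^ k := by
    rw [hRd]
    exact rep_card hR hP hC
  have hrep : ∀ j ∈ R, repB n a k d h X adj j = true := by
    intro j hj
    rw [hRd] at hj
    exact (mem_filter.1 hj).2
  have hout : outM n a k d h X adj K = ∑ j ∈ R, leaf n adj K (Ub n a k d h adj (tup n k j)) := by
    rw [hRd]
    exact outM_eq K
  obtain ⟨G, hG⟩ : ∃ G : Finset (Finset ℕ), G = (inds n adj).filter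
    (fun I => GoodI n a k h X adj c I) := ⟨_, rfl⟩
  have hB : bads n a k h X adj c = (inds n adj).filter
    (fun I => ¬ GoodI n a k h X adj c I) := by
    unfold bads
    congr
  have hsplit : G.card + (bads n a k h X adj c).card = (inds n adj).card := by
    rw [hG, hB]
    exact card_filter_add_card_filter_not _
  have hindn : ind adj (range n) = (inds n adj).card := by
    rfl
  -- the representatives of a good set
  have hone : ∀ I ∈ G, (R.filter (fun j => I ⊆ Ub n a k d h adj (tup n k j))).card = 1 := by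
    intro I hIG
    rw [hG, mem_filter] at hIG
    obtain ⟨j, hj1, hj2, hj3⟩ := exists_rep hR hP hC hIG.2
    have hsub := good_ub hR hP hC (tup_range j) (rep_pass hj2) hIG.2 hj3
    rw [card_eq_one]
    refine ⟨j, ?_⟩
    ext j'
    rw [mem_filter, mem_singleton]
    constructor
    · rintro ⟨h1, h2⟩
      have h3 := lpat_eq hR hP hC (tup_range j') (rep_pass (hrep j' h1)) hIG.2 h2
      exact rep_inj hR hP hC (hrep j' h1) hj2 (h3.trans hj3.symm)
    · rintro rfl
      refine ⟨?_, hsub⟩
      rw [hRd]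
      exact mem_filter.2 ⟨mem_range.2 hj1, hj2⟩
  have hdc : ∀ A : Finset (Finset ℕ),
      ∑ j ∈ R, (A.filter (fun I => I ⊆ Ub n a k d h adj (tup n k j))).card =
        ∑ I ∈ A, (R.filter (fun j => I ⊆ Ub n a k d h adj (tup n k j))).card := by
    intro A
    exact sum_card_bipartiteAbove_eq_sum_card_bipartiteBelow
      (r := fun j I => I ⊆ Ub n a k d h adj (tup n k j))
  constructor
  · -- the upper bound
    have h1 : outM n a k d h X adj K ≤ ∑ j ∈ R,
        ((inds n adj).filter (fun I => I ⊆ Ub n a k d h adj (tup n k j))).card := by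
      rw [hout]
      refine sum_le_sum fun j _ => ?_
      rw [← ind_eq _ (ub_range _)]
      exact leaf_le_ind hR (ub_range _) K
    rw [hdc] at h1
    have h2 : ∑ I ∈ inds n adj, (R.filter (fun j => I ⊆ Ub n a k d h adj (tup n k j))).card =
        ∑ I ∈ G, (R.filter (fun j => I ⊆ Ub n a k d h adj (tup n k j))).card +
        ∑ I ∈ bads n a k h X adj c,
          (R.filter (fun j => I ⊆ Ub n a k d h adj (tup n k j))).card := by
      rw [hG, hB]
      exact (sum_filter_add_sum_filter_not _ _ _).symm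
    have h3 : ∑ I ∈ G, (R.filter (fun j => I ⊆ Ub n a k d h adj (tup n k j))).card = G.card := by
      rw [sum_congr rfl hone, sum_const, smul_eq_mul, mul_one]
    have h4 : ∑ I ∈ bads n a k h X adj c,
        (R.filter (fun j => I ⊆ Ub n a k d h adj (tup n k j))).card ≤
        2 ^ k * (bads n a k h X adj c).card := by
      refine (sum_le_sum (g := fun _ => 2 ^ k)
        (fun I _ => (card_filter_le _ _).trans hRc)).trans ?_
      rw [sum_const, smul_eq_mul, mul_comm]
    rw [h2, h3] at h1
    rw [hindn]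
    omega
  · -- the lower bound
    have h1 : G.card ≤ outM n a k d h X adj K := by
      have h2 : G.card = ∑ I ∈ G, (R.filter
          (fun j => I ⊆ Ub n a k d h adj (tup n k j))).card := by
        rw [sum_congr rfl hone, sum_const, smul_eq_mul, mul_one]
      rw [h2, ← hdc, hout]
      refine sum_le_sum fun j hj => ?_
      rcases (G.filter (fun I => I ⊆ Ub n a k d h adj (tup n k j))).eq_empty_or_nonempty with
        h0 | ⟨I, hI⟩
      · rw [h0, card_empty]
        exact Nat.zero_le _
      · rw [mem_filter] at hI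
        have hIG := hI.1
        rw [hG, mem_filter] at hIG
        obtain ⟨P, _, hIP, hnuP⟩ := hIG.2.pure
        have h3 := lpat_eq hR hP hC (tup_range j) (rep_pass (hrep j hj)) hIG.2 hI.2
        have h4 := ub_pat hR hP hC (tup_range j) (rep_pass (hrep j hj))
        rw [h3] at h4
        have hpat : pat n a c (lpat k a c I) = pat n a c P := by
          ext v
          rw [mem_pat, mem_pat]
          refine and_congr_right fun hv => ?_
          rw [good_meets hP hIG.2 hIP hv]
        have h5 : nu n a adj (Ub n a k d h adj (tup n k j)) ≤ X := by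
          refine (nu_sub hR (pat_range _) h4).trans ?_
          rw [hpat]
          exact hnuP
        rw [leaf_exact hR (ub_range _) h5 hK, ind_eq _ (ub_range _)]
        refine card_le_card ?_
        rw [hG]
        exact filter_subset_filter _ (filter_subset _ _)
    rw [hindn, ← hsplit]
    omega

end Pool.Agent.Lib.Pa7c826m
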