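import Pool.Agent.Lib.Pa7c826m.Hold

/-!
The other bad independent sets.

PROOF. Let `q = 2 k`, `m = d / (8 k)`. In every part `V_i` every vertex has at least `d / q` neighbours, all on the other side of `V_i`
(`dg_sides`), so a vertex of `pat P` has at least `d / q ≥ 2 m` neighbours outside `pat P` (those in its part), and every nonempty part
has at least `d / q` vertices on each side.
`bad_empty`: `I` not mixed and `I ∩ V_i0 = ∅`, `V_i0 ≠ ∅`. With `P` = the set of the parts `i` in which `I` has a vertex `< a`, `I ⊆ S := pat P \ V_i0`.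
`ind_pow_le` for `S`: `eo ≥ e(left side of V_i0, right side of V_i0) ≥ (d/q) (d/q)` (in natural numbers: `q * q * eo ≥ d * d`). So
`ind(S)^(d q²) 2^(d²) ≤ 4^(q²) 2^(d a q²)`, and with `(1/2)^d ≤ y^(q²)`: `ind(S) ≤ 4 2^a y`. There are at most `k 2^k` sets `S`.
`bad_nu`: `lemF` for `S = pat P` with `nu S > X`: `ind^d ≤ 4 2^(da) (3/4)^(X m)`, `m ≥ d/(5q)`, `(3/4)^5 ≤ (1/2)^2`: `(3/4)^(X m) ≤ (z^d)` if
`(1/2)^(2 X) ≤ z^(25 q)`. Sum over `P ⊆ range k`.
`bad_alp`: `I ⊆ S = pat P`, `nu S ≤ X`, `alp I + h < a`. `nu_indep`: `Y0 ⊆ S` independent with `|Y0| + nu S = |S|`, `K := S \ Y0`, `|K| ≤ X`. Map `I` to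
`I ∩ K`; for given `K' = I ∩ K` all such `I` are contained in `M := K' ∪ {v ∈ Y0 : no neighbour in K'}`, which is independent and contains
`I`, so `|M| ≤ alp I < a - h` (see `alp_max` in `Region.lean`; here the hypothesis `halp` states it) and there are at most
`2 ^ (a - h)` of them (in real numbers `2^a / 2^h`; no `I` exists if `a ≤ h`). Altogether `2^X 2^a / 2^h` for every `P`.
-/

namespace Pool.Agent.Lib.Pa7c826m

open Finset Pool.Agent.Lib.Pa7c826 Pool.Agent.Lib.Pa7c826t

variable {n a d k κ : ℕ} {adj : ℕ → ℕ → Bool} {c : ℕ → ℕ}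

namespace BadBAux

lemma mem_pat {P : Finset ℕ} {v : ℕ} :
    v ∈ pat n a c P ↔ v < n ∧ (decide (v < a) = decide (c v ∈ P)) := by
  unfold pat
  rw [mem_filter, mem_range]

lemma mem_part {i v : ℕ} : v ∈ part n c i ↔ v < n ∧ c v = i := by
  unfold part
  rw [mem_filter, mem_range]

lemma pat_sub {P : Finset ℕ} : pat n a c P ⊆ range n := filter_subset _ _

/-- neighbours of `v` in its part lie outside the pattern -/
lemma part_dg_le (h : RegBip n a d adj) {P : Finset ℕ} {v : ℕ} (hv : v ∈ pat n a c P) :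
    dg adj (part n c (c v)) v ≤ dg adj (range n \ pat n a c P) v := by
  unfold dg
  refine card_le_card (fun u hu => ?_)
  rw [mem_filter, mem_part] at hu
  rw [mem_filter, mem_sdiff, mem_range]
  refine ⟨⟨hu.1.1, fun hp => ?_⟩, hu.2⟩
  rw [mem_pat] at hp hv
  have h1 := h.bip v u hu.2
  rw [hu.1.2] at hp
  have h2 : decide (u < a) = decide (v < a) := hp.2.trans hv.2.symm
  rw [decide_eq_decide] at h2
  tauto

lemma light (h : RegBip n a d adj) (hP : Parts n k d κ adj c) (hk : 2 ≤ k) {P : Finset ℕ}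
    {v : ℕ} (hv : v ∈ pat n a c P) : dg adj (pat n a c P) v + 2 * (d / (8 * k)) ≤ d := by
  have hvn : v < n := (mem_pat.1 hv).1
  have h1 := dg_split h (pat_sub (a := a) (c := c) (P := P)) hvn
  have h2 := hP.deg v hvn
  have h3 := part_dg_le h hv
  have h4 : 8 * k * (d / (8 * k)) ≤ d := Nat.mul_div_le d (8 * k)
  have h5 : 2 * k * (4 * (d / (8 * k))) ≤ 2 * k * dg adj (part n c (c v)) v := by
    calc 2 * k * (4 * (d / (8 * k))) = 8 * k * (d / (8 * k)) := by ring
      _ ≤ d := h4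
      _ ≤ _ := h2
  have h6 : 4 * (d / (8 * k)) ≤ dg adj (part n c (c v)) v := Nat.le_of_mul_le_mul_left h5 (by omega)
  omega

lemma dgL (h : RegBip n a d adj) {V : Finset ℕ} {v : ℕ} (hv : v < a) :
    dg adj V v ≤ dg adj (V.filter (fun u => ¬ u < a)) v := by
  unfold dg
  refine card_le_card (fun u hu => ?_)
  rw [mem_filter] at hu
  rw [mem_filter, mem_filter]
  exact ⟨⟨hu.1, (h.bip v u hu.2).1 hv⟩, hu.2⟩

lemma dgR (h : RegBip n a d adj) {V : Finset ℕ} {v : ℕ} (hv : ¬ v < a) :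
    dg adj V v ≤ dg adj (V.filter (fun u => u < a)) v := by
  unfold dg
  refine card_le_card (fun u hu => ?_)
  rw [mem_filter] at hu
  rw [mem_filter, mem_filter]
  refine ⟨⟨hu.1, ?_⟩, hu.2⟩
  have h1 := h.bip v u hu.2
  tauto

lemma dg_le_card (V : Finset ℕ) (v : ℕ) : dg adj V v ≤ V.card := by
  unfold dg
  exact card_filter_le _ _

/-- many edges inside a nonempty part -/
lemma eo_ge (h : RegBip n a d adj) (hP : Parts n k d κ adj c) (hd1 : 1 ≤ d) {i : ℕ}
    (hne : (part n c i).Nonempty) {S : Finset ℕ} (hS : ∀ v ∈ part n c i, v ∉ S) :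
    d * d ≤ (2 * k) ^ 2 * eo a adj (range n) S := by
  set V := part n c i with hV
  set VL := V.filter (fun v => v < a) with hVL
  set VR := V.filter (fun v => ¬ v < a) with hVR
  have hdeg : ∀ v ∈ V, d ≤ 2 * k * dg adj V v := by
    intro v hv
    have h1 := (mem_part.1 hv)
    have h2 := hP.deg v h1.1
    rw [h1.2] at h2
    exact h2
  have hL : ∃ v ∈ V, v < a := by
    obtain ⟨v, hv⟩ := hne
    by_cases hva : v < a
    · exact ⟨v, hv, hva⟩
    · have h1 := hdeg v hv
      have h2 := dgR h (V := V) hva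
      have h3 : 1 ≤ dg adj V v := by
        rcases Nat.eq_zero_or_pos (dg adj V v) with h0 | h0
        · rw [h0] at h1
          omega
        · exact h0
      have h4 : 0 < (VL.filter (fun u => adj v u = true)).card := lt_of_lt_of_le (by omega) (h3.trans h2)
      obtain ⟨u, hu⟩ := card_pos.1 h4
      rw [mem_filter, mem_filter] at hu
      exact ⟨u, hu.1.1, hu.1.2⟩
  obtain ⟨v0, hv0, hv0a⟩ := hL
  have h1 : d ≤ 2 * k * VR.card := by
    have h2 := hdeg v0 hv0
    have h3 := dgL h (V := V) hv0a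
    have h4 := dg_le_card (adj := adj) VR v0
    exact h2.trans (Nat.mul_le_mul_left _ (h3.trans h4))
  have h2 : VR.card * d ≤ 2 * k * ed adj VR VL := by
    unfold ed
    rw [mul_sum, ← smul_eq_mul, ← sum_const]
    refine sum_le_sum (fun u hu => ?_)
    rw [hVR, mem_filter] at hu
    exact (hdeg u hu.1).trans (Nat.mul_le_mul_left _ (dgR h (V := V) hu.2))
  have h3 : ed adj VR VL ≤ eo a adj (range n) S := by
    rw [ed_comm h.symm]
    unfold eo
    refine ed_mono (fun v hv => ?_) (fun v hv => ?_)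
    · rw [hVL, mem_filter] at hv
      rw [mem_sdiff, mem_filter, mem_range]
      exact ⟨⟨(mem_part.1 hv.1).1, hv.2⟩, hS v hv.1⟩
    · rw [hVR, mem_filter] at hv
      rw [mem_sdiff, mem_filter, mem_range]
      exact ⟨⟨(mem_part.1 hv.1).1, hv.2⟩, hS v hv.1⟩
  calc d * d ≤ (2 * k * VR.card) * d := Nat.mul_le_mul_right _ h1
    _ = 2 * k * (VR.card * d) := by ring
    _ ≤ 2 * k * (2 * k * ed adj VR VL) := Nat.mul_le_mul_left _ h2
    _ ≤ 2 * k * (2 * k * eo a adj (range n) S) :=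
        Nat.mul_le_mul_left _ (Nat.mul_le_mul_left _ h3)
    _ = (2 * k) ^ 2 * eo a adj (range n) S := by ring

/-- taking roots -/
lemma final_root {x y : ℝ} {a d N : ℕ} (hx : 0 ≤ x) (hy : 0 < y) (hd : 1 ≤ d) (hN : 1 ≤ N)
    (h : x ^ (d * N) ≤ (4 * 2 ^ (d * a)) ^ N * (y ^ N) ^ d) : x ≤ 4 * 2 ^ a * y := by
  have h1 : (4 * (2 : ℝ) ^ (d * a)) ^ N * (y ^ N) ^ d ≤ (4 * 2 ^ a * y) ^ (d * N) := by
    have e1 : (4 * (2 : ℝ) ^ (d * a)) ^ N * (y ^ N) ^ d = 4 ^ N * (2 ^ (d * a * N) * y ^ (N * d)) := by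
      rw [mul_pow, ← pow_mul, ← pow_mul, mul_assoc]
    have e2 : (4 * (2 : ℝ) ^ a * y) ^ (d * N) = 4 ^ (d * N) * (2 ^ (d * a * N) * y ^ (N * d)) := by
      rw [mul_pow, mul_pow, ← pow_mul, mul_assoc]
      congr 3
      · ring
      · ring
    rw [e1, e2]
    refine mul_le_mul_of_nonneg_right ?_ (by positivity)
    exact pow_le_pow_right₀ (by norm_num) (Nat.le_mul_of_pos_left N hd)
  have h2 := h.trans h1
  have hne : d * N ≠ 0 := by positivity
  exact (pow_le_pow_iff_left₀ hx (by positivity) hne).1 h2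

lemma ind_nonneg (S : Finset ℕ) : (0 : ℝ) ≤ ind adj S := Nat.cast_nonneg _

/-- the bound for sets with many edges outside -/
lemma ind_le_of_eo (h : RegBip n a d adj) (hd1 : 1 ≤ d) (hk : 2 ≤ k) {m : ℕ} {S : Finset ℕ} (hS : S ⊆ range n)
    (hdeg : ∀ v ∈ S, dg adj S v + 2 * m ≤ d) (hm : a ≤ 2 ^ m)
    (he : d * d ≤ (2 * k) ^ 2 * eo a adj (range n) S) {y : ℝ} (hy : 0 < y)
    (hy2 : (1 / 2 : ℝ) ^ d ≤ y ^ ((2 * k) ^ 2)) : (ind adj S : ℝ) ≤ 4 * 2 ^ a * y := by
  have hI := ind_pow_le h hd1 hS hdeg hm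
  set x : ℝ := (ind adj S : ℝ) with hx
  have hx0 : 0 ≤ x := ind_nonneg S
  set N : ℕ := (2 * k) ^ 2 with hN
  set e : ℕ := eo a adj (range n) S with heo
  have hN1 : 1 ≤ N := Nat.one_le_pow _ _ (by omega)
  refine final_root (N := N) (d := d) hx0 hy hd1 hN1 ?_
  have h1 : x ^ (d * N) * 2 ^ (d * d) ≤ (4 * 2 ^ (d * a)) ^ N := by
    calc x ^ (d * N) * 2 ^ (d * d) ≤ x ^ (d * N) * 2 ^ (N * e) := by
          refine mul_le_mul_of_nonneg_left ?_ (by positivity)
          exact pow_le_pow_right₀ (by norm_num) he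
      _ = (x ^ d * 2 ^ e) ^ N := by
          rw [mul_pow, ← pow_mul, ← pow_mul, mul_comm N e]
      _ ≤ (4 * 2 ^ (d * a)) ^ N := pow_le_pow_left₀ (by positivity) hI N
  have h2 : x ^ (d * N) ≤ (4 * 2 ^ (d * a)) ^ N * ((1 / 2 : ℝ) ^ d) ^ d := by
    have e1 : ((1 / 2 : ℝ) ^ d) ^ d = 1 / 2 ^ (d * d) := by
      rw [← pow_mul, one_div, inv_pow, one_div]
    rw [e1, mul_one_div, le_div_iff₀ (by positivity)]
    exact h1
  refine h2.trans (mul_le_mul_of_nonneg_left ?_ (by positivity))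
  exact pow_le_pow_left₀ (by positivity) hy2 d

/-- the bound for sets with large `nu` -/
lemma ind_le_of_nu (h : RegBip n a d adj) (hk : 2 ≤ k) (hd : 400 * k ≤ d)
    (ha : a ≤ 2 ^ (d / (8 * k))) {S : Finset ℕ} (hS : S ⊆ range n)
    (hdeg : ∀ v ∈ S, dg adj S v + 2 * (d / (8 * k)) ≤ d) {X : ℕ} (hX : X < nu n a adj S) {z : ℝ} (hz : 0 < z)
    (hz2 : (1 / 2 : ℝ) ^ (2 * X) ≤ z ^ (25 * (2 * k))) : (ind adj S : ℝ) ≤ 4 * 2 ^ a * z := by
  have hd1 : 1 ≤ d := by omega
  have hI := lemF h hd1 hS hdeg ha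
  set x : ℝ := (ind adj S : ℝ) with hx
  have hx0 : 0 ≤ x := ind_nonneg S
  set m : ℕ := d / (8 * k) with hm
  set N : ℕ := 25 * (2 * k) with hN
  have hN1 : 1 ≤ N := by omega
  refine final_root (N := N) (d := d) hx0 hz hd1 hN1 ?_
  have hmd : d ≤ m * (10 * k) := by
    have h1 : d < 8 * k * (m + 1) := by
      rw [hm]
      exact Nat.lt_mul_div_succ d (by omega)
    nlinarith
  have h1 : x ^ d ≤ 4 * 2 ^ (d * a) * (3 / 4) ^ (X * m) := by
    have h2 : x ^ d ≤ x ^ d * 2 ^ eo a adj (range n) S :=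
      le_mul_of_one_le_right (by positivity) (one_le_pow₀ (by norm_num))
    have h3 : (3 / 4 : ℝ) ^ (nu n a adj S * m) ≤ (3 / 4) ^ (X * m) :=
      pow_le_pow_of_le_one (by norm_num) (by norm_num) (Nat.mul_le_mul_right _ hX.le)
    exact (h2.trans hI).trans (mul_le_mul_of_nonneg_left h3 (by positivity))
  have h2 : ((3 / 4 : ℝ) ^ (X * m)) ^ N ≤ (z ^ N) ^ d := by
    calc ((3 / 4 : ℝ) ^ (X * m)) ^ N = ((3 / 4 : ℝ) ^ 5) ^ (X * (m * (10 * k))) := by
          rw [← pow_mul, ← pow_mul]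
          congr 1
          rw [hN]
          ring
      _ ≤ ((1 / 2 : ℝ) ^ 2) ^ (X * (m * (10 * k))) :=
          pow_le_pow_left₀ (by positivity) (by norm_num) _
      _ = ((1 / 2 : ℝ) ^ (2 * X)) ^ (m * (10 * k)) := by
          rw [← pow_mul, ← pow_mul]
          congr 1
          ring
      _ ≤ ((1 / 2 : ℝ) ^ (2 * X)) ^ d :=
          pow_le_pow_of_le_one (by positivity) (pow_le_one₀ (by norm_num) (by norm_num)) hmd
      _ ≤ (z ^ N) ^ d := pow_le_pow_left₀ (by positivity) hz2 d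
  calc x ^ (d * N) = (x ^ d) ^ N := by rw [pow_mul]
    _ ≤ (4 * 2 ^ (d * a) * (3 / 4) ^ (X * m)) ^ N := pow_le_pow_left₀ (by positivity) h1 N
    _ = (4 * 2 ^ (d * a)) ^ N * ((3 / 4 : ℝ) ^ (X * m)) ^ N := by rw [mul_pow]
    _ ≤ (4 * 2 ^ (d * a)) ^ N * (z ^ N) ^ d := mul_le_mul_of_nonneg_left h2 (by positivity)

lemma mem_inds {I : Finset ℕ} :
    I ∈ inds n adj ↔ I ⊆ range n ∧ ∀ u ∈ I, ∀ v ∈ I, adj u v = false := by
  unfold inds
  rw [mem_filter, mem_powerset]

/-- the independent subsets of `S` -/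
def isub (adj : ℕ → ℕ → Bool) (S : Finset ℕ) : Finset (Finset ℕ) :=
  S.powerset.filter (fun I => ∀ u ∈ I, ∀ v ∈ I, adj u v = false)

lemma card_isub (S : Finset ℕ) : (isub adj S).card = ind adj S := rfl

lemma mem_isub {S I : Finset ℕ} : I ∈ isub adj S ↔ I ⊆ S ∧ ∀ u ∈ I, ∀ v ∈ I, adj u v = false := by
  unfold isub
  rw [mem_filter, mem_powerset]

/-- real form of a double union bound -/
lemma card_biUnion_le_real {ι : Type} [DecidableEq ι] (s : Finset ι) (F : ι → Finset (Finset ℕ)) {B : ℝ} (hB : 0 ≤ B)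
    (hF : ∀ i ∈ s, ((F i).card : ℝ) ≤ B) {K : ℝ} (hK : (s.card : ℝ) ≤ K) : ((s.biUnion F).card : ℝ) ≤ K * B := by
  have h1 : ((s.biUnion F).card : ℝ) ≤ ∑ i ∈ s, ((F i).card : ℝ) := by
    exact_mod_cast card_biUnion_le
  calc ((s.biUnion F).card : ℝ) ≤ ∑ i ∈ s, ((F i).card : ℝ) := h1
    _ ≤ ∑ _i ∈ s, B := sum_le_sum hF
    _ = s.card * B := by rw [sum_const, nsmul_eq_mul]
    _ ≤ K * B := mul_le_mul_of_nonneg_right hK hB

end BadBAux

open BadBAux

theorem pat_light (h : RegBip n a d adj) (hP : Parts n k d κ adj c) (hk : 2 ≤ k) {P : Finset ℕ}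
    {v : ℕ} (hv : v ∈ pat n a c P) : dg adj (pat n a c P) v + 2 * (d / (8 * k)) ≤ d :=
  light h hP hk hv

open Classical in
theorem bad_empty (h : RegBip n a d adj) (hP : Parts n k d κ adj c) (hk : 2 ≤ k)
    (hd : 400 * k ≤ d) (ha : a ≤ 2 ^ (d / (8 * k))) {y : ℝ} (hy : 0 < y)
    (hy2 : (1 / 2 : ℝ) ^ d ≤ y ^ ((2 * k) ^ 2)) :
    (((inds n adj).filter (fun I => ¬ Mixed a k c I ∧
      ∃ i < k, (part n c i).Nonempty ∧ I ∩ part n c i = ∅)).card : ℝ) ≤
      k * 2 ^ k * (4 * 2 ^ a * y) := by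
  have hd1 : 1 ≤ d := by omega
  have hB : (0 : ℝ) ≤ 4 * 2 ^ a * y := by positivity
  set F : ℕ → Finset (Finset ℕ) := fun i =>
    (range k).powerset.biUnion (fun P => isub adj (pat n a c P \ part n c i)) with hF
  have hsub : (inds n adj).filter (fun I => ¬ Mixed a k c I ∧
      ∃ i < k, (part n c i).Nonempty ∧ I ∩ part n c i = ∅) ⊆
      ((range k).filter (fun i => (part n c i).Nonempty)).biUnion F := by
    intro I hI
    rw [mem_filter, mem_inds] at hI
    obtain ⟨⟨hIn, hind⟩, hmix, i, hik, hne, hemp⟩ := hI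
    rw [mem_biUnion]
    refine ⟨i, mem_filter.2 ⟨mem_range.2 hik, hne⟩, ?_⟩
    rw [hF]
    simp only
    rw [mem_biUnion]
    refine ⟨(range k).filter (fun j => ∃ u ∈ I, c u = j ∧ u < a), ?_, ?_⟩
    · rw [mem_powerset]
      exact filter_subset _ _
    · rw [mem_isub]
      refine ⟨fun v hv => ?_, hind⟩
      rw [mem_sdiff, mem_pat]
      refine ⟨⟨mem_range.1 (hIn hv), ?_⟩, fun hvp => ?_⟩
      · rw [decide_eq_decide, mem_filter, mem_range]
        constructor
        · intro hva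
          exact ⟨hP.lt v, v, hv, rfl, hva⟩
        · rintro ⟨_, u, hu, huc, hua⟩
          by_contra hva
          exact hmix ⟨c v, hP.lt v, ⟨u, hu, huc, hua⟩, v, hv, rfl, hva⟩
      · have : v ∈ I ∩ part n c i := mem_inter.2 ⟨hv, hvp⟩
        rw [hemp] at this
        exact notMem_empty _ this
  have hcard : (((range k).filter (fun i => (part n c i).Nonempty)).card : ℝ) ≤ k := by
    have h1 := card_filter_le (range k) (fun i => (part n c i).Nonempty)
    rw [card_range] at h1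
    exact_mod_cast h1
  have hFi : ∀ i ∈ (range k).filter (fun i => (part n c i).Nonempty),
      ((F i).card : ℝ) ≤ 2 ^ k * (4 * 2 ^ a * y) := by
    intro i hi
    rw [mem_filter] at hi
    refine card_biUnion_le_real _ _ hB (fun P _ => ?_) ?_
    · rw [card_isub]
      have hS : pat n a c P \ part n c i ⊆ range n := sdiff_subset.trans pat_sub
      refine ind_le_of_eo h hd1 hk hS (m := d / (8 * k)) (fun v hv => ?_) ha
        (eo_ge h hP hd1 hi.2 (fun v hv hv2 => (mem_sdiff.1 hv2).2 hv)) hy hy2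
      have h1 := light h hP hk (mem_sdiff.1 hv).1
      have h2 := dg_mono' (adj := adj) (sdiff_subset (s := pat n a c P) (t := part n c i)) v
      omega
    · rw [card_powerset, card_range]
      push_cast
      exact le_rfl
  calc (((inds n adj).filter (fun I => ¬ Mixed a k c I ∧
      ∃ i < k, (part n c i).Nonempty ∧ I ∩ part n c i = ∅)).card : ℝ)
      ≤ ((((range k).filter (fun i => (part n c i).Nonempty)).biUnion F).card : ℝ) := by
        exact_mod_cast card_le_card hsub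
    _ ≤ k * (2 ^ k * (4 * 2 ^ a * y)) := card_biUnion_le_real _ _ (by positivity) hFi hcard
    _ = k * 2 ^ k * (4 * 2 ^ a * y) := by ring

open Classical in
theorem bad_nu (h : RegBip n a d adj) (hP : Parts n k d κ adj c) (hk : 2 ≤ k)
    (hd : 400 * k ≤ d) (ha : a ≤ 2 ^ (d / (8 * k))) {X : ℕ} {z : ℝ} (hz : 0 < z)
    (hz2 : (1 / 2 : ℝ) ^ (2 * X) ≤ z ^ (25 * (2 * k))) :
    (((inds n adj).filter (fun I => ∃ P ⊆ range k, I ⊆ pat n a c P ∧
      X < nu n a adj (pat n a c P))).card : ℝ) ≤ 2 ^ k * (4 * 2 ^ a * z) := by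
  have hB : (0 : ℝ) ≤ 4 * 2 ^ a * z := by positivity
  set s : Finset (Finset ℕ) := (range k).powerset.filter (fun P => X < nu n a adj (pat n a c P)) with hs
  have hsub : (inds n adj).filter (fun I => ∃ P ⊆ range k, I ⊆ pat n a c P ∧
      X < nu n a adj (pat n a c P)) ⊆ s.biUnion (fun P => isub adj (pat n a c P)) := by
    intro I hI
    rw [mem_filter, mem_inds] at hI
    obtain ⟨⟨_, hind⟩, P, hPk, hIP, hX⟩ := hI
    rw [mem_biUnion]
    refine ⟨P, ?_, mem_isub.2 ⟨hIP, hind⟩⟩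
    rw [hs, mem_filter, mem_powerset]
    exact ⟨hPk, hX⟩
  have hcard : (s.card : ℝ) ≤ 2 ^ k := by
    have h1 := card_filter_le (range k).powerset (fun P => X < nu n a adj (pat n a c P))
    rw [card_powerset, card_range] at h1
    exact_mod_cast h1
  calc (((inds n adj).filter (fun I => ∃ P ⊆ range k, I ⊆ pat n a c P ∧
      X < nu n a adj (pat n a c P))).card : ℝ)
      ≤ ((s.biUnion (fun P => isub adj (pat n a c P))).card : ℝ) := by
        exact_mod_cast card_le_card hsub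
    _ ≤ 2 ^ k * (4 * 2 ^ a * z) := by
        refine card_biUnion_le_real _ _ hB (fun P hPs => ?_) hcard
        rw [hs, mem_filter] at hPs
        rw [card_isub]
        exact ind_le_of_nu h hk hd ha pat_sub (fun v hv => light h hP hk hv) hPs.2 hz hz2

open Classical in
theorem bad_alp (h : RegBip n a d adj) {X hh : ℕ}
    (halp : ∀ I J : Finset ℕ, I ⊆ J → J ⊆ range n → (∀ u ∈ J, ∀ v ∈ J, adj u v = false) →
      J.card ≤ alp n a adj I) :
    (((inds n adj).filter (fun I => (∃ P ⊆ range k, I ⊆ pat n a c P ∧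
      nu n a adj (pat n a c P) ≤ X) ∧ alp n a adj I + hh < a)).card : ℝ) ≤
      2 ^ k * (2 ^ X * (2 ^ a / 2 ^ hh)) := by
  set s : Finset (Finset ℕ) := (range k).powerset.filter (fun P => nu n a adj (pat n a c P) ≤ X) with hs
  set G : Finset ℕ → Finset (Finset ℕ) := fun P =>
    (inds n adj).filter (fun I => I ⊆ pat n a c P ∧ alp n a adj I + hh < a) with hG
  have hsub : (inds n adj).filter (fun I => (∃ P ⊆ range k, I ⊆ pat n a c P ∧
      nu n a adj (pat n a c P) ≤ X) ∧ alp n a adj I + hh < a) ⊆ s.biUnion G := by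
    intro I hI
    rw [mem_filter] at hI
    obtain ⟨hI1, ⟨P, hPk, hIP, hX⟩, hlt⟩ := hI
    rw [mem_biUnion]
    refine ⟨P, ?_, ?_⟩
    · rw [hs, mem_filter, mem_powerset]
      exact ⟨hPk, hX⟩
    · rw [hG]
      exact mem_filter.2 ⟨hI1, hIP, hlt⟩
  have hcard : (s.card : ℝ) ≤ 2 ^ k := by
    have h1 := card_filter_le (range k).powerset (fun P => nu n a adj (pat n a c P) ≤ X)
    rw [card_powerset, card_range] at h1
    exact_mod_cast h1
  have hGP : ∀ P ∈ s, ((G P).card : ℝ) ≤ 2 ^ X * (2 ^ a / 2 ^ hh) := by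
    intro P hPs
    rw [hs, mem_filter] at hPs
    obtain ⟨Y0, hY0, hY0c, hY0i⟩ := nu_indep (n := n) (a := a) (adj := adj) (S := pat n a c P) pat_sub h.symm h.bip
    set K : Finset ℕ := pat n a c P \ Y0 with hK
    have hKc : K.card ≤ X := by
      have h1 := card_sdiff_add_card_eq_card hY0
      have h2 : K.card + Y0.card = (pat n a c P).card := h1
      omega
    set H : Finset ℕ → Finset (Finset ℕ) := fun K' => (G P).filter (fun I => I ∩ K = K') with hH
    have hsub2 : G P ⊆ K.powerset.biUnion H := by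
      intro I hI
      rw [mem_biUnion]
      refine ⟨I ∩ K, mem_powerset.2 inter_subset_right, ?_⟩
      rw [hH]
      exact mem_filter.2 ⟨hI, rfl⟩
    have hHK : ∀ K' ∈ K.powerset, ((H K').card : ℝ) ≤ 2 ^ a / 2 ^ hh := by
      intro K' _
      rcases (H K').eq_empty_or_nonempty with he | ⟨I0, hI0⟩
      · rw [he, card_empty]
        push_cast
        positivity
      · have hmemH : ∀ I, I ∈ H K' → (I ⊆ range n ∧ ∀ u ∈ I, ∀ v ∈ I, adj u v = false) ∧ I ⊆ pat n a c P ∧
            alp n a adj I + hh < a ∧ I ∩ K = K' := by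
          intro I hI
          rw [hH] at hI
          have h1 := mem_filter.1 hI
          rw [hG] at h1
          have h2 := mem_filter.1 h1.1
          exact ⟨mem_inds.1 h2.1, h2.2.1, h2.2.2, h1.2⟩
        set M : Finset ℕ := K' ∪ Y0.filter (fun v => ∀ u ∈ K', adj u v = false) with hM
        have hIM : ∀ I, I ∈ H K' → I ⊆ M := by
          intro I hI v hv
          obtain ⟨⟨_, hind⟩, hIP, _, hIK⟩ := hmemH I hI
          rw [hM, mem_union]
          by_cases hvK : v ∈ K
          · left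
            rw [← hIK]
            exact mem_inter.2 ⟨hv, hvK⟩
          · right
            have hvY : v ∈ Y0 := by
              by_contra hvY
              exact hvK (mem_sdiff.2 ⟨hIP hv, hvY⟩)
            rw [mem_filter]
            refine ⟨hvY, fun u hu => ?_⟩
            rw [← hIK] at hu
            exact hind u (mem_inter.1 hu).1 v hv
        obtain ⟨⟨hI0n, hI0ind⟩, hI0P, hI0a, hI0K⟩ := hmemH I0 hI0
        have hK'I : K' ⊆ I0 := by
          rw [← hI0K]
          exact inter_subset_left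
        have hMn : M ⊆ range n := by
          intro v hv
          rw [hM, mem_union] at hv
          rcases hv with hv | hv
          · exact hI0n (hK'I hv)
          · exact pat_sub (hY0 (mem_filter.1 hv).1)
        have hMi : ∀ u ∈ M, ∀ v ∈ M, adj u v = false := by
          intro u hu v hv
          rw [hM, mem_union] at hu hv
          rcases hu with hu | hu
          · rcases hv with hv | hv
            · exact hI0ind u (hK'I hu) v (hK'I hv)
            · exact (mem_filter.1 hv).2 u hu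
          · rcases hv with hv | hv
            · rw [h.symm]
              exact (mem_filter.1 hu).2 v hv
            · exact hY0i u (mem_filter.1 hu).1 v (mem_filter.1 hv).1
        have hMc : M.card + hh ≤ a := by
          have h1 := halp I0 M (hIM I0 hI0) hMn hMi
          omega
        have h1 : (H K').card ≤ 2 ^ M.card := by
          rw [← card_powerset]
          exact card_le_card (fun I hI => mem_powerset.2 (hIM I hI))
        rw [le_div_iff₀ (by positivity)]
        have h2 : (H K').card * 2 ^ hh ≤ 2 ^ a := by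
          calc (H K').card * 2 ^ hh ≤ 2 ^ M.card * 2 ^ hh := Nat.mul_le_mul_right _ h1
            _ = 2 ^ (M.card + hh) := by rw [pow_add]
            _ ≤ 2 ^ a := Nat.pow_le_pow_right (by norm_num) hMc
        exact_mod_cast h2
    calc ((G P).card : ℝ) ≤ ((K.powerset.biUnion H).card : ℝ) := by exact_mod_cast card_le_card hsub2
      _ ≤ 2 ^ X * (2 ^ a / 2 ^ hh) := by
          refine card_biUnion_le_real _ _ (by positivity) hHK ?_
          rw [card_powerset]
          push_cast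
          exact pow_le_pow_right₀ (by norm_num) hKc
  calc (((inds n adj).filter (fun I => (∃ P ⊆ range k, I ⊆ pat n a c P ∧
      nu n a adj (pat n a c P) ≤ X) ∧ alp n a adj I + hh < a)).card : ℝ)
      ≤ ((s.biUnion G).card : ℝ) := by exact_mod_cast card_le_card hsub
    _ ≤ 2 ^ k * (2 ^ X * (2 ^ a / 2 ^ hh)) := card_biUnion_le_real _ _ (by positivity) hGP hcard

end Pool.Agent.Lib.Pa7c826m
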