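import Pool.Agent.Lib.Pa7c826m.BadA
import Pool.Agent.Lib.Pa7c826m.BadB
import Pool.Agent.Lib.Pa7c826m.Region

/-!
The number of bad independent sets.

PROOF. A bad independent set is mixed; or it is not mixed and misses a nonempty part; or it is not mixed and `I ⊆ pat P` for
`P` = the set of the parts in which it has a left vertex (`lpat`), and then either `nu (pat P) > X`, or `nu (pat P) ≤ X` and
`alp I + hh < a`. Sum `bad_mixed`, `bad_empty`, `bad_nu`, `bad_alp` (with `alp_max`).
-/

namespace Pool.Agent.Lib.Pa7c826m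

open Finset Pool.Agent.Lib.Pa7c826 Pool.Agent.Lib.Pa7c826t

theorem bads_le {n a d k κ : ℕ} {adj : ℕ → ℕ → Bool} {c : ℕ → ℕ} (h : RegBip n a d adj)
    (hP : Parts n k d κ adj c) (hk : 2 ≤ k) (hd : 400 * k ≤ d) (ha : a ≤ 2 ^ (d / (8 * k)))
    {X hh : ℕ} {x y z : ℝ} (hx : 0 < x) (hx2 : (1 / 2 : ℝ) ^ κ ≤ x ^ (325 * (2 * k) ^ 3))
    (hy : 0 < y) (hy2 : (1 / 2 : ℝ) ^ d ≤ y ^ ((2 * k) ^ 2))
    (hz : 0 < z) (hz2 : (1 / 2 : ℝ) ^ (2 * X) ≤ z ^ (25 * (2 * k))) :
    ((bads n a k hh X adj c).card : ℝ) ≤ 2 ^ k * 2 ^ a *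
      (4 * ((1 + x) ^ (2 * n) - 1) + 4 * k * y + 4 * z + 2 ^ X / 2 ^ hh) := by
  classical
  have h1 := bad_mixed (κ := κ) h hP hk hd ha hx hx2
  have h2 := bad_empty (κ := κ) h hP hk hd ha hy hy2
  have h3 := bad_nu (κ := κ) h hP hk hd ha hz hz2
  have h4 := bad_alp (k := k) (c := c) (X := X) (hh := hh) h
    (fun I J hIJ hJ hI => alp_max h hIJ hJ hI)
  have hsub : bads n a k hh X adj c ⊆
      (((inds n adj).filter (fun I => Mixed a k c I) ∪
        (inds n adj).filter (fun I => ¬ Mixed a k c I ∧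
          ∃ i < k, (part n c i).Nonempty ∧ I ∩ part n c i = ∅)) ∪
        (inds n adj).filter (fun I => ∃ P ⊆ range k, I ⊆ pat n a c P ∧
          X < nu n a adj (pat n a c P))) ∪
        (inds n adj).filter (fun I => (∃ P ⊆ range k, I ⊆ pat n a c P ∧
          nu n a adj (pat n a c P) ≤ X) ∧ alp n a adj I + hh < a) := by
    intro I hI
    obtain ⟨hIi, hbad⟩ := Finset.mem_filter.1 hI
    have hIi' := hIi
    obtain ⟨hIr, hIind⟩ := Finset.mem_filter.1 hIi'
    have hIr' : I ⊆ range n := Finset.mem_powerset.1 hIr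
    by_cases hm : Mixed a k c I
    · exact Finset.mem_union_left _ (Finset.mem_union_left _ (Finset.mem_union_left _
        (Finset.mem_filter.2 ⟨hIi, hm⟩)))
    by_cases he : ∃ i < k, (part n c i).Nonempty ∧ I ∩ part n c i = ∅
    · exact Finset.mem_union_left _ (Finset.mem_union_left _ (Finset.mem_union_right _
        (Finset.mem_filter.2 ⟨hIi, hm, he⟩)))
    -- the set of parts with a left vertex of `I`
    set P : Finset ℕ := (range k).filter (fun i => ∃ u ∈ I, c u = i ∧ u < a) with hPdef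
    have hPk : P ⊆ range k := Finset.filter_subset _ _
    have hIP : I ⊆ pat n a c P := by
      intro v hv
      refine Finset.mem_filter.2 ⟨hIr' hv, ?_⟩
      by_cases hva : v < a
      · have : c v ∈ P := Finset.mem_filter.2 ⟨Finset.mem_range.2 (hP.lt v), v, hv, rfl, hva⟩
        simp [hva, this]
      · have : c v ∉ P := by
          intro hc
          obtain ⟨_, u, hu, hcu, hua⟩ := Finset.mem_filter.1 hc
          exact hm ⟨c v, hP.lt v, ⟨u, hu, hcu, hua⟩, v, hv, rfl, hva⟩
        simp [hva, this]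
    by_cases hnu : X < nu n a adj (pat n a c P)
    · exact Finset.mem_union_left _ (Finset.mem_union_right _
        (Finset.mem_filter.2 ⟨hIi, P, hPk, hIP, hnu⟩))
    refine Finset.mem_union_right _ (Finset.mem_filter.2 ⟨hIi, ⟨P, hPk, hIP, not_lt.1 hnu⟩, ?_⟩)
    by_contra hal
    refine hbad ⟨hIr', hIind, ?_, ⟨P, hPk, hIP, not_lt.1 hnu⟩, not_lt.1 hal⟩
    intro i hi hne
    rw [Finset.nonempty_iff_ne_empty]
    intro h0
    exact he ⟨i, hi, hne, h0⟩
  have hc : ((bads n a k hh X adj c).card : ℝ) ≤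
      (((inds n adj).filter (fun I => Mixed a k c I)).card : ℝ) +
      (((inds n adj).filter (fun I => ¬ Mixed a k c I ∧
          ∃ i < k, (part n c i).Nonempty ∧ I ∩ part n c i = ∅)).card : ℝ) +
      (((inds n adj).filter (fun I => ∃ P ⊆ range k, I ⊆ pat n a c P ∧
          X < nu n a adj (pat n a c P))).card : ℝ) +
      (((inds n adj).filter (fun I => (∃ P ⊆ range k, I ⊆ pat n a c P ∧
          nu n a adj (pat n a c P) ≤ X) ∧ alp n a adj I + hh < a)).card : ℝ) := by
    have hn : (bads n a k hh X adj c).card ≤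
      ((inds n adj).filter (fun I => Mixed a k c I)).card +
      ((inds n adj).filter (fun I => ¬ Mixed a k c I ∧
          ∃ i < k, (part n c i).Nonempty ∧ I ∩ part n c i = ∅)).card +
      ((inds n adj).filter (fun I => ∃ P ⊆ range k, I ⊆ pat n a c P ∧
          X < nu n a adj (pat n a c P))).card +
      ((inds n adj).filter (fun I => (∃ P ⊆ range k, I ⊆ pat n a c P ∧
          nu n a adj (pat n a c P) ≤ X) ∧ alp n a adj I + hh < a)).card := by
      refine (Finset.card_le_card hsub).trans ?_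
      refine (Finset.card_union_le _ _).trans (Nat.add_le_add_right ?_ _)
      refine (Finset.card_union_le _ _).trans (Nat.add_le_add_right ?_ _)
      exact Finset.card_union_le _ _
    exact_mod_cast hn
  calc ((bads n a k hh X adj c).card : ℝ)
      ≤ 2 ^ k * (4 * 2 ^ a) * ((1 + x) ^ (2 * n) - 1) + k * 2 ^ k * (4 * 2 ^ a * y) +
          2 ^ k * (4 * 2 ^ a * z) + 2 ^ k * (2 ^ X * (2 ^ a / 2 ^ hh)) := by
        refine hc.trans ?_
        refine add_le_add (add_le_add (add_le_add ?_ ?_) ?_) ?_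
        · convert h1
        · convert h2
        · convert h3
        · convert h4
    _ = 2 ^ k * 2 ^ a *
      (4 * ((1 + x) ^ (2 * n) - 1) + 4 * k * y + 4 * z + 2 ^ X / 2 ^ hh) := by ring

end Pool.Agent.Lib.Pa7c826m
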