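import Pool.Agent.Lib.Pa7c826m.EdLem

/-!
The partition lemma: `k`-way expansion at least `κ (4 k) ^ (k - 1)` gives a partition into at most `k - 1` parts
with edge expansion at least `κ` inside.

PROOF. Write `e = ed adj`, `bd W = e W (range n \ W)`, `V = range n`, `κ_m = κ (4 k) ^ (m - 1)`. `P m`: there are `m` pairwise
disjoint nonempty sets `W_j ⊆ V` with `bd W_j < κ_m |W_j|`. `P 1` holds (`W = V`, `bd V = 0`; `n ≥ k ≥ 2`), `P k` fails by `KW`.
Let `m < k` be the largest number with `P m`, so `P (m + 1)` fails; `κ_{m+1} = 4 k κ_m`. Among the tuples `W` as in `P m`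
take one with minimal `∑ bd W_j`, and among the colourings `c` of `V` by `Fin m` with `c = j` on `W_j` take one with the smallest
number of pairs of adjacent vertices of different colours (`Finset.exists_min_image` or `Nat.find`; functions `ℕ → Fin m` may be
restricted to `range n`). Put `V_j = part n c j`.
Let `S ⊆ V_i`, `S1 = S \ W_i`, `S2 = S ∩ W_i`.
(ii) for `j ≠ i`: `e S1 V_j ≤ e S1 (V_i \ S1)`: recolour `S1` with `j`.
(i) `e S2 (V \ W_i) ≤ e S2 (W_i \ S2) + κ_m |S2|`. If `W_i ⊆ S` the left side is `bd W_i < κ_m |W_i|`. Otherwise replace `W_i` by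
`W' = W_i \ S2`: `bd W' = bd W_i + e S2 W' - e S2 (V \ W_i)`. If `bd W' < κ_m |W'|`, then `bd W' ≥ bd W_i` by minimality. Otherwise
`bd W' ≥ κ_m |W_i| - κ_m |S2| > bd W_i - κ_m |S2|`.
`exp`: let `T = V_i \ S`, w.l.o.g. `0 < |S| ≤ |T|` (the other case by symmetry, `ed_comm`), and suppose `e S T < κ_m |S|` (it
suffices to exclude this: `κ ≤ κ_m`). By (i), `e S2 (V \ W_i) ≤ e S T + κ_m |S|`. `S1` and the `V_j`, `j ≠ i`, are disjoint subsets of
`V \ W_i`, so `(m - 1) e S1 S2 + ∑_j e S2 V_j ≤ (m - 1) e S2 (V \ W_i)` if `m ≥ 2`. Hence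
`bd S = e S T + ∑_{j ≠ i} (e S1 V_j + e S2 V_j) ≤ e S T + (m - 1) (e S1 T + e S1 S2) + ∑_j e S2 V_j
≤ m e S T + (m - 1) (e S T + κ_m |S|) < 3 m κ_m |S| < κ_{m+1} |S|`. By (ii) for `S1 = V_i \ W_i`,
`bd V_i ≤ m bd W_i ≤ m κ_m |W_i|`, so `bd T ≤ e S T + bd V_i < κ_m |T| + 2 m κ_m |T| < κ_{m+1} |T|`. So the `W_j` (`j ≠ i`), `S`
and `T` show `P (m + 1)`, a contradiction.
`deg`: let `v ∈ V_i`. If `v ∉ W_i`, (ii) with `S1 = {v}` gives `d ≤ m dg V_i v`. If `v ∈ W_i`: `W_i ≠ {v}` because `bd {v} = d ≥ κ_m |{v}|`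
(`κ_m ≤ d / 8`: `KW` for `k` different one-element sets gives `κ (4 k) ^ (k - 1) ≤ d`); (i) with `S2 = {v}` gives
`d - dg W_i v ≤ dg W_i v + κ_m`, so `2 dg W_i v ≥ 7 d / 8`, `2 k dg V_i v ≥ d`.
-/

namespace Pool.Agent.Lib.Pa7c826m

open Finset Pool.Agent.Lib.Pa7c826 Pool.Agent.Lib.Pa7c826t

/-- `P m` -/
def PW (n k κ : ℕ) (adj : ℕ → ℕ → Bool) (m : ℕ) : Prop :=
  ∃ W : Fin m → Finset ℕ, (∀ i, (W i).Nonempty) ∧ (∀ i, W i ⊆ range n) ∧
    (∀ i j, i ≠ j → Disjoint (W i) (W j)) ∧
    ∀ i, ed adj (W i) (range n \ W i) < κ * (4 * k) ^ (m - 1) * (W i).card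

namespace PartAux

lemma exists_min {α : Type} (p : α → Prop) (f : α → ℕ) (h : ∃ x, p x) :
    ∃ x, p x ∧ ∀ y, p y → f x ≤ f y := by
  classical
  have h' : ∃ N, ∃ x, p x ∧ f x = N := by
    obtain ⟨x, hx⟩ := h
    exact ⟨f x, x, hx, rfl⟩
  obtain ⟨x, hx, hN⟩ := Nat.find_spec h'
  refine ⟨x, hx, fun y hy => ?_⟩
  rw [hN]
  exact Nat.find_min' h' ⟨y, hy, rfl⟩

lemma exists_max {α : Type} (p : α → Prop) (f : α → ℕ) (B : ℕ) (h : ∃ x, p x)
    (hB : ∀ x, p x → f x ≤ B) : ∃ x, p x ∧ ∀ y, p y → f y ≤ f x := by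
  obtain ⟨x, hx, hm⟩ := exists_min p (fun x => B - f x) h
  refine ⟨x, hx, fun y hy => ?_⟩
  have h1 := hm y hy
  have h2 := hB x hx
  have h3 := hB y hy
  omega

/-- disjoint nonempty sets of small boundary -/
def Val (n : ℕ) (adj : ℕ → ℕ → Bool) (μ : ℕ) {m : ℕ} (W : Fin m → Finset ℕ) : Prop :=
  (∀ i, (W i).Nonempty) ∧ (∀ i, W i ⊆ range n) ∧
    (∀ i j, i ≠ j → Disjoint (W i) (W j)) ∧
    ∀ i, ed adj (W i) (range n \ W i) < μ * (W i).card

lemma ed_single (adj : ℕ → ℕ → Bool) (v : ℕ) (B : Finset ℕ) : ed adj {v} B = dg adj B v := by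
  unfold ed
  rw [Finset.sum_singleton]

variable {n : ℕ} {adj : ℕ → ℕ → Bool}

/-- (i) -/
lemma factB {m μ : ℕ} (hs : ∀ u v, adj u v = adj v u) (W : Fin m → Finset ℕ)
    (hW : Val n adj μ W)
    (hmin : ∀ W' : Fin m → Finset ℕ, Val n adj μ W' →
      ∑ i, ed adj (W i) (range n \ W i) ≤ ∑ i, ed adj (W' i) (range n \ W' i))
    (i : Fin m) {S : Finset ℕ} (hS : S ⊆ W i) :
    ed adj S (range n \ W i) ≤ ed adj S (W i \ S) + μ * S.card := by
  classical
  obtain ⟨h1, h2, h3, h4⟩ := hW
  rcases (W i \ S).eq_empty_or_nonempty with he | hne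
  · have : S = W i := Finset.Subset.antisymm hS (Finset.sdiff_eq_empty_iff_subset.mp he)
    rw [this]
    have := h4 i
    omega
  · have hdis : Disjoint (W i \ S) S := Finset.sdiff_disjoint
    have hun : (W i \ S) ∪ S = W i := Finset.sdiff_union_of_subset hS
    have e1 : ed adj (W i) (range n \ W i) =
        ed adj (W i \ S) (range n \ W i) + ed adj S (range n \ W i) := by
      rw [← ed_union_left hdis, hun]
    have e2 : range n \ (W i \ S) = (range n \ W i) ∪ S := by
      ext x
      simp only [Finset.mem_sdiff, Finset.mem_union]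
      constructor
      · rintro ⟨a1, a2⟩
        by_cases hx : x ∈ W i
        · right
          by_contra hxS
          exact a2 ⟨hx, hxS⟩
        · exact Or.inl ⟨a1, hx⟩
      · rintro (⟨a1, a2⟩ | a1)
        · exact ⟨a1, fun hx => a2 hx.1⟩
        · exact ⟨h2 i (hS a1), fun hx => hx.2 a1⟩
    have hdis2 : Disjoint (range n \ W i) S := by
      rw [Finset.disjoint_left]
      intro x hx hxS
      exact (Finset.mem_sdiff.mp hx).2 (hS hxS)
    have e3 : ed adj (W i \ S) (range n \ (W i \ S)) =
        ed adj (W i \ S) (range n \ W i) + ed adj (W i \ S) S := by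
      rw [e2, ed_union_right hdis2]
    have e4 := ed_comm hs (W i \ S) S
    have hcard : (W i \ S).card + S.card = (W i).card := by
      rw [← Finset.card_union_of_disjoint hdis, hun]
    have h5 := h4 i
    by_cases hcase : ed adj (W i \ S) (range n \ (W i \ S)) < μ * (W i \ S).card
    · have hval : Val n adj μ (Function.update W i (W i \ S)) := by
        refine ⟨fun j => ?_, fun j => ?_, fun j l hjl => ?_, fun j => ?_⟩
        · by_cases hj : j = i
          · subst hj
            rw [Function.update_self]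
            exact hne
          · rw [Function.update_of_ne hj]
            exact h1 j
        · by_cases hj : j = i
          · subst hj
            rw [Function.update_self]
            exact Finset.sdiff_subset.trans (h2 j)
          · rw [Function.update_of_ne hj]
            exact h2 j
        · by_cases hj : j = i
          · subst hj
            rw [Function.update_self, Function.update_of_ne (Ne.symm hjl)]
            exact Finset.disjoint_of_subset_left Finset.sdiff_subset (h3 j l hjl)
          · by_cases hl : l = i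
            · subst hl
              rw [Function.update_self, Function.update_of_ne hj]
              exact Finset.disjoint_of_subset_right Finset.sdiff_subset (h3 j l hjl)
            · rw [Function.update_of_ne hj, Function.update_of_ne hl]
              exact h3 j l hjl
        · by_cases hj : j = i
          · subst hj
            rw [Function.update_self]
            exact hcase
          · rw [Function.update_of_ne hj]
            exact h4 j
      have h6 := hmin _ hval
      rw [← Finset.add_sum_erase _ _ (Finset.mem_univ i),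
        ← Finset.add_sum_erase _ _ (Finset.mem_univ i), Function.update_self] at h6
      have h7 : ∑ j ∈ univ.erase i, ed adj (Function.update W i (W i \ S) j)
          (range n \ Function.update W i (W i \ S) j) =
          ∑ j ∈ univ.erase i, ed adj (W j) (range n \ W j) := by
        refine Finset.sum_congr rfl fun j hj => ?_
        rw [Function.update_of_ne (Finset.ne_of_mem_erase hj)]
      rw [h7] at h6
      omega
    · have h6 := not_lt.mp hcase
      rw [← hcard, mul_add] at h5
      omega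

/-- colour class -/
def cl (n : ℕ) {m : ℕ} (c : ℕ → Fin m) (j : Fin m) : Finset ℕ :=
  (range n).filter (fun v => c v = j)

lemma mem_cl {m : ℕ} {c : ℕ → Fin m} {j : Fin m} {v : ℕ} : v ∈ cl n c j ↔ v < n ∧ c v = j := by
  unfold cl
  rw [Finset.mem_filter, Finset.mem_range]

lemma cl_disj {m : ℕ} (c : ℕ → Fin m) {i j : Fin m} (h : i ≠ j) :
    Disjoint (cl n c i) (cl n c j) := by
  rw [Finset.disjoint_left]
  intro x hx hy
  rw [mem_cl] at hx hy
  exact h (hx.2.symm.trans hy.2)

lemma cl_sub {m : ℕ} (c : ℕ → Fin m) (i : Fin m) : cl n c i ⊆ range n := Finset.filter_subset _ _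

lemma dg_compl {m : ℕ} (c : ℕ → Fin m) (i : Fin m) (v : ℕ) :
    dg adj (range n \ cl n c i) v = ∑ j ∈ univ.erase i, dg adj (cl n c j) v := by
  classical
  unfold dg
  rw [Finset.card_eq_sum_card_fiberwise (f := c) (t := univ.erase i)]
  · refine Finset.sum_congr rfl fun j hj => ?_
    congr 1
    ext u
    simp only [Finset.mem_filter, Finset.mem_sdiff, mem_cl, Finset.mem_range]
    have hji := Finset.ne_of_mem_erase hj
    constructor
    · rintro ⟨⟨⟨a1, a2⟩, a3⟩, a4⟩
      exact ⟨⟨a1, a4⟩, a3⟩
    · rintro ⟨⟨a1, a4⟩, a3⟩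
      exact ⟨⟨⟨a1, fun h => hji (a4.symm.trans h.2)⟩, a3⟩, a4⟩
  · intro u hu
    have hu' := Finset.mem_filter.mp hu
    have hu2 := Finset.mem_sdiff.mp hu'.1
    rw [Finset.mem_coe, Finset.mem_erase]
    refine ⟨fun h => hu2.2 (mem_cl.mpr ⟨Finset.mem_range.mp hu2.1, h⟩), Finset.mem_univ _⟩

lemma ed_compl_cl {m : ℕ} (c : ℕ → Fin m) (i : Fin m) (A : Finset ℕ) :
    ed adj A (range n \ cl n c i) = ∑ j ∈ univ.erase i, ed adj A (cl n c j) := by
  unfold ed
  rw [Finset.sum_comm]
  exact Finset.sum_congr rfl fun v _ => dg_compl c i v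

lemma ed_self_union (hs : ∀ u v, adj u v = adj v u) {A B : Finset ℕ} (h : Disjoint A B) :
    ed adj (A ∪ B) (A ∪ B) = ed adj A A + 2 * ed adj B A + ed adj B B := by
  rw [ed_union_left h, ed_union_right h, ed_union_right h, ed_comm hs A B]
  ring

/-- (ii) -/
lemma factA {m : ℕ} (hs : ∀ u v, adj u v = adj v u) (W : Fin m → Finset ℕ) (c : ℕ → Fin m)
    (hc : ∀ i, ∀ v ∈ W i, c v = i)
    (hmax : ∀ c' : ℕ → Fin m, (∀ i, ∀ v ∈ W i, c' v = i) →
      ∑ l, ed adj (cl n c' l) (cl n c' l) ≤ ∑ l, ed adj (cl n c l) (cl n c l))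
    {i j : Fin m} (hij : j ≠ i) {S : Finset ℕ} (hS : S ⊆ cl n c i) (hSW : Disjoint S (W i)) :
    ed adj S (cl n c j) ≤ ed adj S (cl n c i \ S) := by
  classical
  obtain ⟨c', hc'⟩ : ∃ c' : ℕ → Fin m, c' = fun v => if v ∈ S then j else c v := ⟨_, rfl⟩
  have hv : ∀ l, ∀ v ∈ W l, c' v = l := by
    intro l v hv
    rw [hc']
    simp only
    rw [if_neg]
    · exact hc l v hv
    · intro hvS
      have h1 := (mem_cl.mp (hS hvS)).2
      have h2 := hc l v hv
      have h3 : l = i := h2.symm.trans h1
      subst h3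
      exact Finset.disjoint_left.mp hSW hvS hv
  have h0 := hmax c' hv
  have ei : cl n c' i = cl n c i \ S := by
    ext v
    rw [Finset.mem_sdiff, mem_cl, mem_cl, hc']
    simp only
    by_cases hvS : v ∈ S
    · rw [if_pos hvS]
      constructor
      · rintro ⟨_, h⟩
        exact absurd h hij
      · rintro ⟨_, h⟩
        exact absurd hvS h
    · rw [if_neg hvS]
      exact ⟨fun h => ⟨h, hvS⟩, fun h => h.1⟩
  have ej : cl n c' j = cl n c j ∪ S := by
    ext v
    rw [Finset.mem_union, mem_cl, mem_cl, hc']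
    simp only
    by_cases hvS : v ∈ S
    · rw [if_pos hvS]
      exact ⟨fun _ => Or.inr hvS, fun _ => ⟨(mem_cl.mp (hS hvS)).1, rfl⟩⟩
    · rw [if_neg hvS]
      exact ⟨fun h => Or.inl h, fun h => h.elim id (fun h => absurd h hvS)⟩
  have el : ∀ l, l ≠ i → l ≠ j → cl n c' l = cl n c l := by
    intro l hli hlj
    ext v
    rw [mem_cl, mem_cl, hc']
    simp only
    by_cases hvS : v ∈ S
    · rw [if_pos hvS]
      constructor
      · rintro ⟨_, h⟩
        exact absurd h.symm hlj
      · rintro ⟨_, h⟩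
        exact absurd (h.symm.trans (mem_cl.mp (hS hvS)).2) hli
    · rw [if_neg hvS]
  have hj' : j ∈ univ.erase i := Finset.mem_erase.mpr ⟨hij, Finset.mem_univ _⟩
  rw [← Finset.add_sum_erase _ _ (Finset.mem_univ i),
    ← Finset.add_sum_erase _ _ (Finset.mem_univ i),
    ← Finset.add_sum_erase _ _ hj', ← Finset.add_sum_erase _ _ hj', ei, ej] at h0
  have h1 : ∑ l ∈ (univ.erase i).erase j, ed adj (cl n c' l) (cl n c' l) =
      ∑ l ∈ (univ.erase i).erase j, ed adj (cl n c l) (cl n c l) := by
    refine Finset.sum_congr rfl fun l hl => ?_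
    have h2 := Finset.mem_erase.mp hl
    have h3 := Finset.mem_erase.mp h2.2
    rw [el l h3.1 h2.1]
  have hd1 : Disjoint (cl n c i \ S) S := Finset.sdiff_disjoint
  have hd2 : Disjoint (cl n c j) S :=
    Finset.disjoint_of_subset_right hS (cl_disj c hij)
  have e1 : ed adj (cl n c i) (cl n c i) =
      ed adj (cl n c i \ S) (cl n c i \ S) + 2 * ed adj S (cl n c i \ S) + ed adj S S := by
    rw [← ed_self_union hs hd1, Finset.sdiff_union_of_subset hS]
  have e2 := ed_self_union hs hd2
  rw [h1, e1, e2] at h0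
  omega

/-- the main contradiction -/
lemma small {m μ k : ℕ} (hs : ∀ u v, adj u v = adj v u) (W : Fin m → Finset ℕ)
    (hm : 1 ≤ m) (hmk : m ≤ k) (hW : Val n adj μ W)
    (hmin : ∀ W' : Fin m → Finset ℕ, Val n adj μ W' →
      ∑ i, ed adj (W i) (range n \ W i) ≤ ∑ i, ed adj (W' i) (range n \ W' i))
    (c : ℕ → Fin m) (hc : ∀ i, ∀ v ∈ W i, c v = i)
    (hmax : ∀ c' : ℕ → Fin m, (∀ i, ∀ v ∈ W i, c' v = i) →
      ∑ l, ed adj (cl n c' l) (cl n c' l) ≤ ∑ l, ed adj (cl n c l) (cl n c l))
    (hno : ¬ ∃ W' : Fin (m + 1) → Finset ℕ, Val n adj (4 * k * μ) W')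
    (i : Fin m) {S : Finset ℕ} (hS : S ⊆ cl n c i) (hS0 : 1 ≤ S.card)
    (hST : S.card ≤ (cl n c i \ S).card) :
    μ * S.card ≤ ed adj S (cl n c i \ S) := by
  classical
  by_contra hcon
  have hcon' := not_le.mp hcon
  apply hno
  have hWc : ∀ j, W j ⊆ cl n c j := fun j v hv =>
    mem_cl.mpr ⟨Finset.mem_range.mp (hW.2.1 j hv), hc j v hv⟩
  obtain ⟨T, hT⟩ : ∃ T, T = cl n c i \ S := ⟨_, rfl⟩
  rw [← hT] at hcon' hST
  have hTc : T ⊆ cl n c i := by rw [hT]; exact Finset.sdiff_subset
  have hST' : Disjoint S T := by rw [hT]; exact Finset.disjoint_sdiff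
  have hSTu : S ∪ T = cl n c i := by rw [hT]; exact Finset.union_sdiff_of_subset hS
  obtain ⟨S1, hS1⟩ : ∃ S1, S1 = S \ W i := ⟨_, rfl⟩
  obtain ⟨S2, hS2⟩ : ∃ S2, S2 = S ∩ W i := ⟨_, rfl⟩
  have hd12 : Disjoint S1 S2 := by
    rw [hS1, hS2, Finset.disjoint_left]
    intro x hx hy
    exact (Finset.mem_sdiff.mp hx).2 (Finset.mem_inter.mp hy).2
  have hu12 : S1 ∪ S2 = S := by
    rw [hS1, hS2]
    ext x
    simp only [Finset.mem_union, Finset.mem_sdiff, Finset.mem_inter]
    tauto
  have hS1S : S1 ⊆ S := by rw [hS1]; exact Finset.sdiff_subset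
  have hS2S : S2 ⊆ S := by rw [hS2]; exact Finset.inter_subset_left
  have hS2W : S2 ⊆ W i := by rw [hS2]; exact Finset.inter_subset_right
  have hS1W : Disjoint S1 (W i) := by rw [hS1]; exact Finset.sdiff_disjoint
  -- (i)
  have b1 := factB hs W hW hmin i hS2W
  have b2 : ed adj S2 (W i \ S2) ≤ ed adj S T := by
    refine ed_mono hS2S ?_
    rw [hT, hS2]
    intro x hx
    rw [Finset.mem_sdiff, Finset.mem_inter] at hx
    rw [Finset.mem_sdiff]
    exact ⟨hWc i hx.1, fun h => hx.2 ⟨h, hx.1⟩⟩
  have b3 : μ * S2.card ≤ μ * S.card := Nat.mul_le_mul_left _ (Finset.card_le_card hS2S)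
  -- (ii)
  have a1 : ∀ j ∈ univ.erase i, ed adj S1 (cl n c j) ≤ ed adj S1 T + ed adj S1 S2 := by
    intro j hj
    have h1 := factA hs W c hc hmax (Finset.ne_of_mem_erase hj) (hS1S.trans hS) hS1W
    refine h1.trans ?_
    have hdT : Disjoint T S2 := Finset.disjoint_of_subset_right hS2S hST'.symm
    rw [← ed_union_right hdT]
    refine ed_mono (Finset.Subset.refl _) ?_
    intro x hx
    rw [Finset.mem_sdiff] at hx
    rw [Finset.mem_union]
    by_cases hxS : x ∈ S
    · right
      rw [← hu12, Finset.mem_union] at hxS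
      exact hxS.resolve_left hx.2
    · left
      rw [hT, Finset.mem_sdiff]
      exact ⟨hx.1, hxS⟩
  have hcard : (univ.erase i : Finset (Fin m)).card = m - 1 := by
    rw [Finset.card_erase_of_mem (Finset.mem_univ _), Finset.card_univ, Fintype.card_fin]
  have a2 : ed adj S1 (range n \ cl n c i) ≤ (m - 1) * (ed adj S1 T + ed adj S1 S2) := by
    rw [ed_compl_cl, ← hcard, ← smul_eq_mul]
    exact Finset.sum_le_card_nsmul _ _ _ a1
  have hdS1 : Disjoint S1 (range n \ cl n c i) := by
    rw [Finset.disjoint_left]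
    intro x hx hy
    exact (Finset.mem_sdiff.mp hy).2 (hS (hS1S hx))
  have c1 : ed adj S2 S1 + ed adj S2 (range n \ cl n c i) ≤ ed adj S2 (range n \ W i) := by
    rw [← ed_union_right hdS1]
    refine ed_mono (Finset.Subset.refl _) ?_
    intro x hx
    rw [Finset.mem_union] at hx
    rw [Finset.mem_sdiff]
    rcases hx with hx | hx
    · exact ⟨cl_sub c i (hS (hS1S hx)), fun h => Finset.disjoint_left.mp hS1W hx h⟩
    · rw [Finset.mem_sdiff] at hx
      exact ⟨hx.1, fun h => hx.2 (hWc i h)⟩
  have c2 : ed adj S2 (range n \ cl n c i) ≤ (m - 1) * ed adj S2 (range n \ cl n c i) := by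
    rcases Nat.lt_or_ge m 2 with h | h
    · have hm1 : m = 1 := by omega
      have h0 : (univ.erase i : Finset (Fin m)) = ∅ := by
        rw [← Finset.card_eq_zero, hcard, hm1]
      rw [ed_compl_cl, h0, Finset.sum_empty]
      exact Nat.zero_le _
    · exact Nat.le_mul_of_pos_left _ (by omega)
  have hVS : range n \ S = T ∪ (range n \ cl n c i) := by
    ext x
    rw [Finset.mem_union, Finset.mem_sdiff, Finset.mem_sdiff, hT, Finset.mem_sdiff]
    constructor
    · rintro ⟨h1, h2⟩
      by_cases h3 : x ∈ cl n c i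
      · exact Or.inl ⟨h3, h2⟩
      · exact Or.inr ⟨h1, h3⟩
    · rintro (⟨h1, h2⟩ | ⟨h1, h2⟩)
      · exact ⟨cl_sub c i h1, h2⟩
      · exact ⟨h1, fun h => h2 (hS h)⟩
  have hVT : range n \ T = S ∪ (range n \ cl n c i) := by
    ext x
    rw [Finset.mem_union, Finset.mem_sdiff, Finset.mem_sdiff, hT, Finset.mem_sdiff]
    constructor
    · rintro ⟨h1, h2⟩
      by_cases h3 : x ∈ cl n c i
      · left
        by_contra h4
        exact h2 ⟨h3, h4⟩
      · exact Or.inr ⟨h1, h3⟩
    · rintro (h1 | ⟨h1, h2⟩)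
      · exact ⟨cl_sub c i (hS h1), fun h => h.2 h1⟩
      · exact ⟨h1, fun h => h2 h.1⟩
  have hdT2 : Disjoint T (range n \ cl n c i) := by
    rw [Finset.disjoint_left]
    intro x hx hy
    exact (Finset.mem_sdiff.mp hy).2 (hTc hx)
  have hdS2 : Disjoint S (range n \ cl n c i) := by
    rw [Finset.disjoint_left]
    intro x hx hy
    exact (Finset.mem_sdiff.mp hy).2 (hS hx)
  have d1 : ed adj S (range n \ S) = ed adj S T + (ed adj S1 (range n \ cl n c i) +
      ed adj S2 (range n \ cl n c i)) := by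
    rw [hVS, ed_union_right hdT2, ← ed_union_left hd12 (range n \ cl n c i), hu12]
  have d2 : ed adj S1 T ≤ ed adj S T := ed_mono hS1S (Finset.Subset.refl _)
  have d3 : ed adj S2 S1 = ed adj S1 S2 := ed_comm hs _ _
  have bdS : ed adj S (range n \ S) < 4 * k * μ * S.card := by
    have e1 : (m - 1) * (ed adj S2 S1 + ed adj S2 (range n \ cl n c i)) ≤
        (m - 1) * (ed adj S T + μ * S.card) := Nat.mul_le_mul_left _ (by omega)
    have e2 : (m - 1) * ed adj S1 T ≤ (m - 1) * ed adj S T := Nat.mul_le_mul_left _ d2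
    have e3 : ed adj S (range n \ S) ≤ ed adj S T + (m - 1) * ed adj S T +
        (m - 1) * (ed adj S T + μ * S.card) := by
      rw [d1]
      rw [mul_add, d3] at e1
      rw [mul_add] at a2
      omega
    have e4 : ed adj S T + (m - 1) * ed adj S T + (m - 1) * (ed adj S T + μ * S.card) ≤
        (2 * (m - 1) + 1) * ed adj S T + (m - 1) * (μ * S.card) := by
      ring_nf
      exact le_refl _
    have e5 : (2 * (m - 1) + 1) * ed adj S T < (2 * (m - 1) + 1) * (μ * S.card) :=
      Nat.mul_lt_mul_of_pos_left hcon' (by omega)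
    have e6 : (2 * (m - 1) + 1) * (μ * S.card) + (m - 1) * (μ * S.card) ≤ 4 * k * (μ * S.card) := by
      rw [← add_mul]
      exact Nat.mul_le_mul_right _ (by omega)
    rw [mul_assoc (4 * k)]
    omega
  -- the boundary of the class
  have f1 : ed adj (cl n c i) (range n \ cl n c i) ≤ m * ed adj (W i) (range n \ W i) := by
    have hdW : Disjoint (W i) (cl n c i \ W i) := Finset.disjoint_sdiff
    have huW : W i ∪ (cl n c i \ W i) = cl n c i := Finset.union_sdiff_of_subset (hWc i)
    have g1 : ed adj (cl n c i) (range n \ cl n c i) = ed adj (W i) (range n \ cl n c i) +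
        ed adj (cl n c i \ W i) (range n \ cl n c i) := by
      rw [← ed_union_left hdW, huW]
    have g2 : ed adj (W i) (range n \ cl n c i) ≤ ed adj (W i) (range n \ W i) := by
      refine ed_mono (Finset.Subset.refl _) ?_
      intro x hx
      rw [Finset.mem_sdiff] at hx ⊢
      exact ⟨hx.1, fun h => hx.2 (hWc i h)⟩
    have g3 : ed adj (cl n c i \ W i) (range n \ cl n c i) ≤
        (m - 1) * ed adj (W i) (range n \ W i) := by
      rw [ed_compl_cl, ← hcard, ← smul_eq_mul]
      refine Finset.sum_le_card_nsmul _ _ _ fun j hj => ?_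
      have h1 := factA hs W c hc hmax (Finset.ne_of_mem_erase hj)
        (Finset.sdiff_subset : cl n c i \ W i ⊆ cl n c i) Finset.sdiff_disjoint
      refine h1.trans ?_
      rw [ed_comm hs]
      refine ed_mono ?_ ?_
      · intro x hx
        rw [Finset.mem_sdiff] at hx
        by_contra h
        exact hx.2 (Finset.mem_sdiff.mpr ⟨hx.1, h⟩)
      · intro x hx
        rw [Finset.mem_sdiff] at hx ⊢
        exact ⟨cl_sub c i hx.1, hx.2⟩
    rw [g1]
    have : m * ed adj (W i) (range n \ W i) = ed adj (W i) (range n \ W i) +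
        (m - 1) * ed adj (W i) (range n \ W i) := by
      obtain ⟨m', rfl⟩ : ∃ m', m = m' + 1 := ⟨m - 1, by omega⟩
      rw [Nat.add_sub_cancel]
      ring
    omega
  have f2 : (cl n c i).card = S.card + T.card := by
    rw [← hSTu, Finset.card_union_of_disjoint hST']
  have f3 : (W i).card ≤ 2 * T.card := by
    have := Finset.card_le_card (hWc i)
    omega
  have bdT : ed adj T (range n \ T) < 4 * k * μ * T.card := by
    have g1 : ed adj T (range n \ T) = ed adj T S + ed adj T (range n \ cl n c i) := by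
      rw [hVT, ed_union_right hdS2]
    have g2 : ed adj T (range n \ cl n c i) ≤ ed adj (cl n c i) (range n \ cl n c i) :=
      ed_mono hTc (Finset.Subset.refl _)
    have g3 : ed adj T S = ed adj S T := ed_comm hs _ _
    have g4 : μ * S.card ≤ μ * T.card := Nat.mul_le_mul_left _ hST
    have g5 : m * ed adj (W i) (range n \ W i) ≤ m * (μ * (2 * T.card)) :=
      Nat.mul_le_mul_left _ ((hW.2.2.2 i).le.trans (Nat.mul_le_mul_left _ f3))
    have g6 : m * (μ * (2 * T.card)) = 2 * m * (μ * T.card) := by ring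
    have g7 : μ * T.card + 2 * m * (μ * T.card) ≤ 4 * k * (μ * T.card) := by
      have : μ * T.card + 2 * m * (μ * T.card) = (1 + 2 * m) * (μ * T.card) := by ring
      rw [this]
      exact Nat.mul_le_mul_right _ (by omega)
    rw [mul_assoc (4 * k)]
    omega
  -- the new tuple
  have hk1 : 1 ≤ 4 * k := by omega
  refine ⟨Fin.snoc (Function.update W i S) T, fun j => ?_, fun j => ?_, fun j l hjl => ?_,
    fun j => ?_⟩
  · induction j using Fin.lastCases with
    | last =>
      rw [Fin.snoc_last, ← Finset.card_pos]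
      omega
    | cast j =>
      rw [Fin.snoc_castSucc]
      by_cases hj : j = i
      · subst hj
        rw [Function.update_self, ← Finset.card_pos]
        omega
      · rw [Function.update_of_ne hj]
        exact hW.1 j
  · induction j using Fin.lastCases with
    | last =>
      rw [Fin.snoc_last]
      exact hTc.trans (cl_sub c i)
    | cast j =>
      rw [Fin.snoc_castSucc]
      by_cases hj : j = i
      · subst hj
        rw [Function.update_self]
        exact hS.trans (cl_sub c j)
      · rw [Function.update_of_ne hj]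
        exact hW.2.1 j
  · have key : ∀ j : Fin m, Disjoint (Function.update W i S j) T := by
      intro j
      by_cases hj : j = i
      · subst hj
        rw [Function.update_self]
        exact hST'
      · rw [Function.update_of_ne hj]
        exact Finset.disjoint_of_subset_left (hWc j)
          (Finset.disjoint_of_subset_right hTc (cl_disj c hj))
    induction j using Fin.lastCases with
    | last =>
      induction l using Fin.lastCases with
      | last => exact absurd rfl hjl
      | cast l =>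
        rw [Fin.snoc_last, Fin.snoc_castSucc]
        exact (key l).symm
    | cast j =>
      induction l using Fin.lastCases with
      | last =>
        rw [Fin.snoc_last, Fin.snoc_castSucc]
        exact key j
      | cast l =>
        rw [Fin.snoc_castSucc, Fin.snoc_castSucc]
        have hjl' : j ≠ l := fun h => hjl (by rw [h])
        by_cases hj : j = i
        · subst hj
          rw [Function.update_self, Function.update_of_ne (Ne.symm hjl')]
          exact Finset.disjoint_of_subset_left hS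
            (Finset.disjoint_of_subset_right (hWc l) (cl_disj c hjl'))
        · by_cases hl : l = i
          · subst hl
            rw [Function.update_self, Function.update_of_ne hj]
            exact Finset.disjoint_of_subset_left (hWc j)
              (Finset.disjoint_of_subset_right hS (cl_disj c hjl'))
          · rw [Function.update_of_ne hj, Function.update_of_ne hl]
            exact hW.2.2.1 j l hjl'
  · induction j using Fin.lastCases with
    | last =>
      rw [Fin.snoc_last]
      exact bdT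
    | cast j =>
      rw [Fin.snoc_castSucc]
      by_cases hj : j = i
      · subst hj
        rw [Function.update_self]
        exact bdS
      · rw [Function.update_of_ne hj]
        refine (hW.2.2.2 j).trans_le ?_
        rw [mul_assoc (4 * k)]
        exact Nat.le_mul_of_pos_left _ hk1

end PartAux

open PartAux

theorem KW_deg {n a d k κ : ℕ} {adj : ℕ → ℕ → Bool} (h : RegBip n a d adj) (hkn : k ≤ n)
    (hK : KW n adj k κ) (hk : 1 ≤ k) : κ ≤ d := by
  obtain ⟨i, hi⟩ := hK (fun i => {(i : ℕ)}) (fun i => Finset.singleton_nonempty _)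
    (fun i => by
      rw [Finset.singleton_subset_iff, Finset.mem_range]
      have := i.isLt
      omega)
    (fun i j hij => by
      rw [Finset.disjoint_singleton]
      exact fun h => hij (Fin.ext h))
  rw [Finset.card_singleton, mul_one, ed_single] at hi
  refine hi.trans (dg_le h Finset.sdiff_subset ?_)
  have := i.isLt
  omega

theorem exists_parts {n a d k κ : ℕ} {adj : ℕ → ℕ → Bool} (h : RegBip n a d adj) (hk : 2 ≤ k)
    (hkn : k ≤ n) (hκ : 1 ≤ κ) (hK : KW n adj k (κ * (4 * k) ^ (k - 1))) :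
    ∃ c : ℕ → ℕ, Parts n k d κ adj c := by
  classical
  have hs := h.symm
  have hd := KW_deg h hkn hK (by omega)
  -- the largest `m`
  obtain ⟨m, hm1, hmk, hPm, hPm1⟩ : ∃ m, 1 ≤ m ∧ m < k ∧ PW n k κ adj m ∧ ¬ PW n k κ adj (m + 1) := by
    have hP1 : PW n k κ adj 1 := by
      refine ⟨fun _ => range n, fun _ => ?_, fun _ => Finset.Subset.refl _, fun i j hij => ?_,
        fun _ => ?_⟩
      · rw [Finset.nonempty_range_iff]
        omega
      · exact absurd (Subsingleton.elim i j) hij
      · rw [Finset.sdiff_self]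
        unfold ed dg
        simp only [Finset.filter_empty, Finset.card_empty, Finset.sum_const_zero,
          Finset.card_range, Nat.sub_self, pow_zero, mul_one]
        exact Nat.mul_pos (by omega) (by omega)
    have hPk : ¬ PW n k κ adj k := by
      rintro ⟨W, w1, w2, w3, w4⟩
      obtain ⟨i, hi⟩ := hK W w1 w2 w3
      exact absurd (w4 i) (not_lt.mpr hi)
    have hex : ∃ m, ¬ PW n k κ adj (m + 1) := ⟨k - 1, by
      rw [Nat.sub_add_cancel (by omega)]
      exact hPk⟩
    have hspec := Nat.find_spec hex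
    have hpos : 1 ≤ Nat.find hex := by
      rcases Nat.eq_zero_or_pos (Nat.find hex) with h0 | h0
      · rw [h0] at hspec
        exact absurd hP1 hspec
      · exact h0
    refine ⟨Nat.find hex, hpos, ?_, ?_, hspec⟩
    · have : Nat.find hex ≤ k - 1 := Nat.find_min' hex (by
        rw [Nat.sub_add_cancel (by omega)]
        exact hPk)
      omega
    · have h2 := Nat.find_min hex (m := Nat.find hex - 1) (by omega)
      rw [not_not, Nat.sub_add_cancel hpos] at h2
      exact h2
  obtain ⟨μ, hμ⟩ : ∃ μ, μ = κ * (4 * k) ^ (m - 1) := ⟨_, rfl⟩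
  have hμ' : κ * (4 * k) ^ (m + 1 - 1) = 4 * k * μ := by
    rw [hμ, Nat.add_sub_cancel]
    obtain ⟨m', rfl⟩ : ∃ m', m = m' + 1 := ⟨m - 1, by omega⟩
    rw [Nat.add_sub_cancel, pow_succ]
    ring
  have hκμ : κ ≤ μ := by
    rw [hμ]
    exact Nat.le_mul_of_pos_right _ (by positivity)
  have h8 : 8 * μ ≤ d := by
    have h1 : 4 * k * μ ≤ κ * (4 * k) ^ (k - 1) := by
      rw [← hμ']
      exact Nat.mul_le_mul_left _ (Nat.pow_le_pow_right (by omega) (by omega))
    have h2 : 8 * μ ≤ 4 * k * μ := Nat.mul_le_mul_right _ (by omega)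
    omega
  have hno : ¬ ∃ W' : Fin (m + 1) → Finset ℕ, Val n adj (4 * k * μ) W' := by
    rintro ⟨W', w1, w2, w3, w4⟩
    apply hPm1
    refine ⟨W', w1, w2, w3, fun i => ?_⟩
    rw [hμ']
    exact w4 i
  have hex : ∃ W : Fin m → Finset ℕ, Val n adj μ W := by
    obtain ⟨W, w1, w2, w3, w4⟩ := hPm
    refine ⟨W, w1, w2, w3, fun i => ?_⟩
    rw [hμ]
    exact w4 i
  obtain ⟨W, hW, hmin⟩ := exists_min (fun W : Fin m → Finset ℕ => Val n adj μ W)
    (fun W => ∑ i, ed adj (W i) (range n \ W i)) hex
  have hexc : ∃ c : ℕ → Fin m, ∀ i, ∀ v ∈ W i, c v = i := by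
    refine ⟨fun v => if hv : ∃ i, v ∈ W i then hv.choose else ⟨0, by omega⟩, fun i v hv => ?_⟩
    have hv' : ∃ i, v ∈ W i := ⟨i, hv⟩
    simp only [dif_pos hv']
    by_contra hne
    exact Finset.disjoint_left.mp (hW.2.2.1 _ _ hne) hv'.choose_spec hv
  obtain ⟨c, hc, hmax⟩ := exists_max (fun c : ℕ → Fin m => ∀ i, ∀ v ∈ W i, c v = i)
    (fun c => ∑ l, ed adj (cl n c l) (cl n c l)) (m * ed adj (range n) (range n)) hexc (by
      intro c _
      calc ∑ l, ed adj (cl n c l) (cl n c l) ≤ ∑ _l : Fin m, ed adj (range n) (range n) :=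
            Finset.sum_le_sum fun l _ => ed_mono (cl_sub c l) (cl_sub c l)
        _ = m * ed adj (range n) (range n) := by
            rw [Finset.sum_const, Finset.card_univ, Fintype.card_fin, smul_eq_mul])
  have hpart : ∀ i : Fin m, part n (fun v => (c v : ℕ)) i = cl n c i := by
    intro i
    unfold part cl
    ext v
    simp only [Finset.mem_filter]
    rw [← Fin.ext_iff]
  have hsm := fun (i : Fin m) (S : Finset ℕ) (hS : S ⊆ cl n c i) => small (k := k) hs W hm1
    hmk.le hW hmin c hc hmax hno i (S := S) hS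
  refine ⟨fun v => (c v : ℕ), fun v => (c v).isLt.trans hmk, ?_, ?_⟩
  · intro i S hS
    by_cases him : i < m
    · have hi : part n (fun v => (c v : ℕ)) i = cl n c ⟨i, him⟩ := hpart ⟨i, him⟩
      rw [hi] at hS ⊢
      rcases Nat.eq_zero_or_pos S.card with h0 | h0
      · rw [h0]
        simp
      rcases Nat.eq_zero_or_pos (cl n c ⟨i, him⟩ \ S).card with h1 | h1
      · rw [h1]
        simp
      rcases Nat.le_total S.card (cl n c ⟨i, him⟩ \ S).card with h2 | h2
      · rw [min_eq_left h2]
        exact (Nat.mul_le_mul_right _ hκμ).trans (hsm ⟨i, him⟩ S hS h0 h2)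
      · rw [min_eq_right h2]
        have hSS : cl n c ⟨i, him⟩ \ (cl n c ⟨i, him⟩ \ S) = S :=
          Finset.sdiff_sdiff_eq_self hS
        have h3 := hsm ⟨i, him⟩ (cl n c ⟨i, him⟩ \ S) Finset.sdiff_subset h1
          (by rw [hSS]; exact h2)
        rw [hSS, ed_comm hs] at h3
        exact (Nat.mul_le_mul_right _ hκμ).trans h3
    · have hi : part n (fun v => (c v : ℕ)) i = ∅ := by
        unfold part
        rw [Finset.filter_eq_empty_iff]
        intro v _ hv
        exact him (hv ▸ (c v).isLt)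
      rw [hi, Finset.subset_empty] at hS
      rw [hS]
      simp
  · intro v hv
    have hpv : part n (fun v => (c v : ℕ)) (c v) = cl n c (c v) := hpart (c v)
    rw [hpv]
    by_cases hvW : v ∈ W (c v)
    · have h1 := factB hs W hW hmin (c v) (Finset.singleton_subset_iff.mpr hvW)
      rw [ed_single, ed_single, Finset.card_singleton, mul_one] at h1
      have h2 := dg_split h (hW.2.1 (c v)) hv
      have h3 : dg adj (W (c v) \ {v}) v ≤ dg adj (cl n c (c v)) v := by
        refine dg_mono' ?_ v
        intro x hx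
        have hx' := (Finset.mem_sdiff.mp hx).1
        exact mem_cl.mpr ⟨Finset.mem_range.mp (hW.2.1 _ hx'), hc _ x hx'⟩
      have h4 : dg adj (W (c v)) v ≤ dg adj (cl n c (c v)) v := by
        refine dg_mono' ?_ v
        intro x hx
        exact mem_cl.mpr ⟨Finset.mem_range.mp (hW.2.1 _ hx), hc _ x hx⟩
      have h5 : 4 * dg adj (cl n c (c v)) v ≤ 2 * k * dg adj (cl n c (c v)) v :=
        Nat.mul_le_mul_right _ (by omega)
      omega
    · have hvc : v ∈ cl n c (c v) := mem_cl.mpr ⟨hv, rfl⟩
      have h1 : ∀ j ∈ univ.erase (c v), dg adj (cl n c j) v ≤ dg adj (cl n c (c v)) v := by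
        intro j hj
        have h2 := factA hs W c hc hmax (Finset.ne_of_mem_erase hj)
          (Finset.singleton_subset_iff.mpr hvc) (Finset.disjoint_singleton_left.mpr hvW)
        rw [ed_single, ed_single] at h2
        exact h2.trans (dg_mono' Finset.sdiff_subset v)
      have h2 := dg_split h (cl_sub c (c v)) hv
      rw [dg_compl] at h2
      have h3 := Finset.sum_le_card_nsmul _ _ _ h1
      rw [Finset.card_erase_of_mem (Finset.mem_univ _), Finset.card_univ, Fintype.card_fin,
        smul_eq_mul] at h3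
      have h4 : dg adj (cl n c (c v)) v + (m - 1) * dg adj (cl n c (c v)) v ≤
          2 * k * dg adj (cl n c (c v)) v := by
        have : dg adj (cl n c (c v)) v + (m - 1) * dg adj (cl n c (c v)) v =
            (1 + (m - 1)) * dg adj (cl n c (c v)) v := by ring
        rw [this]
        exact Nat.mul_le_mul_right _ (by omega)
      omega

end Pool.Agent.Lib.Pa7c826m
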