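import Pool.Agent.Lib.Pa7c826m.AlgB
import Pool.Agent.Lib.Pa7c826m.BadC
import Pool.Agent.Lib.Pa7c826m.Part

/-!
The choice of the constants.

PROOF. `B = 2 K + 2 k + 20`, `ℓ = log₂ n ≥ 1`, `n < 2^(ℓ+1) ≤ 4^ℓ`, `t ≤ 4^(K ℓ)`. `κ := 4000 k^4 B ℓ`. `exists_parts` (`KW_deg` gives
`κ ≤ κ (4k)^(k-1) ≤ d`). `X = 25 k B ℓ`, `h = (25 k + 1) B ℓ`, `x = y = z = w := (1/2)^(B ℓ)`. Conditions of `bads_le`: `325 (2k)³ B ℓ = 2600 k³ B ℓ ≤ κ`;
`(2k)² B ℓ ≤ d`; `2 X = 25 (2 k) B ℓ`; `400 k ≤ d`; `a ≤ 2^(d/(8k))`: `d/(8k) ≥ 500 k³ B ℓ ≥ ℓ + 1`. `Cnd`: `40 k³ (25 k + 1) B ℓ ≤ 40 * 26 k^4 B ℓ < κ`;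
`8 k² X = 200 k³ B ℓ < d`. `2^X / 2^h = w`. `(1+w)^(2n) - 1 ≤ 4 n w` because `2 n w ≤ 1` (`1 + 2n w + ... ≤ exp`; for instance
`(1+w)^(2n) ≤ exp(2nw) ≤ 1 + 2 (2nw)`). So `#bads ≤ 2^k 2^a (16 n + 4 k + 5) w ≤ 2^k 2^a 25 n w` (`k < n`), and
`2^k t #bads ≤ 2^a 4^k 32 4^ℓ 4^(Kℓ) (1/2)^(Bℓ) ≤ 2^a`. `2^a ≤ ind`: the subsets of the left side. With `outM_spec`:
`t |outM - ind| ≤ t 2^k #bads ≤ ind`.
-/

namespace Pool.Agent.Lib.Pa7c826m

open Finset Pool.Agent.Lib.Pa7c826 Pool.Agent.Lib.Pa7c826t Pool.Agent.Lib.Pa7c826y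

/-- the constant of the expansion -/
def CM (k K : ℕ) : ℕ := 4000 * k ^ 4 * (2 * K + 2 * k + 20) * (4 * k) ^ (k - 1)

/-- the parameters of the algorithm: thresholds `X`, `h` and the leaf threshold -/
def XM (k K n : ℕ) : ℕ := 25 * k * (2 * K + 2 * k + 20) * Nat.log 2 n
def hM (k K n : ℕ) : ℕ := (25 * k + 1) * (2 * K + 2 * k + 20) * Nat.log 2 n
def LM (k K n : ℕ) : ℕ := n ^ (50 * k * (2 * K + 2 * k + 20))

namespace AlgNAux

theorem pow_sub_one_le {w : ℝ} {n : ℕ} (hw : 0 ≤ w) (h : 2 * n * w ≤ 1) :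
    (1 + w) ^ (2 * n) - 1 ≤ 4 * n * w := by
  have h1 : (1 + w) ^ (2 * n) ≤ Real.exp (2 * n * w) := by
    have : 1 + w ≤ Real.exp w := by linarith [Real.add_one_le_exp w]
    calc (1 + w) ^ (2 * n) ≤ (Real.exp w) ^ (2 * n) := by
          gcongr
      _ = Real.exp (2 * n * w) := by
          rw [← Real.exp_nat_mul]; push_cast; ring_nf
  have h0 : 0 ≤ 2 * n * w := by positivity
  have h2 : |Real.exp (2 * n * w) - 1| ≤ 2 * |2 * n * w| :=
    Real.abs_exp_sub_one_le (by rw [abs_of_nonneg h0]; exact h)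
  rw [abs_of_nonneg h0] at h2
  have h3 := (le_abs_self _).trans h2
  linarith

/-- all the numbers: `B ≥ 2 K + 2 k + 20`, `l = log₂ n` -/
theorem numeric {n a k K t l B : ℕ} {b w : ℝ} (hk : 2 ≤ k) (hkn : k < n) (hl : 1 ≤ l)
    (hB : B = 2 * K + 2 * k + 20) (hn : n < 2 ^ (l + 1)) (ht : t ≤ n ^ K)
    (hw : w = (1 / 2 : ℝ) ^ (B * l))
    (hb : b ≤ 2 ^ k * 2 ^ a * (4 * ((1 + w) ^ (2 * n) - 1) + 4 * k * w + 4 * w + w)) :
    2 ^ k * t * b ≤ 2 ^ a := by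
  have hw0 : 0 < w := by rw [hw]; positivity
  have hn1 : (1 : ℝ) ≤ n := by exact_mod_cast (by omega : 1 ≤ n)
  have hkn' : (k : ℝ) ≤ n := by exact_mod_cast hkn.le
  have hn2 : (n : ℝ) ≤ 2 ^ (l + 1) := by exact_mod_cast hn.le
  -- n ≤ 2^(2 l)
  have hn3 : (n : ℝ) ≤ 2 ^ (2 * l) :=
    hn2.trans (pow_le_pow_right₀ (by norm_num) (by omega))
  have ht2 : (t : ℝ) ≤ 2 ^ (2 * l * K) := by
    have h1 : (t : ℝ) ≤ (n : ℝ) ^ K := by exact_mod_cast ht
    refine h1.trans ?_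
    rw [pow_mul]
    gcongr
  have hw2 : w * 2 ^ (B * l) = 1 := by
    rw [hw, ← mul_pow]; norm_num
  have hBl : 2 * k * l + 5 * l + 2 * l + 2 * l * K ≤ B * l := by
    subst hB
    have : (2 * k + 5 + 2 + 2 * K) * l ≤ (2 * K + 2 * k + 20) * l :=
      Nat.mul_le_mul_right _ (by omega)
    nlinarith [this]
  have h2nw : 2 * n * w ≤ 1 := by
    have h1 : 2 * (n : ℝ) ≤ 2 ^ (B * l) := by
      calc 2 * (n : ℝ) ≤ 2 * 2 ^ (2 * l) := by gcongr
        _ = 2 ^ (2 * l + 1) := by ring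
        _ ≤ 2 ^ (B * l) := pow_le_pow_right₀ (by norm_num) (by
            have : 2 * l * K ≥ 0 := Nat.zero_le _
            have : 2 * k * l ≥ 0 := Nat.zero_le _
            omega)
    calc 2 * n * w ≤ 2 ^ (B * l) * w := by gcongr
      _ = 1 := by rw [mul_comm]; exact hw2
  have h1 := pow_sub_one_le hw0.le h2nw
  have h3 : 4 * ((1 + w) ^ (2 * n) - 1) + 4 * k * w + 4 * w + w ≤ 25 * n * w := by
    have h4 : 4 * (k : ℝ) * w ≤ 4 * n * w := by gcongr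
    have h5 : w ≤ n * w := by nlinarith
    nlinarith
  have h6 : b ≤ 2 ^ k * 2 ^ a * (25 * n * w) := hb.trans (by gcongr)
  calc 2 ^ k * (t : ℝ) * b ≤ 2 ^ k * (t : ℝ) * (2 ^ k * 2 ^ a * (25 * n * w)) := by gcongr
    _ = 2 ^ a * (2 ^ (2 * k) * 25 * n * t * w) := by ring
    _ ≤ 2 ^ a * (2 ^ (2 * k * l) * 2 ^ (5 * l) * 2 ^ (2 * l) * 2 ^ (2 * l * K) * w) := by
        have e1 : (2 : ℝ) ^ (2 * k) ≤ 2 ^ (2 * k * l) :=
          pow_le_pow_right₀ (by norm_num) (Nat.le_mul_of_pos_right _ hl)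
        have e2 : (25 : ℝ) ≤ 2 ^ (5 * l) := by
          calc (25 : ℝ) ≤ 2 ^ 5 := by norm_num
            _ ≤ 2 ^ (5 * l) := pow_le_pow_right₀ (by norm_num) (by omega)
        gcongr
    _ = 2 ^ a * (2 ^ (2 * k * l + 5 * l + 2 * l + 2 * l * K) * w) := by
        rw [pow_add, pow_add, pow_add]
    _ ≤ 2 ^ a * (2 ^ (B * l) * w) := by
        gcongr
        norm_num
    _ = 2 ^ a := by rw [mul_comm (2 ^ (B * l)) w, hw2, mul_one]

theorem two_pow_le {n a d : ℕ} {adj : ℕ → ℕ → Bool} (hR : RegBip n a d adj) :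
    2 ^ a ≤ ind adj (range n) := by
  have h := two_pow_le_ind (adj := adj) (n := n) (fun v => ¬ v < a)
    (by
      intro u v huv
      have h1 := hR.bip u v huv
      have h2 := hR.rng u v huv
      refine ⟨h2, ?_⟩
      tauto)
  refine le_trans ?_ h
  refine Nat.pow_le_pow_right (by norm_num) ?_
  have : (range n).filter (fun v => ¬ ¬ v < a) = range a := by
    ext v
    simp only [mem_filter, mem_range, not_not]
    have := hR.two
    omega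
  rw [this, card_range]

end AlgNAux

theorem main_easy {n a d k K t : ℕ} {adj : ℕ → ℕ → Bool} (hR : RegBip n a d adj) (hk : 2 ≤ k)
    (hn : k < n) (hK : KW n adj k (CM k K * Nat.log 2 n)) (ht : t ≤ n ^ K) :
    t * outM n a k d (hM k K n) (XM k K n) adj (LM k K n) ≤
        t * ind adj (range n) + ind adj (range n) ∧
      t * ind adj (range n) ≤
        t * outM n a k d (hM k K n) (XM k K n) adj (LM k K n) + ind adj (range n) := by
  obtain ⟨l, hl⟩ : ∃ l, l = Nat.log 2 n := ⟨_, rfl⟩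
  obtain ⟨B, hB⟩ : ∃ B, B = 2 * K + 2 * k + 20 := ⟨_, rfl⟩
  have hl1 : 1 ≤ l := by
    rw [hl]; exact Nat.log_pos (by norm_num) (by omega)
  have hnl : n < 2 ^ (l + 1) := by
    rw [hl]; exact Nat.lt_pow_succ_log_self (by norm_num) n
  have hnl' : 2 ^ l ≤ n := by
    rw [hl]; exact Nat.pow_log_le_self 2 (by omega)
  have hX : XM k K n = 25 * k * B * l := by rw [XM, hB, hl]
  have hh : hM k K n = (25 * k + 1) * B * l := by rw [hM, hB, hl]
  have hL : LM k K n = n ^ (50 * k * B) := by rw [LM, hB]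
  have hC : CM k K * Nat.log 2 n = 4000 * k ^ 4 * B * l * (4 * k) ^ (k - 1) := by
    rw [CM, ← hB, ← hl]; ring
  have hBpos : 1 ≤ B := by omega
  have hκ1 : 1 ≤ 4000 * k ^ 4 * B * l := by
    have : 0 < 4000 * k ^ 4 * B * l := by positivity
    exact this
  have hd := KW_deg hR hn.le hK (by omega)
  rw [hC] at hK hd
  obtain ⟨c, hP⟩ := exists_parts hR hk hn.le hκ1 hK
  have hκd : 4000 * k ^ 4 * B * l ≤ d :=
    le_trans (Nat.le_mul_of_pos_right _ (by positivity)) hd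
  rw [hX, hh, hL]
  -- lower bounds for `k ^ 4`
  have hBl1 : 1 ≤ B * l := Nat.mul_pos hBpos hl1
  have hk1 : k ≤ k ^ 4 := Nat.le_self_pow (by norm_num) k
  have hk2 : k ^ 2 ≤ k ^ 4 := Nat.pow_le_pow_right (by omega) (by norm_num)
  have hk3 : k ^ 3 ≤ k ^ 4 := Nat.pow_le_pow_right (by omega) (by norm_num)
  have hκe : 4000 * k ^ 4 * B * l = 4000 * (k ^ 4 * (B * l)) := by ring
  have q1 : k * 1 ≤ k ^ 4 * (B * l) := Nat.mul_le_mul hk1 hBl1
  have q2 : k ^ 2 * (B * l) ≤ k ^ 4 * (B * l) := Nat.mul_le_mul_right _ hk2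
  have q3 : k ^ 3 * (B * l) ≤ k ^ 4 * (B * l) := Nat.mul_le_mul_right _ hk3
  have q0 : 1 ≤ k ^ 4 * (B * l) := Nat.mul_pos (by positivity) hBl1
  have hCnd : Cnd k d (4000 * k ^ 4 * B * l) ((25 * k + 1) * B * l) (25 * k * B * l) := by
    refine ⟨hk, ?_, ?_, ?_⟩
    · omega
    · have e : 40 * k ^ 3 * ((25 * k + 1) * B * l)
          = 1000 * (k ^ 4 * (B * l)) + 40 * (k ^ 3 * (B * l)) := by ring
      rw [e]; omega
    · have e : 8 * k ^ 2 * (25 * k * B * l) = 200 * (k ^ 3 * (B * l)) := by ring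
      rw [e]; omega
  obtain ⟨w, hw⟩ : ∃ w : ℝ, w = (1 / 2 : ℝ) ^ (B * l) := ⟨_, rfl⟩
  have hw0 : 0 < w := by rw [hw]; positivity
  have half_le : ∀ {p q : ℕ}, q ≤ p → (1 / 2 : ℝ) ^ p ≤ (1 / 2 : ℝ) ^ q := fun h =>
    pow_le_pow_of_le_one (by norm_num) (by norm_num) h
  have hb := bads_le (hh := (25 * k + 1) * B * l) (X := 25 * k * B * l) (x := w) (y := w) (z := w)
    hR hP hk hCnd.hd ?_ hw0 ?_ hw0 ?_ hw0 ?_
  rotate_left
  · -- a ≤ 2 ^ (d / (8 k))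
    have h1 : l + 1 ≤ d / (8 * k) := by
      rw [Nat.le_div_iff_mul_le (by omega)]
      have e : (l + 1) * (8 * k) = 8 * (k * l) + 8 * k := by ring
      have q5 : k * l ≤ k ^ 4 * (B * l) :=
        Nat.mul_le_mul hk1 (Nat.le_mul_of_pos_left _ hBpos)
      rw [e]; omega
    have h2 := hR.two
    calc a ≤ n := by omega
      _ ≤ 2 ^ (l + 1) := hnl.le
      _ ≤ 2 ^ (d / (8 * k)) := Nat.pow_le_pow_right (by norm_num) h1
  · rw [hw, ← pow_mul]
    refine half_le ?_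
    have e : B * l * (325 * (2 * k) ^ 3) = 2600 * (k ^ 3 * (B * l)) := by ring
    rw [e]; omega
  · rw [hw, ← pow_mul]
    refine half_le ?_
    have e : B * l * (2 * k) ^ 2 = 4 * (k ^ 2 * (B * l)) := by ring
    rw [e]; omega
  · rw [hw, ← pow_mul]
    refine half_le (le_of_eq ?_)
    ring
  have hXh : (2 : ℝ) ^ (25 * k * B * l) / 2 ^ ((25 * k + 1) * B * l) = w := by
    have e : (25 * k + 1) * B * l = 25 * k * B * l + B * l := by ring
    rw [e, pow_add, hw, one_div, inv_pow]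
    field_simp
  rw [hXh] at hb
  have hfin := AlgNAux.numeric (b := ((bads n a k ((25 * k + 1) * B * l) (25 * k * B * l) adj c).card
    : ℝ)) hk hn hl1 hB hnl ht hw hb
  have hfin' : 2 ^ k * t * (bads n a k ((25 * k + 1) * B * l) (25 * k * B * l) adj c).card ≤
      2 ^ a := by exact_mod_cast hfin
  have hind := AlgNAux.two_pow_le hR
  have hLX : 4 ^ (25 * k * B * l) ≤ n ^ (50 * k * B) := by
    calc 4 ^ (25 * k * B * l) = (2 ^ l) ^ (50 * k * B) := by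
          rw [show (4 : ℕ) = 2 ^ 2 by norm_num, ← pow_mul, ← pow_mul]; congr 1; ring
      _ ≤ n ^ (50 * k * B) := Nat.pow_le_pow_left hnl' _
  obtain ⟨s1, s2⟩ := outM_spec hR hP hCnd hLX
  generalize outM n a k d ((25 * k + 1) * B * l) (25 * k * B * l) adj (n ^ (50 * k * B)) = O at *
  generalize (bads n a k ((25 * k + 1) * B * l) (25 * k * B * l) adj c).card = b at *
  generalize ind adj (range n) = I at *
  constructor
  · calc t * O ≤ t * (I + 2 ^ k * b) := Nat.mul_le_mul_left _ s1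
      _ = t * I + 2 ^ k * t * b := by ring
      _ ≤ t * I + I := by omega
  · have h1 : t * b ≤ 2 ^ k * t * b := by
      have : 1 * (t * b) ≤ 2 ^ k * (t * b) := Nat.mul_le_mul_right _ Nat.one_le_two_pow
      calc t * b = 1 * (t * b) := by ring
        _ ≤ 2 ^ k * (t * b) := this
        _ = 2 ^ k * t * b := by ring
    calc t * I ≤ t * (O + b) := Nat.mul_le_mul_left _ s2
      _ = t * O + t * b := by ring
      _ ≤ t * O + I := by omega

end Pool.Agent.Lib.Pa7c826m
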