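import Pool.Agent.Lib.Pa7c826m.Defs
import Pool.Agent.Lib.Pa7c826t.AlgT
import Pool.Agent.Lib.Pa7c826y.AlgPoly

/-!
The algorithm as a function of the input string, and its running time.

PROOF. Combinators: `poly_nOf`, `poly_aOf`, `poly_adj`, `PolyS.filter`, `PolyS.card`, `PolyS.range`, `PolyB.exists_lt`, `PolyB.le`, `PolyN.pow`,
`PolyN.sub`, `PolyN.div` (`Transfer.lean`), `poly_nu` (`Pa7c826t/AuctPoly.lean`), `poly_tup` (`Pa7c826y/AlgPoly.lean`), `poly_leaf` (`UPoly` threshold),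
`upoly_log` (`Pa7c826t/AlgT.lean`), `PolyBin.sum_range`, `PolyBin.ite`, `poly_dg`; models: `Pa7c826t/AlgT.lean`, `poly_algA`.
For `dg adj (range n) 0` use `poly_dg`. `indB`: see `poly_indB` or the proof of `poly_leaf` in `Pa7c826/AlgoPoly.lean`.
-/

namespace Pool.Agent.Lib.Pa7c826m

open Finset Pool.Agent.Lib.Pa7c826 Pool.Agent.Lib.Pa7c826t Pool.Agent.Lib.Pa7c826y
open Pool.Agent.Lib.PolyTime

/-- the output of the algorithm: exact enumeration if there are at most `k` vertices -/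
def algM (k c1 c2 c3 : ℕ) (w : List Bool) : ℕ :=
  if decide (nOf w ≤ k) = true then leaf (nOf w) (adjOf w) (4 ^ k) (range (nOf w))
  else outM (nOf w) (aOf w) k (dg (adjOf w) (range (nOf w)) 0) (c1 * Nat.log 2 (nOf w))
    (c2 * Nat.log 2 (nOf w)) (adjOf w) (nOf w ^ c3)

namespace AlgPAux

section

variable {α : Type} {D : α → Prop} {ctx : List (α → List Bool)} {w : α → List Bool}
  {S T : α → Finset ℕ} {v h X j d : α → ℕ}

theorem poly_divc {f : α → ℕ} (hf : PolyN D ctx f) (c : ℕ) :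
    PolyN D ctx (fun a => f a / c) := by
  rcases Nat.eq_zero_or_pos c with rfl | hc
  · exact (PolyN.const 0).congr (fun a _ => by simp)
  · exact PolyN.div hf (PolyN.const c) (fun _ _ => hc)

theorem poly_ins (hw : PolyC D ctx w) (hS : PolyS D ctx (fun a => nOf (w a)) S)
    (hv : PolyN D ctx v) :
    PolyS D ctx (fun a => nOf (w a)) (fun a => ins (nOf (w a)) (v a) (S a)) := by
  have hn := poly_nOf hw
  have S1 := hS.up (m := fun a => nOf (w a))
  have V1 := upN (n := fun a => nOf (w a)) hv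
  have L1 := last (D := D) (ctx := ctx) (n := fun a => nOf (w a))
  exact PolyS.filter (φ := fun p : α × ℕ => (decide (p.2 = v p.1) || decide (p.2 ∈ S p.1)))
    hn (PolyS.range hn) ((PolyB.natEq L1 V1).or (S1.mem L1))

theorem poly_fr (hw : PolyC D ctx w) (hS : PolyS D ctx (fun a => nOf (w a)) S) :
    PolyS D ctx (fun a => nOf (w a)) (fun a => fr (nOf (w a)) (adjOf (w a)) (S a)) := by
  have hn := poly_nOf hw
  have W1 := up (n := fun a => nOf (w a)) hw
  have S1 := hS.up (m := fun a => nOf (w a))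
  have L1 := last (D := D) (ctx := ctx) (n := fun a => nOf (w a))
  have W2 := up (n := fun p : α × ℕ => nOf (w p.1)) W1
  have S2 := S1.up (m := fun p : α × ℕ => nOf (w p.1))
  have J2 := upN (n := fun p : α × ℕ => nOf (w p.1)) L1
  have L2 := last (D := fun p : α × ℕ => D p.1 ∧ p.2 < nOf (w p.1))
    (ctx := PolyTime.lift ctx ++ [fun p : α × ℕ => un p.2])
    (n := fun p : α × ℕ => nOf (w p.1))
  refine PolyS.filter (φ := fun p : α × ℕ => (!decide (p.2 ∈ S p.1) &&
    !decide (∃ u < nOf (w p.1), (decide (u ∈ S p.1) && adjOf (w p.1) u p.2) = true)))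
    hn (PolyS.range hn) ((S1.mem L1).not.and (PolyB.not ?_))
  exact PolyB.exists_lt (φ := fun q : (α × ℕ) × ℕ =>
    (decide (q.2 ∈ S q.1.1) && adjOf (w q.1.1) q.2 q.1.2)) (poly_nOf W1)
    ((S2.mem L2).and (poly_adj W2 L2 J2))

theorem poly_alp (hw : PolyC D ctx w) (hS : PolyS D ctx (fun a => nOf (w a)) S) :
    PolyN D ctx (fun a => alp (nOf (w a)) (aOf (w a)) (adjOf (w a)) (S a)) := by
  have hn := poly_nOf hw
  have hf := poly_fr hw hS
  exact PolyN.sub ((PolyS.card hn hS).add (PolyS.card hn hf)) (poly_nu hw hf)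

theorem poly_US (hw : PolyC D ctx w) (hS : PolyS D ctx (fun a => nOf (w a)) S)
    (hh : PolyN D ctx h) :
    PolyS D ctx (fun a => nOf (w a))
      (fun a => US (nOf (w a)) (aOf (w a)) (h a) (adjOf (w a)) (S a)) := by
  have hn := poly_nOf hw
  have W1 := up (n := fun a => nOf (w a)) hw
  have S1 := hS.up (m := fun a => nOf (w a))
  have H1 := upN (n := fun a => nOf (w a)) hh
  have L1 := last (D := D) (ctx := ctx) (n := fun a => nOf (w a))
  have I1 := poly_ins W1 S1 L1
  exact PolyS.filter (φ := fun p : α × ℕ =>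
    (indB (nOf (w p.1)) (adjOf (w p.1)) (ins (nOf (w p.1)) p.2 (S p.1)) &&
      decide (aOf (w p.1) ≤ alp (nOf (w p.1)) (aOf (w p.1)) (adjOf (w p.1))
        (ins (nOf (w p.1)) p.2 (S p.1)) + h p.1)))
    hn (PolyS.range hn)
    ((poly_indB W1 I1).and (PolyB.le (poly_aOf W1) ((poly_alp W1 I1).add H1)))

theorem poly_passB (hw : PolyC D ctx w) (hS : PolyS D ctx (fun a => nOf (w a)) S)
    (hh : PolyN D ctx h) (hX : PolyN D ctx X) :
    PolyB D ctx (fun a => passB (nOf (w a)) (aOf (w a)) (h a) (X a) (adjOf (w a)) (S a)) :=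
  (poly_indB hw hS).and ((PolyB.le (poly_aOf hw) ((poly_alp hw hS).add hh)).and
    (PolyB.le (poly_nu hw (poly_US hw hS hh)) hX))

theorem poly_Ub (k : ℕ) (hw : PolyC D ctx w) (hS : PolyS D ctx (fun a => nOf (w a)) S)
    (hd : PolyN D ctx d) (hh : PolyN D ctx h) :
    PolyS D ctx (fun a => nOf (w a))
      (fun a => Ub (nOf (w a)) (aOf (w a)) k (d a) (h a) (adjOf (w a)) (S a)) := by
  have hn := poly_nOf hw
  have W1 := up (n := fun a => nOf (w a)) hw
  have S1 := hS.up (m := fun a => nOf (w a))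
  have H1 := upN (n := fun a => nOf (w a)) hh
  have D1 := upN (n := fun a => nOf (w a)) hd
  have L1 := last (D := D) (ctx := ctx) (n := fun a => nOf (w a))
  exact PolyS.filter (φ := fun p : α × ℕ =>
    decide (dg (adjOf (w p.1)) (US (nOf (w p.1)) (aOf (w p.1)) (h p.1) (adjOf (w p.1)) (S p.1)) p.2
      < d p.1 / (4 * k)))
    hn (PolyS.range hn)
    (PolyB.lt (poly_dg W1 (poly_US W1 S1 H1) L1) (poly_divc D1 (4 * k)))

theorem poly_sdc (hw : PolyC D ctx w) (hS : PolyS D ctx (fun a => nOf (w a)) S)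
    (hT : PolyS D ctx (fun a => nOf (w a)) T) :
    PolyN D ctx (fun a => sdc (nOf (w a)) (S a) (T a)) := by
  have hn := poly_nOf hw
  have S1 := hS.up (m := fun a => nOf (w a))
  have T1 := hT.up (m := fun a => nOf (w a))
  have L1 := last (D := D) (ctx := ctx) (n := fun a => nOf (w a))
  exact PolyN.count (φ := fun p : α × ℕ => (decide (p.2 ∈ S p.1) ^^ decide (p.2 ∈ T p.1))) hn
    (PolyB.xor (S1.mem L1) (T1.mem L1))

theorem poly_repB (k : ℕ) (hw : PolyC D ctx w) (hd : PolyN D ctx d) (hh : PolyN D ctx h)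
    (hX : PolyN D ctx X) (hj : PolyN D ctx j) :
    PolyB D ctx (fun a =>
      repB (nOf (w a)) (aOf (w a)) k (d a) (h a) (X a) (adjOf (w a)) (j a)) := by
  have hn := poly_nOf hw
  have T0 := poly_tup hn (PolyN.const k) hj
  have W1 := up (n := j) hw
  have D1 := upN (n := j) hd
  have H1 := upN (n := j) hh
  have X1 := upN (n := j) hX
  have L1 := last (D := D) (ctx := ctx) (n := j)
  have T0' := T0.up (m := j)
  have T1 := poly_tup (poly_nOf W1) (PolyN.const k) L1
  refine (poly_passB hw T0 hh hX).and (PolyB.not ?_)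
  exact PolyB.exists_lt (φ := fun p : α × ℕ =>
    (passB (nOf (w p.1)) (aOf (w p.1)) (h p.1) (X p.1) (adjOf (w p.1))
        (tup (nOf (w p.1)) k p.2) &&
      decide (2 * k * sdc (nOf (w p.1))
        (US (nOf (w p.1)) (aOf (w p.1)) (h p.1) (adjOf (w p.1)) (tup (nOf (w p.1)) k p.2))
        (US (nOf (w p.1)) (aOf (w p.1)) (h p.1) (adjOf (w p.1)) (tup (nOf (w p.1)) k (j p.1)))
          ≤ d p.1))) hj
    ((poly_passB W1 T1 H1 X1).and (PolyB.le ((PolyN.const (2 * k)).mul
      (poly_sdc W1 (poly_US W1 T1 H1) (poly_US W1 T0' H1))) D1))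

end

end AlgPAux

open AlgPAux in
theorem algM_poly (k c1 c2 c3 : ℕ) {α : Type} {D : α → Prop} {ctx : List (α → List Bool)}
    {w : α → List Bool} (hw : PolyC D ctx w) : PolyBin D ctx (fun x => algM k c1 c2 c3 (w x)) := by
  have hn := poly_nOf hw
  unfold algM
  refine PolyBin.ite (PolyB.le hn (PolyN.const k)) ?_ ?_
  · exact (poly_leaf (K := fun _ => 4 ^ k) (fun {_ _ _ _} _ => PolyN.const _) hw
      (PolyS.range hn)).mono fun _ h => h.1
  · refine PolyBin.mono ?_ (fun _ h => h.1)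
    have hM : PolyN D ctx (fun x => (nOf (w x) + 1) ^ k) := PolyN.pow hn.succ k
    have W1 := up (n := fun x => (nOf (w x) + 1) ^ k) hw
    have L1 := last (D := D) (ctx := ctx) (n := fun x => (nOf (w x) + 1) ^ k)
    have N1 := poly_nOf W1
    have d1 : PolyN (fun p : α × ℕ => D p.1 ∧ p.2 < (nOf (w p.1) + 1) ^ k)
        (PolyTime.lift ctx ++ [fun p => un p.2])
        (fun p => dg (adjOf (w p.1)) (range (nOf (w p.1))) 0) :=
      poly_dg W1 (PolyS.range N1) (PolyN.const 0)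
    have h1 : PolyN (fun p : α × ℕ => D p.1 ∧ p.2 < (nOf (w p.1) + 1) ^ k)
        (PolyTime.lift ctx ++ [fun p => un p.2])
        (fun p => c1 * Nat.log 2 (nOf (w p.1))) := (PolyN.const c1).mul (upoly_log W1)
    have x1 : PolyN (fun p : α × ℕ => D p.1 ∧ p.2 < (nOf (w p.1) + 1) ^ k)
        (PolyTime.lift ctx ++ [fun p => un p.2])
        (fun p => c2 * Nat.log 2 (nOf (w p.1))) := (PolyN.const c2).mul (upoly_log W1)
    have t1 := poly_tup N1 (PolyN.const k) L1
    unfold outM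
    refine PolyBin.sum_range (f := fun p : α × ℕ =>
      if repB (nOf (w p.1)) (aOf (w p.1)) k (dg (adjOf (w p.1)) (range (nOf (w p.1))) 0)
          (c1 * Nat.log 2 (nOf (w p.1))) (c2 * Nat.log 2 (nOf (w p.1))) (adjOf (w p.1)) p.2 then
        leaf (nOf (w p.1)) (adjOf (w p.1)) (nOf (w p.1) ^ c3)
          (Ub (nOf (w p.1)) (aOf (w p.1)) k (dg (adjOf (w p.1)) (range (nOf (w p.1))) 0)
            (c1 * Nat.log 2 (nOf (w p.1))) (adjOf (w p.1)) (tup (nOf (w p.1)) k p.2)) else 0)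
      hM ?_
    refine PolyBin.ite (poly_repB k W1 d1 h1 x1 L1) ?_ PolyBin.zero
    exact (poly_leaf (K := fun w => nOf w ^ c3) (fun {_ _ _ _} hw' => PolyN.pow (poly_nOf hw') c3) W1
      (poly_Ub k W1 t1 d1 h1)).mono fun _ h => h.1

end Pool.Agent.Lib.Pa7c826m
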