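import Pool.Agent.Lib.Pa7c826m.QSum

/-!
The sum of the bounds `cB` over all nonempty sets `B` of points of the hypercube.

PROOF. Write `X = NS B`, `δ = |X| - |B|`, `m = #{τ ∈ X | τ < M}`, `θ = (1 + 2 ^ g (3 / 4) ^ β) / q0`.
`theta_le`: `q0 = 1 + 1 / 2 ^ g - 1 / 2 ^ d`. It suffices that `2 ^ g (3 / 4) ^ β + 1 / 2 ^ d + 1 / 2 ^ (2 g + 2) ≤ (3 / 4) / 2 ^ g`, and each of the
three terms is at most `1 / 2 ^ (g + 2)`: `(3 / 4) ^ 5 ≤ 1 / 4` and `β ≥ 16 g ^ 2 ≥ 5 (g + 1)` give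
`(3 / 4) ^ β ≤ (1 / 4) ^ (g + 1) = 1 / 2 ^ (2 g + 2)`; `d ≥ β ≥ g + 2`. (`(1 - 1 / 2 ^ (g + 2)) q0 ≥ 1 + (3 / 4) / 2 ^ g - 1 / 2 ^ d - 1 / 2 ^ (2 g + 2)`.)
`cB_small` (`2 |B| ≤ 2 ^ κ`): `m ≤ |X| = |B| + δ`, `q0 ^ |X| ≥ q0 ^ |B|`, `θ ≤ 1`, so `cB ≤ 2 ^ (|B| + δ) / 2 ^ ((β - g) δ)`. By `iso_small`,
`|B| ≤ κ δ`, and `β - g - 1 ≥ κ (3 κ + 1)`, so `(β - g) δ ≥ δ + (3 κ + 1) |B|`. Hence `cB ≤ 1 / 2 ^ (3 κ |B|)`.
`cB_large` (`2 ^ κ ≤ 2 |B|`, so `|B| ≥ 2 ^ (κ - 1)`): `m ≤ M`; by `iso_large`, `|Bᶜ| ≤ (κ + 1) δ`, and `β - g ≥ 3 κ (κ + 1)`, so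
`(β - g) δ ≥ 3 κ |Bᶜ|`; `cB ≤ 2 ^ M θ ^ |B| / 2 ^ (3 κ |Bᶜ|)` and `θ ^ |B| ≤ (1 - 1 / 2 ^ (g + 2)) ^ (2 ^ (κ - 1)) ≤ 1 / 2 ^ (2 ^ (g - 3))`:
`(1 - 1 / N) ^ N ≤ 1 / 2` for `N = 2 ^ (g + 2)` (from `(1 - x) ≤ exp (-x)` and `2 ≤ e`), and `2 ^ (κ - 1) = N * 2 ^ (g - 3)` as `κ = 2 g`.
`sum_cB`: the sum over the `B ≠ ∅` with `2 |B| ≤ 2 ^ κ` is at most `∑ B ≠ ∅, x ^ |B| = (1 + x) ^ (2 ^ κ) - 1 ≤ 2 * 2 ^ κ x` with
`x = 1 / 2 ^ (3 κ)` (`Finset.prod_add` or `Finset.sum_pow_mul_eq_add_pow`; `2 ^ κ x ≤ 1`), so at most `2 / 2 ^ (2 κ)`. The other sets: at most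
`2 ^ M / 2 ^ (2 ^ (g - 3)) * (1 + x) ^ (2 ^ κ) ≤ 2 * 2 ^ M / 2 ^ (2 ^ (g - 3)) ≤ 2 / 2 ^ (4 g)`, since `M ≤ 2 ^ (g - 5)`, `2 ^ (g - 3) = 4 * 2 ^ (g - 5)` and
`3 * 2 ^ (g - 5) ≥ 4 g` for `g ≥ 10`.
-/

namespace Pool.Agent.Lib.Pa7c826m

open Finset Pool.Agent.Lib.Pa7c826 Pool.Agent.Lib.Pa7c826s

variable {κ g β d M : ℕ}

namespace BSumAux

theorem y_facts (hg : 10 ≤ g) (hβ : 16 * g ^ 2 ≤ β) (hβd : β ≤ d) :
    0 < (1 / 2 : ℝ) ^ (g + 2) ∧ (1 / 2 : ℝ) ^ (g + 2) ≤ 1 / 4 ∧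
      (1 : ℝ) / 2 ^ g = 4 * (1 / 2 : ℝ) ^ (g + 2) ∧
      (2 : ℝ) ^ g * (3 / 4) ^ β ≤ (1 / 2 : ℝ) ^ (g + 2) ∧
      (1 : ℝ) / 2 ^ d ≤ (1 / 2 : ℝ) ^ (g + 2) := by
  have hg2 : g + 2 ≤ β := by nlinarith
  have hg5 : 5 * (g + 1) ≤ β := by nlinarith
  refine ⟨by positivity, ?_, ?_, ?_, ?_⟩
  · calc (1 / 2 : ℝ) ^ (g + 2) ≤ (1 / 2 : ℝ) ^ 2 :=
          pow_le_pow_of_le_one (by norm_num) (by norm_num) (by omega)
      _ = 1 / 4 := by norm_num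
  · rw [pow_add, one_div_pow]
    ring
  · have h1 : ((3 : ℝ) / 4) ^ β ≤ (1 / 4) ^ (g + 1) := by
      calc ((3 : ℝ) / 4) ^ β ≤ (3 / 4) ^ (5 * (g + 1)) :=
            pow_le_pow_of_le_one (by norm_num) (by norm_num) hg5
        _ = ((3 / 4) ^ 5) ^ (g + 1) := by rw [pow_mul]
        _ ≤ (1 / 4) ^ (g + 1) := by
            apply pow_le_pow_left₀ (by norm_num)
            norm_num
    calc (2 : ℝ) ^ g * (3 / 4) ^ β ≤ 2 ^ g * (1 / 4) ^ (g + 1) := by gcongr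
      _ = (1 / 2 : ℝ) ^ (g + 2) := by
          have h2 : (2 : ℝ) ^ g * (1 / 4) ^ g = (1 / 2) ^ g := by
            rw [← mul_pow]
            norm_num
          rw [pow_succ, ← mul_assoc, h2, pow_add]
          ring
  · rw [← one_div_pow]
    exact pow_le_pow_of_le_one (by norm_num) (by norm_num) (by omega)

theorem q0_ge (hgd : g ≤ d) : 1 ≤ q0 g d := by
  unfold q0
  have h : (1 : ℝ) / 2 ^ d ≤ 1 / 2 ^ g := by
    apply one_div_le_one_div_of_le (by positivity)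
    exact pow_le_pow_right₀ (by norm_num) hgd
  linarith

theorem card_filter_lt (M : ℕ) (X : Finset (Fin (2 ^ κ))) :
    (X.filter (fun τ : Fin (2 ^ κ) => (τ : ℕ) < M)).card ≤ M := by
  calc (X.filter (fun τ : Fin (2 ^ κ) => (τ : ℕ) < M)).card
      = ((X.filter (fun τ : Fin (2 ^ κ) => (τ : ℕ) < M)).image (fun τ : Fin (2 ^ κ) => (τ : ℕ))).card :=
        (Finset.card_image_of_injective _ Fin.val_injective).symm
    _ ≤ (Finset.range M).card := by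
        apply Finset.card_le_card
        intro i hi
        obtain ⟨τ, hτ, rfl⟩ := Finset.mem_image.mp hi
        exact Finset.mem_range.mpr (Finset.mem_filter.mp hτ).2
    _ = M := Finset.card_range M

end BSumAux

open BSumAux

theorem theta_le (hg : 10 ≤ g) (hβ : 16 * g ^ 2 ≤ β) (hβd : β ≤ d) :
    (1 + 2 ^ g * (3 / 4) ^ β) ≤ (1 - 1 / 2 ^ (g + 2)) * q0 g d := by
  obtain ⟨y0, y1, h1, h2, h3⟩ := y_facts hg hβ hβd
  have hz : (0 : ℝ) ≤ 1 / 2 ^ d := by positivity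
  have hpw : (1 : ℝ) - 1 / 2 ^ (g + 2) = 1 - (1 / 2 : ℝ) ^ (g + 2) := by rw [one_div_pow]
  rw [hpw]
  unfold q0
  rw [h1]
  obtain ⟨y, hy⟩ : ∃ y, y = (1 / 2 : ℝ) ^ (g + 2) := ⟨_, rfl⟩
  obtain ⟨z, hz'⟩ : ∃ z, z = (1 : ℝ) / 2 ^ d := ⟨_, rfl⟩
  rw [← hy] at y0 y1 h2 h3 ⊢
  rw [← hz'] at h3 hz ⊢
  nlinarith [mul_nonneg y0.le (sub_nonneg.mpr y1), mul_nonneg hz (sub_nonneg.mpr y1)]

namespace BSumAux

/-- the estimate without the factor `2 ^ m` -/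
theorem quot_le (hg : 10 ≤ g) (hβ : 16 * g ^ 2 ≤ β) (hβd : β ≤ d) {b x m e : ℕ} (hbx : b ≤ x)
    (he : e ≤ (β - g) * (x - b)) :
    2 ^ m * (1 + 2 ^ g * (3 / 4) ^ β) ^ b / (2 ^ ((β - g) * (x - b)) * q0 g d ^ x) ≤
      2 ^ m * (1 - (1 / 2 : ℝ) ^ (g + 2)) ^ b / 2 ^ e := by
  obtain ⟨y0, y1, -, -, -⟩ := y_facts hg hβ hβd
  have hgβ : g ≤ β := by nlinarith
  have hq := q0_ge (hgβ.trans hβd)
  have hth := theta_le hg hβ hβd
  have hpw : (1 : ℝ) - 1 / 2 ^ (g + 2) = 1 - (1 / 2 : ℝ) ^ (g + 2) := by rw [one_div_pow]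
  rw [hpw] at hth
  have h1 : (1 + (2 : ℝ) ^ g * (3 / 4) ^ β) ^ b ≤ (1 - (1 / 2 : ℝ) ^ (g + 2)) ^ b * q0 g d ^ x := by
    calc (1 + (2 : ℝ) ^ g * (3 / 4) ^ β) ^ b
        ≤ ((1 - (1 / 2 : ℝ) ^ (g + 2)) * q0 g d) ^ b := by
          apply pow_le_pow_left₀ (by positivity) hth
      _ = (1 - (1 / 2 : ℝ) ^ (g + 2)) ^ b * q0 g d ^ b := by rw [mul_pow]
      _ ≤ (1 - (1 / 2 : ℝ) ^ (g + 2)) ^ b * q0 g d ^ x := by
          apply mul_le_mul_of_nonneg_left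
          · exact pow_le_pow_right₀ hq hbx
          · apply pow_nonneg
            linarith
  have h2 : (2 : ℝ) ^ e ≤ 2 ^ ((β - g) * (x - b)) := pow_le_pow_right₀ (by norm_num) he
  have h3 : 0 < q0 g d ^ x := by positivity
  have h4 : (0 : ℝ) ≤ (1 - (1 / 2 : ℝ) ^ (g + 2)) ^ b := by
    apply pow_nonneg
    linarith
  rw [div_le_div_iff₀ (by positivity) (by positivity)]
  calc 2 ^ m * (1 + (2 : ℝ) ^ g * (3 / 4) ^ β) ^ b * 2 ^ e
      ≤ 2 ^ m * ((1 - (1 / 2 : ℝ) ^ (g + 2)) ^ b * q0 g d ^ x) * 2 ^ ((β - g) * (x - b)) := by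
        gcongr
    _ = 2 ^ m * (1 - (1 / 2 : ℝ) ^ (g + 2)) ^ b * (2 ^ ((β - g) * (x - b)) * q0 g d ^ x) := by ring

theorem one_sub_pow_le (N k : ℕ) (hN : 1 ≤ N) :
    (1 - 1 / (N : ℝ)) ^ (N * k) ≤ (1 / 2) ^ k := by
  have hN0 : (0 : ℝ) < N := by exact_mod_cast hN
  have hN1 : (1 : ℝ) ≤ N := by exact_mod_cast hN
  have h0 : (0 : ℝ) ≤ 1 - 1 / (N : ℝ) := by
    have : 1 / (N : ℝ) ≤ 1 := by
      rw [div_le_one hN0]
      exact hN1
    linarith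
  rw [pow_mul]
  apply pow_le_pow_left₀ (pow_nonneg h0 _)
  have h1 : 1 - 1 / (N : ℝ) ≤ Real.exp (-(1 / (N : ℝ))) := by
    have := Real.add_one_le_exp (-(1 / (N : ℝ)))
    linarith
  calc (1 - 1 / (N : ℝ)) ^ N ≤ (Real.exp (-(1 / (N : ℝ)))) ^ N := pow_le_pow_left₀ h0 h1 N
    _ = Real.exp (-1) := by
        rw [← Real.exp_nat_mul]
        congr 1
        field_simp
    _ ≤ 1 / 2 := by
        have h2 : (2 : ℝ) ≤ Real.exp 1 := by
          have := Real.add_one_le_exp (1 : ℝ)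
          linarith
        rw [Real.exp_neg, ← one_div]
        exact one_div_le_one_div_of_le (by norm_num) h2

theorem one_add_pow_le (n : ℕ) (x : ℝ) (hx : 0 ≤ x) (h : n * x ≤ 1) :
    (1 + x) ^ n ≤ 1 + 2 * (n * x) := by
  have h1 : (1 + x) ^ n ≤ Real.exp (n * x) := by
    calc (1 + x) ^ n ≤ (Real.exp x) ^ n := by
          apply pow_le_pow_left₀ (by linarith)
          have := Real.add_one_le_exp x
          linarith
      _ = Real.exp (n * x) := (Real.exp_nat_mul x n).symm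
  have h0 : 0 ≤ (n : ℝ) * x := by positivity
  have h2 := Real.abs_exp_sub_one_le (x := n * x) (by rw [abs_of_nonneg h0]; exact h)
  rw [abs_of_nonneg h0] at h2
  have h3 := (abs_le.mp h2).2
  linarith

theorem two_pow_ge : ∀ g : ℕ, 10 ≤ g → 2 * g ≤ 2 ^ (g - 5) := by
  intro g hg
  induction g, hg using Nat.le_induction with
  | base => norm_num
  | succ n hn ih =>
    have h : n + 1 - 5 = (n - 5) + 1 := by omega
    rw [h, pow_succ]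
    omega

end BSumAux


open BSumAux

theorem cB_small (hg : 10 ≤ g) (hκ : κ = 2 * g) (hβ : 16 * g ^ 2 ≤ β) (hβd : β ≤ d)
    (B : Finset (Fin (2 ^ κ))) (hB : 2 * B.card ≤ 2 ^ κ) :
    cB g β d M B ≤ (1 / 2 ^ (3 * κ)) ^ B.card := by
  obtain ⟨y0, y1, -, -, -⟩ := y_facts hg hβ hβd
  have hiso := iso_small B hB
  have hX := card_le_card (sub_NS B)
  obtain ⟨δ, hδ⟩ := Nat.exists_eq_add_of_le hX
  have hδ' : (NS B).card - B.card = δ := by omega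
  have hBδ : B.card ≤ κ * δ := by
    rw [hδ] at hiso
    nlinarith
  have hβg : κ * (3 * κ + 1) + 1 ≤ β - g := by
    have h1 : κ * (3 * κ + 1) + 1 + g ≤ β := by
      subst hκ
      nlinarith
    omega
  have hexp : 3 * κ * B.card + (NS B).card ≤ (β - g) * ((NS B).card - B.card) := by
    rw [hδ', hδ]
    calc 3 * κ * B.card + (B.card + δ) = (3 * κ + 1) * B.card + δ := by ring
      _ ≤ (3 * κ + 1) * (κ * δ) + δ := by gcongr
      _ = (κ * (3 * κ + 1) + 1) * δ := by ring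
      _ ≤ (β - g) * δ := by gcongr
  have hq := quot_le hg hβ hβd (m := ((NS B).filter (fun τ : Fin (2 ^ κ) => (τ : ℕ) < M)).card)
    (e := 3 * κ * B.card + (NS B).card) hX hexp
  unfold cB
  refine hq.trans ?_
  have hm : ((NS B).filter (fun τ : Fin (2 ^ κ) => (τ : ℕ) < M)).card ≤ (NS B).card :=
    card_le_card (filter_subset _ _)
  have h1 : (1 - (1 / 2 : ℝ) ^ (g + 2)) ^ B.card ≤ 1 := by
    apply pow_le_one₀ <;> linarith
  have h1' : (0 : ℝ) ≤ (1 - (1 / 2 : ℝ) ^ (g + 2)) ^ B.card := by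
    apply pow_nonneg
    linarith
  have h2 : (2 : ℝ) ^ ((NS B).filter (fun τ : Fin (2 ^ κ) => (τ : ℕ) < M)).card ≤
      2 ^ (NS B).card := pow_le_pow_right₀ (by norm_num) hm
  rw [show (1 / 2 ^ (3 * κ) : ℝ) ^ B.card = 1 / 2 ^ (3 * κ * B.card) by rw [one_div_pow, ← pow_mul],
    div_le_div_iff₀ (by positivity) (by positivity), one_mul]
  calc 2 ^ ((NS B).filter (fun τ : Fin (2 ^ κ) => (τ : ℕ) < M)).card *
        (1 - (1 / 2 : ℝ) ^ (g + 2)) ^ B.card * 2 ^ (3 * κ * B.card)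
      ≤ 2 ^ (NS B).card * 1 * 2 ^ (3 * κ * B.card) := by gcongr
    _ = 2 ^ (3 * κ * B.card + (NS B).card) := by rw [pow_add]; ring

theorem cB_large (hg : 10 ≤ g) (hκ : κ = 2 * g) (hβ : 16 * g ^ 2 ≤ β) (hβd : β ≤ d)
    (B : Finset (Fin (2 ^ κ))) (hB : 2 ^ κ ≤ 2 * B.card) :
    cB g β d M B ≤ 2 ^ M / 2 ^ (2 ^ (g - 3)) * (1 / 2 ^ (3 * κ)) ^ Bᶜ.card := by
  obtain ⟨y0, y1, -, -, -⟩ := y_facts hg hβ hβd
  have hiso := iso_large B hB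
  have hX := card_le_card (sub_NS B)
  obtain ⟨δ, hδ⟩ := Nat.exists_eq_add_of_le hX
  have hδ' : (NS B).card - B.card = δ := by omega
  have hBδ : Bᶜ.card ≤ (κ + 1) * δ := by
    rw [hδ, mul_add] at hiso
    omega
  have hβg : 3 * κ * (κ + 1) ≤ β - g := by
    have h1 : 3 * κ * (κ + 1) + g ≤ β := by
      subst hκ
      nlinarith
    omega
  have hexp : 3 * κ * Bᶜ.card ≤ (β - g) * ((NS B).card - B.card) := by
    rw [hδ']
    calc 3 * κ * Bᶜ.card ≤ 3 * κ * ((κ + 1) * δ) := by gcongr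
      _ = 3 * κ * (κ + 1) * δ := by ring
      _ ≤ (β - g) * δ := by gcongr
  have hq := quot_le hg hβ hβd (m := ((NS B).filter (fun τ : Fin (2 ^ κ) => (τ : ℕ) < M)).card)
    (e := 3 * κ * Bᶜ.card) hX hexp
  unfold cB
  refine hq.trans ?_
  have hm := card_filter_lt M (NS B)
  have h2 : (2 : ℝ) ^ ((NS B).filter (fun τ : Fin (2 ^ κ) => (τ : ℕ) < M)).card ≤ 2 ^ M :=
    pow_le_pow_right₀ (by norm_num) hm
  have hcard : 2 ^ (g + 2) * 2 ^ (g - 3) ≤ B.card := by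
    have h3 : 2 ^ κ = 2 * (2 ^ (g + 2) * 2 ^ (g - 3)) := by
      rw [← pow_add, ← pow_succ']
      congr 1
      omega
    omega
  have h4 : (1 - (1 / 2 : ℝ) ^ (g + 2)) ^ B.card ≤ (1 / 2) ^ (2 ^ (g - 3)) := by
    calc (1 - (1 / 2 : ℝ) ^ (g + 2)) ^ B.card
        ≤ (1 - (1 / 2 : ℝ) ^ (g + 2)) ^ (2 ^ (g + 2) * 2 ^ (g - 3)) := by
          apply pow_le_pow_of_le_one _ _ hcard <;> linarith
      _ ≤ (1 / 2) ^ (2 ^ (g - 3)) := by
          have h5 := one_sub_pow_le (2 ^ (g + 2)) (2 ^ (g - 3)) Nat.one_le_two_pow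
          have h6 : (1 : ℝ) / ((2 ^ (g + 2) : ℕ) : ℝ) = (1 / 2 : ℝ) ^ (g + 2) := by
            push_cast
            rw [one_div_pow]
          rw [h6] at h5
          exact h5
  have h4' : (0 : ℝ) ≤ (1 - (1 / 2 : ℝ) ^ (g + 2)) ^ B.card := by
    apply pow_nonneg
    linarith
  calc 2 ^ ((NS B).filter (fun τ : Fin (2 ^ κ) => (τ : ℕ) < M)).card *
        (1 - (1 / 2 : ℝ) ^ (g + 2)) ^ B.card / 2 ^ (3 * κ * Bᶜ.card)
      ≤ 2 ^ M * (1 / 2) ^ (2 ^ (g - 3)) / 2 ^ (3 * κ * Bᶜ.card) := by gcongr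
    _ = 2 ^ M / 2 ^ (2 ^ (g - 3)) * (1 / 2 ^ (3 * κ)) ^ Bᶜ.card := by
        rw [one_div_pow, one_div_pow, ← pow_mul]
        ring

theorem sum_cB (hg : 10 ≤ g) (hκ : κ = 2 * g) (hβ : 16 * g ^ 2 ≤ β) (hβd : β ≤ d)
    (hM : M ≤ 2 ^ (g - 5)) :
    ∑ B ∈ univ.filter (fun B : Finset (Fin (2 ^ κ)) => B ≠ ∅), cB g β d M B ≤
      4 / 2 ^ (4 * g) := by
  classical
  obtain ⟨x, hx⟩ : ∃ x : ℝ, x = 1 / 2 ^ (3 * κ) := ⟨_, rfl⟩
  have hx0 : 0 ≤ x := by rw [hx]; positivity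
  obtain ⟨A, hA⟩ : ∃ A : ℝ, A = 2 ^ M / 2 ^ (2 ^ (g - 3)) := ⟨_, rfl⟩
  have hA0 : 0 ≤ A := by rw [hA]; positivity
  have hκ1 : 1 ≤ κ := by omega
  -- the two sums of powers
  have hcard : (univ : Finset (Fin (2 ^ κ))).card = 2 ^ κ := by simp
  have hS1 : ∑ B : Finset (Fin (2 ^ κ)), x ^ B.card = (1 + x) ^ (2 ^ κ) := by
    have h := Finset.sum_pow_mul_eq_add_pow x 1 (univ : Finset (Fin (2 ^ κ)))
    rw [Finset.powerset_univ, hcard] at h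
    simp only [one_pow, mul_one] at h
    rw [h, add_comm]
  have hS2 : ∑ B : Finset (Fin (2 ^ κ)), x ^ Bᶜ.card = (1 + x) ^ (2 ^ κ) := by
    have h := Finset.sum_pow_mul_eq_add_pow 1 x (univ : Finset (Fin (2 ^ κ)))
    rw [Finset.powerset_univ, hcard] at h
    simp only [one_pow, one_mul] at h
    rw [← h]
    apply Finset.sum_congr rfl
    intro B _
    rw [Finset.card_compl, Fintype.card_fin]
  have hnx : ((2 ^ κ : ℕ) : ℝ) * x = 1 / 2 ^ (4 * g) := by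
    rw [hx, show 3 * κ = κ + 4 * g by omega, pow_add]
    push_cast
    field_simp
  have hnx1 : (1 : ℝ) / 2 ^ (4 * g) ≤ 1 / 2 := by
    rw [← one_div_pow]
    calc (1 / 2 : ℝ) ^ (4 * g) ≤ (1 / 2) ^ 1 :=
          pow_le_pow_of_le_one (by norm_num) (by norm_num) (by omega)
      _ = 1 / 2 := pow_one _
  have hpow : (1 + x) ^ (2 ^ κ) ≤ 1 + 2 * (1 / 2 ^ (4 * g)) := by
    have h := one_add_pow_le (2 ^ κ) x hx0 (by rw [hnx]; linarith)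
    rw [hnx] at h
    exact h
  -- the pointwise bound
  have hpt : ∀ B : Finset (Fin (2 ^ κ)), cB g β d M B ≤ x ^ B.card + A * x ^ Bᶜ.card := by
    intro B
    rcases le_total (2 * B.card) (2 ^ κ) with h | h
    · have h1 := cB_small (M := M) hg hκ hβ hβd B h
      rw [← hx] at h1
      have h2 : 0 ≤ A * x ^ Bᶜ.card := by positivity
      linarith
    · have h1 := cB_large (M := M) hg hκ hβ hβd B h
      rw [← hx, ← hA] at h1
      have h2 : 0 ≤ x ^ B.card := by positivity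
      linarith
  -- the factor of the large sets
  have hAle : A ≤ 1 / 2 ^ (4 * g) := by
    have h1 : M + 4 * g ≤ 2 ^ (g - 3) := by
      have h2 := two_pow_ge g hg
      have h3 : 2 ^ (g - 3) = 4 * 2 ^ (g - 5) := by
        rw [show g - 3 = (g - 5) + 2 by omega, pow_add]
        ring
      omega
    rw [hA, div_le_div_iff₀ (by positivity) (by positivity), one_mul, ← pow_add]
    exact pow_le_pow_right₀ (by norm_num) h1
  calc ∑ B ∈ univ.filter (fun B : Finset (Fin (2 ^ κ)) => B ≠ ∅), cB g β d M B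
      ≤ ∑ B ∈ univ.filter (fun B : Finset (Fin (2 ^ κ)) => B ≠ ∅),
          (x ^ B.card + A * x ^ Bᶜ.card) := Finset.sum_le_sum fun B _ => hpt B
    _ = ∑ B ∈ univ.filter (fun B : Finset (Fin (2 ^ κ)) => B ≠ ∅), x ^ B.card +
          A * ∑ B ∈ univ.filter (fun B : Finset (Fin (2 ^ κ)) => B ≠ ∅), x ^ Bᶜ.card := by
        rw [Finset.sum_add_distrib, Finset.mul_sum]
    _ ≤ ((1 + x) ^ (2 ^ κ) - 1) + A * (1 + x) ^ (2 ^ κ) := by
        apply add_le_add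
        · have h1 : ∑ B ∈ univ.filter (fun B : Finset (Fin (2 ^ κ)) => B ≠ ∅), x ^ B.card +
              ∑ B ∈ univ.filter (fun B : Finset (Fin (2 ^ κ)) => ¬ B ≠ ∅), x ^ B.card =
              (1 + x) ^ (2 ^ κ) := by
            rw [Finset.sum_filter_add_sum_filter_not, hS1]
          have h2 : (1 : ℝ) ≤
              ∑ B ∈ univ.filter (fun B : Finset (Fin (2 ^ κ)) => ¬ B ≠ ∅), x ^ B.card := by
            have h3 : x ^ (∅ : Finset (Fin (2 ^ κ))).card ≤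
                ∑ B ∈ univ.filter (fun B : Finset (Fin (2 ^ κ)) => ¬ B ≠ ∅), x ^ B.card :=
              Finset.single_le_sum (f := fun B : Finset (Fin (2 ^ κ)) => x ^ B.card)
                (fun B _ => pow_nonneg hx0 _) (by simp)
            simpa using h3
          linarith
        · apply mul_le_mul_of_nonneg_left _ hA0
          rw [← hS2]
          exact Finset.sum_le_sum_of_subset_of_nonneg (filter_subset _ _)
            (fun B _ _ => pow_nonneg hx0 _)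
    _ ≤ 2 * (1 / 2 ^ (4 * g)) + (1 / 2 ^ (4 * g)) * 2 := by
        apply add_le_add
        · linarith
        · apply mul_le_mul hAle _ (by positivity) (by positivity)
          linarith
    _ = 4 / 2 ^ (4 * g) := by ring

end Pool.Agent.Lib.Pa7c826m
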