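import Pool.Agent.Lib.Pa7c826m.GCell

/-!
Few independent sets meet some part on both sides.

PROOF. Every such `I` lies in `gcell P Z J` for some `P ⊆ range k`, `Z, J ⊆ range n` that are admissible, `Z` nonempty
(`gcell_exists`). So their number is at most the sum over `P`, `Z`, `J`, `(Z, J) ≠ (∅, ∅)`, admissible, of
`ind (gcell) ≤ 4 2^a x^(|Z| + |J|)`, and the sum over all `Z, J ⊆ range n` of `x^(|Z| + |J|)` is `(1 + x)^(2 n)`
(`Finset.sum_pow_mul_eq_add_pow` twice).
-/

namespace Pool.Agent.Lib.Pa7c826m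

open Finset Pool.Agent.Lib.Pa7c826 Pool.Agent.Lib.Pa7c826t

namespace BadAAux

lemma sum_pow_card (n : ℕ) (x : ℝ) : ∑ Z ∈ (range n).powerset, x ^ Z.card = (1 + x) ^ n := by
  have h := sum_pow_mul_eq_add_pow x 1 (range n)
  rw [card_range] at h
  rw [add_comm 1 x, ← h]
  exact sum_congr rfl fun Z _ => by rw [one_pow, mul_one]

lemma sum_pairs (n : ℕ) (x : ℝ) :
    ∑ Z ∈ (range n).powerset, ∑ J ∈ (range n).powerset, x ^ (Z.card + J.card) =
      (1 + x) ^ (2 * n) := by
  have h : ∀ Z ∈ (range n).powerset, ∑ J ∈ (range n).powerset, x ^ (Z.card + J.card) =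
      x ^ Z.card * (1 + x) ^ n := by
    intro Z _
    rw [← sum_pow_card, mul_sum]
    exact sum_congr rfl fun J _ => pow_add _ _ _
  rw [sum_congr rfl h, ← sum_mul, sum_pow_card, two_mul, pow_add]

open Classical in
lemma sum_ne (n : ℕ) {x : ℝ} (hx : 0 < x) :
    ∑ Z ∈ (range n).powerset, ∑ J ∈ (range n).powerset,
      (if Z.Nonempty then x ^ (Z.card + J.card) else 0) ≤ (1 + x) ^ (2 * n) - 1 := by
  rw [← sum_pairs]
  have h1 : ∑ Z ∈ (range n).powerset, ∑ J ∈ (range n).powerset,
      ((if Z.Nonempty then x ^ (Z.card + J.card) else 0) + (if Z = ∅ ∧ J = ∅ then 1 else 0)) ≤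
      ∑ Z ∈ (range n).powerset, ∑ J ∈ (range n).powerset, x ^ (Z.card + J.card) := by
    refine sum_le_sum fun Z _ => sum_le_sum fun J _ => ?_
    rcases Z.eq_empty_or_nonempty with hZ | hZ
    · subst hZ
      rw [if_neg Finset.not_nonempty_empty, zero_add]
      by_cases hJ : J = ∅
      · subst hJ
        rw [if_pos ⟨rfl, rfl⟩, card_empty, pow_zero]
      · rw [if_neg (fun h => hJ h.2)]
        positivity
    · rw [if_pos hZ, if_neg (fun h => hZ.ne_empty h.1), add_zero]
  have h2 : ∑ Z ∈ (range n).powerset, ∑ J ∈ (range n).powerset,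
      (if Z = ∅ ∧ J = ∅ then (1 : ℝ) else 0) = 1 := by
    rw [sum_eq_single ∅, sum_eq_single ∅]
    · rw [if_pos ⟨rfl, rfl⟩]
    · intro J _ hJ
      rw [if_neg (fun h => hJ h.2)]
    · intro h
      exact absurd (empty_mem_powerset _) h
    · intro Z _ hZ
      exact sum_eq_zero fun J _ => if_neg (fun h => hZ h.1)
    · intro h
      exact absurd (empty_mem_powerset _) h
  simp only [sum_add_distrib] at h1
  rw [h2] at h1
  linarith

end BadAAux

open BadAAux

open Classical in
theorem bad_mixed {n a d k κ : ℕ} {adj : ℕ → ℕ → Bool} {c : ℕ → ℕ} (h : RegBip n a d adj)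
    (hP : Parts n k d κ adj c) (hk : 2 ≤ k) (hd : 400 * k ≤ d) (ha : a ≤ 2 ^ (d / (8 * k)))
    {x : ℝ} (hx : 0 < x) (hx2 : (1 / 2 : ℝ) ^ κ ≤ x ^ (325 * (2 * k) ^ 3)) :
    (((inds n adj).filter (fun I => Mixed a k c I)).card : ℝ) ≤
      2 ^ k * (4 * 2 ^ a) * ((1 + x) ^ (2 * n) - 1) := by
  set G : Finset ℕ → Finset ℕ → Finset ℕ → Finset ℕ := fun P Z J =>
    gcell n a k adj c (d / (4 * k)) (d / (8 * k)) P Z J with hG
  have hI0 : ∀ S : Finset ℕ, ((inds n adj).filter (fun I => I ⊆ S)).card ≤ ind adj S := by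
    intro S
    unfold ind
    refine card_le_card fun I hI => ?_
    rw [mem_filter] at hI
    unfold inds at hI
    rw [mem_filter] at hI
    rw [mem_filter, mem_powerset]
    exact ⟨hI.2, hI.1.2⟩
  have h1 : (inds n adj).filter (fun I => Mixed a k c I) ⊆
      (range k).powerset.biUnion fun P => (range n).powerset.biUnion fun Z =>
        (range n).powerset.biUnion fun J =>
          if AdmAll n a k d κ adj c P Z J ∧ Z.Nonempty then
            (inds n adj).filter (fun I => I ⊆ G P Z J) else ∅ := by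
    intro I hI
    rw [mem_filter] at hI
    obtain ⟨P, Z, J, hPk, hZ, hJ, hA, hs, hne⟩ := gcell_exists h hP hk hd hI.1
    rw [mem_biUnion]
    refine ⟨P, mem_powerset.2 hPk, ?_⟩
    rw [mem_biUnion]
    refine ⟨Z, mem_powerset.2 hZ, ?_⟩
    rw [mem_biUnion]
    refine ⟨J, mem_powerset.2 hJ, ?_⟩
    rw [if_pos ⟨hA, hne hI.2⟩, mem_filter]
    exact ⟨hI.1, hs⟩
  have h2 : ((inds n adj).filter (fun I => Mixed a k c I)).card ≤
      ∑ P ∈ (range k).powerset, ∑ Z ∈ (range n).powerset, ∑ J ∈ (range n).powerset,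
        (if AdmAll n a k d κ adj c P Z J ∧ Z.Nonempty then
            (inds n adj).filter (fun I => I ⊆ G P Z J) else ∅).card := by
    refine (card_le_card h1).trans ?_
    refine card_biUnion_le.trans (sum_le_sum fun P _ => ?_)
    refine card_biUnion_le.trans (sum_le_sum fun Z _ => ?_)
    exact card_biUnion_le
  have h3 : (((inds n adj).filter (fun I => Mixed a k c I)).card : ℝ) ≤
      ∑ P ∈ (range k).powerset, ∑ Z ∈ (range n).powerset, ∑ J ∈ (range n).powerset,
        (4 * 2 ^ a) * (if Z.Nonempty then x ^ (Z.card + J.card) else 0) := by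
    have h4 : (((inds n adj).filter (fun I => Mixed a k c I)).card : ℝ) ≤
      ((∑ P ∈ (range k).powerset, ∑ Z ∈ (range n).powerset, ∑ J ∈ (range n).powerset,
        (if AdmAll n a k d κ adj c P Z J ∧ Z.Nonempty then
            (inds n adj).filter (fun I => I ⊆ G P Z J) else ∅).card : ℕ) : ℝ) := by
      exact_mod_cast h2
    refine h4.trans ?_
    push_cast
    refine sum_le_sum fun P _ => sum_le_sum fun Z hZ => sum_le_sum fun J hJ => ?_
    by_cases hc : AdmAll n a k d κ adj c P Z J ∧ Z.Nonempty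
    · rw [if_pos hc, if_pos hc.2]
      have h5 := gcell_ind h hP hk hd ha (mem_powerset.1 hZ) (mem_powerset.1 hJ) hc.1 hx hx2
      refine le_trans ?_ h5
      exact_mod_cast hI0 _
    · rw [if_neg hc, card_empty, Nat.cast_zero]
      split_ifs <;> positivity
  refine h3.trans ?_
  simp only [← mul_sum]
  rw [sum_const, card_powerset, card_range, nsmul_eq_mul]
  push_cast
  have h6 := sum_ne n hx
  calc (4 : ℝ) * 2 ^ a * (2 ^ k * ∑ Z ∈ (range n).powerset, ∑ J ∈ (range n).powerset,
        (if Z.Nonempty then x ^ (Z.card + J.card) else 0))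
      ≤ (4 : ℝ) * 2 ^ a * (2 ^ k * ((1 + x) ^ (2 * n) - 1)) := by gcongr
    _ = 2 ^ k * (4 * 2 ^ a) * ((1 + x) ^ (2 * n) - 1) := by ring

end Pool.Agent.Lib.Pa7c826m
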