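import Pool.Agent.Lib.Pa7c826m.EdLem

/-!
Data of an independent set in one part.

PROOF. Notation `N(v)` = neighbours in `V`, `q = 2 k`, `t1 = d / (4 k)`, `t2 = m = d / (8 k)`, `2 t2 ≤ t1`, `L_V`, `R_V` the two sides of
`V`. Let `A` be the vertices of `I` on one side `τ`, `T` those on the other. Choose `Z_A ⊆ A` of maximal cardinality with
`t1 |Z_A| ≤ |nbd V Z_A|` (`Z_A = ∅` is possible); then `dg adj (V \ nbd V Z_A) x < t1` for all `x ∈ A` (otherwise add `x`; for
`x ∈ Z_A` the number is `0`). The same for `Z_T ⊆ T`. Choose `τ` such that `|nbd Z_A| ≤ |nbd Z_T|`; `Z := Z_A`, `g := |nbd Z|`;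
`J ⊆ T` of maximal cardinality with `t2 |J| ≤ |{x ∈ cP : x has a neighbour in J}|`; then every `y ∈ T` has fewer than `t2` neighbours in
`cX`.
(c1) `A ⊆ cX` (no neighbours in `J ⊆ T`), `T ⊆ cY`.
(c2) `x ∈ cX` has at least `d/q - t1 ≥ 2 m` neighbours in `nbd V Z`, which is disjoint from the cell (`cX` is on the other
side, `cY` avoids it): `dg adj V x ≥ d/q`; `y ∈ cY`: at least `d/q - t2 ≥ 2m` neighbours in `V`, on the side `τ`, outside `cX`.
(c3) `|Z| t1 ≤ g`; `|cP| (d/q - t1) ≤ ed cP (nbd V Z) ≤ d g`, so `|cP| ≤ 2 q g`, `t2 |J| ≤ 2 q g`; `(|Z| + |J|) d ≤ 13 q² g` because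
`d ≥ 400 k = 200 q`.
(c4) the other side minus `cY` has at least `g` elements; the side `τ` minus `cX` has at least `g/2`:
`|nbd Z_T ∩ cX| ≤ t2 |Z_T| ≤ |nbd Z_T| t2 / t1 ≤ |nbd Z_T| / 2` (`Z_T ⊆ T ⊆ cY`), `|nbd Z_T| ≥ g`.
(c5) `κ g ≤ 2 (eo V cell + d ν)`, `ν = nu n a adj cell`: `nu_indep` for the cell gives an independent `Y0 ⊆ cell` with
`|Y0| + ν = |cell|`, `K := cell \ Y0`. `W := (cX \ K) ∪ (other side \ cY) ∪ (K ∩ cY)`. Edges between `W` and `V \ W`: none between
`cX \ K` and `cY \ K`; every other one joins (side τ \ cX) to (other side \ cY) (these are counted by `eo`) or meets `K` (at most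
`d |K|`). `|W| ≥ g`, `|V \ W| ≥ g/2`, so `hE` gives the claim. Finally `κ (|Z| + |J|) d ≤ 13 q² κ g ≤ 26 q² (..)`.
`A` and `T` nonempty: `Z = ∅` would give `dg adj V x < t1` for `x ∈ A`, but `dg adj V x ≥ d/q ≥ t1`.
-/

namespace Pool.Agent.Lib.Pa7c826m

open Finset Pool.Agent.Lib.Pa7c826 Pool.Agent.Lib.Pa7c826t

namespace CellAux

variable {n a d k κ : ℕ} {adj : ℕ → ℕ → Bool}

theorem mem_nbd {V Z : Finset ℕ} {u : ℕ} :
    u ∈ nbd adj V Z ↔ u ∈ V ∧ ∃ z ∈ Z, adj z u = true := by
  unfold nbd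
  rw [mem_filter]

theorem nbd_sub (V Z : Finset ℕ) : nbd adj V Z ⊆ V := filter_subset _ _

theorem dg_le_two {A B C : Finset ℕ} {v : ℕ} (h : ∀ u ∈ A, adj v u = true → u ∈ B ∨ u ∈ C) :
    dg adj A v ≤ dg adj B v + dg adj C v := by
  unfold dg
  refine le_trans (card_le_card ?_) (card_union_le _ _)
  intro u hu
  rw [mem_filter] at hu
  rw [mem_union, mem_filter, mem_filter]
  rcases h u hu.1 hu.2 with h2 | h2
  · exact Or.inl ⟨h2, hu.2⟩
  · exact Or.inr ⟨h2, hu.2⟩

theorem dg_le_one {A B : Finset ℕ} {v : ℕ} (h : ∀ u ∈ A, adj v u = true → u ∈ B) :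
    dg adj A v ≤ dg adj B v := by
  unfold dg
  refine card_le_card ?_
  intro u hu
  rw [mem_filter] at hu
  rw [mem_filter]
  exact ⟨h u hu.1 hu.2, hu.2⟩

theorem dg_zero {A : Finset ℕ} {v : ℕ} (h : ∀ u ∈ A, adj v u = true → False) :
    dg adj A v = 0 := by
  unfold dg
  rw [card_eq_zero, filter_eq_empty_iff]
  intro u hu hv
  exact h u hu hv

theorem exists_max {V A : Finset ℕ} {t : ℕ} (ht : 1 ≤ t) :
    ∃ Z ⊆ A, t * Z.card ≤ (nbd adj V Z).card ∧
      ∀ x ∈ A, dg adj (V \ nbd adj V Z) x < t := by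
  classical
  obtain ⟨Z, hZ, hmax⟩ := exists_max_image
    (A.powerset.filter (fun Z => t * Z.card ≤ (nbd adj V Z).card)) card
    ⟨∅, by rw [mem_filter]; exact ⟨empty_mem_powerset _, by simp⟩⟩
  rw [mem_filter, mem_powerset] at hZ
  refine ⟨Z, hZ.1, hZ.2, fun x hx => ?_⟩
  by_cases hxZ : x ∈ Z
  · rw [dg_zero]
    · exact ht
    · intro u hu hxu
      rw [mem_sdiff, mem_nbd] at hu
      exact hu.2 ⟨hu.1, x, hxZ, hxu⟩
  · by_contra hcon
    rw [not_lt] at hcon
    have h1 : (insert x Z).card = Z.card + 1 := card_insert_of_notMem hxZ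
    have h2 : (nbd adj V Z).card + dg adj (V \ nbd adj V Z) x ≤ (nbd adj V (insert x Z)).card := by
      have h3 : Disjoint (nbd adj V Z) ((V \ nbd adj V Z).filter (fun u => adj x u = true)) := by
        rw [disjoint_left]
        intro u hu hu'
        rw [mem_filter, mem_sdiff] at hu'
        exact hu'.1.2 hu
      unfold dg
      rw [← card_union_of_disjoint h3]
      apply card_le_card
      intro u hu
      rw [mem_union, mem_filter, mem_sdiff, mem_nbd] at hu
      rw [mem_nbd]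
      rcases hu with ⟨hu, z, hz, hzu⟩ | ⟨⟨hu, _⟩, hxu⟩
      · exact ⟨hu, z, mem_insert_of_mem hz, hzu⟩
      · exact ⟨hu, x, mem_insert_self _ _, hxu⟩
    have h4 := hmax (insert x Z) (by
      rw [mem_filter, mem_powerset]
      refine ⟨insert_subset hx hZ.1, ?_⟩
      rw [h1, Nat.mul_add, Nat.mul_one]
      have := hZ.2
      omega)
    rw [h1] at h4
    omega

theorem cX_eq (hs : ∀ u v, adj u v = adj v u) (V : Finset ℕ) (τ : Bool) (t1 : ℕ)
    (Z J : Finset ℕ) : cX a adj V τ t1 Z J = cP a adj V τ t1 Z \ nbd adj (cP a adj V τ t1 Z) J := by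
  ext x
  unfold cX
  rw [mem_filter, mem_sdiff, mem_nbd]
  constructor
  · rintro ⟨h1, h2⟩
    refine ⟨h1, ?_⟩
    rintro ⟨_, y, hy, hyx⟩
    rw [hs, h2 y hy] at hyx
    exact absurd hyx (by simp)
  · rintro ⟨h1, h2⟩
    refine ⟨h1, fun y hy => ?_⟩
    by_contra hcon
    rw [Bool.not_eq_false] at hcon
    exact h2 ⟨h1, y, hy, by rw [hs]; exact hcon⟩

theorem mem_cP {V : Finset ℕ} {τ : Bool} {t1 : ℕ} {Z : Finset ℕ} {x : ℕ} :
    x ∈ cP a adj V τ t1 Z ↔ x ∈ V ∧ decide (x < a) = τ ∧ dg adj (V \ nbd adj V Z) x < t1 := by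
  unfold cP
  rw [mem_filter]

theorem mem_cX {V : Finset ℕ} {τ : Bool} {t1 : ℕ} {Z J : Finset ℕ} {x : ℕ} :
    x ∈ cX a adj V τ t1 Z J ↔ x ∈ cP a adj V τ t1 Z ∧ ∀ y ∈ J, adj x y = false := by
  unfold cX
  rw [mem_filter]

theorem mem_cY {V : Finset ℕ} {τ : Bool} {t1 t2 : ℕ} {Z J : Finset ℕ} {y : ℕ} :
    y ∈ cY a adj V τ t1 t2 Z J ↔ y ∈ V ∧ decide (y < a) = !τ ∧ y ∉ nbd adj V Z ∧
      dg adj (cX a adj V τ t1 Z J) y < t2 := by
  unfold cY
  rw [mem_filter]

theorem side_flip (h : RegBip n a d adj) {τ : Bool} {u v : ℕ} (hu : decide (u < a) = τ)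
    (huv : adj u v = true) : decide (v < a) = !τ := by
  have h1 := h.bip u v huv
  subst hu
  by_cases h2 : u < a
  · have h3 := h1.1 h2
    simp [h2, h3]
  · have h3 : v < a := by
      by_contra h4
      exact h2 (h1.2 h4)
    simp [h2, h3]

theorem side_flip' (h : RegBip n a d adj) {τ : Bool} {u v : ℕ} (hu : decide (u < a) = !τ)
    (huv : adj u v = true) : decide (v < a) = τ := by
  have h1 := side_flip h hu huv
  rw [h1, Bool.not_not]

/-- `eo` with the sides in any order -/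
theorem eo_side (h : RegBip n a d adj) (V S : Finset ℕ) (τ : Bool) :
    eo a adj V S = ed adj ((V.filter (fun v => decide (v < a) = !τ)) \ S)
      ((V.filter (fun v => decide (v < a) = τ)) \ S) := by
  unfold eo
  cases τ
  · simp
  · rw [ed_comm h.symm]
    simp

end CellAux


theorem CellAux.cell_side {n a d k κ : ℕ} {adj : ℕ → ℕ → Bool} (h : RegBip n a d adj) (hk : 2 ≤ k)
    (hd : 400 * k ≤ d) {V : Finset ℕ} (hV : V ⊆ range n)
    (hE : ∀ S ⊆ V, κ * min S.card (V \ S).card ≤ ed adj S (V \ S))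
    (hD : ∀ v ∈ V, d ≤ 2 * k * dg adj V v) {I : Finset ℕ} (hI : I ⊆ V)
    (hind : ∀ u ∈ I, ∀ v ∈ I, adj u v = false) (τ : Bool) {t1 t2 : ℕ}
    (ht1 : 4 * k * t1 ≤ d) (ht1' : d < 4 * k * (t1 + 1)) (ht2 : 8 * k * t2 ≤ d)
    (ht2' : d < 8 * k * (t2 + 1)) {Z ZT : Finset ℕ}
    (hZ : Z ⊆ I.filter (fun v => decide (v < a) = τ)) (hZ1 : t1 * Z.card ≤ (nbd adj V Z).card)
    (hZ2 : ∀ x ∈ I.filter (fun v => decide (v < a) = τ), dg adj (V \ nbd adj V Z) x < t1)
    (hT : ZT ⊆ I.filter (fun v => decide (v < a) = !τ))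
    (hT1 : t1 * ZT.card ≤ (nbd adj V ZT).card)
    (hle : (nbd adj V Z).card ≤ (nbd adj V ZT).card) :
    ∃ J ⊆ V, AdmC a adj V τ t1 t2 Z J n d κ (2 * k) t2 ∧ I ⊆ cell a adj V τ t1 t2 Z J ∧
      ((∃ u ∈ I, u < a) → (∃ v ∈ I, ¬ v < a) → Z.Nonempty) := by
  classical
  have hkpos : 0 < k := by omega
  have ht1lo : 100 ≤ t1 := by
    by_contra hcon
    have : t1 + 1 ≤ 100 := by omega
    have h1 : 4 * k * (t1 + 1) ≤ 4 * k * 100 := Nat.mul_le_mul_left _ this
    omega
  have ht2lo : 50 ≤ t2 := by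
    by_contra hcon
    have : t2 + 1 ≤ 50 := by omega
    have h1 : 8 * k * (t2 + 1) ≤ 8 * k * 50 := Nat.mul_le_mul_left _ this
    omega
  have h2t : 2 * t2 ≤ t1 := by
    by_contra hcon
    have : t1 + 1 ≤ 2 * t2 := by omega
    have h1 : 4 * k * (t1 + 1) ≤ 4 * k * (2 * t2) := Nat.mul_le_mul_left _ this
    have h2 : 4 * k * (2 * t2) = 8 * k * t2 := by ring
    omega
  have hdpos : 0 < d := by omega
  -- the set J
  obtain ⟨J, hJ, hJ1, hJ2⟩ := CellAux.exists_max (adj := adj) (V := cP a adj V τ t1 Z)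
    (A := I.filter (fun v => decide (v < a) = !τ)) (t := t2) (by omega)
  rw [← CellAux.cX_eq h.symm] at hJ2
  have hJI : J ⊆ I := fun y hy => (mem_filter.1 (hJ hy)).1
  have hZI : Z ⊆ I := fun y hy => (mem_filter.1 (hZ hy)).1
  have hZTI : ZT ⊆ I := fun y hy => (mem_filter.1 (hT hy)).1
  have hJside : ∀ y ∈ J, decide (y < a) = !τ := fun y hy => (mem_filter.1 (hJ hy)).2
  have hZside : ∀ y ∈ Z, decide (y < a) = τ := fun y hy => (mem_filter.1 (hZ hy)).2
  have hZTside : ∀ y ∈ ZT, decide (y < a) = !τ := fun y hy => (mem_filter.1 (hT hy)).2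
  set X := cX a adj V τ t1 Z J with hX
  set Y := cY a adj V τ t1 t2 Z J with hY
  set C := cell a adj V τ t1 t2 Z J with hC
  have hCdef : C = X ∪ Y := rfl
  set g := (nbd adj V Z).card with hg
  set P := cP a adj V τ t1 Z with hP
  have hXside : ∀ x ∈ X, decide (x < a) = τ := fun x hx =>
    (CellAux.mem_cP.1 (CellAux.mem_cX.1 hx).1).2.1
  have hYside : ∀ y ∈ Y, decide (y < a) = !τ := fun y hy => (CellAux.mem_cY.1 hy).2.1
  have hXV : ∀ x ∈ X, x ∈ V := fun x hx => (CellAux.mem_cP.1 (CellAux.mem_cX.1 hx).1).1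
  have hYV : ∀ y ∈ Y, y ∈ V := fun y hy => (CellAux.mem_cY.1 hy).1
  have hCV : C ⊆ V := by
    intro v hv
    rw [hCdef, mem_union] at hv
    rcases hv with hv | hv
    · exact hXV v hv
    · exact hYV v hv
  have hNside : ∀ u ∈ nbd adj V Z, decide (u < a) = !τ := by
    intro u hu
    obtain ⟨_, z, hz, hzu⟩ := CellAux.mem_nbd.1 hu
    exact CellAux.side_flip h (hZside z hz) hzu
  have hnt : ∀ v : ℕ, decide (v < a) = τ → decide (v < a) = !τ → False := by
    intro v h1 h2
    rw [h1] at h2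
    cases τ <;> simp at h2
  -- (c1)
  have hAX : ∀ x ∈ I, decide (x < a) = τ → x ∈ X := by
    intro x hx hxs
    rw [hX, CellAux.mem_cX, CellAux.mem_cP]
    exact ⟨⟨hI hx, hxs, hZ2 x (mem_filter.2 ⟨hx, hxs⟩)⟩, fun y hy => hind x hx y (hJI hy)⟩
  have hTY : ∀ y ∈ I, decide (y < a) = !τ → y ∈ Y := by
    intro y hy hys
    rw [hY, CellAux.mem_cY]
    refine ⟨hI hy, hys, ?_, hJ2 y (mem_filter.2 ⟨hy, hys⟩)⟩
    intro hcon
    obtain ⟨_, z, hz, hzy⟩ := CellAux.mem_nbd.1 hcon
    rw [hind z (hZI hz) y hy] at hzy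
    exact absurd hzy (by simp)
  have hIC : I ⊆ C := by
    intro v hv
    rw [hCdef, mem_union]
    by_cases h1 : decide (v < a) = τ
    · exact Or.inl (hAX v hv h1)
    · refine Or.inr (hTY v hv ?_)
      revert h1
      cases τ <;> cases (decide (v < a)) <;> simp
  -- the degree into the neighbourhood of Z
  have hDX : ∀ x ∈ P, d ≤ 4 * k * dg adj (nbd adj V Z) x := by
    intro x hx
    rw [hP, CellAux.mem_cP] at hx
    have h1 := hD x hx.1
    have h2 : dg adj V x ≤ dg adj (nbd adj V Z) x + dg adj (V \ nbd adj V Z) x := by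
      apply CellAux.dg_le_two
      intro u hu _
      by_cases h3 : u ∈ nbd adj V Z
      · exact Or.inl h3
      · exact Or.inr (mem_sdiff.2 ⟨hu, h3⟩)
    have h3 : dg adj (V \ nbd adj V Z) x ≤ t1 := hx.2.2.le
    have h4 : dg adj V x ≤ dg adj (nbd adj V Z) x + t1 := by omega
    have h5 : 2 * k * dg adj V x ≤ 2 * k * (dg adj (nbd adj V Z) x + t1) :=
      Nat.mul_le_mul_left _ h4
    have h6 : 2 * (2 * k * (dg adj (nbd adj V Z) x + t1)) =
      4 * k * dg adj (nbd adj V Z) x + 4 * k * t1 := by ring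
    omega
  have hPV : ∀ x ∈ P, x ∈ V := fun x hx => (CellAux.mem_cP.1 hx).1
  -- (c2)
  have hlight : ∀ v ∈ C, 2 * t2 ≤ dg adj (V \ C) v := by
    intro v hv
    rw [hCdef, mem_union] at hv
    rcases hv with hv | hv
    · have h1 := hDX v (CellAux.mem_cX.1 hv).1
      have h2 : dg adj (nbd adj V Z) v ≤ dg adj (V \ C) v := by
        apply CellAux.dg_le_one
        intro u hu _
        rw [mem_sdiff]
        refine ⟨CellAux.nbd_sub _ _ hu, ?_⟩
        rw [hCdef, mem_union]
        rintro (h3 | h3)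
        · exact hnt u (hXside u h3) (hNside u hu)
        · exact (CellAux.mem_cY.1 h3).2.2.1 hu
      have h3 : 2 * t2 ≤ dg adj (nbd adj V Z) v := by
        by_contra hcon
        have h4 : dg adj (nbd adj V Z) v + 1 ≤ 2 * t2 := by omega
        have h5 : 4 * k * (dg adj (nbd adj V Z) v + 1) ≤ 4 * k * (2 * t2) :=
          Nat.mul_le_mul_left _ h4
        have h6 : 4 * k * (2 * t2) = 8 * k * t2 := by ring
        have h7 : 4 * k * (dg adj (nbd adj V Z) v + 1) =
          4 * k * dg adj (nbd adj V Z) v + 4 * k := by ring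
        omega
      omega
    · have h1 := hD v (hYV v hv)
      have h2 : dg adj V v ≤ dg adj X v + dg adj (V \ C) v := by
        apply CellAux.dg_le_two
        intro u hu huv
        have h3 : decide (u < a) = τ := CellAux.side_flip' h (hYside v hv) huv
        by_cases h4 : u ∈ X
        · exact Or.inl h4
        · refine Or.inr (mem_sdiff.2 ⟨hu, ?_⟩)
          rw [hCdef, mem_union]
          rintro (h5 | h5)
          · exact h4 h5
          · exact hnt u h3 (hYside u h5)
      have h3 : dg adj X v < t2 := (CellAux.mem_cY.1 hv).2.2.2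
      by_contra hcon
      have h4 : dg adj V v ≤ 3 * t2 := by omega
      have h5 : 2 * k * dg adj V v ≤ 2 * k * (3 * t2) := Nat.mul_le_mul_left _ h4
      have h6 : 4 * (2 * k * (3 * t2)) = 3 * (8 * k * t2) := by ring
      omega
  -- (c3)
  have hPcard : P.card ≤ 4 * k * g := by
    have h1 : ed adj P (nbd adj V Z) ≤ d * g :=
      ed_le_mul' h (fun x hx => hV (hPV x hx)) ((CellAux.nbd_sub _ _).trans hV)
    have h2 : P.card * d ≤ 4 * k * ed adj P (nbd adj V Z) := by
      unfold ed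
      rw [mul_sum, ← smul_eq_mul]
      exact card_nsmul_le_sum _ _ _ (fun x hx => hDX x hx)
    have h3 : P.card * d ≤ (4 * k * g) * d := by
      calc P.card * d ≤ 4 * k * ed adj P (nbd adj V Z) := h2
        _ ≤ 4 * k * (d * g) := Nat.mul_le_mul_left _ h1
        _ = (4 * k * g) * d := by ring
    exact Nat.le_of_mul_le_mul_right h3 hdpos
  have hJcard : t2 * J.card ≤ 4 * k * g :=
    le_trans hJ1 (le_trans (card_le_card (CellAux.nbd_sub _ _)) hPcard)
  have hc3 : (Z.card + J.card) * d ≤ 52 * k ^ 2 * g := by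
    -- 100 d <= 404 k t1, 50 d <= 408 k t2
    have h1 : 100 * d ≤ 404 * k * t1 := by
      have h2 : d < 4 * k * t1 + 4 * k := by
        have : 4 * k * (t1 + 1) = 4 * k * t1 + 4 * k := by ring
        omega
      have h3 : 100 * k ≤ k * t1 := by
        have := Nat.mul_le_mul_left k ht1lo
        linarith
      nlinarith
    have h2 : 50 * d ≤ 408 * k * t2 := by
      have h2 : d < 8 * k * t2 + 8 * k := by
        have : 8 * k * (t2 + 1) = 8 * k * t2 + 8 * k := by ring
        omega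
      have h3 : 50 * k ≤ k * t2 := by
        have := Nat.mul_le_mul_left k ht2lo
        linarith
      nlinarith
    have h3 : 100 * (Z.card * d) ≤ 404 * k * g := by
      calc 100 * (Z.card * d) = Z.card * (100 * d) := by ring
        _ ≤ Z.card * (404 * k * t1) := Nat.mul_le_mul_left _ h1
        _ = 404 * k * (t1 * Z.card) := by ring
        _ ≤ 404 * k * g := Nat.mul_le_mul_left _ hZ1
    have h4 : 50 * (J.card * d) ≤ 1632 * (k ^ 2 * g) := by
      calc 50 * (J.card * d) = J.card * (50 * d) := by ring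
        _ ≤ J.card * (408 * k * t2) := Nat.mul_le_mul_left _ h2
        _ = 408 * k * (t2 * J.card) := by ring
        _ ≤ 408 * k * (4 * k * g) := Nat.mul_le_mul_left _ hJcard
        _ = 1632 * (k ^ 2 * g) := by ring
    have h5 : 2 * (k * g) ≤ k ^ 2 * g := by
      have : 2 * (k * g) ≤ k * (k * g) := Nat.mul_le_mul_right _ hk
      calc 2 * (k * g) ≤ k * (k * g) := this
        _ = k ^ 2 * g := by ring
    have h6 : 404 * k * g = 404 * (k * g) := by ring
    have h7 : 52 * k ^ 2 * g = 52 * (k ^ 2 * g) := by ring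
    have h8 : (Z.card + J.card) * d = Z.card * d + J.card * d := by ring
    omega
  -- (c5)
  obtain ⟨Y0, hY0, hY0c, hY0i⟩ := nu_indep (hCV.trans hV) h.symm h.bip
  set K := C \ Y0 with hK
  have hKc : K.card = nu n a adj C := by
    have := card_sdiff_add_card_eq_card hY0
    rw [← hK] at this
    omega
  have hKmem : ∀ v ∈ C, v ∉ Y0 → v ∈ K := fun v h1 h2 => mem_sdiff.2 ⟨h1, h2⟩
  clear_value K
  set S := V.filter (fun v => decide (v < a) = τ) with hS
  set S' := V.filter (fun v => decide (v < a) = !τ) with hS'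
  set W := (X \ K) ∪ (S' \ Y) ∪ (K ∩ Y) with hW
  have hWV : W ⊆ V := by
    intro v hv
    rw [hW, mem_union, mem_union, mem_sdiff, mem_sdiff, mem_inter] at hv
    rcases hv with (hv | hv) | hv
    · exact hXV v hv.1
    · exact (mem_filter.1 hv.1).1
    · exact hYV v hv.2
  have hWcard : g ≤ W.card := by
    apply card_le_card
    intro u hu
    rw [hW, mem_union, mem_union]
    refine Or.inl (Or.inr (mem_sdiff.2
      ⟨mem_filter.2 ⟨CellAux.nbd_sub _ _ hu, hNside u hu⟩, fun h1 => ?_⟩))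
    exact (CellAux.mem_cY.1 h1).2.2.1 hu
  have hNT : ∀ u ∈ nbd adj V ZT, decide (u < a) = τ := by
    intro u hu
    obtain ⟨_, z, hz, hzu⟩ := CellAux.mem_nbd.1 hu
    exact CellAux.side_flip' h (hZTside z hz) hzu
  have hVWcard : g ≤ 2 * (V \ W).card := by
    have h1 : (nbd adj V ZT ∩ X).card ≤ t2 * ZT.card := by
      have h2 : nbd adj V ZT ∩ X ⊆ ZT.biUnion (fun z => X.filter (fun u => adj z u = true)) := by
        intro u hu
        rw [mem_inter] at hu
        obtain ⟨_, z, hz, hzu⟩ := CellAux.mem_nbd.1 hu.1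
        rw [mem_biUnion]
        exact ⟨z, hz, mem_filter.2 ⟨hu.2, hzu⟩⟩
      refine le_trans (card_le_card h2) ?_
      rw [mul_comm]
      refine card_biUnion_le_card_mul _ _ _ (fun z hz => ?_)
      exact (hJ2 z (hT hz)).le
    have h2 : nbd adj V ZT \ X ⊆ V \ W := by
      intro u hu
      rw [mem_sdiff] at hu
      have hus := hNT u hu.1
      rw [mem_sdiff]
      refine ⟨CellAux.nbd_sub _ _ hu.1, ?_⟩
      rw [hW, mem_union, mem_union, mem_sdiff, mem_sdiff, mem_inter]
      rintro ((h3 | h3) | h3)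
      · exact hu.2 h3.1
      · exact hnt u hus (mem_filter.1 h3.1).2
      · exact hnt u hus (hYside u h3.2)
    have h3 := card_le_card h2
    have h4 : (nbd adj V ZT \ X).card + (nbd adj V ZT ∩ X).card = (nbd adj V ZT).card :=
      card_sdiff_add_card_inter _ _
    have h5 : 2 * (t2 * ZT.card) ≤ t1 * ZT.card := by
      rw [← mul_assoc]
      exact Nat.mul_le_mul_right _ h2t
    omega
  have hbd : ed adj W (V \ W) ≤ eo a adj V C + d * nu n a adj C := by
    have e1 : eo a adj V C = ed adj (S' \ C) (S \ C) := CellAux.eo_side h V C τ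
    have e2 : S' \ C = S' \ Y := by
      ext v
      rw [mem_sdiff, mem_sdiff, hCdef, mem_union]
      constructor
      · rintro ⟨h1, h2⟩
        exact ⟨h1, fun h3 => h2 (Or.inr h3)⟩
      · rintro ⟨h1, h2⟩
        refine ⟨h1, ?_⟩
        rintro (h3 | h3)
        · exact hnt v (hXside v h3) (mem_filter.1 h1).2
        · exact h2 h3
    have e3 : S \ C = S \ X := by
      ext v
      rw [mem_sdiff, mem_sdiff, hCdef, mem_union]
      constructor
      · rintro ⟨h1, h2⟩
        exact ⟨h1, fun h3 => h2 (Or.inl h3)⟩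
      · rintro ⟨h1, h2⟩
        refine ⟨h1, ?_⟩
        rintro (h3 | h3)
        · exact h2 h3
        · exact hnt v (mem_filter.1 h1).2 (hYside v h3)
    rw [e1, e2, e3]
    -- pointwise bound
    have hpt : ∀ w ∈ W, dg adj (V \ W) w ≤
        (if w ∈ S' \ Y then dg adj (S \ X) w else 0) + (if w ∈ K ∩ Y then d else 0) +
          dg adj (K ∩ X) w := by
      intro w hw
      have hw' := hw
      rw [hW, mem_union, mem_union] at hw
      rcases hw with (hw1 | hw1) | hw1
      · -- w in X \ K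
        rw [mem_sdiff] at hw1
        have hws := hXside w hw1.1
        rw [CellAux.dg_zero]
        · exact Nat.zero_le _
        · intro u hu hwu
          rw [mem_sdiff] at hu
          have hus := CellAux.side_flip h hws hwu
          -- u in S', not in W: u in Y \ K
          have huY : u ∈ Y := by
            by_contra h3
            apply hu.2
            rw [hW, mem_union, mem_union, mem_sdiff (s := S')]
            exact Or.inl (Or.inr ⟨mem_filter.2 ⟨hu.1, hus⟩, h3⟩)
          have huK : u ∉ K := by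
            intro h3
            apply hu.2
            rw [hW, mem_union]
            exact Or.inr (mem_inter.2 ⟨h3, huY⟩)
          have huY0 : u ∈ Y0 := by
            by_contra h3
            exact huK (hKmem u (by rw [hCdef]; exact mem_union_right _ huY) h3)
          have hwY0 : w ∈ Y0 := by
            by_contra h3
            exact hw1.2 (hKmem w (by rw [hCdef]; exact mem_union_left _ hw1.1) h3)
          rw [hY0i w hwY0 u huY0] at hwu
          exact absurd hwu (by simp)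
      · rw [if_pos hw1]
        have hws : decide (w < a) = !τ := (mem_filter.1 (mem_sdiff.1 hw1).1).2
        have h3 : dg adj (V \ W) w ≤ dg adj (S \ X) w + dg adj (K ∩ X) w := by
          apply CellAux.dg_le_two
          intro u hu hwu
          rw [mem_sdiff] at hu
          have hus := CellAux.side_flip' h hws hwu
          by_cases huX : u ∈ X
          · refine Or.inr (mem_inter.2 ⟨?_, huX⟩)
            by_contra h4
            apply hu.2
            rw [hW, mem_union, mem_union, mem_sdiff]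
            exact Or.inl (Or.inl ⟨huX, h4⟩)
          · exact Or.inl (mem_sdiff.2 ⟨mem_filter.2 ⟨hu.1, hus⟩, huX⟩)
        omega
      · rw [if_pos hw1]
        have h3 : dg adj (V \ W) w ≤ d :=
          dg_le h (sdiff_subset.trans hV) (mem_range.1 (hV (hWV hw')))
        omega
    have h1 : ed adj W (V \ W) ≤ ∑ w ∈ W, ((if w ∈ S' \ Y then dg adj (S \ X) w else 0) +
        (if w ∈ K ∩ Y then d else 0) + dg adj (K ∩ X) w) := sum_le_sum hpt
    rw [sum_add_distrib, sum_add_distrib] at h1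
    have h2 : ∑ w ∈ W, (if w ∈ S' \ Y then dg adj (S \ X) w else 0) ≤
        ed adj (S' \ Y) (S \ X) := by
      rw [← sum_filter]
      unfold ed
      apply sum_le_sum_of_subset
      intro w hw
      exact (mem_filter.1 hw).2
    have h3 : ∑ w ∈ W, (if w ∈ K ∩ Y then d else 0) ≤ d * (K ∩ Y).card := by
      rw [← sum_filter, sum_const, smul_eq_mul, mul_comm]
      apply Nat.mul_le_mul_left
      apply card_le_card
      intro w hw
      exact (mem_filter.1 hw).2
    have h4 : ∑ w ∈ W, dg adj (K ∩ X) w ≤ d * (K ∩ X).card :=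
      ed_le_mul' h (hWV.trans hV) (fun x hx => hV (hXV x (mem_inter.1 hx).2))
    have h5 : (K ∩ Y).card + (K ∩ X).card ≤ K.card := by
      rw [← card_union_of_disjoint]
      · apply card_le_card
        intro v hv
        rw [mem_union, mem_inter, mem_inter] at hv
        rcases hv with hv | hv
        · exact hv.1
        · exact hv.1
      · rw [disjoint_left]
        intro v hv hv'
        exact hnt v (hXside v (mem_inter.1 hv').2) (hYside v (mem_inter.1 hv).2)
    have h6 : d * (K ∩ Y).card + d * (K ∩ X).card ≤ d * nu n a adj C := by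
      rw [← hKc, ← Nat.mul_add]
      exact Nat.mul_le_mul_left _ h5
    omega
  have hc5 : κ * g ≤ 2 * (eo a adj V C + d * nu n a adj C) := by
    have h1 := hE W hWV
    have h2 : g ≤ 2 * min W.card (V \ W).card := by
      rcases min_choice W.card (V \ W).card with h3 | h3
      · rw [h3]; omega
      · rw [h3]; exact hVWcard
    calc κ * g ≤ κ * (2 * min W.card (V \ W).card) := Nat.mul_le_mul_left _ h2
      _ = 2 * (κ * min W.card (V \ W).card) := by ring
      _ ≤ 2 * (eo a adj V C + d * nu n a adj C) := Nat.mul_le_mul_left _ (h1.trans hbd)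
  refine ⟨J, fun y hy => hI (hJI hy), ⟨hlight, ?_⟩, hIC, ?_⟩
  · calc κ * ((Z.card + J.card) * d) ≤ κ * (52 * k ^ 2 * g) := Nat.mul_le_mul_left _ hc3
      _ = 52 * k ^ 2 * (κ * g) := by ring
      _ ≤ 52 * k ^ 2 * (2 * (eo a adj V C + d * nu n a adj C)) := Nat.mul_le_mul_left _ hc5
      _ = 26 * (2 * k) ^ 2 * (eo a adj V C + d * nu n a adj C) := by ring
  · rintro ⟨u, hu, hua⟩ ⟨v, hv, hva⟩
    have hx : ∃ x ∈ I, decide (x < a) = τ := by
      cases τ
      · exact ⟨v, hv, by simp [hva]⟩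
      · exact ⟨u, hu, by simp [hua]⟩
    obtain ⟨x, hx, hxs⟩ := hx
    by_contra hcon
    rw [not_nonempty_iff_eq_empty] at hcon
    have h1 := hDX x (CellAux.mem_cX.1 (hAX x hx hxs)).1
    rw [hcon] at h1
    have h2 : dg adj (nbd adj V ∅) x = 0 := by
      apply CellAux.dg_zero
      intro u hu _
      obtain ⟨_, z, hz, _⟩ := CellAux.mem_nbd.1 hu
      exact absurd hz (notMem_empty _)
    rw [h2] at h1
    omega

theorem cell_exists {n a d k κ : ℕ} {adj : ℕ → ℕ → Bool} (h : RegBip n a d adj) (hk : 2 ≤ k)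
    (hd : 400 * k ≤ d) {V : Finset ℕ} (hV : V ⊆ range n)
    (hE : ∀ S ⊆ V, κ * min S.card (V \ S).card ≤ ed adj S (V \ S))
    (hD : ∀ v ∈ V, d ≤ 2 * k * dg adj V v) {I : Finset ℕ} (hI : I ⊆ V)
    (hind : ∀ u ∈ I, ∀ v ∈ I, adj u v = false) :
    ∃ (τ : Bool) (Z J : Finset ℕ), Z ⊆ V ∧ J ⊆ V ∧
      AdmC a adj V τ (d / (4 * k)) (d / (8 * k)) Z J n d κ (2 * k) (d / (8 * k)) ∧
      I ⊆ cell a adj V τ (d / (4 * k)) (d / (8 * k)) Z J ∧
      ((∃ u ∈ I, u < a) → (∃ v ∈ I, ¬ v < a) → Z.Nonempty) := by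
  classical
  have hkpos : 0 < k := by omega
  have h4k : 0 < 4 * k := by omega
  have h8k : 0 < 8 * k := by omega
  have ht1 : 4 * k * (d / (4 * k)) ≤ d := Nat.mul_div_le d (4 * k)
  have ht1' : d < 4 * k * (d / (4 * k) + 1) := by
    rw [Nat.mul_add, Nat.mul_one]
    exact Nat.lt_mul_div_succ d h4k
  have ht2 : 8 * k * (d / (8 * k)) ≤ d := Nat.mul_div_le d (8 * k)
  have ht2' : d < 8 * k * (d / (8 * k) + 1) := by
    rw [Nat.mul_add, Nat.mul_one]
    exact Nat.lt_mul_div_succ d h8k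
  have ht1lo : 1 ≤ d / (4 * k) := by
    rw [Nat.one_le_div_iff h4k]
    omega
  obtain ⟨Z0, hZ0, hZ01, hZ02⟩ := CellAux.exists_max (adj := adj) (V := V)
    (A := I.filter (fun v => decide (v < a) = false)) ht1lo
  obtain ⟨Z1, hZ1, hZ11, hZ12⟩ := CellAux.exists_max (adj := adj) (V := V)
    (A := I.filter (fun v => decide (v < a) = true)) ht1lo
  rcases le_total (nbd adj V Z0).card (nbd adj V Z1).card with hle | hle
  · obtain ⟨J, hJ, hA, hIC, hne⟩ := CellAux.cell_side h hk hd hV hE hD hI hind false ht1 ht1'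
      ht2 ht2' hZ0 hZ01 hZ02 hZ1 hZ11 hle
    exact ⟨false, Z0, J, fun z hz => hI (mem_filter.1 (hZ0 hz)).1, hJ, hA, hIC, hne⟩
  · obtain ⟨J, hJ, hA, hIC, hne⟩ := CellAux.cell_side h hk hd hV hE hD hI hind true ht1 ht1'
      ht2 ht2' hZ1 hZ11 hZ12 hZ0 hZ01 hle
    exact ⟨true, Z1, J, fun z hz => hI (mem_filter.1 (hZ1 hz)).1, hJ, hA, hIC, hne⟩

end Pool.Agent.Lib.Pa7c826m
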