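import Pool.Agent.Lib.Pa7c826m.Defs

/-!
From graphs to adjacency functions on `range n`.

PROOF. `num G : Fin a ⊕ Fin b → ℕ` is the numbering, `adjOf_num`, `num_injective`, `num_range`, `adjOf_bip` (`Pa7c826/Decode.lean`).
`regBip_of`: `rowDeg`, `colDeg` are the degrees `dg adj (range n) v` (see how `HostA.lean`, `ClassT.lean` or `Easy.lean` translate `rowDeg`, `colDeg`);
double counting gives `a d = b d`, so `a = b` for `0 < d`, and `n = a + b = 2 a`.
`kw_of`: let `W i ⊆ range n` be disjoint and nonempty; `W' i := univ.filter (fun x => num G x ∈ W i)`; `|W' i| = |W i|`, and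
`bdry G (W' i) = ed adj (W i) (range n \ W i)`: a pair `(u, v)`, `u ∈ W`, `v ∉ W` adjacent corresponds to an edge `(i, j)` with exactly one end in `W'`.
-/

namespace Pool.Agent.Lib.Pa7c826m

open Finset Pool.Agent.Lib.Pa7c826 Pool.Agent.Lib.Pa7c826t

namespace ClassEAux

theorem bip_in {G : BGraph} {t u v : ℕ} (h : adjOf (inCode G t) u v = true) :
    (u < G.a ∧ G.a ≤ v ∧ v < G.a + G.b) ∨ (v < G.a ∧ G.a ≤ u ∧ u < G.a + G.b) := by
  have h2 := adjOf_bip h
  rw [aOf_inCode, bOf_inCode] at h2
  exact h2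

theorem sum_deg (G : BGraph) : ∑ i, G.rowDeg i = ∑ j, G.colDeg j := by
  unfold BGraph.rowDeg BGraph.colDeg
  simp only [card_filter]
  exact sum_comm

/-- the vertices with number in `W` -/
def pull (G : BGraph) (W : Finset ℕ) : Finset (Fin G.a ⊕ Fin G.b) :=
  univ.filter fun x => num G x ∈ W

theorem mem_pull (G : BGraph) (W : Finset ℕ) (x : Fin G.a ⊕ Fin G.b) :
    x ∈ pull G W ↔ num G x ∈ W := by
  simp [pull]

theorem card_pull (G : BGraph) (W : Finset ℕ) (hW : W ⊆ range (G.a + G.b)) :
    (pull G W).card = W.card := by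
  have h1 : (pull G W).image (num G) = W := by
    ext u
    rw [mem_image]
    constructor
    · rintro ⟨x, hx, rfl⟩
      exact (mem_pull G W x).1 hx
    · intro hu
      obtain ⟨x, rfl⟩ := (num_range G u).1 (mem_range.1 (hW hu))
      exact ⟨x, (mem_pull G W x).2 hu, rfl⟩
  rw [← h1, card_image_of_injective _ (num_injective G), h1]

theorem bdry_le (G : BGraph) (t : ℕ) (W : Finset ℕ) :
    bdry G (pull G W) ≤ ed (adjOf (inCode G t)) W (range (G.a + G.b) \ W) := by
  classical
  have h1 : ed (adjOf (inCode G t)) W (range (G.a + G.b) \ W) =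
      (W.sigma fun v => (range (G.a + G.b) \ W).filter
        fun u => adjOf (inCode G t) v u = true).card := by
    rw [card_sigma]
    rfl
  rw [h1]
  unfold bdry
  refine card_le_card_of_injOn
    (fun e => if (e.1 : ℕ) ∈ W then (⟨(e.1 : ℕ), G.a + (e.2 : ℕ)⟩ : Σ _ : ℕ, ℕ)
      else ⟨G.a + (e.2 : ℕ), (e.1 : ℕ)⟩) ?_ ?_
  · intro e he
    rw [mem_coe, mem_filter] at he
    obtain ⟨_, he1, he2⟩ := he
    rw [mem_pull, mem_pull] at he2
    simp only [num] at he2
    have h3 := e.1.2
    have h4 := e.2.2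
    by_cases h : (e.1 : ℕ) ∈ W
    · beta_reduce
      rw [if_pos h, mem_coe, mem_sigma]
      refine ⟨h, ?_⟩
      rw [mem_filter, mem_sdiff, mem_range]
      refine ⟨⟨by simp only; omega, fun h5 => he2 ⟨fun _ => h5, fun _ => h⟩⟩, ?_⟩
      simp only
      rw [adjOf_lr]
      exact he1
    · beta_reduce
      rw [if_neg h, mem_coe, mem_sigma]
      have h5 : G.a + (e.2 : ℕ) ∈ W := by
        by_contra h6
        exact he2 ⟨fun h7 => absurd h7 h, fun h7 => absurd h7 h6⟩
      refine ⟨h5, ?_⟩
      rw [mem_filter, mem_sdiff, mem_range]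
      refine ⟨⟨by simp only; omega, h⟩, ?_⟩
      simp only
      rw [adjOf_symm, adjOf_lr]
      exact he1
  · intro e _ e' _ hee
    have h3 := e.1.2
    have h4 := e.2.2
    have h3' := e'.1.2
    have h4' := e'.2.2
    simp only at hee
    have key : (e.1 : ℕ) = e'.1 ∧ (e.2 : ℕ) = e'.2 := by
      split_ifs at hee with h5 h6 h6 <;>
      · simp only [Sigma.mk.injEq, heq_eq_eq] at hee
        omega
    exact Prod.ext (Fin.ext key.1) (Fin.ext key.2)

end ClassEAux

open ClassEAux

theorem regBip_of {G : BGraph} {d t : ℕ} (h : RegularOf d G) (hd : 0 < d) (hn : 0 < G.a + G.b) :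
    RegBip (G.a + G.b) G.a d (adjOf (inCode G t)) := by
  refine ⟨adjOf_symm _, ?_, ?_, ?_, ?_⟩
  · intro u v huv
    have := bip_in huv
    omega
  · intro u v huv
    have := bip_in huv
    omega
  · intro v hv
    by_cases hva : v < G.a
    · rw [← h.1 ⟨v, hva⟩, ← dg_row G t ⟨v, hva⟩]
    · have h1 := dg_col G t ⟨v - G.a, by omega⟩
      simp only at h1
      rw [show G.a + (v - G.a) = v by omega] at h1
      rw [h1, h.2]
  · have h1 := sum_deg G
    simp only [h.1, h.2, sum_const, card_univ, Fintype.card_fin, smul_eq_mul] at h1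
    have h2 := Nat.eq_of_mul_eq_mul_right hd h1
    omega

theorem kw_of {G : BGraph} {k κ t : ℕ} (h : MultiExp k κ G) :
    KW (G.a + G.b) (adjOf (inCode G t)) k κ := by
  intro W hne hsub hdis
  have hA : ∀ i, (pull G (W i)).Nonempty := fun i => by
    rw [← card_pos, card_pull G _ (hsub i), card_pos]
    exact hne i
  have hB : ∀ i j, i ≠ j → Disjoint (pull G (W i)) (pull G (W j)) := fun i j hij => by
    rw [disjoint_left]
    intro x hx hx'
    rw [mem_pull] at hx hx'
    exact disjoint_left.1 (hdis i j hij) hx hx'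
  obtain ⟨i, hi⟩ := h (fun i => pull G (W i)) hA hB
  refine ⟨i, ?_⟩
  rw [card_pull G _ (hsub i)] at hi
  have h1 : κ * (W i).card ≤ bdry G (pull G (W i)) := by exact_mod_cast hi
  exact h1.trans (bdry_le G t (W i))

/-- small classes: positive expansion forces a positive degree -/
theorem deg_pos_of {G : BGraph} {d k κ : ℕ} (h : RegularOf d G) (hM : MultiExp k κ G)
    (hk : 1 ≤ k) (hkn : k ≤ G.a + G.b) (hκ : 0 < κ) : 0 < d := by
  by_contra hd
  have hd0 : d = 0 := by omega
  subst hd0
  obtain ⟨f⟩ : Nonempty (Fin k ↪ Fin G.a ⊕ Fin G.b) :=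
    Function.Embedding.nonempty_of_card_le (by simpa using hkn)
  obtain ⟨i, hi⟩ := hM (fun i => {f i}) (fun i => singleton_nonempty _) (fun i j hij => by
    rw [disjoint_singleton]
    exact fun h1 => hij (f.injective h1))
  have h1 : bdry G {f i} = 0 := by
    unfold bdry
    rw [card_eq_zero, filter_eq_empty_iff]
    rintro e _ ⟨he, _⟩
    have h2 := h.1 e.1
    unfold BGraph.rowDeg at h2
    rw [card_eq_zero, filter_eq_empty_iff] at h2
    exact h2 (mem_univ e.2) he
  rw [h1, card_singleton] at hi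
  have h2 : (0 : ℝ) < κ := by exact_mod_cast hκ
  simp at hi
  linarith

end Pool.Agent.Lib.Pa7c826m
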