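import Pool.Agent.Lib.Pa7c826m.PoinL

/-!
The `L²` inequality for the `P`- and `Q`-vertices of a copy.

PROOF. Compare CoreE.lean (the `L¹` version). Write `p s τ = fp (τ, .inl s)`, `q s' τ = fq (τ, .inl s')`, `b = β - g - 1`, `s₀ = 0 : Fin (β - g)`. For `s ≠ s₀` the vertex
`P(τ, s)` is adjacent to all `Q(nb δ τ, s')`; `P(τ, s₀)` is adjacent to all `Q(nb δ τ, s')` with `δ ≠ 0` (only edges with `y.1 = x.1` are
removed, `nb δ τ ≠ τ` for `δ ≠ 0`). Put `A τ δ = ∑ s ≠ s₀, ∑ s', (p s τ - q s' (nb δ τ)) ^ 2`, `B τ = ∑ s', (p s₀ τ - q s' (nb 1 τ)) ^ 2` (`κ ≥ 1`);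
`∑ τ ∑ δ A τ δ + ∑ τ B τ ≤ EPQ2` (different edges, `nb_inj`). Means `pm τ = (∑ s ≠ s₀, p s τ) / b`, `qm τ = (∑ s', q s' τ) / β`. By Jensen (Cauchy-Schwarz)
`b β (pm τ - qm (nb δ τ)) ^ 2 ≤ A τ δ`, so with `m` from `poincare_cube2`: `2 b β ∑ τ, ((pm τ - m) ^ 2 + (qm τ - m) ^ 2) ≤ EPQ2`. Second claim:
`(∑ s', (q s' τ - m)) ^ 2 = β ^ 2 (qm τ - m) ^ 2`.
First claim: `∑ s ≠ s₀, (p s τ - qm τ) ^ 2 ≤ A τ 0 / β`, `(p s₀ τ - qm (nb 1 τ)) ^ 2 ≤ B τ / β`, `∑ s', (q s' τ - pm τ) ^ 2 ≤ A τ 0 / b`; with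
`(u + v) ^ 2 ≤ 2 u ^ 2 + 2 v ^ 2` and `∑ τ, (qm (nb 1 τ) - m) ^ 2 = ∑ τ, (qm τ - m) ^ 2` (`nb_bij`), `b + 1 ≤ β`:
`∑ (f - m) ^ 2 ≤ 2 EPQ2 / β + 2 EPQ2 / b + 2 β ∑ τ, ((pm τ - m) ^ 2 + (qm τ - m) ^ 2) ≤ 5 EPQ2 / b`.
-/

namespace Pool.Agent.Lib.Pa7c826m

open Finset Pool.Agent.Lib.Pa7c826 Pool.Agent.Lib.Pa7c826s

section

variable (κ g β d : ℕ) (ρ : ℕ → ℕ) (fp : PT κ g β d → ℝ) (fq : QT κ g β d → ℝ)

/-- squares of the differences along the edges between `P` and `Q` -/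
def EPQ2 : ℝ := ∑ τ, ∑ τ', ∑ s : Fin (β - g), ∑ s' : Fin β,
  if CR κ g β d ρ (τ, .inl s) (τ', .inl s') = true then
    (fp (τ, .inl s) - fq (τ', .inl s')) ^ 2 else 0

end

namespace CoreLAux

theorem mean_one {ι : Type} (s : Finset ι) (hs : 0 < s.card) (x : ℝ) (y : ι → ℝ) :
    (x - (∑ i ∈ s, y i) / s.card) ^ 2 ≤ (∑ i ∈ s, (x - y i) ^ 2) / s.card := by
  have hc : (0 : ℝ) < s.card := by exact_mod_cast hs
  have e : x - (∑ i ∈ s, y i) / s.card = (∑ i ∈ s, (x - y i)) / s.card := by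
    rw [sum_sub_distrib, sum_const, nsmul_eq_mul]
    field_simp
  rw [e, div_pow, div_le_div_iff₀ (by positivity) hc]
  have h := sq_sum_le_card_mul_sum_sq (s := s) (f := fun i => x - y i)
  have h2 := mul_le_mul_of_nonneg_right h hc.le
  calc (∑ i ∈ s, (x - y i)) ^ 2 * (s.card : ℝ) ≤ ((s.card : ℝ) * ∑ i ∈ s, (x - y i) ^ 2) * s.card := h2
    _ = (∑ i ∈ s, (x - y i) ^ 2) * (s.card : ℝ) ^ 2 := by ring

theorem mean_two {ι ι' : Type} (s : Finset ι) (t : Finset ι') (hs : 0 < s.card) (ht : 0 < t.card) (x : ι → ℝ) (y : ι' → ℝ) :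
    (s.card : ℝ) * t.card * ((∑ i ∈ s, x i) / s.card - (∑ j ∈ t, y j) / t.card) ^ 2 ≤ ∑ i ∈ s, ∑ j ∈ t, (x i - y j) ^ 2 := by
  have hc : (0 : ℝ) < s.card := by exact_mod_cast hs
  have hc' : (0 : ℝ) < t.card := by exact_mod_cast ht
  have h1 := mean_one s hs ((∑ j ∈ t, y j) / t.card) x
  have h2 : ∀ i ∈ s, (t.card : ℝ) * ((∑ j ∈ t, y j) / t.card - x i) ^ 2 ≤ ∑ j ∈ t, (x i - y j) ^ 2 := by
    intro i _
    have h3 := mean_one t ht (x i) y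
    rw [le_div_iff₀ hc'] at h3
    calc (t.card : ℝ) * ((∑ j ∈ t, y j) / t.card - x i) ^ 2 = (x i - (∑ j ∈ t, y j) / t.card) ^ 2 * t.card := by ring
      _ ≤ _ := h3
  rw [le_div_iff₀ hc] at h1
  calc (s.card : ℝ) * t.card * ((∑ i ∈ s, x i) / s.card - (∑ j ∈ t, y j) / t.card) ^ 2
      = (t.card : ℝ) * (((∑ j ∈ t, y j) / t.card - (∑ i ∈ s, x i) / s.card) ^ 2 * s.card) := by ring
    _ ≤ (t.card : ℝ) * ∑ i ∈ s, ((∑ j ∈ t, y j) / t.card - x i) ^ 2 := mul_le_mul_of_nonneg_left h1 hc'.le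
    _ = ∑ i ∈ s, (t.card : ℝ) * ((∑ j ∈ t, y j) / t.card - x i) ^ 2 := by rw [mul_sum]
    _ ≤ _ := sum_le_sum h2

theorem two_sq (a b m : ℝ) : (a - m) ^ 2 ≤ 2 * (a - b) ^ 2 + 2 * (b - m) ^ 2 := by
  nlinarith [sq_nonneg ((a - b) - (b - m))]

/-- the variation is at least the variation along the chosen edges -/
theorem edges {κ g β d : ℕ} {ρ : ℕ → ℕ} (fp : PT κ g β d → ℝ) (fq : QT κ g β d → ℝ) (s0 : Fin (β - g))
    (h0 : (s0 : ℕ) = 0) (d1 : Fin (κ + 1)) (hd1 : d1 ≠ 0) :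
    ∑ τ, (∑ δ : Fin (κ + 1), ∑ s ∈ univ.erase s0, ∑ s' : Fin β, (fp (τ, .inl s) - fq (nb δ τ, .inl s')) ^ 2 +
      ∑ s' : Fin β, (fp (τ, .inl s0) - fq (nb d1 τ, .inl s')) ^ 2) ≤ EPQ2 κ g β d ρ fp fq := by
  classical
  unfold EPQ2
  refine sum_le_sum (fun τ _ => ?_)
  set G : Fin (2 ^ κ) → ℝ := fun τ' => ∑ s : Fin (β - g), ∑ s' : Fin β,
    if CR κ g β d ρ (τ, .inl s) (τ', .inl s') = true then (fp (τ, .inl s) - fq (τ', .inl s')) ^ 2 else 0 with hG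
  have hG0 : ∀ τ', 0 ≤ G τ' := by
    intro τ'
    refine sum_nonneg (fun s _ => sum_nonneg (fun s' _ => ?_))
    split_ifs
    · exact sq_nonneg _
    · exact le_rfl
  have h1 : ∑ δ : Fin (κ + 1), G (nb δ τ) ≤ ∑ τ', G τ' := by
    rw [← sum_image (s := univ) (g := fun δ : Fin (κ + 1) => nb δ τ) (f := G) (fun a _ b _ hab => nb_inj τ hab)]
    exact sum_le_sum_of_subset_of_nonneg (subset_univ _) (fun x _ _ => hG0 x)
  refine le_trans ?_ h1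
  -- adjacency
  have hadj : ∀ (δ : Fin (κ + 1)) (s : Fin (β - g)) (s' : Fin β), s ≠ s0 →
      CR κ g β d ρ (τ, .inl s) (nb δ τ, .inl s') = true := by
    intro δ s s' hs
    have hs0 : (s : ℕ) ≠ 0 := fun h => hs (Fin.ext (h.trans h0.symm))
    unfold CR
    dsimp only
    rw [Bool.and_eq_true, decide_eq_true_eq]
    refine ⟨⟨δ, rfl⟩, ?_⟩
    rw [decide_eq_false hs0]
    rfl
  have hadj0 : ∀ (s' : Fin β), CR κ g β d ρ (τ, .inl s0) (nb d1 τ, .inl s') = true := by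
    intro s'
    have hne : nb d1 τ ≠ τ := by
      intro h
      apply hd1
      apply nb_inj τ
      show nb d1 τ = nb 0 τ
      rw [h, nb_zero]
    unfold CR
    dsimp only
    rw [Bool.and_eq_true, decide_eq_true_eq]
    refine ⟨⟨d1, rfl⟩, ?_⟩
    rw [decide_eq_false hne, Bool.false_and, Bool.and_false]
    rfl
  have h2 : ∀ δ : Fin (κ + 1), ∑ s ∈ univ.erase s0, ∑ s' : Fin β, (fp (τ, .inl s) - fq (nb δ τ, .inl s')) ^ 2 +
      (if δ = d1 then ∑ s' : Fin β, (fp (τ, .inl s0) - fq (nb d1 τ, .inl s')) ^ 2 else 0) ≤ G (nb δ τ) := by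
    intro δ
    rw [hG]
    dsimp only
    rw [← add_sum_erase univ _ (mem_univ s0), add_comm]
    refine add_le_add ?_ (sum_le_sum (fun s hs => sum_le_sum (fun s' _ => ?_)))
    · split_ifs with hδ
      · subst hδ
        refine sum_le_sum (fun s' _ => ?_)
        rw [if_pos (hadj0 s')]
      · refine sum_nonneg (fun s' _ => ?_)
        split_ifs
        · exact sq_nonneg _
        · exact le_rfl
    · rw [if_pos (hadj δ s s' (ne_of_mem_erase hs))]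
  refine le_trans (le_of_eq ?_) (sum_le_sum (fun δ _ => h2 δ))
  rw [sum_add_distrib, sum_ite_eq' univ d1, if_pos (mem_univ d1)]

end CoreLAux

theorem core_est2 {κ g β d : ℕ} {ρ : ℕ → ℕ} (fp : PT κ g β d → ℝ) (fq : QT κ g β d → ℝ)
    (hκ : 1 ≤ κ) (hb : 2 ≤ β - g) :
    ∃ m : ℝ, ((β : ℝ) - g - 1) * (∑ τ, (∑ s, (fp (τ, .inl s) - m) ^ 2 +
        ∑ s', (fq (τ, .inl s') - m) ^ 2)) ≤ 5 * EPQ2 κ g β d ρ fp fq ∧
      2 * ((β : ℝ) - g - 1) * ∑ τ, (∑ s' : Fin β, (fq (τ, .inl s') - m)) ^ 2 ≤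
        β * EPQ2 κ g β d ρ fp fq := by
  classical
  have hβ : g + 2 ≤ β := by omega
  obtain ⟨s0, h0⟩ : ∃ s0 : Fin (β - g), (s0 : ℕ) = 0 := ⟨⟨0, by omega⟩, rfl⟩
  obtain ⟨d1, hd1⟩ : ∃ d1 : Fin (κ + 1), d1 ≠ 0 :=
    ⟨⟨1, by omega⟩, fun h => by have := congrArg Fin.val h; simp at this⟩
  have hE := CoreLAux.edges (ρ := ρ) fp fq s0 h0 d1 hd1
  set E := EPQ2 κ g β d ρ fp fq with hEdef
  set J : Finset (Fin (β - g)) := univ.erase s0 with hJ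
  have hJc : J.card = β - g - 1 := by
    rw [hJ, card_erase_of_mem (mem_univ _), card_univ, Fintype.card_fin]
  have hJpos : 0 < J.card := by omega
  set b : ℝ := (β : ℝ) - g - 1 with hbdef
  have hbJ : (J.card : ℝ) = b := by
    rw [hJc, hbdef]
    have h1 : β - g - 1 = β - (g + 1) := by omega
    rw [h1, Nat.cast_sub (by omega)]
    push_cast
    ring
  have hb0 : 0 < b := by
    rw [← hbJ]
    exact_mod_cast hJpos
  have hKc : (univ : Finset (Fin β)).card = β := by rw [card_univ, Fintype.card_fin]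
  have hKpos : 0 < (univ : Finset (Fin β)).card := by omega
  have hβ0 : (0 : ℝ) < β := by
    have : 0 < β := by omega
    exact_mod_cast this
  have hbβ : b + 1 ≤ β := by
    rw [hbdef]
    have : (0 : ℝ) ≤ g := Nat.cast_nonneg _
    linarith
  set A : Fin (2 ^ κ) → Fin (κ + 1) → ℝ := fun τ δ =>
    ∑ s ∈ J, ∑ s' : Fin β, (fp (τ, .inl s) - fq (nb δ τ, .inl s')) ^ 2 with hA
  set B : Fin (2 ^ κ) → ℝ := fun τ => ∑ s' : Fin β, (fp (τ, .inl s0) - fq (nb d1 τ, .inl s')) ^ 2 with hB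
  have hA0 : ∀ τ δ, 0 ≤ A τ δ := fun τ δ => sum_nonneg (fun s _ => sum_nonneg (fun s' _ => sq_nonneg _))
  have hB0 : ∀ τ, 0 ≤ B τ := fun τ => sum_nonneg (fun s' _ => sq_nonneg _)
  have hE1 : ∑ τ, ∑ δ, A τ δ + ∑ τ, B τ ≤ E := by
    rw [← sum_add_distrib]
    exact hE
  set pm : Fin (2 ^ κ) → ℝ := fun τ => (∑ s ∈ J, fp (τ, .inl s)) / b with hpm
  set qm : Fin (2 ^ κ) → ℝ := fun τ => (∑ s' : Fin β, fq (τ, .inl s')) / β with hqm
  have hpq : ∀ τ δ, b * β * (pm τ - qm (nb δ τ)) ^ 2 ≤ A τ δ := by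
    intro τ δ
    have h1 := CoreLAux.mean_two J (univ : Finset (Fin β)) hJpos hKpos (fun s => fp (τ, .inl s))
      (fun s' => fq (nb δ τ, .inl s'))
    rw [hbJ, hKc] at h1
    exact h1
  obtain ⟨m, hm⟩ := poincare_cube2 pm qm
  rw [sum_add_distrib] at hm
  set X : ℝ := ∑ τ, (pm τ - m) ^ 2 with hX
  set Y : ℝ := ∑ τ, (qm τ - m) ^ 2 with hY
  have hX0 : 0 ≤ X := sum_nonneg (fun _ _ => sq_nonneg _)
  have hY0 : 0 ≤ Y := sum_nonneg (fun _ _ => sq_nonneg _)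
  have hXY : b * β * (2 * (X + Y)) ≤ ∑ τ, ∑ δ, A τ δ := by
    have h1 := mul_le_mul_of_nonneg_left hm (mul_pos hb0 hβ0).le
    refine h1.trans ?_
    rw [mul_sum]
    refine sum_le_sum (fun τ _ => ?_)
    rw [mul_sum]
    exact sum_le_sum (fun δ _ => hpq τ δ)
  have hSB0 : 0 ≤ ∑ τ, B τ := sum_nonneg (fun τ _ => hB0 τ)
  have hA00 : ∑ τ, A τ 0 ≤ ∑ τ, ∑ δ, A τ δ :=
    sum_le_sum (fun τ _ => single_le_sum (f := fun δ => A τ δ) (fun δ _ => hA0 τ δ) (mem_univ 0))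
  refine ⟨m, ?_, ?_⟩
  · -- the first claim
    have hnb0 : ∀ τ : Fin (2 ^ κ), nb 0 τ = τ := nb_zero
    have hp : ∀ τ, ∑ s ∈ J, (fp (τ, .inl s) - m) ^ 2 ≤ 2 * (A τ 0 / β) + 2 * (b * (qm τ - m) ^ 2) := by
      intro τ
      have h1 : ∀ s ∈ J, (fp (τ, .inl s) - m) ^ 2 ≤
          2 * ((∑ s' : Fin β, (fp (τ, .inl s) - fq (nb 0 τ, .inl s')) ^ 2) / β) + 2 * (qm τ - m) ^ 2 := by
        intro s _
        have h2 := CoreLAux.mean_one (univ : Finset (Fin β)) hKpos (fp (τ, .inl s)) (fun s' => fq (nb 0 τ, .inl s'))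
        rw [hKc] at h2
        have h3 : (∑ s' : Fin β, fq (nb 0 τ, .inl s')) / β = qm τ := by
          rw [hnb0]
        rw [h3] at h2
        have h4 := CoreLAux.two_sq (fp (τ, .inl s)) (qm τ) m
        linarith
      refine (sum_le_sum h1).trans (le_of_eq ?_)
      rw [sum_add_distrib, sum_const, nsmul_eq_mul, hbJ, ← mul_sum, ← sum_div]
      ring
    have hp0 : ∀ τ, (fp (τ, .inl s0) - m) ^ 2 ≤ 2 * (B τ / β) + 2 * (qm (nb d1 τ) - m) ^ 2 := by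
      intro τ
      have h2 := CoreLAux.mean_one (univ : Finset (Fin β)) hKpos (fp (τ, .inl s0)) (fun s' => fq (nb d1 τ, .inl s'))
      rw [hKc] at h2
      have h4 := CoreLAux.two_sq (fp (τ, .inl s0)) (qm (nb d1 τ)) m
      have h5 : (fp (τ, .inl s0) - qm (nb d1 τ)) ^ 2 ≤ B τ / β := h2
      linarith
    have hq : ∀ τ, ∑ s' : Fin β, (fq (τ, .inl s') - m) ^ 2 ≤ 2 * (A τ 0 / b) + 2 * (β * (pm τ - m) ^ 2) := by
      intro τ
      have h1 : ∀ s' : Fin β, (fq (τ, .inl s') - m) ^ 2 ≤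
          2 * ((∑ s ∈ J, (fp (τ, .inl s) - fq (nb 0 τ, .inl s')) ^ 2) / b) + 2 * (pm τ - m) ^ 2 := by
        intro s'
        have h2 := CoreLAux.mean_one J hJpos (fq (τ, .inl s')) (fun s => fp (τ, .inl s))
        rw [hbJ] at h2
        have h3 : ∑ s ∈ J, (fq (τ, .inl s') - fp (τ, .inl s)) ^ 2 = ∑ s ∈ J, (fp (τ, .inl s) - fq (nb 0 τ, .inl s')) ^ 2 := by
          refine sum_congr rfl (fun s _ => ?_)
          rw [hnb0]
          ring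
        rw [h3] at h2
        have h4 := CoreLAux.two_sq (fq (τ, .inl s')) (pm τ) m
        linarith
      refine (sum_le_sum (fun s' _ => h1 s')).trans (le_of_eq ?_)
      rw [sum_add_distrib, sum_const, nsmul_eq_mul, hKc, ← mul_sum, ← sum_div, sum_comm]
      ring
    have hshift : ∑ τ, (qm (nb d1 τ) - m) ^ 2 = Y :=
      Fintype.sum_equiv (Equiv.ofBijective _ (nb_bij d1)) _ _ (fun τ => rfl)
    have hsum : ∑ τ, (∑ s, (fp (τ, .inl s) - m) ^ 2 + ∑ s', (fq (τ, .inl s') - m) ^ 2) ≤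
        2 * ((∑ τ, A τ 0 + ∑ τ, B τ) / β) + 2 * ((∑ τ, A τ 0) / b) + 2 * ((b + 1) * Y) + 2 * (β * X) := by
      calc ∑ τ, (∑ s, (fp (τ, .inl s) - m) ^ 2 + ∑ s', (fq (τ, .inl s') - m) ^ 2)
          ≤ ∑ τ, (((2 * (B τ / β) + 2 * (qm (nb d1 τ) - m) ^ 2) + (2 * (A τ 0 / β) + 2 * (b * (qm τ - m) ^ 2))) +
              (2 * (A τ 0 / b) + 2 * (β * (pm τ - m) ^ 2))) := by
            refine sum_le_sum (fun τ _ => add_le_add ?_ (hq τ))
            rw [← add_sum_erase univ _ (mem_univ s0)]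
            exact add_le_add (hp0 τ) (hp τ)
        _ = 2 * ((∑ τ, A τ 0 + ∑ τ, B τ) / β) + 2 * ((∑ τ, A τ 0) / b) + 2 * ((b + 1) * Y) + 2 * (β * X) := by
            simp only [sum_add_distrib, ← mul_sum, ← sum_div]
            rw [hshift]
            ring
    have h1 := mul_le_mul_of_nonneg_left hsum hb0.le
    refine h1.trans ?_
    have h2 : b * ((∑ τ, A τ 0 + ∑ τ, B τ) / β) ≤ ∑ τ, A τ 0 + ∑ τ, B τ := by
      have h3 : 0 ≤ ∑ τ, A τ 0 + ∑ τ, B τ := add_nonneg (sum_nonneg (fun τ _ => hA0 τ 0)) hSB0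
      rw [mul_div_assoc', div_le_iff₀ hβ0, mul_comm]
      exact mul_le_mul_of_nonneg_left (by linarith) h3
    have h3 : b * ((∑ τ, A τ 0) / b) = ∑ τ, A τ 0 := by field_simp
    have h4 : b * ((b + 1) * Y) ≤ b * β * Y := by
      rw [mul_assoc b (β : ℝ) Y]
      exact mul_le_mul_of_nonneg_left (mul_le_mul_of_nonneg_right hbβ hY0) hb0.le
    have h5 : b * (2 * ((∑ τ, A τ 0 + ∑ τ, B τ) / β) + 2 * ((∑ τ, A τ 0) / b) + 2 * ((b + 1) * Y) + 2 * (β * X)) =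
        2 * (b * ((∑ τ, A τ 0 + ∑ τ, B τ) / β)) + 2 * (b * ((∑ τ, A τ 0) / b)) + 2 * (b * ((b + 1) * Y)) + 2 * (b * β * X) := by ring
    rw [h5, h3]
    have h6 : b * β * (2 * (X + Y)) = 2 * (b * β * X) + 2 * (b * β * Y) := by ring
    linarith
  · -- the second claim
    have h1 : ∀ τ, (∑ s' : Fin β, (fq (τ, .inl s') - m)) ^ 2 = β ^ 2 * (qm τ - m) ^ 2 := by
      intro τ
      have h2 : ∑ s' : Fin β, (fq (τ, .inl s') - m) = β * (qm τ - m) := by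
        rw [sum_sub_distrib, sum_const, nsmul_eq_mul, hKc, hqm]
        field_simp
      rw [h2, mul_pow]
    rw [sum_congr rfl (fun τ _ => h1 τ), ← mul_sum]
    have h2 : b * β * (2 * Y) ≤ b * β * (2 * (X + Y)) := by
      have h3 : 0 ≤ b * β * (2 * X) := by positivity
      have h4 : b * β * (2 * (X + Y)) = b * β * (2 * Y) + b * β * (2 * X) := by ring
      linarith
    have h3 : b * β * (2 * Y) ≤ E := by linarith
    have h4 : 2 * b * ((β : ℝ) ^ 2 * Y) = β * (b * β * (2 * Y)) := by ring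
    rw [h4]
    exact mul_le_mul_of_nonneg_left h3 hβ0.le

end Pool.Agent.Lib.Pa7c826m
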