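import Pool.Agent.Lib.Pa7c826m.Nbh

/-!
The graph of the reduction is regular of degree `d = (κ + 1) β`.

PROOF. (A) `circ`: for `v < d`, `#{u < d | (u + (d - v)) % d < g} = g` if `g ≤ d`: the map `u ↦ (u + (d - v)) % d` is a bijection of `range d`.
Likewise `#{v < d | (u + (d - v)) % d < g} = g` for `u < d`. `(δ, s') ↦ δ β + s'` is a bijection from `Fin (κ + 1) × Fin β` to `Fin d`
(`finProdFinEquiv`, up to the order of the summands).
(B) Copy without switches (`ρ = 0`). `P(τ, s)`: the neighbours are the `(nb δ τ, .inl s')`, `δ : Fin (κ + 1)`, `s' : Fin β`, all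
different by `nb_inj`: `(κ + 1) β = d`. `Λ(τ, j)`: `d - g` vertices `R(τ, j')` and, by (A), `g` vertices `Q(nb δ τ, s')`. `R(τ, j')`: all `Λ(τ, j)`,
`d` vertices. `Q(τ', s')`: the `P(nb δ τ', s)`, `(κ + 1) (β - g)` vertices (`nb_symm`, `nb_nb`), and for every `δ` the `g` vertices
`Λ(nb δ τ', j)` with `(δ β + s' + (d - j)) % d < g` (if `nb δ τ = τ'` then `τ = nb δ τ'`, and `δ` is determined by `τ` and `τ'`);
together `(κ + 1) (β - g) + (κ + 1) g = d`.
(C) General `ρ`: only `P(τ, 0)` and `Q(τ, s')`, `s' < ρ τ`, lose edges: `P(τ, 0)` loses `ρ τ` of them (`ρ τ ≤ β`) and `Q(τ, s')` one.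
So `{y | CR κ g β d ρ x y}.ncard = d` unless `x = P(τ, 0)`, where it is `d - ρ τ`; and `{x | CR κ g β d ρ x y}.ncard` is `d - 1` if
`y = Q(τ, s')` with `s' < ρ τ` and `d` otherwise.
(D) The new edges. `P₁(i, 0)`: the `P₂(j, 0)` with `E i j`: `rk E i b` of them (all such `j` are `< b ≤ 2 ^ κ`); `P₂(j, 0)`: `crk E a j`.
`Q₁(i, r)`: `Q₂(j, crk E i j)` with `E i j` and `rk E i j = r`: exactly one `j` if `r < rk E i b` and none otherwise (`j ↦ rk E i j` is
strictly increasing on the `j < b` with `E i j`, with values exactly `0, …, rk E i b - 1`; `Nat.count` and `Nat.nth` may be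
used: `rk E i j = Nat.count (fun j => E i j = true) j`). `crk E i j ≤ crk E a j < β`, so the vertex exists. The same for `Q₂(j, r')`.
-/

namespace Pool.Agent.Lib.Pa7c826m

open Finset Pool.Agent.Lib.Pa7c826 Pool.Agent.Lib.Pa7c826s

variable {E : ℕ → ℕ → Bool} {a b κ g β d : ℕ}

namespace GDegAux

/-- indicator of a proposition -/
noncomputable def bi (p : Prop) : ℕ := @ite ℕ p (Classical.propDecidable p) 1 0

theorem bi_true {p : Prop} (h : p) : bi p = 1 := by
  unfold bi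
  exact if_pos h

theorem bi_false {p : Prop} (h : ¬ p) : bi p = 0 := by
  unfold bi
  exact if_neg h

theorem bi_congr {p q : Prop} (h : p ↔ q) : bi p = bi q := congrArg bi (propext h)

theorem bi_and (p q : Prop) : bi (p ∧ q) = bi p * bi q := by
  by_cases hp : p
  · by_cases hq : q
    · rw [bi_true ⟨hp, hq⟩, bi_true hp, bi_true hq]
    · rw [bi_false (fun h => hq h.2), bi_false hq, mul_zero]
  · rw [bi_false (fun h => hp h.1), bi_false hp, zero_mul]

theorem sum_bi {α : Type} [Fintype α] (p : α → Prop) [DecidablePred p] : ∑ y, bi (p y) = (univ.filter p).card := by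
  rw [Finset.card_filter]
  refine Finset.sum_congr rfl (fun y _ => ?_)
  by_cases h : p y
  · rw [bi_true h, if_pos h]
  · rw [bi_false h, if_neg h]

theorem ncard_eq {α : Type} [Fintype α] (p : α → Bool) : {y | p y = true}.ncard = ∑ y, bi (p y = true) := by
  classical
  rw [sum_bi, Set.ncard_eq_toFinset_card', Set.toFinset_setOf]

theorem sum_ex {ι T : Type} [Fintype ι] [Fintype T] (φ : ι → T) (hφ : Function.Injective φ) (f : ι → Prop) :
    ∑ t : T, bi (∃ δ, φ δ = t ∧ f δ) = ∑ δ, bi (f δ) := by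
  classical
  rw [sum_bi, sum_bi]
  have h : (univ.filter (fun t => ∃ δ, φ δ = t ∧ f δ)) = (univ.filter f).image φ := by
    ext t
    simp only [mem_filter, mem_univ, true_and, mem_image]
    constructor
    · rintro ⟨δ, h1, h2⟩
      exact ⟨δ, h2, h1⟩
    · rintro ⟨δ, h1, h2⟩
      exact ⟨δ, h2, h1⟩
  rw [h, Finset.card_image_of_injective _ hφ]

theorem sum_ex' {ι T : Type} [Fintype ι] [Fintype T] (φ : ι → T) (hφ : Function.Injective φ) :
    ∑ t : T, bi (∃ δ, φ δ = t) = Fintype.card ι := by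
  have h := sum_ex φ hφ (fun _ => True)
  simp only [and_true] at h
  rw [h]
  simp only [bi_true trivial, Finset.sum_const, Finset.card_univ, smul_eq_mul, mul_one]

theorem sum_eq {T : Type} [Fintype T] (t₀ : T) : ∑ t : T, bi (t = t₀) = 1 := by
  classical
  have h : univ.filter (fun t => t = t₀) = {t₀} := by
    ext t
    simp only [mem_filter, mem_univ, true_and, mem_singleton]
  rw [sum_bi, h, Finset.card_singleton]

theorem sum_blocks (F : ℕ → ℕ) (β : ℕ) : ∀ k : ℕ, ∑ δ ∈ range k, ∑ s ∈ range β, F (δ * β + s) = ∑ u ∈ range (k * β), F u := by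
  intro k
  induction k with
  | zero => rw [Nat.zero_mul, Finset.range_zero, Finset.sum_empty, Finset.sum_empty]
  | succ k ih =>
    rw [Finset.sum_range_succ, ih, Nat.succ_mul, Finset.sum_range_add]

theorem sum_fin_blocks (F : ℕ → ℕ) (β k : ℕ) :
    ∑ δ : Fin k, ∑ s : Fin β, F ((δ : ℕ) * β + (s : ℕ)) = ∑ u ∈ range (k * β), F u := by
  rw [← sum_blocks F β k, Fin.sum_univ_eq_sum_range (fun δ => ∑ s : Fin β, F (δ * β + (s : ℕ))) k]
  refine Finset.sum_congr rfl (fun δ _ => ?_)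
  exact Fin.sum_univ_eq_sum_range (fun s => F (δ * β + s)) β

theorem sum_lt_fin (M r : ℕ) (h : r ≤ M) : ∑ s : Fin M, bi ((s : ℕ) < r) = r := by
  rw [Fin.sum_univ_eq_sum_range (fun s => bi (s < r)) M]
  have h1 : range M = range (r + (M - r)) := by
    congr 1
    omega
  rw [h1, Finset.sum_range_add]
  have h2 : ∑ x ∈ range r, bi (x < r) = r := by
    rw [Finset.sum_congr rfl (fun x hx => bi_true (mem_range.mp hx))]
    simp
  have h3 : ∑ x ∈ range (M - r), bi (r + x < r) = 0 :=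
    Finset.sum_eq_zero (fun x _ => bi_false (by omega))
  rw [h2, h3, add_zero]

theorem circ (d g c : ℕ) (hg : g ≤ d) : ∑ u ∈ range d, bi ((c + u) % d < g) = g := by
  have h1 : ∑ u ∈ range d, bi ((c + u) % d < g) = ∑ v ∈ Ico c (c + d), bi (v % d < g) := by
    rw [Finset.sum_Ico_eq_sum_range, Nat.add_sub_cancel_left]
  have h2 : ∑ v ∈ Ico c (c + d), bi (v % d < g) = ((Ico c (c + d)).filter (fun v => v % d < g)).card := by
    rw [Finset.card_filter]
    refine Finset.sum_congr rfl (fun v _ => ?_)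
    by_cases h : v % d < g
    · rw [bi_true h, if_pos h]
    · rw [bi_false h, if_neg h]
  have hp : Function.Periodic (fun v : ℕ => v % d < g) d := by
    intro v
    simp only [Nat.add_mod_right]
  rw [h1, h2, Nat.filter_Ico_card_eq_of_periodic c d _ hp, Nat.count_eq_card_filter_range]
  have h3 : (range d).filter (fun v => v % d < g) = range g := by
    ext v
    simp only [mem_filter, mem_range]
    constructor
    · rintro ⟨h4, h5⟩
      rwa [Nat.mod_eq_of_lt h4] at h5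
    · intro h4
      have h5 : v < d := lt_of_lt_of_le h4 hg
      exact ⟨h5, by rwa [Nat.mod_eq_of_lt h5]⟩
  rw [h3, card_range]

theorem circ_left (d g j : ℕ) (hg : g ≤ d) : ∑ u ∈ range d, bi ((u + (d - j)) % d < g) = g := by
  refine Eq.trans (Finset.sum_congr rfl (fun u _ => ?_)) (circ d g (d - j) hg)
  rw [add_comm]

theorem circ_right (d g u : ℕ) (hg : g ≤ d) : ∑ j ∈ range d, bi ((u + (d - j)) % d < g) = g := by
  refine Eq.trans ?_ (circ d g (u + 1) hg)
  rw [← Finset.sum_range_reflect (fun j => bi ((u + 1 + j) % d < g)) d]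
  refine Finset.sum_congr rfl (fun j hj => ?_)
  have h : j < d := mem_range.mp hj
  have e : u + (d - j) = u + 1 + (d - 1 - j) := by omega
  rw [e]

section copy

variable (ρ : ℕ → ℕ) (τ τ' : Fin (2 ^ κ))

theorem CR_ll (s : Fin (β - g)) (s' : Fin β) : (CR κ g β d ρ (τ, .inl s) (τ', .inl s') = true) ↔
    (∃ δ, nb δ τ = τ') ∧ ¬ ((s : ℕ) = 0 ∧ τ' = τ ∧ (s' : ℕ) < ρ τ) := by
  simp only [CR, Bool.and_eq_true, decide_eq_true_eq, Bool.not_eq_true', ← Bool.not_eq_true]

theorem CR_lr (s : Fin (β - g)) (j' : Fin (d - g)) : ¬ (CR κ g β d ρ (τ, .inl s) (τ', .inr j') = true) := by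
  simp [CR]

theorem CR_rl (j : Fin d) (s' : Fin β) : (CR κ g β d ρ (τ, .inr j) (τ', .inl s') = true) ↔
    ∃ δ : Fin (κ + 1), nb δ τ = τ' ∧ ((δ : ℕ) * β + s' + (d - j)) % d < g := by
  simp only [CR, decide_eq_true_eq]

theorem CR_rr (j : Fin d) (j' : Fin (d - g)) : (CR κ g β d ρ (τ, .inr j) (τ', .inr j') = true) ↔ τ = τ' := by
  simp only [CR, decide_eq_true_eq]

end copy

/-- the edges from `P(τ, s)` and from `Q(τ', s')` before and after the deletion -/
theorem ll_add (ρ : ℕ → ℕ) (τ τ' : Fin (2 ^ κ)) (s : Fin (β - g)) (s' : Fin β) :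
    bi (CR κ g β d ρ (τ, .inl s) (τ', .inl s') = true) + bi ((s : ℕ) = 0 ∧ τ' = τ ∧ (s' : ℕ) < ρ τ) =
      bi (∃ δ, nb δ τ = τ') := by
  rw [bi_congr (CR_ll ρ τ τ' s s')]
  by_cases h : (s : ℕ) = 0 ∧ τ' = τ ∧ (s' : ℕ) < ρ τ
  · have h1 : ∃ δ, nb δ τ = τ' := ⟨0, by rw [nb_zero, h.2.1]⟩
    rw [bi_true h, bi_true h1, bi_false (fun h2 => h2.2 h)]
  · rw [bi_false h, bi_congr (⟨fun h2 => h2.1, fun h2 => ⟨h2, h⟩⟩ :
      ((∃ δ, nb δ τ = τ') ∧ ¬ ((s : ℕ) = 0 ∧ τ' = τ ∧ (s' : ℕ) < ρ τ)) ↔ (∃ δ, nb δ τ = τ')), add_zero]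

theorem sum_PT (F : PT κ g β d → ℕ) : ∑ x, F x = ∑ τ, (∑ s, F (τ, .inl s) + ∑ j, F (τ, .inr j)) := by
  rw [Fintype.sum_prod_type]
  refine Finset.sum_congr rfl (fun τ _ => ?_)
  rw [Fintype.sum_sum_type]

theorem sum_QT (F : QT κ g β d → ℕ) : ∑ y, F y = ∑ τ, (∑ s, F (τ, .inl s) + ∑ j, F (τ, .inr j)) := by
  rw [Fintype.sum_prod_type]
  refine Finset.sum_congr rfl (fun τ _ => ?_)
  rw [Fintype.sum_sum_type]

theorem row_l (hd : d = (κ + 1) * β) (ρ : ℕ → ℕ) (τ : Fin (2 ^ κ)) (hρ : ρ τ ≤ β) (s : Fin (β - g)) :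
    (∑ y, bi (CR κ g β d ρ (τ, .inl s) y = true)) + bi ((s : ℕ) = 0) * ρ τ = d := by
  rw [sum_QT]
  have h1 : ∀ τ', ∑ j', bi (CR κ g β d ρ (τ, .inl s) (τ', .inr j') = true) = 0 := fun τ' =>
    Finset.sum_eq_zero (fun j' _ => bi_false (CR_lr ρ τ τ' s j'))
  simp only [h1, add_zero]
  have h2 : ∑ τ' : Fin (2 ^ κ), ∑ s' : Fin β, bi ((s : ℕ) = 0 ∧ τ' = τ ∧ (s' : ℕ) < ρ τ) = bi ((s : ℕ) = 0) * ρ τ := by
    simp only [bi_and, ← Finset.mul_sum]
    rw [sum_lt_fin β (ρ τ) hρ, ← Finset.sum_mul, sum_eq, one_mul]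
  rw [← h2, ← Finset.sum_add_distrib]
  simp only [← Finset.sum_add_distrib, ll_add]
  simp only [Finset.sum_const, Finset.card_univ, Fintype.card_fin, smul_eq_mul]
  rw [← Finset.mul_sum, sum_ex' (fun δ => nb δ τ) (nb_inj τ), Fintype.card_fin, hd, mul_comm]

theorem row_r (hg : g ≤ d) (hd : d = (κ + 1) * β) (ρ : ℕ → ℕ) (τ : Fin (2 ^ κ)) (j : Fin d) :
    ∑ y, bi (CR κ g β d ρ (τ, .inr j) y = true) = d := by
  rw [sum_QT, Finset.sum_add_distrib]
  have h1 : ∑ τ', ∑ j', bi (CR κ g β d ρ (τ, .inr j) (τ', .inr j') = true) = d - g := by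
    have e : ∀ τ' j', bi (CR κ g β d ρ (τ, .inr j) (τ', .inr j') = true) = bi (τ' = τ) := fun τ' j' =>
      bi_congr ((CR_rr ρ τ τ' j j').trans eq_comm)
    simp only [e, Finset.sum_const, Finset.card_univ, Fintype.card_fin, smul_eq_mul]
    rw [← Finset.mul_sum, sum_eq, mul_one]
  have h2 : ∑ τ', ∑ s', bi (CR κ g β d ρ (τ, .inr j) (τ', .inl s') = true) = g := by
    rw [Finset.sum_comm]
    have e : ∀ s' : Fin β, ∑ τ', bi (CR κ g β d ρ (τ, .inr j) (τ', .inl s') = true) =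
        ∑ δ : Fin (κ + 1), bi (((δ : ℕ) * β + s' + (d - j)) % d < g) := by
      intro s'
      rw [← sum_ex (fun δ => nb δ τ) (nb_inj τ) (fun δ : Fin (κ + 1) => ((δ : ℕ) * β + s' + (d - j)) % d < g)]
      exact Finset.sum_congr rfl (fun τ' _ => bi_congr (CR_rl ρ τ τ' j s'))
    simp only [e]
    rw [Finset.sum_comm, sum_fin_blocks (fun u => bi ((u + (d - j)) % d < g)), ← hd, circ_left d g j hg]
  rw [h1, h2]
  omega

theorem nb_swap (δ : Fin (κ + 1)) (τ τ' : Fin (2 ^ κ)) : nb δ τ = τ' ↔ nb δ τ' = τ := by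
  constructor
  · intro h
    rw [← h, nb_nb]
  · intro h
    rw [← h, nb_nb]

theorem col_l (hg : g < β) (hgd : g ≤ d) (hd : d = (κ + 1) * β) (ρ : ℕ → ℕ) (τ' : Fin (2 ^ κ)) (s' : Fin β) :
    (∑ x, bi (CR κ g β d ρ x (τ', .inl s') = true)) + bi ((s' : ℕ) < ρ τ') = d := by
  rw [sum_PT, Finset.sum_add_distrib]
  have h1 : ∑ τ, ∑ j, bi (CR κ g β d ρ (τ, .inr j) (τ', .inl s') = true) = (κ + 1) * g := by
    rw [Finset.sum_comm]
    have e : ∀ j : Fin d, ∑ τ, bi (CR κ g β d ρ (τ, .inr j) (τ', .inl s') = true) =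
        ∑ δ : Fin (κ + 1), bi (((δ : ℕ) * β + s' + (d - j)) % d < g) := by
      intro j
      rw [← sum_ex (fun δ => nb δ τ') (nb_inj τ') (fun δ : Fin (κ + 1) => ((δ : ℕ) * β + s' + (d - j)) % d < g)]
      refine Finset.sum_congr rfl (fun τ _ => bi_congr ?_)
      rw [CR_rl]
      constructor
      · rintro ⟨δ, h2, h3⟩
        exact ⟨δ, (nb_swap δ τ τ').mp h2, h3⟩
      · rintro ⟨δ, h2, h3⟩
        exact ⟨δ, (nb_swap δ τ τ').mpr h2, h3⟩
    simp only [e]
    rw [Finset.sum_comm]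
    have e2 : ∀ δ : Fin (κ + 1), ∑ j : Fin d, bi (((δ : ℕ) * β + s' + (d - j)) % d < g) = g := by
      intro δ
      rw [Fin.sum_univ_eq_sum_range (fun j => bi (((δ : ℕ) * β + s' + (d - j)) % d < g)) d]
      exact circ_right d g _ hgd
    simp only [e2, Finset.sum_const, Finset.card_univ, Fintype.card_fin, smul_eq_mul]
  have h2 : ∑ τ, ∑ s : Fin (β - g), bi ((s : ℕ) = 0 ∧ τ' = τ ∧ (s' : ℕ) < ρ τ) = bi ((s' : ℕ) < ρ τ') := by
    have e : ∀ τ : Fin (2 ^ κ), ∀ s : Fin (β - g), bi ((s : ℕ) = 0 ∧ τ' = τ ∧ (s' : ℕ) < ρ τ) =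
        bi (τ = τ') * bi (s = (⟨0, by omega⟩ : Fin (β - g))) * bi ((s' : ℕ) < ρ τ') := by
      intro τ s
      rw [← bi_and, ← bi_and]
      refine bi_congr ?_
      constructor
      · rintro ⟨h3, h4, h5⟩
        subst h4
        exact ⟨⟨rfl, Fin.ext h3⟩, h5⟩
      · rintro ⟨⟨h3, h4⟩, h5⟩
        subst h3
        exact ⟨congrArg Fin.val h4, rfl, h5⟩
    simp only [e, ← Finset.sum_mul, ← Finset.mul_sum, sum_eq, mul_one, one_mul]
  have h3 : ∑ τ, ∑ s : Fin (β - g), bi (CR κ g β d ρ (τ, .inl s) (τ', .inl s') = true) + bi ((s' : ℕ) < ρ τ') =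
      (κ + 1) * (β - g) := by
    rw [← h2, ← Finset.sum_add_distrib]
    simp only [← Finset.sum_add_distrib, ll_add]
    simp only [Finset.sum_const, Finset.card_univ, Fintype.card_fin, smul_eq_mul]
    rw [← Finset.mul_sum]
    have e : ∑ τ, bi (∃ δ, nb δ τ = τ') = ∑ τ, bi (∃ δ, nb δ τ' = τ) :=
      Finset.sum_congr rfl (fun τ _ => bi_congr (nb_symm τ τ'))
    rw [e, sum_ex' (fun δ => nb δ τ') (nb_inj τ'), Fintype.card_fin, mul_comm]
  have h4 : (κ + 1) * (β - g) + (κ + 1) * g = d := by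
    rw [← Nat.mul_add, Nat.sub_add_cancel hg.le, hd]
  omega

theorem col_r (ρ : ℕ → ℕ) (τ' : Fin (2 ^ κ)) (j' : Fin (d - g)) :
    ∑ x, bi (CR κ g β d ρ x (τ', .inr j') = true) = d := by
  rw [sum_PT, Finset.sum_add_distrib]
  have h1 : ∑ τ, ∑ s, bi (CR κ g β d ρ (τ, .inl s) (τ', .inr j') = true) = 0 :=
    Finset.sum_eq_zero (fun τ _ => Finset.sum_eq_zero (fun s _ => bi_false (CR_lr ρ τ τ' s j')))
  have e : ∀ τ j, bi (CR κ g β d ρ (τ, .inr j) (τ', .inr j') = true) = bi (τ = τ') := fun τ j =>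
    bi_congr (CR_rr ρ τ τ' j j')
  simp only [e, Finset.sum_const, Finset.card_univ, Fintype.card_fin, smul_eq_mul]
  rw [h1, ← Finset.mul_sum, sum_eq, mul_one, zero_add]

/-- ranks -/
theorem rank_cnt (p : ℕ → Bool) (r : ℕ) : ∀ M : ℕ,
    ∑ j ∈ range M, bi (p j = true ∧ r = ((range j).filter (fun j' => p j' = true)).card) =
      bi (r < ((range M).filter (fun j' => p j' = true)).card) := by
  intro M
  induction M with
  | zero =>
    rw [Finset.range_zero, Finset.sum_empty, Finset.filter_empty, Finset.card_empty]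
    exact (bi_false (Nat.not_lt_zero r)).symm
  | succ M ih =>
    rw [Finset.sum_range_succ, ih, Finset.range_add_one, Finset.filter_insert]
    by_cases h : p M = true
    · rw [if_pos h, Finset.card_insert_of_notMem (by simp)]
      set c := ((range M).filter (fun j' => p j' = true)).card with hc
      rcases lt_trichotomy r c with h1 | h1 | h1
      · rw [bi_true h1, bi_false (fun h2 => by have := h2.2; omega), bi_true (by omega)]
      · rw [bi_false (by omega), bi_true ⟨h, h1⟩, bi_true (by omega)]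
      · rw [bi_false (by omega), bi_false (fun h2 => by have := h2.2; omega), bi_false (by omega)]
    · have h3 : bi (p M = true ∧ r = ((range M).filter (fun j' => p j' = true)).card) = 0 :=
        bi_false (fun h2 => h h2.1)
      rw [if_neg h, h3, add_zero]

theorem cnt_ext (p : ℕ → Bool) (b M : ℕ) (hb : b ≤ M) (hp : ∀ j, p j = true → j < b) :
    ((range M).filter (fun j' => p j' = true)).card = ((range b).filter (fun j' => p j' = true)).card := by
  congr 1
  ext j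
  simp only [mem_filter, mem_range]
  constructor
  · rintro ⟨_, h⟩
    exact ⟨hp j h, h⟩
  · rintro ⟨h1, h2⟩
    exact ⟨by omega, h2⟩

theorem cnt_sum (p : ℕ → Bool) (M : ℕ) :
    ∑ j ∈ range M, bi (p j = true) = ((range M).filter (fun j' => p j' = true)).card := by
  rw [Finset.card_filter]
  refine Finset.sum_congr rfl (fun v _ => ?_)
  by_cases h : p v = true
  · rw [bi_true h, if_pos h]
  · rw [bi_false h, if_neg h]

theorem isP_l (τ : Fin (2 ^ κ)) (s : Fin (β - g)) : (isP ((τ, .inl s) : PT κ g β d) = true) ↔ (s : ℕ) = 0 := by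
  simp only [isP, decide_eq_true_eq]

theorem isP_r (τ : Fin (2 ^ κ)) (j : Fin d) : ¬ (isP ((τ, .inr j) : PT κ g β d) = true) := by
  simp [isP]

theorem isQ_l (τ : Fin (2 ^ κ)) (s : Fin β) (r : ℕ) : (isQ ((τ, .inl s) : QT κ g β d) r = true) ↔ (s : ℕ) = r := by
  simp only [isQ, decide_eq_true_eq]

theorem isQ_r (τ : Fin (2 ^ κ)) (j : Fin (d - g)) (r : ℕ) : ¬ (isQ ((τ, .inr j) : QT κ g β d) r = true) := by
  simp [isQ]

/-- sum over the `P`-vertices `(τ, 0)` -/
theorem sum_isP (hg : g < β) (F : ℕ → Prop) :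
    ∑ x : PT κ g β d, bi (F x.1 ∧ isP x = true) = ∑ t ∈ range (2 ^ κ), bi (F t) := by
  rw [sum_PT, ← Fin.sum_univ_eq_sum_range (fun t => bi (F t)) (2 ^ κ)]
  refine Finset.sum_congr rfl (fun τ _ => ?_)
  have h1 : ∑ j : Fin d, bi (F ((τ, Sum.inr j) : PT κ g β d).1 ∧ isP ((τ, .inr j) : PT κ g β d) = true) = 0 :=
    Finset.sum_eq_zero (fun j _ => bi_false (fun h => isP_r τ j h.2))
  have h2 : ∀ s : Fin (β - g), bi (F ((τ, Sum.inl s) : PT κ g β d).1 ∧ isP ((τ, .inl s) : PT κ g β d) = true) =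
      bi (F τ) * bi (s = (⟨0, by omega⟩ : Fin (β - g))) := by
    intro s
    rw [← bi_and]
    refine bi_congr ?_
    rw [isP_l]
    constructor
    · rintro ⟨h3, h4⟩
      exact ⟨h3, Fin.ext h4⟩
    · rintro ⟨h3, h4⟩
      exact ⟨h3, congrArg Fin.val h4⟩
  rw [h1, add_zero]
  simp only [h2]
  rw [← Finset.mul_sum, sum_eq, mul_one]

/-- sum over the `Q`-vertices -/
theorem sum_isQ (F : ℕ → Prop) (r : ℕ → ℕ) (hr : ∀ t, F t → r t < β) :
    ∑ y : QT κ g β d, bi (F y.1 ∧ isQ y (r y.1) = true) = ∑ t ∈ range (2 ^ κ), bi (F t) := by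
  rw [sum_QT, ← Fin.sum_univ_eq_sum_range (fun t => bi (F t)) (2 ^ κ)]
  refine Finset.sum_congr rfl (fun τ _ => ?_)
  have h1 : ∑ j : Fin (d - g), bi (F ((τ, Sum.inr j) : QT κ g β d).1 ∧
      isQ ((τ, .inr j) : QT κ g β d) (r ((τ, Sum.inr j) : QT κ g β d).1) = true) = 0 :=
    Finset.sum_eq_zero (fun j _ => bi_false (fun h => isQ_r τ j _ h.2))
  rw [h1, add_zero]
  by_cases hF : F τ
  · have hlt := hr τ hF
    have h2 : ∀ s : Fin β, bi (F ((τ, Sum.inl s) : QT κ g β d).1 ∧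
        isQ ((τ, .inl s) : QT κ g β d) (r ((τ, Sum.inl s) : QT κ g β d).1) = true) =
        bi (s = (⟨r τ, hlt⟩ : Fin β)) := by
      intro s
      refine bi_congr ?_
      rw [isQ_l]
      constructor
      · rintro ⟨_, h4⟩
        exact Fin.ext h4
      · intro h4
        exact ⟨hF, congrArg Fin.val h4⟩
    simp only [h2]
    rw [sum_eq, bi_true hF]
  · rw [bi_false hF]
    exact Finset.sum_eq_zero (fun s _ => bi_false (fun h => hF h.1))

theorem rk_mono {E : ℕ → ℕ → Bool} (i : ℕ) {j j' : ℕ} (h : j ≤ j') : rk E i j ≤ rk E i j' := by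
  unfold rk
  exact Finset.card_le_card (Finset.filter_subset_filter _ (Finset.range_mono h))

theorem crk_mono {E : ℕ → ℕ → Bool} (j : ℕ) {i i' : ℕ} (h : i ≤ i') : crk E i j ≤ crk E i' j := by
  unfold crk
  exact Finset.card_le_card (Finset.filter_subset_filter _ (Finset.range_mono h))

theorem le_d (hg : g < β) (hd : d = (κ + 1) * β) : g ≤ d := by
  have : β ≤ (κ + 1) * β := Nat.le_mul_of_pos_left β (Nat.succ_pos κ)
  omega

end GDegAux

open GDegAux

theorem ldeg_G (hE : EOk E a b κ β) (hg : g < β) (hd : d = (κ + 1) * β)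
    (x : PT κ g β d ⊕ QT κ g β d) : {y | GR E a b κ g β d x y = true}.ncard = d := by
  have hgd : g ≤ d := le_d hg hd
  rw [ncard_eq, Fintype.sum_sum_type]
  rcases x with ⟨τ, s | j⟩ | ⟨τ, s | j⟩
  · -- `P₁(τ, s)`
    have h1 := row_l (g := g) hd (fun τ => rk E τ b) τ (hE.row τ).le s
    have h2 : ∑ x' : PT κ g β d, bi (GR E a b κ g β d (.inl (τ, .inl s)) (.inr x') = true) =
        bi ((s : ℕ) = 0) * rk E τ b := by
      have e : ∀ x' : PT κ g β d, bi (GR E a b κ g β d (.inl (τ, .inl s)) (.inr x') = true) =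
          bi ((s : ℕ) = 0) * bi (E τ x'.1 = true ∧ isP x' = true) := by
        intro x'
        rw [← bi_and]
        refine bi_congr ?_
        simp only [GR, Bool.and_eq_true, isP_l]
        tauto
      simp only [e]
      rw [← Finset.mul_sum, sum_isP hg (fun t => E τ t = true), cnt_sum (fun t => E τ t),
        cnt_ext (fun t => E τ t) b (2 ^ κ) hE.lb (fun t ht => (hE.rng τ t ht).2)]
      rfl
    rw [h2]
    exact h1
  · -- `Λ₁(τ, j)`
    have h1 := row_r hgd hd (fun τ => rk E τ b) τ j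
    have h2 : ∑ x' : PT κ g β d, bi (GR E a b κ g β d (.inl (τ, .inr j)) (.inr x') = true) = 0 := by
      refine Finset.sum_eq_zero (fun x' _ => bi_false ?_)
      simp [GR, isP]
    rw [h2, add_zero]
    exact h1
  · -- `Q₂(τ, s)`
    have h1 := col_l hg hgd hd (fun τ => crk E a τ) τ s
    have h2 : ∑ y' : QT κ g β d, bi (GR E a b κ g β d (.inr (τ, .inl s)) (.inl y') = true) =
        bi ((s : ℕ) < crk E a τ) := by
      have e : ∀ y' : QT κ g β d, bi (GR E a b κ g β d (.inr (τ, .inl s)) (.inl y') = true) =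
          bi ((E y'.1 τ = true ∧ (s : ℕ) = crk E y'.1 τ) ∧ isQ y' (rk E y'.1 τ) = true) := by
        intro y'
        refine bi_congr ?_
        simp only [GR, Bool.and_eq_true, isQ_l]
        tauto
      simp only [e]
      rw [sum_isQ (fun t => E t τ = true ∧ (s : ℕ) = crk E t τ) (fun t => rk E t τ)
        (fun t ht => lt_of_le_of_lt (rk_mono t (hE.rng t τ ht.1).2.le) (hE.row t))]
      have h3 := rank_cnt (fun t => E t τ) s (2 ^ κ)
      rw [cnt_ext (fun t => E t τ) a (2 ^ κ) hE.la (fun t ht => (hE.rng t τ ht).1)] at h3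
      exact h3
    rw [h2]
    have h4 : ∑ x' : PT κ g β d, bi (GR E a b κ g β d (.inr (τ, .inl s)) (.inr x') = true) =
      ∑ x' : PT κ g β d, bi (CR κ g β d (fun τ => crk E a τ) x' (τ, .inl s) = true) := rfl
    rw [h4, add_comm]
    exact h1
  · -- `R₂(τ, j)`
    have h1 := col_r (g := g) (β := β) (fun τ => crk E a τ) τ j
    have h2 : ∑ y' : QT κ g β d, bi (GR E a b κ g β d (.inr (τ, .inr j)) (.inl y') = true) = 0 := by
      refine Finset.sum_eq_zero (fun y' _ => bi_false ?_)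
      simp [GR, isQ]
    rw [h2, zero_add]
    exact h1

theorem rdeg_G (hE : EOk E a b κ β) (hg : g < β) (hd : d = (κ + 1) * β)
    (y : QT κ g β d ⊕ PT κ g β d) : {x | GR E a b κ g β d x y = true}.ncard = d := by
  have hgd : g ≤ d := le_d hg hd
  rw [ncard_eq (fun x => GR E a b κ g β d x y), Fintype.sum_sum_type]
  rcases y with ⟨τ, s | j⟩ | ⟨τ, s | j⟩
  · -- `Q₁(τ, s)`
    have h1 := col_l hg hgd hd (fun τ => rk E τ b) τ s
    have h2 : ∑ y' : QT κ g β d, bi (GR E a b κ g β d (.inr y') (.inl (τ, .inl s)) = true) =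
        bi ((s : ℕ) < rk E τ b) := by
      have e : ∀ y' : QT κ g β d, bi (GR E a b κ g β d (.inr y') (.inl (τ, .inl s)) = true) =
          bi ((E τ y'.1 = true ∧ (s : ℕ) = rk E τ y'.1) ∧ isQ y' (crk E τ y'.1) = true) := by
        intro y'
        refine bi_congr ?_
        simp only [GR, Bool.and_eq_true, isQ_l]
        tauto
      simp only [e]
      rw [sum_isQ (fun t => E τ t = true ∧ (s : ℕ) = rk E τ t) (fun t => crk E τ t)
        (fun t ht => lt_of_le_of_lt (crk_mono t (hE.rng τ t ht.1).1.le) (hE.col t))]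
      have h3 := rank_cnt (fun t => E τ t) s (2 ^ κ)
      rw [cnt_ext (fun t => E τ t) b (2 ^ κ) hE.lb (fun t ht => (hE.rng τ t ht).2)] at h3
      exact h3
    rw [h2]
    exact h1
  · -- `R₁(τ, j)`
    have h1 := col_r (g := g) (β := β) (fun τ => rk E τ b) τ j
    have h2 : ∑ y' : QT κ g β d, bi (GR E a b κ g β d (.inr y') (.inl (τ, .inr j)) = true) = 0 := by
      refine Finset.sum_eq_zero (fun y' _ => bi_false ?_)
      simp [GR, isQ]
    rw [h2, add_zero]
    exact h1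
  · -- `P₂(τ, s)`
    have h1 := row_l (g := g) hd (fun τ => crk E a τ) τ (hE.col τ).le s
    have h2 : ∑ x' : PT κ g β d, bi (GR E a b κ g β d (.inl x') (.inr (τ, .inl s)) = true) =
        bi ((s : ℕ) = 0) * crk E a τ := by
      have e : ∀ x' : PT κ g β d, bi (GR E a b κ g β d (.inl x') (.inr (τ, .inl s)) = true) =
          bi ((s : ℕ) = 0) * bi (E x'.1 τ = true ∧ isP x' = true) := by
        intro x'
        rw [← bi_and]
        refine bi_congr ?_
        simp only [GR, Bool.and_eq_true, isP_l]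
        tauto
      simp only [e]
      rw [← Finset.mul_sum, sum_isP hg (fun t => E t τ = true), cnt_sum (fun t => E t τ),
        cnt_ext (fun t => E t τ) a (2 ^ κ) hE.la (fun t ht => (hE.rng t τ ht).1)]
      rfl
    rw [h2, add_comm]
    exact h1
  · -- `Λ₂(τ, j)`
    have h1 := row_r hgd hd (fun τ => crk E a τ) τ j
    have h2 : ∑ x' : PT κ g β d, bi (GR E a b κ g β d (.inl x') (.inr (τ, .inr j)) = true) = 0 := by
      refine Finset.sum_eq_zero (fun x' _ => bi_false ?_)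
      simp [GR, isP]
    rw [h2, zero_add]
    exact h1

end Pool.Agent.Lib.Pa7c826m
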