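import Pool.Agent.Lib.Pa7c826m.Nbh

/-!
The graph of the reduction at the level of vertex numbers.

PROOF. Values: `eP (τ, .inl s) = s + wP * τ`, `eP (τ, .inr j) = (β - g) + j + wP * τ` (`finProdFinEquiv` maps `(i, j)` to `j + n * i`;
`finSumFinEquiv`), and the same for `eQ` with `β`, `d - g` and `wQ`. So `eP x / wP = x.1` and `eP x % wP` is the slot. `cadj_eP_eQ`: cases on the slots; the quantifier over
`δ : Fin (κ + 1)` becomes `δ < κ + 1` with `nb_val`, and `β - g + j - (β - g) = j`.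
`GR_iff`: `finSumFinEquiv` sends `.inl i` to `i` (less than `2 ^ κ * wP`) and `.inr i` to `2 ^ κ * wP + i`. For the switches:
`isP x = true ↔ eP x % wP = 0` (as `g < β`, the slot `0` is a `P`-slot), and if `E i j = true` then `rk E i j ≤ rk E i b < β` and
`crk E i j ≤ crk E a j < β` (`EOk`), so `isQ y (rk E i j) = true ↔ eQ y % wQ = rk E i j`.
Similar proofs: Lib/Pa7c826s/TIdx.lean, Lib/Pa7c826/BISIndex.lean.
-/

namespace Pool.Agent.Lib.Pa7c826m

open Finset Pool.Agent.Lib.Pa7c826 Pool.Agent.Lib.Pa7c826s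

/-- numbering of the vertices of one side of a copy -/
def eP (κ g β d : ℕ) : PT κ g β d ≃ Fin (2 ^ κ * wP g β d) :=
  (Equiv.prodCongr (Equiv.refl _) finSumFinEquiv).trans finProdFinEquiv

/-- numbering of the vertices of the other side of a copy -/
def eQ (κ g β d : ℕ) : QT κ g β d ≃ Fin (2 ^ κ * wQ g β d) :=
  (Equiv.prodCongr (Equiv.refl _) finSumFinEquiv).trans finProdFinEquiv

/-- numbering of the left side -/
def eL (κ g β d : ℕ) : PT κ g β d ⊕ QT κ g β d ≃ Fin (2 ^ κ * wP g β d + 2 ^ κ * wQ g β d) :=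
  (Equiv.sumCongr (eP κ g β d) (eQ κ g β d)).trans finSumFinEquiv

/-- numbering of the right side -/
def eR (κ g β d : ℕ) : QT κ g β d ⊕ PT κ g β d ≃ Fin (2 ^ κ * wQ g β d + 2 ^ κ * wP g β d) :=
  (Equiv.sumCongr (eQ κ g β d) (eP κ g β d)).trans finSumFinEquiv

variable {E : ℕ → ℕ → Bool} {a b κ g β d : ℕ}

namespace GIdxAux

variable {κ g β d : ℕ}

lemma eP_val (x : PT κ g β d) : (eP κ g β d x : ℕ) = (finSumFinEquiv x.2 : ℕ) + wP g β d * x.1 := rfl

lemma eQ_val (x : QT κ g β d) : (eQ κ g β d x : ℕ) = (finSumFinEquiv x.2 : ℕ) + wQ g β d * x.1 := rfl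

lemma slP_lt (x : PT κ g β d) : (finSumFinEquiv x.2 : ℕ) < wP g β d := (finSumFinEquiv x.2).2

lemma slQ_lt (x : QT κ g β d) : (finSumFinEquiv x.2 : ℕ) < wQ g β d := (finSumFinEquiv x.2).2

lemma eP_mod (x : PT κ g β d) : (eP κ g β d x : ℕ) % wP g β d = (finSumFinEquiv x.2 : ℕ) := by
  rw [eP_val, Nat.add_mul_mod_self_left, Nat.mod_eq_of_lt (slP_lt x)]

lemma eP_div (x : PT κ g β d) : (eP κ g β d x : ℕ) / wP g β d = x.1 := by
  have h := slP_lt x
  rw [eP_val, Nat.add_mul_div_left _ _ (by omega), Nat.div_eq_of_lt h, Nat.zero_add]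

lemma eQ_mod (x : QT κ g β d) : (eQ κ g β d x : ℕ) % wQ g β d = (finSumFinEquiv x.2 : ℕ) := by
  rw [eQ_val, Nat.add_mul_mod_self_left, Nat.mod_eq_of_lt (slQ_lt x)]

lemma eQ_div (x : QT κ g β d) : (eQ κ g β d x : ℕ) / wQ g β d = x.1 := by
  have h := slQ_lt x
  rw [eQ_val, Nat.add_mul_div_left _ _ (by omega), Nat.div_eq_of_lt h, Nat.zero_add]

lemma sl_inl {m n : ℕ} (s : Fin m) : ((finSumFinEquiv (.inl s : Fin m ⊕ Fin n)) : ℕ) = s := by
  rw [finSumFinEquiv_apply_left]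
  rfl

lemma sl_inr {m n : ℕ} (s : Fin n) : ((finSumFinEquiv (.inr s : Fin m ⊕ Fin n)) : ℕ) = m + s := by
  rw [finSumFinEquiv_apply_right]
  rfl

lemma ex_nb (τ τ' : Fin (2 ^ κ)) (Q : ℕ → Prop) :
    (∃ δ < κ + 1, nbN δ τ = τ' ∧ Q δ) ↔ ∃ δ : Fin (κ + 1), nb δ τ = τ' ∧ Q δ := by
  constructor
  · rintro ⟨δ, hδ, h1, h2⟩
    refine ⟨⟨δ, hδ⟩, ?_, h2⟩
    apply Fin.ext
    rw [nb_val]
    exact h1
  · rintro ⟨δ, h1, h2⟩
    refine ⟨δ, δ.2, ?_, h2⟩
    rw [← nb_val, h1]

lemma cadj_main (ρ : ℕ → ℕ) (x : PT κ g β d) (y : QT κ g β d) :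
    cadj κ g β d ρ (x.1 : ℕ) (finSumFinEquiv x.2 : ℕ) (y.1 : ℕ) (finSumFinEquiv y.2 : ℕ) =
      CR κ g β d ρ x y := by
  obtain ⟨τ, s | j⟩ := x
  · obtain ⟨τ', s' | j'⟩ := y
    · simp only [sl_inl]
      unfold cadj CR
      have h1 := s.2
      have h2 := s'.2
      simp only [h1, h2, decide_true, if_true, decide_eq_true_eq]
      have h3 : (∃ δ < κ + 1, nbN δ τ = τ') ↔ ∃ δ : Fin (κ + 1), nb δ τ = τ' := by
        have := ex_nb τ τ' (fun _ => True)
        simpa using this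
      simp only [h3, Fin.ext_iff]
    · simp only [sl_inl, sl_inr]
      unfold cadj CR
      have h1 := s.2
      have h2 : ¬ β + (j' : ℕ) < β := by omega
      simp [h1, h2]
  · obtain ⟨τ', s' | j'⟩ := y
    · simp only [sl_inl, sl_inr]
      unfold cadj CR
      have h1 : ¬ β - g + (j : ℕ) < β - g := by omega
      have h2 := s'.2
      have h3 : β - g + (j : ℕ) - (β - g) = j := by omega
      simp only [h1, h2, h3, decide_true, decide_false, if_true, Bool.false_eq_true, if_false,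
        Bool.and_eq_true, decide_eq_true_eq]
      have h4 := ex_nb τ τ' (fun δ => (δ * β + s' + (d - j)) % d < g)
      simp only [h4]
    · simp only [sl_inr]
      unfold cadj CR
      have h1 : ¬ β - g + (j : ℕ) < β - g := by omega
      have h2 : ¬ β + (j' : ℕ) < β := by omega
      simp [h1, h2, Fin.ext_iff]

lemma isP_eq (hg : g < β) (x : PT κ g β d) : isP x = decide ((finSumFinEquiv x.2 : ℕ) = 0) := by
  obtain ⟨τ, s | j⟩ := x
  · simp only [sl_inl]
    rfl
  · simp only [sl_inr]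
    have h : ¬ (β - g + (j : ℕ) = 0) := by omega
    simp only [h, decide_false]
    rfl

lemma isQ_eq {r : ℕ} (hr : r < β) (x : QT κ g β d) : isQ x r = decide ((finSumFinEquiv x.2 : ℕ) = r) := by
  obtain ⟨τ, s | j⟩ := x
  · simp only [sl_inl]
    rfl
  · simp only [sl_inr]
    have h : ¬ (β + (j : ℕ) = r) := by omega
    simp only [h, decide_false]
    rfl

lemma rk_mono {E : ℕ → ℕ → Bool} {i j b : ℕ} (h : j ≤ b) : rk E i j ≤ rk E i b := by
  unfold rk
  refine card_le_card (fun x hx => ?_)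
  rw [mem_filter, mem_range] at hx ⊢
  exact ⟨by omega, hx.2⟩

lemma crk_mono {E : ℕ → ℕ → Bool} {i j a : ℕ} (h : i ≤ a) : crk E i j ≤ crk E a j := by
  unfold crk
  refine card_le_card (fun x hx => ?_)
  rw [mem_filter, mem_range] at hx ⊢
  exact ⟨by omega, hx.2⟩

lemma eL_inl (x : PT κ g β d) : (eL κ g β d (.inl x) : ℕ) = eP κ g β d x := by
  unfold eL
  simp only [Equiv.trans_apply, Equiv.sumCongr_apply, Sum.map_inl]
  exact sl_inl _

lemma eL_inr (y : QT κ g β d) : (eL κ g β d (.inr y) : ℕ) = 2 ^ κ * wP g β d + eQ κ g β d y := by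
  unfold eL
  simp only [Equiv.trans_apply, Equiv.sumCongr_apply, Sum.map_inr]
  exact sl_inr _

lemma eR_inl (y : QT κ g β d) : (eR κ g β d (.inl y) : ℕ) = eQ κ g β d y := by
  unfold eR
  simp only [Equiv.trans_apply, Equiv.sumCongr_apply, Sum.map_inl]
  exact sl_inl _

lemma eR_inr (x : PT κ g β d) : (eR κ g β d (.inr x) : ℕ) = 2 ^ κ * wQ g β d + eP κ g β d x := by
  unfold eR
  simp only [Equiv.trans_apply, Equiv.sumCongr_apply, Sum.map_inr]
  exact sl_inr _

end GIdxAux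

open GIdxAux

theorem cadj_eP_eQ (ρ : ℕ → ℕ) (x : PT κ g β d) (y : QT κ g β d) :
    cadj κ g β d ρ (eP κ g β d x / wP g β d) (eP κ g β d x % wP g β d) (eQ κ g β d y / wQ g β d)
      (eQ κ g β d y % wQ g β d) = CR κ g β d ρ x y := by
  rw [eP_div, eP_mod, eQ_div, eQ_mod]
  exact cadj_main ρ x y

theorem GR_iff (hE : EOk E a b κ β) (hg : g < β) (x : PT κ g β d ⊕ QT κ g β d)
    (y : QT κ g β d ⊕ PT κ g β d) :
    GR E a b κ g β d x y = true ↔ gadj E a b κ g β d (eL κ g β d x) (eR κ g β d y) = true := by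
  suffices h : GR E a b κ g β d x y = gadj E a b κ g β d (eL κ g β d x) (eR κ g β d y) by rw [h]
  rcases x with x | x
  · rcases y with y | y
    · rw [eL_inl, eR_inl]
      unfold gadj
      have h1 : (eP κ g β d x : ℕ) < 2 ^ κ * wP g β d := (eP κ g β d x).2
      have h2 : (eQ κ g β d y : ℕ) < 2 ^ κ * wQ g β d := (eQ κ g β d y).2
      simp only [h1, h2, decide_true, if_true]
      rw [cadj_eP_eQ]
      rfl
    · rw [eL_inl, eR_inr]
      unfold gadj
      have h1 : (eP κ g β d x : ℕ) < 2 ^ κ * wP g β d := (eP κ g β d x).2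
      have h2 : ¬ 2 ^ κ * wQ g β d + (eP κ g β d y : ℕ) < 2 ^ κ * wQ g β d := by omega
      have h3 : 2 ^ κ * wQ g β d + (eP κ g β d y : ℕ) - 2 ^ κ * wQ g β d = eP κ g β d y := by omega
      simp only [h1, h2, h3, decide_true, if_true, decide_false, Bool.false_eq_true, if_false]
      rw [eP_div, eP_mod, eP_div, eP_mod, ← isP_eq hg, ← isP_eq hg]
      rfl
  · rcases y with y | y
    · rw [eL_inr, eR_inl]
      unfold gadj
      have h1 : ¬ 2 ^ κ * wP g β d + (eQ κ g β d x : ℕ) < 2 ^ κ * wP g β d := by omega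
      have h2 : (eQ κ g β d y : ℕ) < 2 ^ κ * wQ g β d := (eQ κ g β d y).2
      have h3 : 2 ^ κ * wP g β d + (eQ κ g β d x : ℕ) - 2 ^ κ * wP g β d = eQ κ g β d x := by omega
      simp only [h1, h2, h3, decide_true, if_true, decide_false, Bool.false_eq_true, if_false]
      rw [eQ_div, eQ_mod, eQ_div, eQ_mod]
      have hGR : GR E a b κ g β d (.inr x) (.inl y) =
          (E y.1 x.1 && (isQ y (rk E y.1 x.1) && isQ x (crk E y.1 x.1))) := rfl
      rw [hGR]
      cases hEE : E y.1 x.1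
      · simp
      · have hr := hE.rng _ _ hEE
        have hrk : rk E y.1 x.1 < β := lt_of_le_of_lt (rk_mono hr.2.le) (hE.row _)
        have hcrk : crk E y.1 x.1 < β := lt_of_le_of_lt (crk_mono hr.1.le) (hE.col _)
        rw [isQ_eq hrk, isQ_eq hcrk]
    · rw [eL_inr, eR_inr]
      unfold gadj
      have h1 : ¬ 2 ^ κ * wP g β d + (eQ κ g β d x : ℕ) < 2 ^ κ * wP g β d := by omega
      have h2 : ¬ 2 ^ κ * wQ g β d + (eP κ g β d y : ℕ) < 2 ^ κ * wQ g β d := by omega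
      have h3 : 2 ^ κ * wP g β d + (eQ κ g β d x : ℕ) - 2 ^ κ * wP g β d = eQ κ g β d x := by omega
      have h4 : 2 ^ κ * wQ g β d + (eP κ g β d y : ℕ) - 2 ^ κ * wQ g β d = eP κ g β d y := by omega
      simp only [h1, h2, h3, h4, decide_false, Bool.false_eq_true, if_false]
      rw [cadj_eP_eQ]
      rfl

end Pool.Agent.Lib.Pa7c826m
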