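import Pool.Agent.Lib.Pa7c826m.GExpA
import Pool.Agent.Lib.Pa7c826m.GIdx

/-!
Three-way expansion of the graph of the reduction.

PROOF. `half_exp`: the pairs `(x, y)` counted in `bdT W` include those with `x = .inl x'`, `y = .inl y'` (copy 1) and those with
`x = .inr y'`, `y = .inr x'` (copy 2). With `A₁ = {x' | .inl (.inl x') ∈ W}`, `B₁ = {y' | .inr (.inl y') ∈ W}` and
`A₂ = {x' | .inr (.inr x') ∈ W}`, `B₂ = {y' | .inl (.inr y') ∈ W}`, `copy_exp` gives `g min (|A_c| + |B_c|) (N - |A_c| - |B_c|) ≤ 2 (…)` for `c = 1, 2`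
where `N = |PT| + |QT|`, and `min = |A_c| + |B_c|` by the hypotheses; `|W| = |A₁| + |B₁| + |A₂| + |B₂|`.
`three_exp`: among `W 0, W 1, W 2` at most one has more than half of copy 1 and at most one more than half of copy 2 (disjointness), so one of the
three satisfies both hypotheses of `half_exp`.
`multi_exp`: for `k ≥ 3` take the sets number `0, 1, 2` and pull them back along
`Sum.map (eL …) (eR …)`; `bdry` of the graph `mkGraph …` is `bdT` of the preimage by `GR_iff` (`Finset.card_bij` or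
`Finset.card_equiv` with `Equiv.prodCongr (eL …) (eR …)`), and the cardinality of the preimage is the same.
-/

namespace Pool.Agent.Lib.Pa7c826m

open Finset Pool.Agent.Lib.Pa7c826 Pool.Agent.Lib.Pa7c826s

/-- vertices of the graph of the reduction -/
abbrev VT (κ g β d : ℕ) : Type := (PT κ g β d ⊕ QT κ g β d) ⊕ (QT κ g β d ⊕ PT κ g β d)

variable {E : ℕ → ℕ → Bool} {a b κ g β d : ℕ}

open Classical in
/-- number of edges with exactly one end in `W` -/
noncomputable def bdT (E : ℕ → ℕ → Bool) (a b : ℕ) (W : Finset (VT κ g β d)) : ℕ :=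
  (univ.filter (fun e : (PT κ g β d ⊕ QT κ g β d) × (QT κ g β d ⊕ PT κ g β d) =>
    GR E a b κ g β d e.1 e.2 = true ∧ ¬ (Sum.inl e.1 ∈ W ↔ Sum.inr e.2 ∈ W))).card

/-- the number of the copy of a vertex -/
def cop : VT κ g β d → Bool
  | .inl (.inl _) => true
  | .inl (.inr _) => false
  | .inr (.inl _) => true
  | .inr (.inr _) => false

namespace GExpBAux

/-- the embeddings of the four kinds of vertices -/
def i1 : PT κ g β d ↪ VT κ g β d := ⟨fun x => .inl (.inl x), fun x y h => by simpa using h⟩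
def i2 : QT κ g β d ↪ VT κ g β d := ⟨fun x => .inl (.inr x), fun x y h => by simpa using h⟩
def i3 : QT κ g β d ↪ VT κ g β d := ⟨fun x => .inr (.inl x), fun x y h => by simpa using h⟩
def i4 : PT κ g β d ↪ VT κ g β d := ⟨fun x => .inr (.inr x), fun x y h => by simpa using h⟩

/-- the part of a set in each kind -/
def pA (W : Finset (VT κ g β d)) : Finset (PT κ g β d) :=
  univ.filter (fun x => (.inl (.inl x) : VT κ g β d) ∈ W)
def pB (W : Finset (VT κ g β d)) : Finset (QT κ g β d) :=
  univ.filter (fun x => (.inr (.inl x) : VT κ g β d) ∈ W)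
def pC (W : Finset (VT κ g β d)) : Finset (PT κ g β d) :=
  univ.filter (fun x => (.inr (.inr x) : VT κ g β d) ∈ W)
def pD (W : Finset (VT κ g β d)) : Finset (QT κ g β d) :=
  univ.filter (fun x => (.inl (.inr x) : VT κ g β d) ∈ W)

lemma mem_pA {W : Finset (VT κ g β d)} {x : PT κ g β d} :
    x ∈ pA W ↔ (.inl (.inl x) : VT κ g β d) ∈ W := by simp [pA]
lemma mem_pB {W : Finset (VT κ g β d)} {x : QT κ g β d} :
    x ∈ pB W ↔ (.inr (.inl x) : VT κ g β d) ∈ W := by simp [pB]
lemma mem_pC {W : Finset (VT κ g β d)} {x : PT κ g β d} :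
    x ∈ pC W ↔ (.inr (.inr x) : VT κ g β d) ∈ W := by simp [pC]
lemma mem_pD {W : Finset (VT κ g β d)} {x : QT κ g β d} :
    x ∈ pD W ↔ (.inl (.inr x) : VT κ g β d) ∈ W := by simp [pD]

lemma card_true (W : Finset (VT κ g β d)) :
    (W.filter (fun v => cop v = true)).card = (pA W).card + (pB W).card := by
  classical
  have h : W.filter (fun v => cop v = true) = (pA W).map i1 ∪ (pB W).map i3 := by
    ext v
    rw [Finset.mem_filter, Finset.mem_union, Finset.mem_map, Finset.mem_map]
    rcases v with (x | y) | (y | x)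
    · constructor
      · rintro ⟨h1, _⟩
        exact Or.inl ⟨x, mem_pA.mpr h1, rfl⟩
      · rintro (⟨z, hz, he⟩ | ⟨z, hz, he⟩)
        · have : z = x := by simpa [i1] using he
          subst this
          exact ⟨mem_pA.mp hz, rfl⟩
        · simp [i3] at he
    · constructor
      · rintro ⟨_, h2⟩
        simp [cop] at h2
      · rintro (⟨z, hz, he⟩ | ⟨z, hz, he⟩)
        · simp [i1] at he
        · simp [i3] at he
    · constructor
      · rintro ⟨h1, _⟩
        exact Or.inr ⟨y, mem_pB.mpr h1, rfl⟩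
      · rintro (⟨z, hz, he⟩ | ⟨z, hz, he⟩)
        · simp [i1] at he
        · have : z = y := by simpa [i3] using he
          subst this
          exact ⟨mem_pB.mp hz, rfl⟩
    · constructor
      · rintro ⟨_, h2⟩
        simp [cop] at h2
      · rintro (⟨z, hz, he⟩ | ⟨z, hz, he⟩)
        · simp [i1] at he
        · simp [i3] at he
  rw [h, Finset.card_union_of_disjoint, Finset.card_map, Finset.card_map]
  rw [Finset.disjoint_left]
  intro v hv hv'
  rw [Finset.mem_map] at hv hv'
  obtain ⟨z, _, hz⟩ := hv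
  obtain ⟨z', _, hz'⟩ := hv'
  rw [← hz] at hz'
  simp [i1, i3] at hz'

lemma card_false (W : Finset (VT κ g β d)) :
    (W.filter (fun v => cop v = false)).card = (pC W).card + (pD W).card := by
  classical
  have h : W.filter (fun v => cop v = false) = (pC W).map i4 ∪ (pD W).map i2 := by
    ext v
    rw [Finset.mem_filter, Finset.mem_union, Finset.mem_map, Finset.mem_map]
    rcases v with (x | y) | (y | x)
    · constructor
      · rintro ⟨_, h2⟩
        simp [cop] at h2
      · rintro (⟨z, hz, he⟩ | ⟨z, hz, he⟩)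
        · simp [i4] at he
        · simp [i2] at he
    · constructor
      · rintro ⟨h1, _⟩
        exact Or.inr ⟨y, mem_pD.mpr h1, rfl⟩
      · rintro (⟨z, hz, he⟩ | ⟨z, hz, he⟩)
        · simp [i4] at he
        · have : z = y := by simpa [i2] using he
          subst this
          exact ⟨mem_pD.mp hz, rfl⟩
    · constructor
      · rintro ⟨_, h2⟩
        simp [cop] at h2
      · rintro (⟨z, hz, he⟩ | ⟨z, hz, he⟩)
        · simp [i4] at he
        · simp [i2] at he
    · constructor
      · rintro ⟨h1, _⟩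
        exact Or.inl ⟨x, mem_pC.mpr h1, rfl⟩
      · rintro (⟨z, hz, he⟩ | ⟨z, hz, he⟩)
        · have : z = x := by simpa [i4] using he
          subst this
          exact ⟨mem_pC.mp hz, rfl⟩
        · simp [i2] at he
  rw [h, Finset.card_union_of_disjoint, Finset.card_map, Finset.card_map]
  rw [Finset.disjoint_left]
  intro v hv hv'
  rw [Finset.mem_map] at hv hv'
  obtain ⟨z, _, hz⟩ := hv
  obtain ⟨z', _, hz'⟩ := hv'
  rw [← hz] at hz'
  simp [i4, i2] at hz'

lemma card_split (W : Finset (VT κ g β d)) :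
    W.card = (W.filter (fun v => cop v = true)).card + (W.filter (fun v => cop v = false)).card := by
  rw [← Finset.card_filter_add_card_filter_not (s := W) (fun v => cop v = true)]
  congr 2
  ext v
  simp

lemma card_tot (A : Finset (PT κ g β d)) (B : Finset (QT κ g β d)) :
    A.card + B.card + (Aᶜ.card + Bᶜ.card) = 2 ^ κ * (wP g β d + wQ g β d) := by
  have h1 := Finset.card_add_card_compl A
  have h2 := Finset.card_add_card_compl B
  have h3 : Fintype.card (PT κ g β d) = 2 ^ κ * wP g β d := by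
    simp [wP, Fintype.card_prod, Fintype.card_sum]
  have h4 : Fintype.card (QT κ g β d) = 2 ^ κ * wQ g β d := by
    simp [wQ, Fintype.card_prod, Fintype.card_sum]
  rw [h3] at h1
  rw [h4] at h2
  rw [mul_add]
  omega

/-- the pairs of each copy -/
def j1 : PT κ g β d × QT κ g β d ↪ (PT κ g β d ⊕ QT κ g β d) × (QT κ g β d ⊕ PT κ g β d) :=
  ⟨fun e => (.inl e.1, .inl e.2), fun x y h => by
    simp only [Prod.mk.injEq, Sum.inl.injEq] at h
    exact Prod.ext h.1 h.2⟩

def j2 : PT κ g β d × QT κ g β d ↪ (PT κ g β d ⊕ QT κ g β d) × (QT κ g β d ⊕ PT κ g β d) :=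
  ⟨fun e => (.inr e.2, .inr e.1), fun x y h => by
    simp only [Prod.mk.injEq, Sum.inr.injEq] at h
    exact Prod.ext h.2 h.1⟩

lemma card_cop_univ (c : Bool) :
    ((univ : Finset (VT κ g β d)).filter (fun v => cop v = c)).card =
      2 ^ κ * (wP g β d + wQ g β d) := by
  cases c
  · rw [card_false, ← card_tot (κ := κ) (pC univ) (pD univ)]
    have h1 : (pC (univ : Finset (VT κ g β d)))ᶜ = ∅ := by
      rw [Finset.compl_eq_empty_iff]
      ext x
      simp [pC]
    have h2 : (pD (univ : Finset (VT κ g β d)))ᶜ = ∅ := by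
      rw [Finset.compl_eq_empty_iff]
      ext x
      simp [pD]
    rw [h1, h2, Finset.card_empty, Finset.card_empty, Nat.add_zero]
  · rw [card_true, ← card_tot (κ := κ) (pA univ) (pB univ)]
    have h1 : (pA (univ : Finset (VT κ g β d)))ᶜ = ∅ := by
      rw [Finset.compl_eq_empty_iff]
      ext x
      simp [pA]
    have h2 : (pB (univ : Finset (VT κ g β d)))ᶜ = ∅ := by
      rw [Finset.compl_eq_empty_iff]
      ext x
      simp [pB]
    rw [h1, h2, Finset.card_empty, Finset.card_empty, Nat.add_zero]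

end GExpBAux

open GExpBAux

theorem half_exp (hg : 1 ≤ g) (hκ : κ = 2 * g) (hβ : 16 * g ^ 2 ≤ β) (hd : d = (κ + 1) * β)
    (W : Finset (VT κ g β d))
    (h1 : ∀ c, 2 * (W.filter (fun v => cop v = c)).card ≤ 2 ^ κ * (wP g β d + wQ g β d)) :
    g * W.card ≤ 2 * bdT E a b W := by
  classical
  have e1 := copy_exp (ρ := fun τ => rk E τ b) hg hκ hβ hd (pA W) (pB W)
  have e2 := copy_exp (ρ := fun τ => crk E a τ) hg hκ hβ hd (pC W) (pD W)
  have t1 := card_tot (pA W) (pB W)
  have t2 := card_tot (pC W) (pD W)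
  have c1 := h1 true
  have c2 := h1 false
  have s := card_split W
  rw [card_true] at c1
  rw [card_false] at c2
  rw [card_true, card_false] at s
  rw [min_eq_left (by omega)] at e1 e2
  obtain ⟨F1, hF1⟩ : ∃ F1, F1 = univ.filter (fun e : PT κ g β d × QT κ g β d =>
        CR κ g β d (fun τ => rk E τ b) e.1 e.2 = true ∧ ¬ (e.1 ∈ pA W ↔ e.2 ∈ pB W)) := ⟨_, rfl⟩
  obtain ⟨F2, hF2⟩ : ∃ F2, F2 = univ.filter (fun e : PT κ g β d × QT κ g β d =>
        CR κ g β d (fun τ => crk E a τ) e.1 e.2 = true ∧ ¬ (e.1 ∈ pC W ↔ e.2 ∈ pD W)) := ⟨_, rfl⟩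
  rw [← hF1] at e1
  rw [← hF2] at e2
  have hle : F1.card + F2.card ≤ bdT E a b W := by
    have hd : Disjoint (F1.map j1) (F2.map j2) := by
      rw [Finset.disjoint_left]
      intro v hv hv'
      rw [Finset.mem_map] at hv hv'
      obtain ⟨z, _, hz⟩ := hv
      obtain ⟨z', _, hz'⟩ := hv'
      rw [← hz] at hz'
      simp [j1, j2] at hz'
    rw [← Finset.card_map j1, ← Finset.card_map (s := F2) j2, ← Finset.card_union_of_disjoint hd]
    unfold bdT
    refine Finset.card_le_card ?_
    intro v hv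
    rw [Finset.mem_union, Finset.mem_map, Finset.mem_map] at hv
    rw [Finset.mem_filter]
    refine ⟨Finset.mem_univ _, ?_⟩
    rcases hv with ⟨z, hz, rfl⟩ | ⟨z, hz, rfl⟩
    · rw [hF1, Finset.mem_filter, mem_pA, mem_pB] at hz
      exact hz.2
    · rw [hF2, Finset.mem_filter, mem_pC, mem_pD] at hz
      exact ⟨hz.2.1, fun h => hz.2.2 h.symm⟩
  calc g * W.card = g * ((pA W).card + (pB W).card) + g * ((pC W).card + (pD W).card) := by
        rw [s]
        ring
    _ ≤ 2 * F1.card + 2 * F2.card := Nat.add_le_add e1 e2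
    _ = 2 * (F1.card + F2.card) := by ring
    _ ≤ 2 * bdT E a b W := Nat.mul_le_mul_left _ hle

theorem three_exp (hg : 1 ≤ g) (hκ : κ = 2 * g) (hβ : 16 * g ^ 2 ≤ β) (hd : d = (κ + 1) * β)
    (W : Fin 3 → Finset (VT κ g β d)) (hW : ∀ i j, i ≠ j → Disjoint (W i) (W j)) :
    ∃ i, g * (W i).card ≤ 2 * bdT E a b (W i) := by
  classical
  by_contra hcon
  have hbad : ∀ i, ∃ c, 2 ^ κ * (wP g β d + wQ g β d) <
      2 * ((W i).filter (fun v => cop v = c)).card := by
    intro i
    by_contra h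
    apply hcon
    refine ⟨i, half_exp hg hκ hβ hd (W i) fun c => ?_⟩
    by_contra hc
    exact h ⟨c, not_le.mp hc⟩
  choose f hf using hbad
  obtain ⟨i, j, hij, hfij⟩ := Fintype.exists_ne_map_eq_of_card_lt f (by simp)
  have h1 := hf i
  have h2 := hf j
  rw [← hfij] at h2
  have hdis : Disjoint ((W i).filter (fun v => cop v = f i)) ((W j).filter (fun v => cop v = f i)) :=
    Finset.disjoint_filter_filter (hW i j hij)
  have h3 : ((W i).filter (fun v => cop v = f i)).card + ((W j).filter (fun v => cop v = f i)).card ≤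
      2 ^ κ * (wP g β d + wQ g β d) := by
    rw [← Finset.card_union_of_disjoint hdis, ← card_cop_univ (f i)]
    refine Finset.card_le_card ?_
    intro v hv
    rw [Finset.mem_union, Finset.mem_filter, Finset.mem_filter] at hv
    rw [Finset.mem_filter]
    refine ⟨Finset.mem_univ _, ?_⟩
    rcases hv with h | h
    · exact h.2
    · exact h.2
  omega

theorem multi_exp (hE : EOk E a b κ β) (hg : 1 ≤ g) (hκ : κ = 2 * g) (hβ : 16 * g ^ 2 ≤ β)
    (hd : d = (κ + 1) * β) {k : ℕ} (hk : 3 ≤ k) {x : ℝ} (hx : x ≤ (g : ℝ) / 2) :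
    MultiExp k x (mkGraph (2 ^ κ * wP g β d + 2 ^ κ * wQ g β d)
      (2 ^ κ * wQ g β d + 2 ^ κ * wP g β d) (gadj E a b κ g β d)) := by
  classical
  intro W _ hW
  have hgβ : g < β := by nlinarith
  obtain ⟨ee, hee⟩ : ∃ ee : VT κ g β d ≃
      Fin (2 ^ κ * wP g β d + 2 ^ κ * wQ g β d) ⊕ Fin (2 ^ κ * wQ g β d + 2 ^ κ * wP g β d),
      ee = Equiv.sumCongr (eL κ g β d) (eR κ g β d) := ⟨_, rfl⟩
  obtain ⟨i, hi⟩ := three_exp (E := E) (a := a) (b := b) hg hκ hβ hd
    (fun i => (W (Fin.castLE hk i)).map ee.symm.toEmbedding) (by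
      intro i j hij
      rw [Finset.disjoint_map]
      exact hW _ _ (fun h => hij (Fin.castLE_injective hk h)))
  refine ⟨Fin.castLE hk i, ?_⟩
  rw [Finset.card_map] at hi
  have hb : bdT E a b ((W (Fin.castLE hk i)).map ee.symm.toEmbedding) =
      bdry (mkGraph (2 ^ κ * wP g β d + 2 ^ κ * wQ g β d)
      (2 ^ κ * wQ g β d + 2 ^ κ * wP g β d) (gadj E a b κ g β d)) (W (Fin.castLE hk i)) := by
    unfold bdT bdry
    refine Finset.card_equiv (Equiv.prodCongr (eL κ g β d) (eR κ g β d)) ?_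
    intro e
    rw [Finset.mem_filter, Finset.mem_filter, Finset.mem_map_equiv, Finset.mem_map_equiv,
      GR_iff hE hgβ]
    simp only [Equiv.symm_symm, hee, Equiv.sumCongr_apply, Sum.map_inl, Sum.map_inr,
      Finset.mem_univ, true_and, mkGraph]
    exact ⟨fun h => ⟨Finset.mem_univ _, h⟩, fun h => h.2⟩
  rw [hb] at hi
  have hi' : (g : ℝ) * (W (Fin.castLE hk i)).card ≤ 2 *
      bdry (mkGraph (2 ^ κ * wP g β d + 2 ^ κ * wQ g β d)
      (2 ^ κ * wQ g β d + 2 ^ κ * wP g β d) (gadj E a b κ g β d)) (W (Fin.castLE hk i)) := by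
    exact_mod_cast hi
  have h2 : x * (W (Fin.castLE hk i)).card ≤ (g : ℝ) / 2 * (W (Fin.castLE hk i)).card :=
    mul_le_mul_of_nonneg_right hx (Nat.cast_nonneg _)
  linarith

end Pool.Agent.Lib.Pa7c826m
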