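import Pool.Agent.Lib.Pa7c826m.GCnt
import Pool.Agent.Lib.Pa7c826m.GExpB
import Pool.Agent.Lib.Pa7c826m.GDeg

/-!
The reduction: the class of the new graph and the estimate of the number of its independent sets.

PROOF. `wB_lt`: with `x = 1 / 2 ^ g`: `(1 - x) (1 + x ^ 2) (1 + x ^ 4) ≤ (1 - x) (1 + x) (1 + x ^ 2) (1 + x ^ 4) = 1 - x ^ 8 < 1`; for `g = 0` the left side is `0`.
`est_num`: put `T = 2 ^ (2 g)`, `ε = 4 / 2 ^ (4 g)`, `Z = N0 a * N0 b` (with `κ = 2 g`). By `N0_mul`, `Z * 2 ^ (a + b) = 2 ^ (2 ((β - g) T)) * z0 ^ (2 T)`, so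
`Z wB ^ (2 T) / 2 ^ KG = (z0 wB / 2 ^ (d + 7 g)) ^ (2 T) = (1 - y) ^ (2 T)` with
`y = 1 - q0 (1 - x) (1 + x ^ 2) (1 + x ^ 4) = x ^ 8 + (1 - x) (1 + x ^ 2) (1 + x ^ 4) / 2 ^ d`, so `0 ≤ y ≤ 2 x ^ 8` (`d ≥ 8 g`).
(`a + b ≤ 2 ((β - g) T)`, so the subtraction in `KG` is exact.) Bernoulli: `1 - 4 T x ^ 8 ≤ (1 - y) ^ (2 T) ≤ 1`, `4 T x ^ 8 = 4 / 2 ^ (6 g)`.
By `G_lower`, `G_upper`: `cnt GR * wB ^ (2 T) / 2 ^ KG` is between `(1 - 4 / 2 ^ (6 g)) cnt E` and `(1 + ε) ^ 2 cnt E ≤ (1 + 3 ε) cnt E`, and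
`3 ε = 12 / 2 ^ (4 g) ≤ 1 / 2 ^ g ≤ 1 / (2 t + 1)`, `4 / 2 ^ (6 g) ≤ 1 / (2 t + 1)`. (`G_upper` is in `ℝ`: cast.)
`redG_est`: `numIndep_mkGraph` with `eL`, `eR`, `GR_iff`; `cnt_graph` (Lib/Pa7c826/NearHalf.lean). `redG_ok`: `EOk G.F G.a G.b (2 g) β` from `GOk`
(`BGraph.F` is `false` outside `[0, a) × [0, b)`; `2 ^ (g - 5) ≤ 2 ^ (2 g)`). `redG_reg`: `rowDeg_mkGraph`, `colDeg_mkGraph` (every `i : Fin _` is `eL x`), `ldeg_G`, `rdeg_G`.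
`redG_exp`: `multi_exp`. `redG_card`: `wP + wQ = 2 (β + (2 g + 1) β - g)` for `g ≤ β`.
-/

namespace Pool.Agent.Lib.Pa7c826m

open Finset Pool.Agent.Lib.Pa7c826 Pool.Agent.Lib.Pa7c826s

/-- basis of the correction factor -/
def wB (g : ℕ) : ℕ := (2 ^ g - 1) * ((2 ^ (2 * g) + 1) * (2 ^ (4 * g) + 1))

/-- exponent of the correction factor -/
def KG (a b g β : ℕ) : ℕ :=
  2 * ((β - g) * 2 ^ (2 * g)) - (a + b) + ((2 * g + 1) * β + 7 * g) * (2 * 2 ^ (2 * g))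

/-- the graph of the reduction -/
def redG (g β : ℕ) (G : BGraph) : BGraph :=
  mkGraph (2 ^ (2 * g) * wP g β ((2 * g + 1) * β) + 2 ^ (2 * g) * wQ g β ((2 * g + 1) * β))
    (2 ^ (2 * g) * wQ g β ((2 * g + 1) * β) + 2 ^ (2 * g) * wP g β ((2 * g + 1) * β))
    (gadj G.F G.a G.b (2 * g) g β ((2 * g + 1) * β))

/-- the parameters `g`, `β` are large enough for the graph `G` and the precision `t` -/
structure GOk (G : BGraph) (t g β : ℕ) : Prop where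
  g10 : 10 ≤ g
  bet : 16 * g ^ 2 ≤ β
  la : G.a ≤ 2 ^ (g - 5)
  lb : G.b ≤ 2 ^ (g - 5)
  row : ∀ i, rk G.F i G.b < β
  col : ∀ j, crk G.F G.a j < β
  tt : 2 * t + 1 ≤ 2 ^ g

namespace ENumAux

theorem wB_poly (x : ℕ) : x * (((x + 1) ^ 2 + 1) * ((x + 1) ^ 4 + 1)) < (x + 1) ^ 7 := by
  have e : (x + 1) ^ 7 = x * (((x + 1) ^ 2 + 1) * ((x + 1) ^ 4 + 1)) +
      (x * ((x + 1) ^ 5 + (x + 1) ^ 3 + (x + 1)) + 1) := by ring
  rw [e]
  omega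

theorem pow_e (g k : ℕ) : 2 ^ (k * g) = (2 ^ g) ^ k := by
  rw [← pow_mul, mul_comm]

/-- `1 - 1 / 2 ^ g` and so on -/
theorem wB_real (g : ℕ) : (wB g : ℝ) = 2 ^ (7 * g) *
    ((1 - 1 / 2 ^ g) * ((1 + (1 / 2 ^ g) ^ 2) * (1 + (1 / 2 ^ g) ^ 4))) := by
  have h1 : 1 ≤ 2 ^ g := Nat.one_le_two_pow
  have h2 : (0 : ℝ) < 2 ^ g := by positivity
  unfold wB
  rw [pow_e g 2, pow_e g 4]
  push_cast [Nat.cast_sub h1]
  have e7 : (2 : ℝ) ^ (7 * g) = (2 ^ g) ^ 7 := by rw [← pow_mul, mul_comm]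
  rw [e7]
  obtain ⟨X, hX⟩ : ∃ X : ℝ, X = 2 ^ g := ⟨_, rfl⟩
  rw [← hX] at h2 ⊢
  field_simp

/-- the main ratio -/
theorem ratio {g d : ℕ} (hd : 8 * g ≤ d) : ∃ y : ℝ, 0 ≤ y ∧ y ≤ 2 * (1 / 2 ^ g) ^ 8 ∧
    (z0 g d : ℝ) * wB g = 2 ^ (d + 7 * g) * (1 - y) := by
  obtain ⟨x, hx⟩ : ∃ x : ℝ, x = 1 / 2 ^ g := ⟨_, rfl⟩
  have hx0 : 0 < x := by rw [hx]; positivity
  have hx1 : x ≤ 1 := by
    rw [hx, div_le_one (by positivity)]
    exact one_le_pow₀ (by norm_num)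
  obtain ⟨u, hu⟩ : ∃ u : ℝ, u = (1 - x) * ((1 + x ^ 2) * (1 + x ^ 4)) := ⟨_, rfl⟩
  have hu0 : 0 ≤ u := by
    rw [hu]
    have : 0 ≤ 1 - x := by linarith
    positivity
  have hu2 : (1 + x) * u = 1 - x ^ 8 := by
    rw [hu]
    ring
  have hu1 : u ≤ 1 := by
    have h1 : 0 ≤ x * u := by positivity
    have h2 : 0 ≤ x ^ 8 := by positivity
    nlinarith
  have hδ : (1 : ℝ) / 2 ^ d ≤ x ^ 8 := by
    rw [hx, div_pow, one_pow, ← pow_mul]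
    apply one_div_le_one_div_of_le (by positivity)
    exact pow_le_pow_right₀ (by norm_num) (by omega)
  have hδ0 : (0 : ℝ) ≤ 1 / 2 ^ d := by positivity
  refine ⟨x ^ 8 + 1 / 2 ^ d * u, by positivity, ?_, ?_⟩
  · rw [← hx]
    have : 1 / 2 ^ d * u ≤ x ^ 8 * 1 := mul_le_mul hδ hu1 hu0 (by positivity)
    linarith
  · rw [wB_real, z0_eq (by omega), ← hx, ← hu]
    unfold q0
    rw [← hx, pow_add]
    have h2 : (1 + x - 1 / 2 ^ d) * u = 1 - (x ^ 8 + 1 / 2 ^ d * u) := by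
      have : (1 + x - 1 / 2 ^ d) * u = (1 + x) * u - 1 / 2 ^ d * u := by ring
      rw [this, hu2]
      ring
    calc (2 : ℝ) ^ d * (1 + x - 1 / 2 ^ d) * (2 ^ (7 * g) * u) =
          2 ^ d * 2 ^ (7 * g) * ((1 + x - 1 / 2 ^ d) * u) := by ring
      _ = _ := by rw [h2]

/-- the ratio of the powers -/
theorem big_ratio {a b g β : ℕ} (hgβ : g < β) (hβ8 : 8 * g ≤ β) (ha : a ≤ 2 ^ (2 * g))
    (hb : b ≤ 2 ^ (2 * g)) : ∃ y : ℝ, 0 ≤ y ∧ y ≤ 2 * (1 / 2 ^ g) ^ 8 ∧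
    ((N0 (2 * g) g β ((2 * g + 1) * β) a * N0 (2 * g) g β ((2 * g + 1) * β) b *
      wB g ^ (2 * 2 ^ (2 * g)) : ℕ) : ℝ) = 2 ^ KG a b g β * (1 - y) ^ (2 * 2 ^ (2 * g)) := by
  have hd8 : 8 * g ≤ (2 * g + 1) * β := by nlinarith
  obtain ⟨y, h1, h2, h3⟩ := ratio hd8
  refine ⟨y, h1, h2, ?_⟩
  have e1 := N0_mul (κ := 2 * g) (g := g) (β := β) (d := (2 * g + 1) * β) hgβ ha
  have e2 := N0_mul (κ := 2 * g) (g := g) (β := β) (d := (2 * g + 1) * β) hgβ hb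
  obtain ⟨T, hT⟩ : ∃ T, T = 2 ^ (2 * g) := ⟨_, rfl⟩
  have hT1 : 1 ≤ T := by rw [hT]; exact Nat.one_le_two_pow
  rw [← hT] at e1 e2 ha hb ⊢
  obtain ⟨d, hd⟩ : ∃ d, d = (2 * g + 1) * β := ⟨_, rfl⟩
  rw [← hd] at e1 e2 h3 ⊢
  obtain ⟨na, hna⟩ : ∃ na, na = N0 (2 * g) g β d a := ⟨_, rfl⟩
  obtain ⟨nb, hnb⟩ : ∃ nb, nb = N0 (2 * g) g β d b := ⟨_, rfl⟩
  rw [← hna] at e1 ⊢
  rw [← hnb] at e2 ⊢
  have hab : a + b ≤ 2 * ((β - g) * T) := by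
    have : 1 ≤ β - g := by omega
    have : T ≤ (β - g) * T := Nat.le_mul_of_pos_left _ this
    omega
  have hK : KG a b g β + (a + b) = 2 * ((β - g) * T) + (d + 7 * g) * (2 * T) := by
    unfold KG
    rw [← hT, ← hd]
    omega
  have e3 : ((2 : ℝ) ^ KG a b g β) * 2 ^ (a + b) =
      2 ^ (2 * ((β - g) * T)) * (2 ^ (d + 7 * g)) ^ (2 * T) := by
    rw [← pow_add, hK, pow_add, ← pow_mul]
  have e1' : (na : ℝ) * 2 ^ a = 2 ^ ((β - g) * T) * (z0 g d : ℝ) ^ T := by exact_mod_cast e1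
  have e2' : (nb : ℝ) * 2 ^ b = 2 ^ ((β - g) * T) * (z0 g d : ℝ) ^ T := by exact_mod_cast e2
  have hpos : (0 : ℝ) < 2 ^ (a + b) := by positivity
  apply mul_right_cancel₀ hpos.ne'
  push_cast
  calc (na : ℝ) * nb * (wB g : ℝ) ^ (2 * T) * 2 ^ (a + b) =
        ((na : ℝ) * 2 ^ a) * ((nb : ℝ) * 2 ^ b) * (wB g : ℝ) ^ (2 * T) := by
        rw [pow_add]
        ring
    _ = 2 ^ (2 * ((β - g) * T)) * ((z0 g d : ℝ) * wB g) ^ (2 * T) := by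
        rw [e1', e2', mul_pow, two_mul ((β - g) * T), pow_add, two_mul T, pow_add, pow_add]
        ring
    _ = (2 ^ (2 * ((β - g) * T)) * (2 ^ (d + 7 * g)) ^ (2 * T)) * (1 - y) ^ (2 * T) := by
        rw [h3, mul_pow]
        ring
    _ = 2 ^ KG a b g β * (1 - y) ^ (2 * T) * 2 ^ (a + b) := by
        rw [← e3]
        ring

end ENumAux

open ENumAux

theorem wB_lt (g : ℕ) : wB g < 2 ^ (7 * g) := by
  unfold wB
  rw [pow_e g 2, pow_e g 4, pow_e g 7]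
  obtain ⟨x, hx⟩ : ∃ x, 2 ^ g = x + 1 := ⟨2 ^ g - 1, by
    have : 1 ≤ 2 ^ g := Nat.one_le_two_pow
    omega⟩
  rw [hx, Nat.add_sub_cancel]
  exact wB_poly x

theorem est_num {E : ℕ → ℕ → Bool} {a b g β t : ℕ} (hE : EOk E a b (2 * g) β) (hg : 10 ≤ g)
    (hβ : 16 * g ^ 2 ≤ β) (ha : a ≤ 2 ^ (g - 5)) (hb : b ≤ 2 ^ (g - 5)) (ht : 2 * t + 1 ≤ 2 ^ g) :
    |(cnt (fun x y => GR E a b (2 * g) g β ((2 * g + 1) * β) x y = true) : ℚ) *
        (wB g ^ (2 * 2 ^ (2 * g)) : ℕ) / 2 ^ KG a b g β -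
      cnt (fun (i : Fin a) (j : Fin b) => E i j = true)| ≤
      cnt (fun (i : Fin a) (j : Fin b) => E i j = true) / (2 * t + 1) := by
  have hgβ : g < β := by nlinarith
  have hβ8 : 8 * g ≤ β := by nlinarith
  obtain ⟨y, hy0, hy2, hy⟩ := big_ratio hgβ hβ8 hE.la hE.lb
  have hl := G_lower (d := (2 * g + 1) * β) hE hgβ
  have hu := G_upper (d := (2 * g + 1) * β) hE hg rfl hβ rfl ha hb
  obtain ⟨N, hN⟩ : ∃ N, N = cnt (fun x y => GR E a b (2 * g) g β ((2 * g + 1) * β) x y = true) :=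
    ⟨_, rfl⟩
  obtain ⟨n, hn⟩ : ∃ n, n = cnt (fun (i : Fin a) (j : Fin b) => E i j = true) := ⟨_, rfl⟩
  obtain ⟨na, hna⟩ : ∃ na, na = N0 (2 * g) g β ((2 * g + 1) * β) a := ⟨_, rfl⟩
  obtain ⟨nb, hnb⟩ : ∃ nb, nb = N0 (2 * g) g β ((2 * g + 1) * β) b := ⟨_, rfl⟩
  obtain ⟨T, hT⟩ : ∃ T, T = 2 ^ (2 * g) := ⟨_, rfl⟩
  obtain ⟨W, hW⟩ : ∃ W, W = wB g ^ (2 * T) := ⟨_, rfl⟩
  obtain ⟨K, hK⟩ : ∃ K, K = KG a b g β := ⟨_, rfl⟩
  rw [← hN, ← hn, ← hna, ← hnb] at hl hu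
  rw [← hT] at hy
  rw [← hna, ← hnb, ← hW, ← hK] at hy
  rw [← hN, ← hn, ← hT, ← hW, ← hK]
  obtain ⟨x, hx⟩ : ∃ x : ℝ, x = 1 / 2 ^ g := ⟨_, rfl⟩
  rw [← hx] at hy2
  have hx0 : 0 < x := by rw [hx]; positivity
  have hxs : x ≤ 1 / 1024 := by
    rw [hx]
    apply one_div_le_one_div_of_le (by norm_num)
    calc (1024 : ℝ) = 2 ^ 10 := by norm_num
      _ ≤ 2 ^ g := pow_le_pow_right₀ (by norm_num) hg
  have hx1 : x ≤ 1 := by linarith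
  have hxt : x ≤ 1 / (2 * t + 1) := by
    rw [hx]
    apply one_div_le_one_div_of_le (by positivity)
    exact_mod_cast ht
  have hTx : (T : ℝ) * x ^ 2 = 1 := by
    rw [hT, hx]
    push_cast
    rw [pow_mul', div_pow, one_pow]
    field_simp
  obtain ⟨ε, hε⟩ : ∃ ε : ℝ, ε = 4 / 2 ^ (4 * g) := ⟨_, rfl⟩
  have hεx : ε = 4 * x ^ 4 := by
    rw [hε, hx, pow_mul', div_pow, one_pow]
    ring
  rw [← hε] at hu
  obtain ⟨r, hr⟩ : ∃ r : ℝ, r = (1 - y) ^ (2 * T) := ⟨_, rfl⟩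
  rw [← hr] at hy
  have hy1 : y ≤ 1 := by
    have : x ^ 8 ≤ x * 1 := by
      rw [pow_succ' x 7]
      exact mul_le_mul_of_nonneg_left (pow_le_one₀ hx0.le hx1) hx0.le
    linarith
  have hr1 : r ≤ 1 := by
    rw [hr]
    exact pow_le_one₀ (by linarith) (by linarith)
  have hr0 : 0 ≤ r := by
    rw [hr]
    exact pow_nonneg (by linarith) _
  have hr2 : 1 - x ≤ r := by
    have h1 := one_add_mul_le_pow (a := -y) (by linarith) (2 * T)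
    rw [← sub_eq_add_neg, ← hr] at h1
    have h2 : ((2 * T : ℕ) : ℝ) * y ≤ 4 * x ^ 6 := by
      calc ((2 * T : ℕ) : ℝ) * y ≤ ((2 * T : ℕ) : ℝ) * (2 * x ^ 8) := by gcongr
        _ = 4 * ((T : ℝ) * x ^ 2) * x ^ 6 := by
          push_cast
          ring
        _ = 4 * x ^ 6 := by rw [hTx]; ring
    have h3 : 4 * x ^ 6 ≤ x := by
      have : x ^ 5 ≤ 1 / 1024 := by
        calc x ^ 5 ≤ x ^ 1 := pow_le_pow_of_le_one hx0.le hx1 (by norm_num)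
          _ = x := pow_one x
          _ ≤ _ := hxs
      calc 4 * x ^ 6 = x * (4 * x ^ 5) := by ring
        _ ≤ x * 1 := by
          apply mul_le_mul_of_nonneg_left _ hx0.le
          linarith
        _ = x := mul_one x
    linarith
  have hp : (0 : ℝ) < 2 ^ K := by positivity
  have hW0 : (0 : ℝ) ≤ W := Nat.cast_nonneg _
  have hn0 : (0 : ℝ) ≤ n := Nat.cast_nonneg _
  -- lower bound
  have hlow : r * n ≤ (N : ℝ) * W / 2 ^ K := by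
    rw [le_div_iff₀ hp]
    have h1 : ((na * nb * n : ℕ) : ℝ) * W ≤ (N : ℝ) * W :=
      mul_le_mul_of_nonneg_right (by exact_mod_cast hl) hW0
    refine le_trans (le_of_eq ?_) h1
    calc r * n * 2 ^ K = (2 ^ K * r) * n := by ring
      _ = ((na * nb * W : ℕ) : ℝ) * n := by rw [← hy]
      _ = ((na * nb * n : ℕ) : ℝ) * W := by
        push_cast
        ring
  have hup : (N : ℝ) * W / 2 ^ K ≤ (1 + ε) * (1 + ε) * r * n := by
    rw [div_le_iff₀ hp]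
    have h1 : (N : ℝ) * W ≤ ((na : ℝ) * (1 + ε)) * (nb * (1 + ε)) * n * W :=
      mul_le_mul_of_nonneg_right hu hW0
    refine h1.trans (le_of_eq ?_)
    calc ((na : ℝ) * (1 + ε)) * (nb * (1 + ε)) * n * W =
          (1 + ε) * (1 + ε) * n * ((na * nb * W : ℕ) : ℝ) := by
          push_cast
          ring
      _ = (1 + ε) * (1 + ε) * r * n * 2 ^ K := by
        rw [hy]
        ring
  have hε0 : 0 ≤ ε := by rw [hεx]; positivity
  have hε3 : 3 * ε ≤ x := by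
    rw [hεx]
    have : x ^ 3 ≤ 1 / 1024 := by
      calc x ^ 3 ≤ x ^ 1 := pow_le_pow_of_le_one hx0.le hx1 (by norm_num)
        _ = x := pow_one x
        _ ≤ _ := hxs
    calc 3 * (4 * x ^ 4) = x * (12 * x ^ 3) := by ring
      _ ≤ x * 1 := by
        apply mul_le_mul_of_nonneg_left _ hx0.le
        linarith
      _ = x := mul_one x
  have hup2 : (N : ℝ) * W / 2 ^ K ≤ (1 + x) * n := by
    refine hup.trans ?_
    apply mul_le_mul_of_nonneg_right _ hn0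
    have h1 : (1 + ε) * (1 + ε) ≤ 1 + x := by nlinarith
    calc (1 + ε) * (1 + ε) * r ≤ (1 + x) * 1 := mul_le_mul h1 hr1 hr0 (by linarith)
      _ = 1 + x := mul_one _
  have hlow2 : (1 - x) * n ≤ (N : ℝ) * W / 2 ^ K :=
    (mul_le_mul_of_nonneg_right hr2 hn0).trans hlow
  have hxn : x * n ≤ (n : ℝ) / (2 * t + 1) := by
    rw [div_eq_mul_one_div, mul_comm]
    exact mul_le_mul_of_nonneg_left hxt hn0
  have main : |(N : ℝ) * W / 2 ^ K - n| ≤ n / (2 * t + 1) := by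
    rw [abs_le]
    constructor <;> linarith
  have main' : ((|(N : ℚ) * W / 2 ^ K - n| : ℚ) : ℝ) ≤ ((n / (2 * t + 1) : ℚ) : ℝ) := by
    push_cast
    exact main
  exact_mod_cast main'

variable {G : BGraph} {t g β : ℕ}

theorem ENumAux.GOk.lt (h : GOk G t g β) : g < β := by
  have h1 := h.g10
  have h2 := h.bet
  nlinarith

theorem redG_ok (h : GOk G t g β) : EOk G.F G.a G.b (2 * g) β := by
  have h5 : 2 ^ (g - 5) ≤ 2 ^ (2 * g) := Nat.pow_le_pow_right (by norm_num) (by omega)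
  refine ⟨?_, h.la.trans h5, h.lb.trans h5, h.row, h.col⟩
  intro i j hij
  unfold BGraph.F at hij
  by_contra hcon
  rw [dif_neg hcon] at hij
  exact absurd hij (by simp)

theorem redG_est (h : GOk G t g β) :
    |(numIndep (redG g β G).graph : ℚ) * (wB g ^ (2 * 2 ^ (2 * g)) : ℕ) /
      2 ^ KG G.a G.b g β - numIndep G.graph| ≤ numIndep G.graph / (2 * t + 1) := by
  have h1 := est_num (redG_ok h) h.g10 h.bet h.la h.lb h.tt
  rw [cnt_graph] at h1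
  have h2 : numIndep (redG g β G).graph = cnt (fun x y =>
      GR G.F G.a G.b (2 * g) g β ((2 * g + 1) * β) x y = true) :=
    numIndep_mkGraph _ _ (GR_iff (redG_ok h) (ENumAux.GOk.lt h))
  rw [h2]
  exact h1

theorem redG_reg (h : GOk G t g β) : RegularOf ((2 * g + 1) * β) (redG g β G) := by
  have hE := redG_ok h
  have hg := ENumAux.GOk.lt h
  constructor
  · intro i
    obtain ⟨x, rfl⟩ := (eL (2 * g) g β ((2 * g + 1) * β)).surjective i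
    exact (rowDeg_mkGraph (eL (2 * g) g β ((2 * g + 1) * β)) (eR (2 * g) g β ((2 * g + 1) * β))
      (GR_iff hE hg) x).trans (ldeg_G hE hg rfl x)
  · intro j
    obtain ⟨y, rfl⟩ := (eR (2 * g) g β ((2 * g + 1) * β)).surjective j
    exact (colDeg_mkGraph (eL (2 * g) g β ((2 * g + 1) * β)) (eR (2 * g) g β ((2 * g + 1) * β))
      (GR_iff hE hg) y).trans (rdeg_G hE hg rfl y)

theorem redG_exp (h : GOk G t g β) {k : ℕ} (hk : 3 ≤ k) {x : ℝ} (hx : x ≤ (g : ℝ) / 2) :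
    MultiExp k x (redG g β G) :=
  multi_exp (redG_ok h) (by have := h.g10; omega) rfl h.bet rfl hk hx

theorem redG_card (h : GOk G t g β) :
    (redG g β G).a + (redG g β G).b = 4 * 2 ^ (2 * g) * (β + (2 * g + 1) * β - g) := by
  have hg := ENumAux.GOk.lt h
  have hd : g ≤ (2 * g + 1) * β := by nlinarith
  obtain ⟨d, hdd⟩ : ∃ d, d = (2 * g + 1) * β := ⟨_, rfl⟩
  show (2 ^ (2 * g) * wP g β ((2 * g + 1) * β) + 2 ^ (2 * g) * wQ g β ((2 * g + 1) * β)) +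
    (2 ^ (2 * g) * wQ g β ((2 * g + 1) * β) + 2 ^ (2 * g) * wP g β ((2 * g + 1) * β)) = _
  rw [← hdd] at hd ⊢
  have e : wP g β d + wQ g β d = 2 * (β + d - g) := by
    unfold wP wQ
    omega
  calc (2 ^ (2 * g) * wP g β d + 2 ^ (2 * g) * wQ g β d) +
      (2 ^ (2 * g) * wQ g β d + 2 ^ (2 * g) * wP g β d) =
      2 * 2 ^ (2 * g) * (wP g β d + wQ g β d) := by ring
    _ = 4 * 2 ^ (2 * g) * (β + d - g) := by
      rw [e]
      ring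

end Pool.Agent.Lib.Pa7c826m
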