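import Pool.Agent.Lib.Pa7c826m.AlgN
import Pool.Agent.Lib.Pa7c826m.AlgP
import Pool.Agent.Lib.Pa7c826m.ClassE

/-!
The deterministic approximation algorithm for large multiway expansion.

PROOF. `C = CM k K`, the machine outputs `false :: ` binary digits of `algM k c1 c2 c3 (inCode G t)` with `c1 = (25 k + 1) (2K+2k+20)`,
`c2 = 25 k (2K+2k+20)`, `c3 = 50 k (2K+2k+20)` (as in `hasFPTAS_of_superSat`, `Pa7c826/Fptas.lean`). `n ≤ k`: `|cov| ≤ n ≤ k`, so `leaf` is exact
(`leaf_small`) and `ind_eq_numIndep`. `k < n`, `k ≥ 2`: `n ≥ 2`, `log₂ n ≥ 1`, `deg_pos_of`, `regBip_of`, `kw_of`, `main_easy`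
(`dg adj (range n) 0 = d`). `k ≤ 1`, `n > k`: the class is empty: for `k = 0` no `i : Fin 0`; for `k = 1` take `W = univ`, `bdry = 0`, `x > 0` as `n ≥ 2`.
-/

namespace Pool.Agent.Lib.Pa7c826m

open Finset Pool.Agent.Lib.Pa7c826 Pool.Agent.Lib.Pa7c826t Pool.Agent.Lib.PolyTime

namespace EasyFinAux

theorem no_zero {x : ℝ} {G : BGraph} (h : MultiExp 0 x G) : False := by
  obtain ⟨i, _⟩ := h (fun i => i.elim0) (fun i => i.elim0) (fun i => i.elim0)
  exact i.elim0

theorem no_one {x : ℝ} {G : BGraph} (hx : 0 < x) (hn : 0 < G.a + G.b) (h : MultiExp 1 x G) :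
    False := by
  have hcard : (univ : Finset (Fin G.a ⊕ Fin G.b)).card = G.a + G.b := by
    rw [card_univ, Fintype.card_sum, Fintype.card_fin, Fintype.card_fin]
  have hne : (univ : Finset (Fin G.a ⊕ Fin G.b)).Nonempty := by
    rw [← card_pos, hcard]
    exact hn
  obtain ⟨i, hi⟩ := h (fun _ => univ) (fun _ => hne) (by
    intro i j hij
    exact absurd (Subsingleton.elim i j) hij)
  have hb : bdry G (univ : Finset (Fin G.a ⊕ Fin G.b)) = 0 := by
    unfold bdry
    rw [card_eq_zero, filter_eq_empty_iff]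
    rintro e - ⟨_, h2⟩
    exact h2 ⟨fun _ => mem_univ _, fun _ => mem_univ _⟩
  simp only [hb, hcard] at hi
  have h1 : (0 : ℝ) < ((G.a + G.b : ℕ) : ℝ) := by exact_mod_cast hn
  have h2 : 0 < x * ((G.a + G.b : ℕ) : ℝ) := mul_pos hx h1
  have h3 : ((0 : ℕ) : ℝ) = 0 := Nat.cast_zero
  linarith

theorem spec (k K : ℕ) (G : BGraph) {t : ℕ} (htK : t ≤ (G.a + G.b) ^ K)
    (hreg : ∃ d, RegularOf d G)
    (hME : MultiExp k ((CM k K * Nat.log 2 (G.a + G.b) : ℕ) : ℝ) G) :
    t * algM k ((25 * k + 1) * (2 * K + 2 * k + 20)) (25 * k * (2 * K + 2 * k + 20))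
        (50 * k * (2 * K + 2 * k + 20)) (inCode G t) ≤
      t * numIndep G.graph + numIndep G.graph ∧
    t * numIndep G.graph ≤
      t * algM k ((25 * k + 1) * (2 * K + 2 * k + 20)) (25 * k * (2 * K + 2 * k + 20))
        (50 * k * (2 * K + 2 * k + 20)) (inCode G t) + numIndep G.graph := by
  rcases Nat.lt_or_ge k (G.a + G.b) with hkn | hkn
  · have hlog : 0 < Nat.log 2 (G.a + G.b) ∨ k = 0 := by
      rcases Nat.eq_zero_or_pos k with h0 | h0
      · exact Or.inr h0
      · exact Or.inl (Nat.log_pos (by norm_num) (by omega))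
    rcases hlog with hlog | h0
    swap
    · subst h0
      exact (no_zero hME).elim
    rcases Nat.lt_or_ge k 2 with hk2 | hk2
    · have h01 : k = 0 ∨ k = 1 := by omega
      rcases h01 with h0 | h1
      · subst h0
        exact (no_zero hME).elim
      · subst h1
        have hpos : 0 < CM 1 K * Nat.log 2 (G.a + G.b) := by
          unfold CM
          positivity
        have hposR : (0 : ℝ) < ((CM 1 K * Nat.log 2 (G.a + G.b) : ℕ) : ℝ) := by
          exact_mod_cast hpos
        exact (no_one hposR (by omega) hME).elim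
    · obtain ⟨d, hd⟩ := hreg
      have hκ : 0 < CM k K * Nat.log 2 (G.a + G.b) := by
        have hk0 : 0 < k := by omega
        unfold CM
        positivity
      have hd0 : 0 < d := deg_pos_of hd hME (by omega) hkn.le hκ
      have hR : RegBip (G.a + G.b) G.a d (adjOf (inCode G t)) := regBip_of hd hd0 (by omega)
      have hKW : KW (G.a + G.b) (adjOf (inCode G t)) k (CM k K * Nat.log 2 (G.a + G.b)) :=
        kw_of hME
      have hmain := main_easy hR hk2 hkn hKW htK
      have hdeg := hR.deg 0 (by omega)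
      have hval : algM k ((25 * k + 1) * (2 * K + 2 * k + 20)) (25 * k * (2 * K + 2 * k + 20))
          (50 * k * (2 * K + 2 * k + 20)) (inCode G t) =
          outM (G.a + G.b) G.a k d (hM k K (G.a + G.b)) (XM k K (G.a + G.b))
            (adjOf (inCode G t)) (LM k K (G.a + G.b)) := by
        unfold algM
        rw [nOf_inCode, aOf_inCode, if_neg (by simpa using hkn), hdeg]
        rfl
      rw [hval, ← ind_eq_numIndep G t]
      exact hmain
  · have hval : algM k ((25 * k + 1) * (2 * K + 2 * k + 20)) (25 * k * (2 * K + 2 * k + 20))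
        (50 * k * (2 * K + 2 * k + 20)) (inCode G t) = numIndep G.graph := by
      unfold algM
      rw [nOf_inCode, if_pos (by simpa using hkn)]
      rw [leaf_small (adjOf_symm _) (adjOf_self _) (Subset.refl _)]
      · exact ind_eq_numIndep G t
      · have h1 : (cov (G.a + G.b) (adjOf (inCode G t)) (range (G.a + G.b))).card ≤
            G.a + G.b := by
          have h2 : (cov (G.a + G.b) (adjOf (inCode G t)) (range (G.a + G.b))).card ≤
              (range (G.a + G.b)).card := card_le_card (filter_subset _ _)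
          rwa [card_range] at h2
        calc 2 ^ (cov (G.a + G.b) (adjOf (inCode G t)) (range (G.a + G.b))).card ≤ 2 ^ k :=
              Nat.pow_le_pow_right (by norm_num) (h1.trans hkn)
          _ ≤ 4 ^ k := Nat.pow_le_pow_left (by norm_num) k
    rw [hval]
    omega

end EasyFinAux

theorem easy_multi (k K : ℕ) :
    HasApx (fun G t => t ≤ (G.a + G.b) ^ K ∧ (∃ d, RegularOf d G) ∧
      MultiExp k ((CM k K * Nat.log 2 (G.a + G.b) : ℕ) : ℝ) G) := by
  let D : BGraph × ℕ → Prop := fun x => (x.2 ≤ (x.1.a + x.1.b) ^ K ∧ (∃ d, RegularOf d x.1) ∧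
      MultiExp k ((CM k K * Nat.log 2 (x.1.a + x.1.b) : ℕ) : ℝ) x.1) ∧ 1 ≤ x.2
  let enc : BGraph × ℕ → List Bool := fun x => inCode x.1 x.2
  have hw : PolyC D [enc] enc := PolyC.var (by simp)
  obtain ⟨u, hu, hval⟩ := algM_poly k ((25 * k + 1) * (2 * K + 2 * k + 20))
    (25 * k * (2 * K + 2 * k + 20)) (50 * k * (2 * K + 2 * k + 20)) hw
  have hout : PolyC D [enc] (fun x => false :: u x) := PolyC.cons false hu
  refine ⟨fun x => false :: u x.1, PolyC.toTM2 enc (fun x => false :: u x) id hout, ?_⟩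
  rintro ⟨⟨G, t⟩, hG, ht⟩
  have hG1 : t ≤ (G.a + G.b) ^ K := hG.1
  have hG2 : ∃ d, RegularOf d G := hG.2.1
  have hG3 : MultiExp k ((CM k K * Nat.log 2 (G.a + G.b) : ℕ) : ℝ) G := hG.2.2
  have ht' : 1 ≤ t := ht
  have h1 := EasyFinAux.spec k K G hG1 hG2 hG3
  have h2 : binVal (u (G, t)) = algM k ((25 * k + 1) * (2 * K + 2 * k + 20))
      (25 * k * (2 * K + 2 * k + 20)) (50 * k * (2 * K + 2 * k + 20)) (inCode G t) := by
    rw [binVal_eq_bval]
    exact hval (G, t) ⟨hG, ht⟩
  unfold Good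
  simp only [outVal, h2]
  have htq : (0 : ℚ) < t := by exact_mod_cast ht'
  have h3 : (t : ℚ) * (algM k ((25 * k + 1) * (2 * K + 2 * k + 20))
      (25 * k * (2 * K + 2 * k + 20)) (50 * k * (2 * K + 2 * k + 20)) (inCode G t) : ℕ) ≤
      t * numIndep G.graph + numIndep G.graph := by exact_mod_cast h1.1
  have h4 : (t : ℚ) * numIndep G.graph ≤ t * (algM k ((25 * k + 1) * (2 * K + 2 * k + 20))
      (25 * k * (2 * K + 2 * k + 20)) (50 * k * (2 * K + 2 * k + 20)) (inCode G t) : ℕ) +
      numIndep G.graph := by exact_mod_cast h1.2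
  rw [abs_le, neg_le_iff_add_nonneg, sub_le_iff_le_add]
  constructor
  · have h5 : (numIndep G.graph : ℚ) - (algM k ((25 * k + 1) * (2 * K + 2 * k + 20))
        (25 * k * (2 * K + 2 * k + 20)) (50 * k * (2 * K + 2 * k + 20)) (inCode G t) : ℕ) ≤
        (numIndep G.graph : ℚ) / t := by
      rw [le_div_iff₀ htq]
      linarith
    linarith
  · have h5 : ((algM k ((25 * k + 1) * (2 * K + 2 * k + 20))
        (25 * k * (2 * K + 2 * k + 20)) (50 * k * (2 * K + 2 * k + 20)) (inCode G t) : ℕ) : ℚ) -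
        numIndep G.graph ≤ (numIndep G.graph : ℚ) / t := by
      rw [le_div_iff₀ htq]
      linarith
    linarith

end Pool.Agent.Lib.Pa7c826m
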