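import Pool.Agent.Lib.Pa7c826m.Defs

/-!
Elementary facts about the edge counts `ed` and `eo`.

PROOF. `ed_comm`: double counting (`Finset.sum_card_bipartiteAbove_eq_sum_card_bipartiteBelow`, as `hdc` in
`Pa7c826/Approx.lean`). `ed_union_left/right`: sums over disjoint unions, `ed_mono`: monotonicity.
`ed_le_mul`: every vertex has degree at most `d`. `ed_compl`: with all degrees `d`,
`ed A B + ed A (range n \ B) = d |A|`. `eo_eq`: for `S ⊆ range n` with left part `X` and right part `Y`, the number of
edges outside `S` is `d |X^c| - d |Y| + e(X, Y)` where `|X^c| = a - |X|` and `e(X, Y) = ∑_{u ∈ Y} dg adj S u`; hence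
`d |X| + ∑_{u ∈ Y} (d - dg adj S u) + eo = d a`.
`dg_split`: `dg adj S v + dg adj (range n \ S) v = d`. `dg_sides`: a vertex on one side has all its neighbours on the
other side.
-/

namespace Pool.Agent.Lib.Pa7c826m

open Finset Pool.Agent.Lib.Pa7c826 Pool.Agent.Lib.Pa7c826t

variable {n a d : ℕ} {adj : ℕ → ℕ → Bool}

theorem ed_comm (hs : ∀ u v, adj u v = adj v u) (A B : Finset ℕ) : ed adj A B = ed adj B A := by
  have := sum_card_bipartiteAbove_eq_sum_card_bipartiteBelow (s := A) (t := B)
    (fun v w => adj v w = true)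
  unfold bipartiteAbove bipartiteBelow at this
  unfold ed dg
  rw [this]
  refine sum_congr rfl fun w _ => ?_
  congr 1
  ext u
  simp only [mem_filter]
  rw [hs]

theorem ed_union_left {A A' : Finset ℕ} (h : Disjoint A A') (B : Finset ℕ) :
    ed adj (A ∪ A') B = ed adj A B + ed adj A' B := by
  unfold ed
  exact sum_union h

theorem EdLemAux.dg_union {B B' : Finset ℕ} (h : Disjoint B B') (v : ℕ) :
    dg adj (B ∪ B') v = dg adj B v + dg adj B' v := by
  unfold dg
  rw [filter_union, card_union_of_disjoint (disjoint_filter_filter h)]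

theorem ed_union_right {B B' : Finset ℕ} (h : Disjoint B B') (A : Finset ℕ) :
    ed adj A (B ∪ B') = ed adj A B + ed adj A B' := by
  unfold ed
  rw [← sum_add_distrib]
  exact sum_congr rfl fun v _ => EdLemAux.dg_union h v

theorem dg_mono' {B B' : Finset ℕ} (hB : B ⊆ B') (v : ℕ) : dg adj B v ≤ dg adj B' v := by
  unfold dg
  exact card_le_card (filter_subset_filter _ hB)

theorem ed_mono {A A' B B' : Finset ℕ} (hA : A ⊆ A') (hB : B ⊆ B') : ed adj A B ≤ ed adj A' B' := by
  unfold ed
  exact (sum_le_sum fun v _ => dg_mono' hB v).trans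
    (sum_le_sum_of_subset_of_nonneg hA fun _ _ _ => Nat.zero_le _)

theorem dg_split (h : RegBip n a d adj) {S : Finset ℕ} (hS : S ⊆ range n) {v : ℕ} (hv : v < n) :
    dg adj S v + dg adj (range n \ S) v = d := by
  rw [← EdLemAux.dg_union disjoint_sdiff, union_sdiff_of_subset hS]
  exact h.deg v hv

theorem dg_le (h : RegBip n a d adj) {S : Finset ℕ} (hS : S ⊆ range n) {v : ℕ} (hv : v < n) :
    dg adj S v ≤ d := by
  have := dg_split h hS hv
  omega

theorem ed_le_mul (h : RegBip n a d adj) {A B : Finset ℕ} (hA : A ⊆ range n) (hB : B ⊆ range n) :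
    ed adj A B ≤ d * A.card := by
  unfold ed
  rw [mul_comm, ← smul_eq_mul, ← sum_const]
  exact sum_le_sum fun v hv => dg_le h hB (mem_range.1 (hA hv))

theorem ed_le_mul' (h : RegBip n a d adj) {A B : Finset ℕ} (hA : A ⊆ range n) (hB : B ⊆ range n) :
    ed adj A B ≤ d * B.card := by
  rw [ed_comm h.symm]
  exact ed_le_mul h hB hA

theorem ed_compl (h : RegBip n a d adj) {A B : Finset ℕ} (hA : A ⊆ range n) (hB : B ⊆ range n) :
    ed adj A B + ed adj A (range n \ B) = d * A.card := by
  unfold ed
  rw [← sum_add_distrib, mul_comm, ← smul_eq_mul, ← sum_const]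
  exact sum_congr rfl fun v hv => dg_split h hB (mem_range.1 (hA hv))

/-- neighbours lie on the other side -/
theorem dg_sides (h : RegBip n a d adj) {S : Finset ℕ} {v : ℕ} (τ : Bool)
    (hv : decide (v < a) = τ) :
    dg adj S v = dg adj (S.filter (fun u => decide (u < a) = !τ)) v := by
  unfold dg
  congr 1
  ext u
  simp only [mem_filter]
  constructor
  · rintro ⟨h1, h2⟩
    refine ⟨⟨h1, ?_⟩, h2⟩
    have h3 := h.bip v u h2
    subst hv
    by_cases hva : v < a
    · have : ¬ u < a := h3.1 hva
      simp [hva, this]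
    · have : u < a := by
        by_contra hu
        exact hva (h3.2 hu)
      simp [hva, this]
  · rintro ⟨⟨h1, _⟩, h2⟩
    exact ⟨h1, h2⟩

theorem EdLemAux.sides_right (h : RegBip n a d adj) {S : Finset ℕ} {v : ℕ} (hv : v < a) :
    dg adj S v = dg adj (S.filter (fun u => ¬ u < a)) v := by
  rw [dg_sides h true (by simpa using hv)]
  congr 1
  ext u
  simp

theorem EdLemAux.sides_left (h : RegBip n a d adj) {S : Finset ℕ} {v : ℕ} (hv : ¬ v < a) :
    dg adj S v = dg adj (S.filter (fun u => u < a)) v := by
  rw [dg_sides h false (by simpa using hv)]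
  congr 1
  ext u
  simp

theorem card_left (h : RegBip n a d adj) : ((range n).filter (fun v => v < a)).card = a := by
  have h1 : (range n).filter (fun v => v < a) = range a := by
    ext v
    have := h.two
    simp only [mem_filter, mem_range]
    omega
  rw [h1, card_range]

theorem card_right (h : RegBip n a d adj) : ((range n).filter (fun v => ¬ v < a)).card = a := by
  have h1 : (range n).filter (fun v => ¬ v < a) = range n \ range a := by
    ext v
    simp only [mem_filter, mem_range, mem_sdiff]
  have h2 : range a ⊆ range n := by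
    intro v
    have := h.two
    simp only [mem_range]
    omega
  rw [h1, card_sdiff_of_subset h2, card_range, card_range]
  have := h.two
  omega

/-- the count of the edges outside `S` -/
theorem eo_eq (h : RegBip n a d adj) {S : Finset ℕ} (hS : S ⊆ range n) :
    d * (S.filter (fun v => v < a)).card +
      ∑ u ∈ S.filter (fun u => ¬ u < a), (d - dg adj S u) + eo a adj (range n) S = d * a := by
  set L := (range n).filter (fun v => v < a) with hL
  set R := (range n).filter (fun v => ¬ v < a) with hR
  set X := S.filter (fun v => v < a) with hX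
  set Y := S.filter (fun v => ¬ v < a) with hY
  have hXL : X ∪ (L \ S) = L := by
    ext v
    simp only [hX, hL, mem_union, mem_filter, mem_sdiff, mem_range]
    constructor
    · rintro (⟨h1, h2⟩ | ⟨h1, _⟩)
      · exact ⟨mem_range.1 (hS h1), h2⟩
      · exact h1
    · rintro ⟨h1, h2⟩
      by_cases h3 : v ∈ S
      · exact Or.inl ⟨h3, h2⟩
      · exact Or.inr ⟨⟨h1, h2⟩, h3⟩
  have hXd : Disjoint X (L \ S) := by
    rw [disjoint_left]
    intro v h1 h2
    exact (mem_sdiff.1 h2).2 (mem_filter.1 h1).1
  have hcard : X.card + (L \ S).card = a := by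
    rw [← card_union_of_disjoint hXd, hXL, hL]
    exact card_left h
  have hYR : Y ∪ (R \ S) = R := by
    ext v
    simp only [hY, hR, mem_union, mem_filter, mem_sdiff, mem_range]
    constructor
    · rintro (⟨h1, h2⟩ | ⟨h1, _⟩)
      · exact ⟨mem_range.1 (hS h1), h2⟩
      · exact h1
    · rintro ⟨h1, h2⟩
      by_cases h3 : v ∈ S
      · exact Or.inl ⟨h3, h2⟩
      · exact Or.inr ⟨⟨h1, h2⟩, h3⟩
  have hYd : Disjoint Y (R \ S) := by
    rw [disjoint_left]
    intro v h1 h2
    exact (mem_sdiff.1 h2).2 (mem_filter.1 h1).1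
  have h1 : d * (L \ S).card = ed adj (L \ S) Y + ed adj (L \ S) (R \ S) := by
    rw [← ed_union_right hYd, hYR]
    unfold ed
    rw [mul_comm, ← smul_eq_mul, ← sum_const]
    refine sum_congr rfl fun v hv => ?_
    have hv1 := mem_filter.1 (mem_sdiff.1 hv).1
    rw [← h.deg v (mem_range.1 hv1.1), EdLemAux.sides_right h hv1.2]
  have h2 : ed adj (L \ S) Y = ∑ u ∈ Y, (d - dg adj S u) := by
    rw [ed_comm h.symm]
    unfold ed
    refine sum_congr rfl fun u hu => ?_
    have hu1 := mem_filter.1 hu
    have h3 := dg_split h hS (mem_range.1 (hS hu1.1))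
    rw [EdLemAux.sides_left (S := range n \ S) h hu1.2] at h3
    have h4 : (range n \ S).filter (fun w => w < a) = L \ S := by
      ext w
      simp only [hL, mem_filter, mem_sdiff, mem_range]
      tauto
    rw [h4] at h3
    omega
  have h3 : eo a adj (range n) S = ed adj (L \ S) (R \ S) := rfl
  rw [h3, ← h2, add_assoc, ← h1, ← mul_add, hcard]

/-- the boundary of the region of an independent set -/
theorem eo_indep (h : RegBip n a d adj) {J : Finset ℕ} (hJ : J ⊆ range n)
    (hI : ∀ u ∈ J, ∀ v ∈ J, adj u v = false) :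
    d * J.card + eo a adj (range n) J = d * a := by
  rw [← eo_eq h hJ]
  have h1 : ∑ u ∈ J.filter (fun u => ¬ u < a), (d - dg adj J u) =
      d * (J.filter (fun u => ¬ u < a)).card := by
    rw [mul_comm, ← smul_eq_mul, ← sum_const]
    refine sum_congr rfl fun u hu => ?_
    have h2 : dg adj J u = 0 := by
      unfold dg
      rw [card_eq_zero, filter_eq_empty_iff]
      intro v hv
      rw [hI u (mem_filter.1 hu).1 v hv]
      simp
    rw [h2, Nat.sub_zero]
  rw [h1, ← mul_add]
  congr 2
  have h3 : J.filter (fun v => v < a) ∪ J.filter (fun v => ¬ v < a) = J := filter_union_filter_not_eq _ _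
  have h4 : Disjoint (J.filter (fun v => v < a)) (J.filter (fun v => ¬ v < a)) := by
    rw [disjoint_left]
    intro v h5 h6
    exact (mem_filter.1 h6).2 (mem_filter.1 h5).2
  rw [← card_union_of_disjoint h4, h3]

end Pool.Agent.Lib.Pa7c826m
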