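import Pool.Agent.Lib.Pa7c826m.Cell
import Pool.Agent.Lib.Pa7c826m.Hold

/-!
The union of the cells.

PROOF. `gcell_exists`: apply `cell_exists` in every part `i < k` to `I ∩ part n c i` and collect: `P` = the parts with `τ = true`,
`Z`, `J` = the unions (the parts are disjoint, so `Z ∩ part i = Z_i`; vertices of `range n` lie in the part `c v < k`).
`gcell_ind`: the degree condition of `lemF` for `S = gcell`, `m = d / (8 k)`: a vertex of the cell of the part `V` has at least `2 m`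
neighbours in `V \ cell = V \ S` (the cells of the other parts are disjoint from `V`), and `dg_split`. Let `e = eo a adj (range n) S ≥ ∑_i
eo a adj V_i cell_i` and `nu S ≥ ∑ nu cell_i` (the union of matchings in disjoint sets is a matching; or: an independent subset of `S`
with `|S| - nu S` elements (`nu_indep`), intersect with the cells and use `indep_nu` in each cell and sum). Sum of the `gain`:
`κ (|Z| + |J|) d ≤ 26 q² (e + d ν)`. `m ≥ d / (5 q)` (`q = 2 k`, `d ≥ 400 k`), `(3/4)^5 ≤ (1/2)^2`, so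
`(3/4)^(ν m) / 2^e ≤ 2^(-(2/(25 q)) (e + d ν)) ≤ 2^(-κ s d / (325 q³))`, `s = |Z| + |J|`. With `(1/2)^κ ≤ x^(325 q³)`:
`ind^d ≤ 4 2^(d a) x^(s d)`, so `ind ≤ 4 2^a x^s` (`4 ≤ 4^d`, roots).
-/

namespace Pool.Agent.Lib.Pa7c826m

open Finset Pool.Agent.Lib.Pa7c826 Pool.Agent.Lib.Pa7c826t

/-- admissible data in all parts -/
def AdmAll (n a k d κ : ℕ) (adj : ℕ → ℕ → Bool) (c : ℕ → ℕ) (P Z J : Finset ℕ) : Prop :=
  ∀ i < k, AdmC a adj (part n c i) (decide (i ∈ P)) (d / (4 * k)) (d / (8 * k))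
    (Z ∩ part n c i) (J ∩ part n c i) n d κ (2 * k) (d / (8 * k))

namespace GCellAux

theorem cell_sub (a : ℕ) (adj : ℕ → ℕ → Bool) (V : Finset ℕ) (τ : Bool) (t1 t2 : ℕ)
    (Z J : Finset ℕ) : cell a adj V τ t1 t2 Z J ⊆ V := by
  unfold cell cX cY cP
  exact union_subset ((filter_subset _ _).trans (filter_subset _ _)) (filter_subset _ _)

theorem part_disj {n : ℕ} {c : ℕ → ℕ} {i j : ℕ} (h : i ≠ j) :
    Disjoint (part n c i) (part n c j) := by
  rw [disjoint_left]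
  intro v h1 h2
  exact h ((mem_filter.1 h1).2.symm.trans (mem_filter.1 h2).2)

theorem inter_part {n : ℕ} {c : ℕ → ℕ} {Z : Finset ℕ} (hZ : Z ⊆ range n) (i : ℕ) :
    Z ∩ part n c i = Z.filter (fun v => c v = i) := by
  ext v
  unfold part
  rw [mem_inter, mem_filter, mem_filter]
  exact ⟨fun h => ⟨h.1, h.2.2⟩, fun h => ⟨h.1, hZ h.1, h.2⟩⟩

theorem card_part {n k : ℕ} {c : ℕ → ℕ} (hc : ∀ v, c v < k) {Z : Finset ℕ}
    (hZ : Z ⊆ range n) : ∑ i ∈ range k, (Z ∩ part n c i).card = Z.card := by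
  have h1 : Z.card = ∑ i ∈ range k, (Z.filter (fun v => c v = i)).card :=
    card_eq_sum_card_fiberwise (fun v _ => mem_coe.2 (mem_range.2 (hc v)))
  rw [h1]
  exact sum_congr rfl fun i _ => by rw [inter_part hZ]

theorem biUnion_inter {n k : ℕ} {c : ℕ → ℕ} {Z : ℕ → Finset ℕ} (hZ : ∀ i, Z i ⊆ part n c i)
    {i : ℕ} (hi : i < k) : (range k).biUnion Z ∩ part n c i = Z i := by
  ext v
  rw [mem_inter, mem_biUnion]
  constructor
  · rintro ⟨⟨j, _, h2⟩, h3⟩
    have h4 := (mem_filter.1 (hZ j h2)).2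
    have h5 := (mem_filter.1 h3).2
    rw [← h5, h4]
    exact h2
  · intro h1
    exact ⟨⟨i, mem_range.2 hi, h1⟩, hZ i h1⟩

/-- the final estimate -/
theorem final {D ν e m κ s q d a : ℕ} {x i : ℝ} (hx : 0 < x) (hi : 0 ≤ i) (hq : 1 ≤ q)
    (hx2 : (1 / 2 : ℝ) ^ κ ≤ x ^ (325 * q ^ 3)) (hm : d ≤ 5 * q * m) (hd : 1 ≤ d) (hD : D = d * a)
    (hg : κ * (s * d) ≤ 26 * q ^ 2 * (e + d * ν))
    (h : i ^ d * 2 ^ e ≤ 4 * 2 ^ D * (3 / 4) ^ (ν * m)) : i ≤ 4 * 2 ^ a * x ^ s := by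
  have hN : 325 * q ^ 3 ≠ 0 := by positivity
  have h1 : ((3 / 4 : ℝ) ^ (ν * m) * (1 / 2) ^ e) ^ (325 * q ^ 3) ≤ (x ^ (s * d)) ^ (325 * q ^ 3) := by
    calc ((3 / 4 : ℝ) ^ (ν * m) * (1 / 2) ^ e) ^ (325 * q ^ 3)
        = (((3 / 4 : ℝ) ^ 5) ^ (ν * m) * ((1 / 2) ^ 5) ^ e) ^ (65 * q ^ 3) := by
          rw [show 325 * q ^ 3 = 5 * (65 * q ^ 3) by ring, pow_mul, mul_pow]
          congr 2
          · rw [← pow_mul, ← pow_mul, mul_comm]
          · rw [← pow_mul, ← pow_mul, mul_comm]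
      _ ≤ (((1 / 2 : ℝ) ^ 2) ^ (ν * m) * ((1 / 2) ^ 5) ^ e) ^ (65 * q ^ 3) := by
          apply pow_le_pow_left₀ (by positivity)
          apply mul_le_mul_of_nonneg_right _ (by positivity)
          exact pow_le_pow_left₀ (by positivity) (by norm_num) _
      _ = (1 / 2 : ℝ) ^ ((2 * (ν * m) + 5 * e) * (65 * q ^ 3)) := by
          rw [← pow_mul, ← pow_mul, ← pow_add, ← pow_mul]
      _ ≤ (1 / 2 : ℝ) ^ (κ * (s * d)) := by
          apply pow_le_pow_of_le_one (by norm_num) (by norm_num)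
          refine hg.trans ?_
          have e1 : d * ν ≤ 5 * q * m * ν := Nat.mul_le_mul_right _ hm
          have e2 : e ≤ q * e := Nat.le_mul_of_pos_left _ (by omega)
          calc 26 * q ^ 2 * (e + d * ν) ≤ 26 * q ^ 2 * (q * e + 5 * q * m * ν) :=
                Nat.mul_le_mul_left _ (Nat.add_le_add e2 e1)
            _ ≤ 26 * q ^ 2 * (q * e + 5 * q * m * ν) + 299 * q ^ 3 * e := Nat.le_add_right _ _
            _ = (2 * (ν * m) + 5 * e) * (65 * q ^ 3) := by ring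
      _ = ((1 / 2 : ℝ) ^ κ) ^ (s * d) := by rw [pow_mul]
      _ ≤ (x ^ (325 * q ^ 3)) ^ (s * d) := pow_le_pow_left₀ (by positivity) hx2 _
      _ = (x ^ (s * d)) ^ (325 * q ^ 3) := by rw [← pow_mul, ← pow_mul, mul_comm]
  have h2 : (3 / 4 : ℝ) ^ (ν * m) * (1 / 2) ^ e ≤ x ^ (s * d) :=
    (pow_le_pow_iff_left₀ (by positivity) (by positivity) hN).1 h1
  have h3 : (2 : ℝ) ^ e * (1 / 2) ^ e = 1 := by
    rw [← mul_pow]
    norm_num
  have h4 : i ^ d ≤ (4 * 2 ^ a * x ^ s) ^ d := by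
    calc i ^ d = i ^ d * 2 ^ e * (1 / 2) ^ e := by rw [mul_assoc, h3, mul_one]
      _ ≤ 4 * 2 ^ D * (3 / 4) ^ (ν * m) * (1 / 2) ^ e :=
          mul_le_mul_of_nonneg_right h (by positivity)
      _ = 4 * 2 ^ D * ((3 / 4) ^ (ν * m) * (1 / 2) ^ e) := by ring
      _ ≤ 4 * 2 ^ D * x ^ (s * d) := mul_le_mul_of_nonneg_left h2 (by positivity)
      _ ≤ 4 ^ d * 2 ^ D * x ^ (s * d) := by
          apply mul_le_mul_of_nonneg_right _ (by positivity)
          apply mul_le_mul_of_nonneg_right _ (by positivity)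
          calc (4 : ℝ) = 4 ^ 1 := (pow_one _).symm
            _ ≤ 4 ^ d := pow_le_pow_right₀ (by norm_num) hd
      _ = (4 * 2 ^ a * x ^ s) ^ d := by
          rw [hD, mul_pow, mul_pow, ← pow_mul, ← pow_mul, mul_comm d a]
  exact (pow_le_pow_iff_left₀ hi (by positivity) (by omega)).1 h4

end GCellAux

open GCellAux

theorem gcell_exists {n a d k κ : ℕ} {adj : ℕ → ℕ → Bool} {c : ℕ → ℕ} (h : RegBip n a d adj)
    (hP : Parts n k d κ adj c) (hk : 2 ≤ k) (hd : 400 * k ≤ d) {I : Finset ℕ}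
    (hI : I ∈ inds n adj) :
    ∃ P Z J : Finset ℕ, P ⊆ range k ∧ Z ⊆ range n ∧ J ⊆ range n ∧ AdmAll n a k d κ adj c P Z J ∧
      I ⊆ gcell n a k adj c (d / (4 * k)) (d / (8 * k)) P Z J ∧ (Mixed a k c I → Z.Nonempty) := by
  have hI' := mem_filter.1 hI
  have hIn : I ⊆ range n := mem_powerset.1 hI'.1
  have key : ∀ i, ∃ (τ : Bool) (Z J : Finset ℕ), Z ⊆ part n c i ∧ J ⊆ part n c i ∧
      AdmC a adj (part n c i) τ (d / (4 * k)) (d / (8 * k)) Z J n d κ (2 * k) (d / (8 * k)) ∧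
      I ∩ part n c i ⊆ cell a adj (part n c i) τ (d / (4 * k)) (d / (8 * k)) Z J ∧
      ((∃ u ∈ I ∩ part n c i, u < a) → (∃ v ∈ I ∩ part n c i, ¬ v < a) → Z.Nonempty) := by
    intro i
    refine cell_exists h hk hd (filter_subset _ _) (hP.exp i) ?_ inter_subset_right ?_
    · intro v hv
      have hv' := mem_filter.1 hv
      have := hP.deg v (mem_range.1 hv'.1)
      rwa [hv'.2] at this
    · intro u hu v hv
      exact hI'.2 u (mem_inter.1 hu).1 v (mem_inter.1 hv).1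
  choose τ Z J hZ hJ hA hIc hne using key
  refine ⟨(range k).filter (fun i => τ i = true), (range k).biUnion Z, (range k).biUnion J,
    filter_subset _ _, ?_, ?_, ?_, ?_, ?_⟩
  · exact biUnion_subset.2 fun i _ => (hZ i).trans (filter_subset _ _)
  · exact biUnion_subset.2 fun i _ => (hJ i).trans (filter_subset _ _)
  · intro i hi
    have h1 : decide (i ∈ (range k).filter (fun i => τ i = true)) = τ i := by
      cases hτ : τ i <;> simp [hi, hτ]
    rw [h1, biUnion_inter hZ hi, biUnion_inter hJ hi]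
    exact hA i
  · intro v hv
    have hv1 : c v < k := hP.lt v
    have h1 : decide (c v ∈ (range k).filter (fun i => τ i = true)) = τ (c v) := by
      cases hτ : τ (c v) <;> simp [hv1, hτ]
    unfold gcell
    rw [mem_biUnion]
    refine ⟨c v, mem_range.2 hv1, ?_⟩
    rw [h1, biUnion_inter hZ hv1, biUnion_inter hJ hv1]
    exact hIc (c v) (mem_inter.2 ⟨hv, mem_filter.2 ⟨hIn hv, rfl⟩⟩)
  · rintro ⟨i, hi, ⟨u, hu, hu1, hu2⟩, v, hv, hv1, hv2⟩
    obtain ⟨z, hz⟩ := hne i ⟨u, mem_inter.2 ⟨hu, mem_filter.2 ⟨hIn hu, hu1⟩⟩, hu2⟩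
      ⟨v, mem_inter.2 ⟨hv, mem_filter.2 ⟨hIn hv, hv1⟩⟩, hv2⟩
    exact ⟨z, mem_biUnion.2 ⟨i, mem_range.2 hi, hz⟩⟩

theorem gcell_ind {n a d k κ : ℕ} {adj : ℕ → ℕ → Bool} {c : ℕ → ℕ} (h : RegBip n a d adj)
    (hP : Parts n k d κ adj c) (hk : 2 ≤ k) (hd : 400 * k ≤ d) (ha : a ≤ 2 ^ (d / (8 * k)))
    {P Z J : Finset ℕ} (hZ : Z ⊆ range n) (hJ : J ⊆ range n)
    (hA : AdmAll n a k d κ adj c P Z J) {x : ℝ} (hx : 0 < x)
    (hx2 : (1 / 2 : ℝ) ^ κ ≤ x ^ (325 * (2 * k) ^ 3)) :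
    (ind adj (gcell n a k adj c (d / (4 * k)) (d / (8 * k)) P Z J) : ℝ) ≤
      4 * 2 ^ a * x ^ (Z.card + J.card) := by
  set V : ℕ → Finset ℕ := fun i => part n c i with hVdef
  set C : ℕ → Finset ℕ := fun i => cell a adj (part n c i) (decide (i ∈ P)) (d / (4 * k))
    (d / (8 * k)) (Z ∩ part n c i) (J ∩ part n c i) with hCdef
  set S := gcell n a k adj c (d / (4 * k)) (d / (8 * k)) P Z J with hSdef
  have hS : S = (range k).biUnion C := rfl
  have hCV : ∀ i, C i ⊆ V i := fun i => cell_sub _ _ _ _ _ _ _ _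
  have hVn : ∀ i, V i ⊆ range n := fun i => filter_subset _ _
  have hCn : ∀ i, C i ⊆ range n := fun i => (hCV i).trans (hVn i)
  have hCc : ∀ i, ∀ v ∈ C i, c v = i := fun i v hv => (mem_filter.1 (hCV i hv)).2
  have hSn : S ⊆ range n := by
    rw [hS]
    exact biUnion_subset.2 fun i _ => hCn i
  have hCS : ∀ i < k, C i ⊆ S := by
    intro i hi v hv
    rw [hS]
    exact mem_biUnion.2 ⟨i, mem_range.2 hi, hv⟩
  have hVS : ∀ i, ∀ u ∈ V i, u ∉ C i → u ∉ S := by
    intro i u hu hu1 hu2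
    rw [hS, mem_biUnion] at hu2
    obtain ⟨j, _, hj⟩ := hu2
    have h1 := hCc j u hj
    have h2 := (mem_filter.1 hu).2
    rw [← h1, h2] at hj
    exact hu1 hj
  have hCdis : ∀ i j, i ≠ j → Disjoint (C i) (C j) := fun i j hij =>
    (part_disj hij).mono (hCV i) (hCV j)
  -- degrees
  have hdeg : ∀ v ∈ S, dg adj S v + 2 * (d / (8 * k)) ≤ d := by
    intro v hv
    have hv' := hv
    rw [hS, mem_biUnion] at hv'
    obtain ⟨i, hi, hvi⟩ := hv'
    have h1 := (hA i (mem_range.1 hi)).light v hvi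
    have h2 : V i \ C i ⊆ range n \ S := by
      intro u hu
      rw [mem_sdiff] at hu ⊢
      exact ⟨hVn i hu.1, hVS i u hu.1 hu.2⟩
    have h3 := dg_mono' (adj := adj) h2 v
    have h4 := dg_split h hSn (mem_range.1 (hSn hv))
    have h5 : 2 * (d / (8 * k)) ≤ dg adj (V i \ C i) v := h1
    omega
  have hk0 : 0 < k := by omega
  have hd1 : 1 ≤ d := by
    have : 400 * 1 ≤ 400 * k := Nat.mul_le_mul_left _ (by omega)
    omega
  have hF := lemF h hd1 hSn hdeg ha
  -- edges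
  have he : ∑ i ∈ range k, eo a adj (V i) (C i) ≤ eo a adj (range n) S := by
    unfold eo ed
    have h1 : ∀ i ∈ range k, ∑ v ∈ (V i).filter (fun v => v < a) \ C i,
        dg adj ((V i).filter (fun v => ¬ v < a) \ C i) v ≤
        ∑ v ∈ (V i).filter (fun v => v < a) \ C i,
          dg adj ((range n).filter (fun v => ¬ v < a) \ S) v := by
      intro i hi
      refine sum_le_sum fun v _ => dg_mono' ?_ v
      intro u hu
      rw [mem_sdiff, mem_filter] at hu ⊢
      exact ⟨⟨hVn i hu.1.1, hu.1.2⟩, hVS i u hu.1.1 hu.2⟩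
    refine (sum_le_sum h1).trans ?_
    rw [← sum_biUnion]
    · refine sum_le_sum_of_subset_of_nonneg ?_ fun _ _ _ => Nat.zero_le _
      intro u hu
      rw [mem_biUnion] at hu
      obtain ⟨i, _, hu⟩ := hu
      rw [mem_sdiff, mem_filter] at hu ⊢
      exact ⟨⟨hVn i hu.1.1, hu.1.2⟩, hVS i u hu.1.1 hu.2⟩
    · intro i _ j _ hij
      exact (part_disj hij).mono (sdiff_subset.trans (filter_subset _ _))
        (sdiff_subset.trans (filter_subset _ _))
  -- matchings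
  have hnu : ∑ i ∈ range k, nu n a adj (C i) ≤ nu n a adj S := by
    obtain ⟨I, hIS, hcard, hind⟩ := nu_indep (n := n) (a := a) hSn h.symm h.bip
    have h1 : ∀ i ∈ range k, (I ∩ C i).card + nu n a adj (C i) ≤ (C i).card := by
      intro i _
      exact indep_nu (hCn i) h.symm h.bip inter_subset_right
        fun u hu v hv => hind u (mem_inter.1 hu).1 v (mem_inter.1 hv).1
    have h2 := sum_le_sum h1
    rw [sum_add_distrib] at h2
    have h3 : ∑ i ∈ range k, (C i).card = S.card := by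
      rw [hS, card_biUnion]
      intro i _ j _ hij
      exact hCdis i j hij
    have h4 : I.card = ∑ i ∈ range k, (I ∩ C i).card := by
      rw [← card_biUnion]
      · congr 1
        ext v
        rw [mem_biUnion]
        constructor
        · intro hv
          have hv1 := hIS hv
          rw [hS, mem_biUnion] at hv1
          obtain ⟨i, hi, hvi⟩ := hv1
          exact ⟨i, hi, mem_inter.2 ⟨hv, hvi⟩⟩
        · rintro ⟨i, _, hv⟩
          exact (mem_inter.1 hv).1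
      · intro i _ j _ hij
        exact (hCdis i j hij).mono inter_subset_right inter_subset_right
    omega
  -- gains
  have hg : κ * ((Z.card + J.card) * d) ≤
      26 * (2 * k) ^ 2 * (eo a adj (range n) S + d * nu n a adj S) := by
    have h1 : ∀ i ∈ range k, κ * (((Z ∩ part n c i).card + (J ∩ part n c i).card) * d) ≤
        26 * (2 * k) ^ 2 * (eo a adj (V i) (C i) + d * nu n a adj (C i)) :=
      fun i hi => (hA i (mem_range.1 hi)).gain
    have h2 := sum_le_sum h1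
    rw [← mul_sum, ← mul_sum, ← sum_mul, sum_add_distrib, card_part hP.lt hZ, card_part hP.lt hJ,
      sum_add_distrib, ← mul_sum] at h2
    exact h2.trans (Nat.mul_le_mul_left _ (Nat.add_le_add he (Nat.mul_le_mul_left _ hnu)))
  have hm : d ≤ 5 * (2 * k) * (d / (8 * k)) := by
    have h1 := Nat.div_add_mod d (8 * k)
    have h2 := Nat.mod_lt d (show 0 < 8 * k by omega)
    have h3 : 5 * (2 * k) * (d / (8 * k)) * 4 = 5 * (8 * k * (d / (8 * k))) := by ring
    omega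
  exact final hx (Nat.cast_nonneg _) (by omega) hx2 hm hd1 rfl hg hF

end Pool.Agent.Lib.Pa7c826m
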