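import Pool.Agent.Lib.Pa7c826m.LemE

/-!
The number of independent sets of the graph of the reduction.

PROOF. For an independent pair `p = (L, R)` of `GR` let `A₁ = {x | .inl x ∈ L}`, `B₁ = {y | .inl y ∈ R}`, `A₂ = {x | .inr x ∈ R}`,
`B₂ = {y | .inr y ∈ L}`, `α = {i : Fin a | some x ∈ A₁ has isP x, x.1 = i}`, `γ = {j : Fin b | some x ∈ A₂ has isP x, x.1 = j}`.
Then `(A₁, B₁) ∈ indC (ρ₁) a α`, `(A₂, B₂) ∈ indC (ρ₂) b γ` (`α`, `γ` as sets of numbers; `a, b ≤ 2 ^ κ`) and `α`, `γ` span no edge of `E`. `p` is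
determined by `(A₁, B₁, A₂, B₂)`; this gives `G_upper`:
`cnt GR ≤ ∑ (α, γ), |indC ρ₁ a α| |indC ρ₂ b γ|`, the sum over the independent pairs of `E` (`cnt E` of them), and `indC_le`.
Conversely, if `α`, `γ` span no edge of `E`, `(A₁, B₁) ∈ indC ρ₁ a α`, `(A₂, B₂) ∈ indC ρ₂ b γ` and there are no `Q`-vertices in `B₁`, `B₂`, then
`(A₁ ∪ B₂, B₁ ∪ A₂)` is an independent pair of `GR` (`E i j = true` implies `i < a`, `j < b`, so the `P₁(i, 0) P₂(j, 0)` are not both there, and the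
other new edges have ends in `Q`), and it determines `α`, `γ`, `A₁`, …; `base_card` gives `G_lower`.
Remark: `ρ₁ τ = rk E τ b = 0` for `τ ≥ a` and `ρ₂ τ = crk E a τ = 0` for `τ ≥ b` by `EOk.rng`. Sets and finsets of a finite type correspond by
`Set.toFinset`/`Finset.coe` (`open Classical`), compare `Pool.Agent.Lib.Pa7c826.ind_eq_numIndep` (Lib/Pa7c826/Decode.lean).
-/

namespace Pool.Agent.Lib.Pa7c826m

open Finset Pool.Agent.Lib.Pa7c826 Pool.Agent.Lib.Pa7c826s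

variable {E : ℕ → ℕ → Bool} {a b κ g β d : ℕ}

namespace GCntAux

open Classical in
/-- the pairs without edges between them -/
noncomputable def indE {α β : Type*} [Fintype α] [Fintype β] (F : α → β → Prop) :
    Finset (Finset α × Finset β) :=
  univ.filter (fun p : Finset α × Finset β => ∀ x ∈ p.1, ∀ y ∈ p.2, ¬ F x y)

open Classical in
theorem mem_indE {α β : Type*} [Fintype α] [Fintype β] {F : α → β → Prop}
    {p : Finset α × Finset β} : p ∈ indE F ↔ ∀ x ∈ p.1, ∀ y ∈ p.2, ¬ F x y := by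
  unfold indE
  rw [mem_filter]
  exact ⟨fun h => h.2, fun h => ⟨mem_univ _, h⟩⟩

open Classical in
theorem cnt_eq_card {α β : Type*} [Fintype α] [Fintype β] (F : α → β → Prop) :
    cnt F = (indE F).card := by
  unfold cnt indE
  have h1 : Nat.card {p : Finset α × Finset β // ∀ x ∈ p.1, ∀ y ∈ p.2, ¬ F x y} =
      (univ.filter (fun p : Finset α × Finset β => ∀ x ∈ p.1, ∀ y ∈ p.2, ¬ F x y)).card := by
    rw [Nat.card_eq_fintype_card, Fintype.card_subtype]
  rw [← h1]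
  refine (Nat.card_congr (Equiv.subtypeEquiv (Equiv.prodCongr Fintype.finsetEquivSet
    Fintype.finsetEquivSet) ?_)).symm
  rintro ⟨P, Q⟩
  simp

/-- the left side of copy 1 -/
def fA (p : Finset (PT κ g β d ⊕ QT κ g β d)) : Finset (PT κ g β d) :=
  univ.filter (fun x => Sum.inl x ∈ p)

def fB (p : Finset (PT κ g β d ⊕ QT κ g β d)) : Finset (QT κ g β d) :=
  univ.filter (fun x => Sum.inr x ∈ p)

def gA (p : Finset (QT κ g β d ⊕ PT κ g β d)) : Finset (PT κ g β d) :=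
  univ.filter (fun x => Sum.inr x ∈ p)

def gB (p : Finset (QT κ g β d ⊕ PT κ g β d)) : Finset (QT κ g β d) :=
  univ.filter (fun x => Sum.inl x ∈ p)

theorem mem_fA {p : Finset (PT κ g β d ⊕ QT κ g β d)} {x : PT κ g β d} :
    x ∈ fA p ↔ Sum.inl x ∈ p := by
  unfold fA
  rw [mem_filter]
  exact ⟨fun h => h.2, fun h => ⟨mem_univ _, h⟩⟩

theorem mem_fB {p : Finset (PT κ g β d ⊕ QT κ g β d)} {x : QT κ g β d} :
    x ∈ fB p ↔ Sum.inr x ∈ p := by
  unfold fB
  rw [mem_filter]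
  exact ⟨fun h => h.2, fun h => ⟨mem_univ _, h⟩⟩

theorem mem_gA {p : Finset (QT κ g β d ⊕ PT κ g β d)} {x : PT κ g β d} :
    x ∈ gA p ↔ Sum.inr x ∈ p := by
  unfold gA
  rw [mem_filter]
  exact ⟨fun h => h.2, fun h => ⟨mem_univ _, h⟩⟩

theorem mem_gB {p : Finset (QT κ g β d ⊕ PT κ g β d)} {x : QT κ g β d} :
    x ∈ gB p ↔ Sum.inl x ∈ p := by
  unfold gB
  rw [mem_filter]
  exact ⟨fun h => h.2, fun h => ⟨mem_univ _, h⟩⟩

open Classical in
/-- the occupied `P(i, 0)`, `i < m` -/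
noncomputable def oc (m : ℕ) (A : Finset (PT κ g β d)) : Finset (Fin m) :=
  univ.filter (fun i => ∃ x ∈ A, (x.1 : ℕ) = i ∧ isP x = true)

theorem mem_oc {m : ℕ} {A : Finset (PT κ g β d)} {i : Fin m} :
    i ∈ oc m A ↔ ∃ x ∈ A, (x.1 : ℕ) = i ∧ isP x = true := by
  unfold oc
  rw [mem_filter]
  exact ⟨fun h => h.2, fun h => ⟨mem_univ _, h⟩⟩

/-- a set of numbers -/
def vl {m : ℕ} (α : Finset (Fin m)) : Finset ℕ := α.map Fin.valEmbedding

theorem mem_vl {m : ℕ} {α : Finset (Fin m)} {i : ℕ} (hi : i < m) :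
    i ∈ vl α ↔ (⟨i, hi⟩ : Fin m) ∈ α := by
  unfold vl
  rw [mem_map]
  constructor
  · rintro ⟨x, hx, rfl⟩
    exact hx
  · intro h
    exact ⟨_, h, rfl⟩

open Classical in
theorem mem_indC {ρ : ℕ → ℕ} {M : ℕ} {α : Finset ℕ}
    {p : Finset (PT κ g β d) × Finset (QT κ g β d)} :
    p ∈ indC κ g β d ρ M α ↔ (∀ x ∈ p.1, ∀ y ∈ p.2, CR κ g β d ρ x y = false) ∧
      ∀ τ : Fin (2 ^ κ), (τ : ℕ) < M → ((∃ x ∈ p.1, x.1 = τ ∧ isP x = true) ↔ (τ : ℕ) ∈ α) := by
  unfold indC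
  rw [mem_filter]
  exact ⟨fun h => h.2, fun h => ⟨mem_univ _, h⟩⟩

theorem oc_indC {ρ : ℕ → ℕ} {M : ℕ} {A : Finset (PT κ g β d)} {B : Finset (QT κ g β d)}
    (h : ∀ x ∈ A, ∀ y ∈ B, CR κ g β d ρ x y = false) :
    (A, B) ∈ indC κ g β d ρ M (vl (oc M A)) := by
  rw [mem_indC]
  refine ⟨h, fun τ hτ => ?_⟩
  rw [mem_vl hτ, mem_oc]
  constructor
  · rintro ⟨x, hx, h1, h2⟩
    exact ⟨x, hx, by rw [h1], h2⟩
  · rintro ⟨x, hx, h1, h2⟩
    exact ⟨x, hx, Fin.ext h1, h2⟩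

theorem indC_oc {ρ : ℕ → ℕ} {M : ℕ} (hM : M ≤ 2 ^ κ) {α : Finset (Fin M)}
    {p : Finset (PT κ g β d) × Finset (QT κ g β d)} (h : p ∈ indC κ g β d ρ M (vl α)) :
    α = oc M p.1 := by
  rw [mem_indC] at h
  ext i
  have h1 := h.2 ⟨i, lt_of_lt_of_le i.2 hM⟩ i.2
  rw [mem_vl i.2] at h1
  rw [mem_oc, ← h1]
  constructor
  · rintro ⟨x, hx, h2, h3⟩
    exact ⟨x, hx, by rw [h2], h3⟩
  · rintro ⟨x, hx, h2, h3⟩
    exact ⟨x, hx, Fin.ext h2, h3⟩

theorem rk_zero (hE : EOk E a b κ β) (τ : ℕ) (h : a ≤ τ) : rk E τ b = 0 := by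
  unfold rk
  rw [card_eq_zero, filter_eq_empty_iff]
  intro j _ hj
  have := (hE.rng _ _ hj).1
  omega

theorem crk_zero (hE : EOk E a b κ β) (τ : ℕ) (h : b ≤ τ) : crk E a τ = 0 := by
  unfold crk
  rw [card_eq_zero, filter_eq_empty_iff]
  intro j _ hj
  have := (hE.rng _ _ hj).2
  omega

theorem qs_empty {B : Finset (QT κ g β d)} (h : qs B = fun _ => ∅) {y : QT κ g β d} {r : ℕ}
    (hy : y ∈ B) (hq : isQ y r = true) : False := by
  obtain ⟨τ, s⟩ := y
  rcases s with s | s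
  · have h1 : s ∈ qs B τ := by
      unfold qs
      rw [mem_filter]
      exact ⟨mem_univ _, hy⟩
    rw [h] at h1
    exact absurd h1 (notMem_empty _)
  · unfold isQ at hq
    exact absurd hq (by simp)

end GCntAux

open GCntAux

open Classical in
theorem G_lower (hE : EOk E a b κ β) (hg : g < β) :
    N0 κ g β d a * N0 κ g β d b * cnt (fun (i : Fin a) (j : Fin b) => E i j = true) ≤
      cnt (fun x y => GR E a b κ g β d x y = true) := by
  rw [cnt_eq_card, cnt_eq_card]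
  have h0 : ((indE (fun (i : Fin a) (j : Fin b) => E i j = true)).sigma (fun p =>
      (((indC κ g β d (fun τ => rk E τ b) a (vl p.1)).filter (fun q => qs q.2 = fun _ => ∅)) ×ˢ
        ((indC κ g β d (fun τ => crk E a τ) b (vl p.2)).filter
          (fun q => qs q.2 = fun _ => ∅))))).card =
      N0 κ g β d a * N0 κ g β d b * (indE (fun (i : Fin a) (j : Fin b) => E i j = true)).card := by
    rw [card_sigma, sum_congr rfl (fun p _ => by
      rw [card_product, base_card hg, base_card hg]), sum_const, smul_eq_mul, mul_comm]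
  rw [← h0]
  refine card_le_card_of_injOn (fun z => (z.2.1.1.disjSum z.2.2.2, z.2.1.2.disjSum z.2.2.1)) ?_ ?_
  · rintro ⟨⟨α, γ⟩, ⟨A1, B1⟩, ⟨A2, B2⟩⟩ hz
    simp only [coe_sigma, Set.mem_sigma_iff, mem_coe, mem_filter, mem_indE,
      mem_product, mem_indC] at hz
    simp only [mem_coe, mem_indE]
    obtain ⟨h1, ⟨⟨h2, h3⟩, h4⟩, ⟨⟨h5, h6⟩, h7⟩⟩ := hz
    rintro (x | y) hx (y' | x') hy
    · rw [inl_mem_disjSum] at hx hy
      simp only [GR]
      rw [h2 x hx y' hy]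
      simp
    · rw [inl_mem_disjSum] at hx
      rw [inr_mem_disjSum] at hy
      simp only [GR, Bool.and_eq_true]
      rintro ⟨h8, h9, h10⟩
      have h11 := hE.rng _ _ h8
      have h12 := (h3 x.1 h11.1).1 ⟨x, hx, rfl, h9⟩
      have h13 := (h6 x'.1 h11.2).1 ⟨x', hy, rfl, h10⟩
      rw [mem_vl h11.1] at h12
      rw [mem_vl h11.2] at h13
      exact h1 _ h12 _ h13 h8
    · rw [inr_mem_disjSum] at hx
      rw [inl_mem_disjSum] at hy
      simp only [GR, Bool.and_eq_true]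
      rintro ⟨_, h9, _⟩
      exact qs_empty h4 hy h9
    · rw [inr_mem_disjSum] at hx hy
      simp only [GR]
      rw [h5 x' hy y hx]
      simp
  · rintro ⟨⟨α, γ⟩, ⟨A1, B1⟩, ⟨A2, B2⟩⟩ hz ⟨⟨α', γ'⟩, ⟨A1', B1'⟩, ⟨A2', B2'⟩⟩ hz' heq
    simp only [coe_sigma, Set.mem_sigma_iff, mem_coe, mem_filter,
      mem_product] at hz hz'
    simp only [Prod.mk.injEq] at heq
    obtain ⟨e1, e2⟩ := heq
    have k1 : A1 = A1' := by
      ext x
      rw [← inl_mem_disjSum (t := B2), e1, inl_mem_disjSum]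
    have k2 : B2 = B2' := by
      ext x
      rw [← inr_mem_disjSum (s := A1), e1, inr_mem_disjSum]
    have k3 : B1 = B1' := by
      ext x
      rw [← inl_mem_disjSum (t := A2), e2, inl_mem_disjSum]
    have k4 : A2 = A2' := by
      ext x
      rw [← inr_mem_disjSum (s := B1), e2, inr_mem_disjSum]
    subst k1 k2 k3 k4
    have m1 : α = α' := (indC_oc hE.la hz.2.1.1).trans (indC_oc hE.la hz'.2.1.1).symm
    have m2 : γ = γ' := (indC_oc hE.lb hz.2.2.1).trans (indC_oc hE.lb hz'.2.2.1).symm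
    subst m1 m2
    rfl

open Classical in
theorem G_upper (hE : EOk E a b κ β) (hg : 10 ≤ g) (hκ : κ = 2 * g) (hβ : 16 * g ^ 2 ≤ β)
    (hd : d = (κ + 1) * β) (ha : a ≤ 2 ^ (g - 5)) (hb : b ≤ 2 ^ (g - 5)) :
    (cnt (fun x y => GR E a b κ g β d x y = true) : ℝ) ≤
      (N0 κ g β d a * (1 + 4 / 2 ^ (4 * g))) * (N0 κ g β d b * (1 + 4 / 2 ^ (4 * g))) *
        cnt (fun (i : Fin a) (j : Fin b) => E i j = true) := by
  rw [cnt_eq_card, cnt_eq_card]
  have h0 : (indE (fun x y => GR E a b κ g β d x y = true)).card ≤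
      ((indE (fun (i : Fin a) (j : Fin b) => E i j = true)).sigma (fun p =>
      ((indC κ g β d (fun τ => rk E τ b) a (vl p.1)) ×ˢ
        (indC κ g β d (fun τ => crk E a τ) b (vl p.2))))).card := by
    refine card_le_card_of_injOn (fun p => ⟨(oc a (fA p.1), oc b (gA p.2)), (fA p.1, gB p.2),
      (gA p.2, fB p.1)⟩) ?_ ?_
    · rintro ⟨L, R⟩ hp
      simp only [mem_coe, mem_indE] at hp
      simp only [mem_coe, mem_sigma, mem_indE, mem_product]
      refine ⟨?_, oc_indC ?_, oc_indC ?_⟩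
      · intro i hi j hj hij
        rw [mem_oc] at hi hj
        obtain ⟨x, hx, h1, h2⟩ := hi
        obtain ⟨x', hx', h3, h4⟩ := hj
        rw [mem_fA] at hx
        rw [mem_gA] at hx'
        refine hp _ hx _ hx' ?_
        simp only [GR, Bool.and_eq_true]
        rw [h1, h3]
        exact ⟨hij, h2, h4⟩
      · intro x hx y hy
        rw [mem_fA] at hx
        rw [mem_gB] at hy
        have := hp _ hx _ hy
        simpa only [GR, Bool.not_eq_true] using this
      · intro x hx y hy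
        rw [mem_gA] at hx
        rw [mem_fB] at hy
        have := hp _ hy _ hx
        simpa only [GR, Bool.not_eq_true] using this
    · rintro ⟨L, R⟩ _ ⟨L', R'⟩ _ heq
      simp only [Sigma.mk.injEq, Prod.mk.injEq, heq_eq_eq] at heq
      obtain ⟨_, ⟨e1, e2⟩, e3, e4⟩ := heq
      have k1 : L = L' := by
        ext x
        rcases x with x | x
        · rw [← mem_fA, e1, mem_fA]
        · rw [← mem_fB, e4, mem_fB]
      have k2 : R = R' := by
        ext x
        rcases x with x | x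
        · rw [← mem_gB, e2, mem_gB]
        · rw [← mem_gA, e3, mem_gA]
      rw [k1, k2]
  rw [card_sigma] at h0
  have h1 := (Nat.cast_le (α := ℝ)).2 h0
  refine h1.trans ?_
  rw [Nat.cast_sum]
  have h2 : ∀ p ∈ indE (fun (i : Fin a) (j : Fin b) => E i j = true),
      (((indC κ g β d (fun τ => rk E τ b) a (vl p.1)) ×ˢ
        (indC κ g β d (fun τ => crk E a τ) b (vl p.2))).card : ℝ) ≤
      (N0 κ g β d a * (1 + 4 / 2 ^ (4 * g))) * (N0 κ g β d b * (1 + 4 / 2 ^ (4 * g))) := by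
    intro p _
    rw [card_product, Nat.cast_mul]
    have h3 := indC_le hg hκ hβ hd ha (rk_zero hE) (vl p.1)
    have h4 := indC_le hg hκ hβ hd hb (crk_zero hE) (vl p.2)
    exact mul_le_mul h3 h4 (Nat.cast_nonneg _) (by positivity)
  refine (sum_le_sum h2).trans ?_
  rw [sum_const, nsmul_eq_mul, mul_comm]

end Pool.Agent.Lib.Pa7c826m
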