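import Pool.Agent.Lib.Pa7c826m.Defs
import Pool.Agent.Lib.Pa7c826s.Cube
import Pool.Agent.Lib.Pa7c826.NearHalf

/-!
The graphs of the hardness proof: two copies of a regular bipartite graph over the hypercube, joined
by switches that encode a given bipartite graph.
-/

namespace Pool.Agent.Lib.Pa7c826m

open Finset Pool.Agent.Lib.Pa7c826 Pool.Agent.Lib.Pa7c826s

/-- the element number `δ` of the closed neighbourhood of `τ` in the hypercube -/
def nb {κ : ℕ} (δ : Fin (κ + 1)) (τ : Fin (2 ^ κ)) : Fin (2 ^ κ) :=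
  Fin.cases τ (fun i => flip i τ) δ

/-- the same for numbers -/
def nbN (δ τ : ℕ) : ℕ := if decide (δ = 0) = true then τ else flipN (δ - 1) τ

/-- the vertices of a copy on the side of the `P`-vertices `(τ, .inl s)`; the others are the
`Λ`-vertices `(τ, .inr j)` -/
abbrev PT (κ g β d : ℕ) : Type := Fin (2 ^ κ) × (Fin (β - g) ⊕ Fin d)

/-- the vertices of a copy on the side of the `Q`-vertices `(τ, .inl s)`; the others are the
`R`-vertices `(τ, .inr j)` -/
abbrev QT (κ g β d : ℕ) : Type := Fin (2 ^ κ) × (Fin β ⊕ Fin (d - g))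

section

variable {κ g β d : ℕ}

/-- `x` is the vertex `P(τ, 0)` for some `τ` -/
def isP (x : PT κ g β d) : Bool :=
  match x.2 with
  | .inl s => decide ((s : ℕ) = 0)
  | .inr _ => false

/-- `y` is the vertex `Q(τ, r)` for some `τ` -/
def isQ (y : QT κ g β d) (r : ℕ) : Bool :=
  match y.2 with
  | .inl s => decide ((s : ℕ) = r)
  | .inr _ => false

/-- Adjacency in a copy: `P(τ, s)` and `Q(τ', s')` are adjacent if `τ'` is in the closed
neighbourhood of `τ`, except `P(τ, 0)` and `Q(τ, s')` for `s' < ρ τ`; `Λ(τ, j)` and `R(τ, j')` are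
adjacent; `Λ(τ, j)` and `Q(τ', s')` are adjacent if `τ'` is the element number `δ` of the closed
neighbourhood of `τ` and `(δ β + s' - j) mod d < g`. -/
def CR (κ g β d : ℕ) (ρ : ℕ → ℕ) (x : PT κ g β d) (y : QT κ g β d) : Bool :=
  match x.2, y.2 with
  | .inl s, .inl s' => decide (∃ δ, nb δ x.1 = y.1) &&
      !(decide ((s : ℕ) = 0) && (decide (y.1 = x.1) && decide ((s' : ℕ) < ρ x.1)))
  | .inl _, .inr _ => false
  | .inr j, .inl s' => decide (∃ δ, nb δ x.1 = y.1 ∧ (δ * β + s' + (d - j)) % d < g)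
  | .inr _, .inr _ => decide (x.1 = y.1)

end

/-- number of `j' < j` adjacent to `i` -/
def rk (E : ℕ → ℕ → Bool) (i j : ℕ) : ℕ := ((range j).filter (fun j' => E i j' = true)).card

/-- number of `i' < i` adjacent to `j` -/
def crk (E : ℕ → ℕ → Bool) (i j : ℕ) : ℕ := ((range i).filter (fun i' => E i' j = true)).card

/-- The graph of the reduction. The left side consists of the `P`-side of copy 1 and the `Q`-side of
copy 2. For every edge `(i, j)` of the given graph the edges `P₁(i, 0) Q₁(i, rk i j)` and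
`P₂(j, 0) Q₂(j, crk i j)` are replaced by `P₁(i, 0) P₂(j, 0)` and `Q₂(j, crk i j) Q₁(i, rk i j)`. -/
def GR (E : ℕ → ℕ → Bool) (a b κ g β d : ℕ) :
    PT κ g β d ⊕ QT κ g β d → QT κ g β d ⊕ PT κ g β d → Bool
  | .inl x, .inl y => CR κ g β d (fun τ => rk E τ b) x y
  | .inr y, .inr x => CR κ g β d (fun τ => crk E a τ) x y
  | .inl x, .inr x' => E x.1 x'.1 && (isP x && isP x')
  | .inr y, .inl y' => E y'.1 y.1 && (isQ y' (rk E y'.1 y.1) && isQ y (crk E y'.1 y.1))

/-- the given graph: no edges outside `[0, a) × [0, b)`, few vertices and small degrees -/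
structure EOk (E : ℕ → ℕ → Bool) (a b κ β : ℕ) : Prop where
  rng : ∀ i j, E i j = true → i < a ∧ j < b
  la : a ≤ 2 ^ κ
  lb : b ≤ 2 ^ κ
  row : ∀ i, rk E i b < β
  col : ∀ j, crk E a j < β

/-! ### Numbers instead of vertices -/

/-- adjacency in a copy -/
def cadj (κ g β d : ℕ) (ρ : ℕ → ℕ) (τ s τ' s' : ℕ) : Bool :=
  if decide (s' < β) = true then
    if decide (s < β - g) = true then
      decide (∃ δ < κ + 1, decide (nbN δ τ = τ') = true) &&
        !(decide (s = 0) && (decide (τ' = τ) && decide (s' < ρ τ)))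
    else decide (∃ δ < κ + 1, (decide (nbN δ τ = τ') &&
      decide ((δ * β + s' + (d - (s - (β - g)))) % d < g)) = true)
  else !decide (s < β - g) && decide (τ = τ')

/-- numbers of slots -/
def wP (g β d : ℕ) : ℕ := β - g + d
def wQ (g β d : ℕ) : ℕ := β + (d - g)

/-- adjacency of the left vertex number `x` and the right vertex number `y` -/
def gadj (E : ℕ → ℕ → Bool) (a b κ g β d x y : ℕ) : Bool :=
  if decide (x < 2 ^ κ * wP g β d) = true then
    if decide (y < 2 ^ κ * wQ g β d) = true then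
      cadj κ g β d (fun τ => rk E τ b) (x / wP g β d) (x % wP g β d) (y / wQ g β d)
        (y % wQ g β d)
    else
      E (x / wP g β d) ((y - 2 ^ κ * wQ g β d) / wP g β d) &&
        (decide (x % wP g β d = 0) && decide ((y - 2 ^ κ * wQ g β d) % wP g β d = 0))
  else
    if decide (y < 2 ^ κ * wQ g β d) = true then
      E (y / wQ g β d) ((x - 2 ^ κ * wP g β d) / wQ g β d) &&
        (decide (y % wQ g β d = rk E (y / wQ g β d) ((x - 2 ^ κ * wP g β d) / wQ g β d)) &&
          decide ((x - 2 ^ κ * wP g β d) % wQ g β d =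
            crk E (y / wQ g β d) ((x - 2 ^ κ * wP g β d) / wQ g β d)))
    else
      cadj κ g β d (fun τ => crk E a τ) ((y - 2 ^ κ * wQ g β d) / wP g β d)
        ((y - 2 ^ κ * wQ g β d) % wP g β d) ((x - 2 ^ κ * wP g β d) / wQ g β d)
        ((x - 2 ^ κ * wP g β d) % wQ g β d)

end Pool.Agent.Lib.Pa7c826m
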