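import Pool.Agent.Lib.Pa7c826m.Nbh

/-!
The `L¹` inequality for the `Λ`- and `R`-vertices of a copy over one point of the hypercube.

PROOF. Fix `τ`, write `l j = fp (τ, .inr j)` (`j < d`), `r j' = fq (τ, .inr j')` (`j' < d - g`), `q δ s' = fq (nb δ τ, .inl s')`,
`lm = (∑ j, l j) / d`, `rm = (∑ j', r j') / (d - g)`, `d' = d - g`.
(1) `g |∑ j (l j - m)| ≤ ELQ + g |∑ δ ∑ s' (q δ s' - m)|`. In fact
`∑ j ∑ δ ∑ s' [(δ β + s' + (d - j)) % d < g] (l j - q δ s') = g ∑ j l j - g ∑ δ ∑ s' q δ s'`, because every `j < d` has exactly `g` pairs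
`(δ, s')` with `(δ β + s' + (d - j)) % d < g` and every pair has exactly `g` such `j` (`(δ, s') ↦ δ β + s'` is a bijection to
`range d` as `d = (κ + 1) β`, and `u ↦ (u + (d - j)) % d`, `j ↦ (u + (d - j)) % d` are bijections of `range d`); in absolute value it is at most
`ELQ` (for `τ' = nb δ τ`, `Λ(τ, j)` and `Q(τ', s')` are adjacent iff `(δ β + s' + (d - j)) % d < g`, `nb_inj`; the other
`τ'` give nothing); and `∑ j (l j - m) - ∑ δ ∑ s' (q δ s' - m) = ∑ j l j - ∑ δ ∑ s' q δ s'` since `d = (κ + 1) β`.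
(2) `∑ j |l j - rm| ≤ ES / d'`, `|rm - lm| ≤ ES / (d d')`, `∑ j' |r j' - lm| ≤ ES / d`. So
`∑ j |l j - lm| + ∑ j' |r j' - lm| ≤ ES / d' + ES / d' + ES / d ≤ 3 ES / d'`.
(3) `∑ j |l j - m| + ∑ j' |r j' - m| ≤ 3 ES / d' + (d + d') |lm - m| ≤ 3 ES / d' + 2 |∑ j (l j - m)|`, and
`2 |∑ j (l j - m)| ≤ 2 ELQ / g + 2 ∑ δ |∑ s' (q δ s' - m)|` by (1).
-/

namespace Pool.Agent.Lib.Pa7c826m

open Finset Pool.Agent.Lib.Pa7c826 Pool.Agent.Lib.Pa7c826s

section

variable (κ g β d : ℕ) (fp : PT κ g β d → ℝ) (fq : QT κ g β d → ℝ) (τ : Fin (2 ^ κ))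

/-- variation along the edges between `Λ(τ, ·)` and `Q` -/
def ELQ : ℝ := ∑ j : Fin d, ∑ τ', ∑ s' : Fin β,
  if decide (∃ δ, nb δ τ = τ' ∧ (δ * β + s' + (d - j)) % d < g) = true then
    |fp (τ, .inr j) - fq (τ', .inl s')| else 0

/-- variation along the edges between `Λ(τ, ·)` and `R(τ, ·)` -/
def ESR : ℝ := ∑ j : Fin d, ∑ j' : Fin (d - g), |fp (τ, .inr j) - fq (τ, .inr j')|

end

namespace SatEAux

/-- exactly `g` residues `u < d` satisfy `(u + c) % d < g` -/
theorem rot (d g c : ℕ) (hg : g ≤ d) :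
    ∑ u ∈ range d, (if (u + c) % d < g then (1 : ℝ) else 0) = g := by
  have hp : Function.Periodic (fun x : ℕ => x % d < g) d := by
    intro x
    simp [Nat.add_mod_right]
  have h1 := Nat.filter_Ico_card_eq_of_periodic c d (fun x : ℕ => x % d < g) hp
  have h2 : Nat.count (fun x : ℕ => x % d < g) d = g := by
    rw [Nat.count_eq_card_filter_range]
    have : (range d).filter (fun x : ℕ => x % d < g) = range g := by
      ext x
      simp only [mem_filter, mem_range]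
      constructor
      · rintro ⟨h, h'⟩
        rwa [Nat.mod_eq_of_lt h] at h'
      · intro h
        have : x < d := lt_of_lt_of_le h hg
        exact ⟨this, by rwa [Nat.mod_eq_of_lt this]⟩
    rw [this, card_range]
  rw [h2] at h1
  have h3 : ∑ u ∈ range d, (if (u + c) % d < g then (1 : ℝ) else 0) =
      ∑ u ∈ Ico c (c + d), (if u % d < g then (1 : ℝ) else 0) := by
    rw [Finset.sum_Ico_eq_sum_range]
    rw [Nat.add_sub_cancel_left]
    exact sum_congr rfl fun u _ => by rw [add_comm c u]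
  rw [h3, ← Finset.sum_filter]
  simp only [sum_const, nsmul_eq_mul, mul_one]
  exact_mod_cast h1

/-- the sum over the pairs -/
theorem wsum_pair (κ β g d : ℕ) (hg : g ≤ d) (hd : d = (κ + 1) * β) (j : Fin d) :
    ∑ δ : Fin (κ + 1), ∑ s' : Fin β,
      (if ((δ : ℕ) * β + s' + (d - j)) % d < g then (1 : ℝ) else 0) = g := by
  rw [← Fintype.sum_prod_type']
  rw [← rot d g (d - j) hg]
  have h1 : ∑ u ∈ range d, (if (u + (d - j)) % d < g then (1 : ℝ) else 0) =
      ∑ u ∈ range ((κ + 1) * β), (if (u + (d - j)) % d < g then (1 : ℝ) else 0) := by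
    rw [← hd]
  rw [h1, ← Fin.sum_univ_eq_sum_range (fun u : ℕ => if (u + (d - j)) % d < g then (1 : ℝ) else 0)
    ((κ + 1) * β)]
  rw [← Equiv.sum_comp finProdFinEquiv]
  refine sum_congr rfl fun x _ => ?_
  have : ((finProdFinEquiv x : Fin ((κ + 1) * β)) : ℕ) = (x.1 : ℕ) * β + x.2 := by
    simp [finProdFinEquiv, mul_comm, add_comm]
  rw [this]

/-- the sum over `j` -/
theorem wsum_j (g d x : ℕ) (hg : g ≤ d) :
    ∑ j : Fin d, (if (x + (d - (j : ℕ))) % d < g then (1 : ℝ) else 0) = g := by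
  rw [Fin.sum_univ_eq_sum_range (fun j : ℕ => if (x + (d - j)) % d < g then (1 : ℝ) else 0) d]
  rw [← Finset.sum_range_reflect]
  rw [← rot d g (x + 1) hg]
  refine sum_congr rfl fun j hj => ?_
  have hj' := mem_range.1 hj
  have : x + (d - (d - 1 - j)) = j + (x + 1) := by omega
  rw [this]

theorem sum3_sub {α β γ : Type*} [Fintype α] [Fintype β] [Fintype γ] (A B : α → β → γ → ℝ) :
    ∑ x, ∑ y, ∑ z, (A x y z - B x y z) = ∑ x, ∑ y, ∑ z, A x y z - ∑ x, ∑ y, ∑ z, B x y z := by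
  simp only [sum_sub_distrib]

/-- the averages of the two sides of a complete bipartite graph -/
theorem avg (d e : ℕ) (hd : 1 ≤ d) (he : 1 ≤ e) (hed : e ≤ d) (l : Fin d → ℝ) (r : Fin e → ℝ)
    (m : ℝ) :
    ∑ j, |l j - m| + ∑ j', |r j' - m| ≤
      3 * (∑ j, ∑ j', |l j - r j'|) / (e : ℝ) + 2 * |∑ j, (l j - m)| := by
  set ES : ℝ := ∑ j, ∑ j', |l j - r j'| with hES
  set lm : ℝ := (∑ j, l j) / d with hlm
  set rm : ℝ := (∑ j', r j') / e with hrm
  have d0 : (0 : ℝ) < d := by exact_mod_cast hd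
  have e0 : (0 : ℝ) < e := by exact_mod_cast he
  have ed : (e : ℝ) ≤ d := by exact_mod_cast hed
  have ES0 : 0 ≤ ES := sum_nonneg fun _ _ => sum_nonneg fun _ _ => abs_nonneg _
  have h1 : ∀ j, |l j - rm| ≤ (∑ j', |l j - r j'|) / e := by
    intro j
    have : l j - rm = (∑ j' : Fin e, (l j - r j')) / e := by
      rw [sum_sub_distrib, hrm]
      simp only [sum_const, card_univ, Fintype.card_fin, nsmul_eq_mul]
      field_simp
    rw [this, abs_div, abs_of_pos e0]
    gcongr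
    exact abs_sum_le_sum_abs _ _
  have h2 : ∑ j, |l j - rm| ≤ ES / e := by
    rw [hES, sum_div]
    exact sum_le_sum fun j _ => h1 j
  have h3 : ∀ j', |r j' - lm| ≤ (∑ j, |l j - r j'|) / d := by
    intro j'
    have : r j' - lm = -((∑ j : Fin d, (l j - r j')) / d) := by
      rw [sum_sub_distrib, hlm]
      simp only [sum_const, card_univ, Fintype.card_fin, nsmul_eq_mul]
      field_simp
      ring
    rw [this, abs_neg, abs_div, abs_of_pos d0]
    gcongr
    exact abs_sum_le_sum_abs _ _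
  have h4 : ∑ j', |r j' - lm| ≤ ES / d := by
    rw [hES, sum_comm, sum_div]
    exact sum_le_sum fun j _ => h3 j
  have h4' : ES / d ≤ ES / e := by gcongr
  have h5 : (d : ℝ) * |rm - lm| ≤ ES / e := by
    have : rm - lm = -((∑ j : Fin d, (l j - rm)) / d) := by
      rw [sum_sub_distrib, hlm]
      simp only [sum_const, card_univ, Fintype.card_fin, nsmul_eq_mul]
      field_simp
      ring
    rw [this, abs_neg, abs_div, abs_of_pos d0, mul_div_cancel₀ _ d0.ne']
    exact (abs_sum_le_sum_abs _ _).trans h2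
  have h6 : ∑ j, |l j - lm| ≤ ES / e + ES / e := by
    have : ∑ j, |l j - lm| ≤ ∑ j, (|l j - rm| + |rm - lm|) :=
      sum_le_sum fun j _ => abs_sub_le _ _ _
    rw [sum_add_distrib] at this
    simp only [sum_const, card_univ, Fintype.card_fin, nsmul_eq_mul] at this
    linarith
  have h7 : ∑ j, |l j - m| ≤ ∑ j, |l j - lm| + (d : ℝ) * |lm - m| := by
    have : ∑ j, |l j - m| ≤ ∑ j, (|l j - lm| + |lm - m|) :=
      sum_le_sum fun j _ => abs_sub_le _ _ _
    rw [sum_add_distrib] at this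
    simpa only [sum_const, card_univ, Fintype.card_fin, nsmul_eq_mul] using this
  have h8 : ∑ j', |r j' - m| ≤ ∑ j', |r j' - lm| + (e : ℝ) * |lm - m| := by
    have : ∑ j', |r j' - m| ≤ ∑ j', (|r j' - lm| + |lm - m|) :=
      sum_le_sum fun j _ => abs_sub_le _ _ _
    rw [sum_add_distrib] at this
    simpa only [sum_const, card_univ, Fintype.card_fin, nsmul_eq_mul] using this
  have h9 : (d : ℝ) * |lm - m| = |∑ j, (l j - m)| := by
    have : lm - m = (∑ j : Fin d, (l j - m)) / d := by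
      rw [sum_sub_distrib, hlm]
      simp only [sum_const, card_univ, Fintype.card_fin, nsmul_eq_mul]
      field_simp
    rw [this, abs_div, abs_of_pos d0, mul_div_cancel₀ _ d0.ne']
  have h10 : (e : ℝ) * |lm - m| ≤ |∑ j, (l j - m)| := by
    rw [← h9]
    gcongr
  have h11 : 3 * ES / (e : ℝ) = ES / e + ES / e + ES / e := by ring
  rw [h11]
  linarith

/-- comparison of the sums over the closed neighbourhood with `ELQ` -/
theorem elq (κ g β d : ℕ) (fp : PT κ g β d → ℝ) (fq : QT κ g β d → ℝ) (τ : Fin (2 ^ κ)) :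
    ∑ j : Fin d, ∑ δ : Fin (κ + 1), ∑ s' : Fin β,
      (if ((δ : ℕ) * β + s' + (d - j)) % d < g then
        |fp (τ, .inr j) - fq (nb δ τ, .inl s')| else 0) ≤ ELQ κ g β d fp fq τ := by
  unfold ELQ
  refine sum_le_sum fun j _ => ?_
  have h1 : ∑ δ : Fin (κ + 1), ∑ s' : Fin β,
      (if ((δ : ℕ) * β + s' + (d - j)) % d < g then
        |fp (τ, .inr j) - fq (nb δ τ, .inl s')| else 0) ≤
      ∑ δ : Fin (κ + 1), (fun τ' : Fin (2 ^ κ) => ∑ s' : Fin β,
        if decide (∃ δ : Fin (κ + 1), nb δ τ = τ' ∧ ((δ : ℕ) * β + s' + (d - j)) % d < g) = true then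
          |fp (τ, .inr j) - fq (τ', .inl s')| else 0) (nb δ τ) := by
    refine sum_le_sum fun δ _ => sum_le_sum fun s' _ => ?_
    by_cases h : ((δ : ℕ) * β + s' + (d - j)) % d < g
    · rw [if_pos h, if_pos (decide_eq_true ⟨δ, rfl, h⟩)]
    · rw [if_neg h]
      split_ifs
      · exact abs_nonneg _
      · exact le_rfl
  refine h1.trans ?_
  have h2 := Finset.sum_image (s := (univ : Finset (Fin (κ + 1)))) (g := fun δ => nb δ τ)
    (f := (fun τ' : Fin (2 ^ κ) => ∑ s' : Fin β,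
        if decide (∃ δ : Fin (κ + 1), nb δ τ = τ' ∧ ((δ : ℕ) * β + s' + (d - j)) % d < g) = true then
          |fp (τ, .inr j) - fq (τ', .inl s')| else 0)) ((nb_inj τ).injOn)
  rw [← h2]
  refine sum_le_sum_of_subset_of_nonneg (subset_univ _) fun τ' _ _ => sum_nonneg fun s' _ => ?_
  split_ifs
  · exact abs_nonneg _
  · exact le_rfl

end SatEAux

theorem sat_est {κ g β d : ℕ} (fp : PT κ g β d → ℝ) (fq : QT κ g β d → ℝ) (hg : 1 ≤ g)
    (hgd : g < d) (hd : d = (κ + 1) * β) (τ : Fin (2 ^ κ)) (m : ℝ) :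
    ∑ j, |fp (τ, .inr j) - m| + ∑ j', |fq (τ, .inr j') - m| ≤
      3 * ESR κ g β d fp fq τ / ((d : ℝ) - g) + 2 * ELQ κ g β d fp fq τ / g +
        2 * ∑ δ, |∑ s' : Fin β, (fq (nb δ τ, .inl s') - m)| := by
  have hd1 : 1 ≤ d := by omega
  have he1 : 1 ≤ d - g := by omega
  have h1 := SatEAux.avg d (d - g) hd1 he1 (Nat.sub_le _ _) (fun j => fp (τ, .inr j))
    (fun j' => fq (τ, .inr j')) m
  have hc : ((d - g : ℕ) : ℝ) = (d : ℝ) - g := by
    rw [Nat.cast_sub hgd.le]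
  rw [hc] at h1
  have g0 : (0 : ℝ) < g := by exact_mod_cast hg
  have e1 : ∑ j : Fin d, ∑ δ : Fin (κ + 1), ∑ s' : Fin β,
      (if ((δ : ℕ) * β + s' + (d - j)) % d < g then
        (fp (τ, .inr j) - m) - (fq (nb δ τ, .inl s') - m) else 0) =
      (g : ℝ) * ∑ j, (fp (τ, .inr j) - m) -
        (g : ℝ) * ∑ δ, ∑ s' : Fin β, (fq (nb δ τ, .inl s') - m) := by
    have a1 : ∀ (j : Fin d) (δ : Fin (κ + 1)) (s' : Fin β),
        (if ((δ : ℕ) * β + s' + (d - j)) % d < g then
          (fp (τ, .inr j) - m) - (fq (nb δ τ, .inl s') - m) else 0) =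
        (fp (τ, .inr j) - m) *
          (if ((δ : ℕ) * β + s' + (d - j)) % d < g then (1 : ℝ) else 0) -
        (fq (nb δ τ, .inl s') - m) *
          (if ((δ : ℕ) * β + s' + (d - j)) % d < g then (1 : ℝ) else 0) := by
      intro j δ s'
      split_ifs <;> ring
    simp only [a1]
    rw [SatEAux.sum3_sub]
    congr 1
    · rw [mul_sum]
      refine sum_congr rfl fun j _ => ?_
      simp only [← mul_sum]
      rw [SatEAux.wsum_pair κ β g d hgd.le hd j, mul_comm]
    · rw [sum_comm, mul_sum]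
      refine sum_congr rfl fun δ _ => ?_
      rw [sum_comm, mul_sum]
      refine sum_congr rfl fun s' _ => ?_
      rw [← mul_sum, SatEAux.wsum_j g d _ hgd.le, mul_comm]
  have e2 : |(g : ℝ) * ∑ j, (fp (τ, .inr j) - m) -
        (g : ℝ) * ∑ δ, ∑ s' : Fin β, (fq (nb δ τ, .inl s') - m)| ≤ ELQ κ g β d fp fq τ := by
    rw [← e1]
    refine le_trans ?_ (SatEAux.elq κ g β d fp fq τ)
    refine (abs_sum_le_sum_abs _ _).trans (sum_le_sum fun j _ => ?_)
    refine (abs_sum_le_sum_abs _ _).trans (sum_le_sum fun δ _ => ?_)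
    refine (abs_sum_le_sum_abs _ _).trans (sum_le_sum fun s' _ => ?_)
    split_ifs
    · rw [sub_sub_sub_cancel_right]
    · rw [abs_zero]
  have e3 : |∑ j, (fp (τ, .inr j) - m)| ≤ ELQ κ g β d fp fq τ / g +
      |∑ δ, ∑ s' : Fin β, (fq (nb δ τ, .inl s') - m)| := by
    rw [← mul_sub, abs_mul, abs_of_pos g0] at e2
    have b1 : |∑ j, (fp (τ, .inr j) - m) - ∑ δ, ∑ s' : Fin β, (fq (nb δ τ, .inl s') - m)| ≤
        ELQ κ g β d fp fq τ / g := by
      rw [le_div_iff₀ g0, mul_comm]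
      exact e2
    have b2 := abs_sub_abs_le_abs_sub (∑ j, (fp (τ, .inr j) - m))
      (∑ δ, ∑ s' : Fin β, (fq (nb δ τ, .inl s') - m))
    linarith
  have e4 : |∑ δ, ∑ s' : Fin β, (fq (nb δ τ, .inl s') - m)| ≤
      ∑ δ, |∑ s' : Fin β, (fq (nb δ τ, .inl s') - m)| := abs_sum_le_sum_abs _ _
  have e5 : 2 * ELQ κ g β d fp fq τ / g = 2 * (ELQ κ g β d fp fq τ / g) := by ring
  rw [e5]
  unfold ESR
  linarith

end Pool.Agent.Lib.Pa7c826m
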