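import Pool.Agent.Lib.Pa7c826m.CoreE
import Pool.Agent.Lib.Pa7c826m.SatE

/-!
Edge expansion of one copy.

PROOF. `EE_split`: `Fintype.sum_prod_type`, `Fintype.sum_sum_type`, and `CR` is `false` between `P` and `R`, equality of the first
coordinates between `Λ` and `R` (`Finset.sum_ite_eq`), the condition of `ELQ` between `Λ` and `Q`.
`copy_l1`: take `m` from `core_est`, sum `sat_est` over `τ`; `∑ τ ∑ δ |∑ s' (fq (nb δ τ, .inl s') - m)| =
(κ + 1) ∑ τ |∑ s' (fq (τ, .inl s') - m)| ≤ (κ + 1) EPQ / b'` with `b' = β - g - 1` (`nb_bij`). In total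
`(3 + 2 (κ + 1)) EPQ / b' + 3 (∑ ESR) / (d - g) + 2 (∑ ELQ) / g`, and `(2 κ + 5) g ≤ 2 b'` (i.e. `(4 g + 5) g ≤ 2 (β - g - 1)`, from
`16 g ^ 2 ≤ β`), `3 g ≤ 2 (d - g)`.
`copy_exp`: `fp`, `fq` = indicator functions of `A`, `B`; the left side of `copy_l1` is
`g ((|A| + |B|) |1 - m| + (|Aᶜ| + |Bᶜ|) |m|) ≥ g min (|A| + |B|) (|Aᶜ| + |Bᶜ|)` as `|1 - m| + |m| ≥ 1`, and `EE` is the number of edges with exactly one
end in `A ∪ B`.
-/

namespace Pool.Agent.Lib.Pa7c826m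

open Finset Pool.Agent.Lib.Pa7c826 Pool.Agent.Lib.Pa7c826s

section

variable (κ g β d : ℕ) (ρ : ℕ → ℕ) (fp : PT κ g β d → ℝ) (fq : QT κ g β d → ℝ)

/-- variation along all edges -/
def EEC : ℝ := ∑ x, ∑ y, if CR κ g β d ρ x y = true then |fp x - fq y| else 0

end

namespace GExpAAux

theorem sum_abs_ind {α : Type*} [Fintype α] [DecidableEq α] (A : Finset α) (m : ℝ) :
    ∑ x, |(if x ∈ A then (1 : ℝ) else 0) - m| = A.card * |1 - m| + Aᶜ.card * |m| := by
  rw [← Finset.sum_add_sum_compl A]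
  congr 1
  · rw [Finset.sum_congr rfl (g := fun _ => |1 - m|)
      (fun x hx => by rw [if_pos hx])]
    simp
  · rw [Finset.sum_congr rfl (g := fun _ => |m|)
      (fun x hx => by rw [if_neg (Finset.mem_compl.mp hx), zero_sub, abs_neg])]
    simp

end GExpAAux

open GExpAAux

variable {κ g β d : ℕ} {ρ : ℕ → ℕ}

theorem EE_split (fp : PT κ g β d → ℝ) (fq : QT κ g β d → ℝ) :
    EEC κ g β d ρ fp fq = EPQ κ g β d ρ fp fq + ∑ τ, ELQ κ g β d fp fq τ +
      ∑ τ, ESR κ g β d fp fq τ := by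
  have h1 : ∀ τ : Fin (2 ^ κ), (∑ s : Fin (β - g), ∑ y : QT κ g β d,
      if CR κ g β d ρ (τ, .inl s) y = true then |fp (τ, .inl s) - fq y| else 0) =
      ∑ τ', ∑ s : Fin (β - g), ∑ s' : Fin β,
        if CR κ g β d ρ (τ, .inl s) (τ', .inl s') = true then
          |fp (τ, .inl s) - fq (τ', .inl s')| else 0 := by
    intro τ
    rw [Finset.sum_comm (s := (univ : Finset (Fin (2 ^ κ)))) (t := (univ : Finset (Fin (β - g))))]
    refine Finset.sum_congr rfl fun s _ => ?_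
    rw [Fintype.sum_prod_type]
    refine Finset.sum_congr rfl fun τ' _ => ?_
    rw [Fintype.sum_sum_type]
    have : (∑ a : Fin (d - g), if CR κ g β d ρ (τ, .inl s) (τ', .inr a) = true then
        |fp (τ, .inl s) - fq (τ', .inr a)| else 0) = 0 :=
      Finset.sum_eq_zero fun a _ => by simp [CR]
    rw [this, add_zero]
  have h2 : ∀ τ : Fin (2 ^ κ), (∑ j : Fin d, ∑ y : QT κ g β d,
      if CR κ g β d ρ (τ, .inr j) y = true then |fp (τ, .inr j) - fq y| else 0) =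
      ELQ κ g β d fp fq τ + ESR κ g β d fp fq τ := by
    intro τ
    unfold ELQ ESR
    rw [← Finset.sum_add_distrib]
    refine Finset.sum_congr rfl fun j _ => ?_
    rw [Fintype.sum_prod_type]
    simp only [Fintype.sum_sum_type]
    rw [Finset.sum_add_distrib]
    congr 1
    have : ∀ τ' : Fin (2 ^ κ), (∑ a : Fin (d - g),
        if CR κ g β d ρ (τ, .inr j) (τ', .inr a) = true then
          |fp (τ, .inr j) - fq (τ', .inr a)| else 0) =
        if τ = τ' then ∑ a : Fin (d - g), |fp (τ, .inr j) - fq (τ', .inr a)| else 0 := by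
      intro τ'
      by_cases h : τ = τ'
      · rw [if_pos h]
        refine Finset.sum_congr rfl fun a _ => ?_
        rw [if_pos]
        simp [CR, h]
      · rw [if_neg h]
        refine Finset.sum_eq_zero fun a _ => ?_
        rw [if_neg]
        simp [CR, h]
    rw [Finset.sum_congr rfl fun τ' _ => this τ', Finset.sum_ite_eq, if_pos (mem_univ _)]
  unfold EEC EPQ
  rw [Fintype.sum_prod_type]
  simp only [Fintype.sum_sum_type (α₁ := Fin (β - g)) (α₂ := Fin d)]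
  rw [Finset.sum_add_distrib, Finset.sum_congr rfl fun τ _ => h1 τ,
    Finset.sum_congr rfl fun τ _ => h2 τ, Finset.sum_add_distrib]
  ring

theorem copy_l1 (fp : PT κ g β d → ℝ) (fq : QT κ g β d → ℝ) (hg : 1 ≤ g) (hκ : κ = 2 * g)
    (hβ : 16 * g ^ 2 ≤ β) (hd : d = (κ + 1) * β) :
    ∃ m : ℝ, g * (∑ x, |fp x - m| + ∑ y, |fq y - m|) ≤ 2 * EEC κ g β d ρ fp fq := by
  have hgg : g ≤ g ^ 2 := by nlinarith
  obtain ⟨m, hm1, hm2⟩ := core_est (ρ := ρ) fp fq (by omega) (by omega : 2 ≤ β - g)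
  refine ⟨m, ?_⟩
  have hgr : (1 : ℝ) ≤ g := by exact_mod_cast hg
  have hβr : (16 : ℝ) * g ^ 2 ≤ β := by exact_mod_cast hβ
  have hb : (0 : ℝ) < (β : ℝ) - g - 1 := by nlinarith
  have hdβ : β ≤ d := by rw [hd]; nlinarith [Nat.zero_le (κ * β)]
  have hdβr : (β : ℝ) ≤ d := by exact_mod_cast hdβ
  have hdg : (0 : ℝ) < (d : ℝ) - g := by nlinarith
  have hκr : (κ : ℝ) = 2 * g := by exact_mod_cast hκ
  have hgd : g < d := by omega
  -- nonnegativity
  have hEPQ : 0 ≤ EPQ κ g β d ρ fp fq := by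
    unfold EPQ
    refine Finset.sum_nonneg fun _ _ => Finset.sum_nonneg fun _ _ => Finset.sum_nonneg fun _ _ =>
      Finset.sum_nonneg fun _ _ => ?_
    split_ifs
    · exact abs_nonneg _
    · exact le_rfl
  have hELQ : 0 ≤ ∑ τ, ELQ κ g β d fp fq τ := by
    unfold ELQ
    refine Finset.sum_nonneg fun _ _ => Finset.sum_nonneg fun _ _ => Finset.sum_nonneg fun _ _ =>
      Finset.sum_nonneg fun _ _ => ?_
    split_ifs
    · exact abs_nonneg _
    · exact le_rfl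
  have hESR : 0 ≤ ∑ τ, ESR κ g β d fp fq τ := by
    unfold ESR
    exact Finset.sum_nonneg fun _ _ => Finset.sum_nonneg fun _ _ => Finset.sum_nonneg fun _ _ =>
      abs_nonneg _
  have hsat : ∑ τ, (∑ j, |fp (τ, .inr j) - m| + ∑ j', |fq (τ, .inr j') - m|) ≤
      3 * (∑ τ, ESR κ g β d fp fq τ) / ((d : ℝ) - g) + 2 * (∑ τ, ELQ κ g β d fp fq τ) / g +
        2 * (((κ : ℝ) + 1) * ∑ τ, |∑ s' : Fin β, (fq (τ, .inl s') - m)|) := by
    refine (Finset.sum_le_sum fun τ _ => sat_est fp fq hg hgd hd τ m).trans (le_of_eq ?_)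
    rw [Finset.sum_add_distrib, Finset.sum_add_distrib]
    congr 1
    · congr 1
      · rw [← Finset.sum_div, ← Finset.mul_sum]
      · rw [← Finset.sum_div, ← Finset.mul_sum]
    · rw [← Finset.mul_sum, Finset.sum_comm]
      congr 1
      have : ∀ δ : Fin (κ + 1), ∑ τ : Fin (2 ^ κ), |∑ s' : Fin β, (fq (nb δ τ, .inl s') - m)| =
          ∑ τ : Fin (2 ^ κ), |∑ s' : Fin β, (fq (τ, .inl s') - m)| := by
        intro δ
        exact (nb_bij δ).sum_comp (fun τ => |∑ s' : Fin β, (fq (τ, .inl s') - m)|)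
      rw [Finset.sum_congr rfl fun δ _ => this δ, Finset.sum_const, Finset.card_univ,
        Fintype.card_fin, nsmul_eq_mul]
      push_cast
      ring
  have hL : ∑ x, |fp x - m| + ∑ y, |fq y - m| =
      ∑ τ, (∑ s, |fp (τ, .inl s) - m| + ∑ s', |fq (τ, .inl s') - m|) +
        ∑ τ, (∑ j, |fp (τ, .inr j) - m| + ∑ j', |fq (τ, .inr j') - m|) := by
    rw [Fintype.sum_prod_type, Fintype.sum_prod_type]
    simp only [Fintype.sum_sum_type, Finset.sum_add_distrib]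
    ring
  rw [hL, EE_split]
  set P := EPQ κ g β d ρ fp fq
  set LQ := ∑ τ, ELQ κ g β d fp fq τ
  set SR := ∑ τ, ESR κ g β d fp fq τ
  set X := ∑ τ, (∑ s, |fp (τ, .inl s) - m| + ∑ s', |fq (τ, .inl s') - m|)
  set Y := ∑ τ, (∑ j, |fp (τ, .inr j) - m| + ∑ j', |fq (τ, .inr j') - m|)
  set W := ∑ τ, |∑ s' : Fin β, (fq (τ, .inl s') - m)|
  have e1 : X ≤ 3 * P / ((β : ℝ) - g - 1) := by rw [le_div_iff₀ hb]; linarith
  have e2 : W ≤ P / ((β : ℝ) - g - 1) := by rw [le_div_iff₀ hb]; linarith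
  have e3 : g * X + g * (2 * (((κ : ℝ) + 1) * W)) ≤ 2 * P := by
    have : g * X + g * (2 * (((κ : ℝ) + 1) * W)) ≤
        g * (3 * P / ((β : ℝ) - g - 1)) + g * (2 * (((κ : ℝ) + 1) * (P / ((β : ℝ) - g - 1)))) := by
      gcongr
    refine this.trans ?_
    have e : g * (3 * P / ((β : ℝ) - g - 1)) + g * (2 * (((κ : ℝ) + 1) * (P / ((β : ℝ) - g - 1)))) =
        (g * (2 * κ + 5)) * P / ((β : ℝ) - g - 1) := by
      field_simp
      ring
    rw [e, div_le_iff₀ hb, hκr]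
    have : (g * (2 * (2 * (g : ℝ)) + 5)) ≤ 2 * ((β : ℝ) - g - 1) := by nlinarith
    nlinarith
  have e4 : g * (3 * SR / ((d : ℝ) - g)) ≤ 2 * SR := by
    rw [mul_div_assoc', div_le_iff₀ hdg]
    have : 3 * (g : ℝ) ≤ 2 * ((d : ℝ) - g) := by nlinarith
    nlinarith
  have e5 : g * (2 * LQ / g) = 2 * LQ := by
    field_simp
  have e6 : g * Y ≤ g * (3 * SR / ((d : ℝ) - g) + 2 * LQ / g + 2 * (((κ : ℝ) + 1) * W)) := by
    gcongr
  have e7 : g * (3 * SR / ((d : ℝ) - g) + 2 * LQ / g + 2 * (((κ : ℝ) + 1) * W)) =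
      g * (3 * SR / ((d : ℝ) - g)) + g * (2 * LQ / g) + g * (2 * (((κ : ℝ) + 1) * W)) := by
    ring
  have e8 : (g : ℝ) * (X + Y) = g * X + g * Y := by ring
  rw [e8]
  linarith

/-- edge expansion at least `g / 2` of a copy -/
theorem copy_exp (hg : 1 ≤ g) (hκ : κ = 2 * g) (hβ : 16 * g ^ 2 ≤ β) (hd : d = (κ + 1) * β)
    (A : Finset (PT κ g β d)) (B : Finset (QT κ g β d)) :
    g * min (A.card + B.card) (Aᶜ.card + Bᶜ.card) ≤
      2 * (univ.filter (fun e : PT κ g β d × QT κ g β d =>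
        CR κ g β d ρ e.1 e.2 = true ∧ ¬ (e.1 ∈ A ↔ e.2 ∈ B))).card := by
  classical
  obtain ⟨m, hm⟩ := copy_l1 (ρ := ρ) (fun x : PT κ g β d => if x ∈ A then (1 : ℝ) else 0)
    (fun y : QT κ g β d => if y ∈ B then (1 : ℝ) else 0) hg hκ hβ hd
  have hE : EEC κ g β d ρ (fun x : PT κ g β d => if x ∈ A then (1 : ℝ) else 0)
      (fun y : QT κ g β d => if y ∈ B then (1 : ℝ) else 0) =
      (univ.filter (fun e : PT κ g β d × QT κ g β d =>
        CR κ g β d ρ e.1 e.2 = true ∧ ¬ (e.1 ∈ A ↔ e.2 ∈ B))).card := by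
    unfold EEC
    rw [← Fintype.sum_prod_type (f := fun e : PT κ g β d × QT κ g β d =>
      if CR κ g β d ρ e.1 e.2 = true then
        |(if e.1 ∈ A then (1 : ℝ) else 0) - (if e.2 ∈ B then (1 : ℝ) else 0)| else 0)]
    rw [Finset.card_filter]
    push_cast
    refine Finset.sum_congr rfl fun e _ => ?_
    by_cases h1 : CR κ g β d ρ e.1 e.2 = true <;> by_cases h2 : e.1 ∈ A <;>
      by_cases h3 : e.2 ∈ B <;> simp [h1, h2, h3]
  rw [hE, sum_abs_ind A m, sum_abs_ind B m] at hm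
  have ha : 1 ≤ |1 - m| + |m| := by
    have := abs_add_le (1 - m) m
    simpa using this
  have h1 : ((min (A.card + B.card) (Aᶜ.card + Bᶜ.card) : ℕ) : ℝ) ≤ A.card + B.card := by
    exact_mod_cast min_le_left _ _
  have h2 : ((min (A.card + B.card) (Aᶜ.card + Bᶜ.card) : ℕ) : ℝ) ≤ Aᶜ.card + Bᶜ.card := by
    exact_mod_cast min_le_right _ _
  set M := ((min (A.card + B.card) (Aᶜ.card + Bᶜ.card) : ℕ) : ℝ) with hM
  have hM0 : 0 ≤ M := Nat.cast_nonneg _
  have h3 : M ≤ (A.card * |1 - m| + Aᶜ.card * |m|) + (B.card * |1 - m| + Bᶜ.card * |m|) := by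
    have e1 : M * |1 - m| ≤ (A.card + B.card) * |1 - m| :=
      mul_le_mul_of_nonneg_right h1 (abs_nonneg _)
    have e2 : M * |m| ≤ (Aᶜ.card + Bᶜ.card) * |m| :=
      mul_le_mul_of_nonneg_right h2 (abs_nonneg _)
    nlinarith
  have h4 : (g : ℝ) * M ≤ g * ((A.card * |1 - m| + Aᶜ.card * |m|) +
      (B.card * |1 - m| + Bᶜ.card * |m|)) := by
    gcongr
  have h5 := h4.trans hm
  rw [hM] at h5
  exact_mod_cast h5

end Pool.Agent.Lib.Pa7c826m
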