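import Pool.Agent.Lib.Pa7c826m.GDef
import Pool.Agent.Lib.Pa7c826s.TPolyB

/-!
The adjacency of the graph of the reduction is computable in polynomial time.

PROOF. As `poly_ptN`, `poly_F5g` in Lib/Pa7c826s/TPolyB.lean. `rk`, `crk`: `PolyN.count` over `range` with `poly_F` (Lib/Pa7c826/NearHalf.lean; `up`, `upN`,
`last` for the bound variable). `nbN δ τ` with `δ < κ + 1`: `2 ^ (δ - 1) ≤ 2 ^ κ` (as in `pow_div`, `poly_flipN` there; the
restriction `δ < κ + 1` is part of the domain under the bounded quantifier). Bounded quantifiers: `PolyB.exists`-lemmas as used in Lib/Pa7c826t or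
Lib/Pa7c826y (e.g. `decide (∃ u < n, … = true)` in `fr` and `indB`, see `AlgPoly.lean`). `divz`, `modz` (Lib/Pa7c826t/EPoly.lean) for quotients and remainders by
`wP`, `wQ`, `d`. `poly_gadj`: `poly_F` for `E = G.F`.
-/

namespace Pool.Agent.Lib.Pa7c826m

open Finset Pool.Agent.Lib.Pa7c826 Pool.Agent.Lib.Pa7c826s Pool.Agent.Lib.Pa7c826t
open Pool.Agent.Lib.PolyTime

variable {α : Type} {D : α → Prop} {ctx : List (α → List Bool)} {G : α → BGraph} {s : α → ℕ}

namespace GPolyAAux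

theorem pow_pred {κ δ : α → ℕ} (hδ : PolyN D ctx δ) (h2 : PolyN D ctx (fun x => 2 ^ κ x))
    (h : ∀ x, D x → δ x < κ x + 1) : PolyN D ctx (fun x => 2 ^ (δ x - 1)) := by
  obtain ⟨B, hB⟩ := PolyC.length_le h2
  refine Pool.Agent.Lib.P8e91ed.PT.n_pow (PolyN.const 2)
    (PolyN.sub hδ (PolyN.const 1)) ⟨B, fun x hx => ?_⟩
  have h1 := hB x hx
  rw [un_length] at h1
  have h3 := h x hx
  exact le_trans (Nat.pow_le_pow_right (by norm_num) (by omega)) h1

theorem poly_nbN {κ δ t : α → ℕ} (hδ : PolyN D ctx δ) (ht : PolyN D ctx t)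
    (h2 : PolyN D ctx (fun x => 2 ^ κ x)) (h : ∀ x, D x → δ x < κ x + 1) :
    PolyN D ctx (fun x => nbN (δ x) (t x)) := by
  have hp := pow_pred hδ h2 h
  have hd := PolyN.divPow ht (PolyN.sub hδ (PolyN.const 1))
  have hm := PolyN.mod hd (PolyN.const 2) (fun _ _ => by norm_num)
  have hf : PolyN D ctx (fun x => flipN (δ x - 1) (t x)) :=
    PolyN.ite (PolyB.natEq hm (PolyN.const 0)) (ht.add hp) (PolyN.sub ht hp)
  exact PolyN.ite (PolyB.natEq hδ (PolyN.const 0)) ht hf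

theorem poly_exA {κ τ τ' : α → ℕ} (hκ : PolyN D ctx κ) (h2 : PolyN D ctx (fun x => 2 ^ κ x))
    (h3 : PolyN D ctx τ) (h5 : PolyN D ctx τ') :
    PolyB D ctx (fun x => decide (∃ δ < κ x + 1, decide (nbN δ (τ x) = τ' x) = true)) := by
  have N2 := upN (n := fun x => κ x + 1) h2
  have T := upN (n := fun x => κ x + 1) h3
  have T' := upN (n := fun x => κ x + 1) h5
  have L := last (D := D) (ctx := ctx) (n := fun x => κ x + 1)
  exact PolyB.exists_lt (φ := fun p : α × ℕ => decide (nbN p.2 (τ p.1) = τ' p.1)) hκ.succ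
    (PolyB.natEq (poly_nbN L T N2 (fun x hx => hx.2)) T')

theorem poly_exB {κ g β d τ s' τ' s'' : α → ℕ} (hκ : PolyN D ctx κ)
    (h2 : PolyN D ctx (fun x => 2 ^ κ x)) (hg : PolyN D ctx g) (hβ : PolyN D ctx β)
    (hd : PolyN D ctx d) (h3 : PolyN D ctx τ) (h4 : PolyN D ctx s')
    (h5 : PolyN D ctx τ') (h6 : PolyN D ctx s'') :
    PolyB D ctx (fun x => decide (∃ δ < κ x + 1, (decide (nbN δ (τ x) = τ' x) &&
      decide ((δ * β x + s'' x + (d x - (s' x - (β x - g x)))) % d x < g x)) = true)) := by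
  have N2 := upN (n := fun x => κ x + 1) h2
  have T := upN (n := fun x => κ x + 1) h3
  have T' := upN (n := fun x => κ x + 1) h5
  have S := upN (n := fun x => κ x + 1) h4
  have S' := upN (n := fun x => κ x + 1) h6
  have Gg := upN (n := fun x => κ x + 1) hg
  have Bb := upN (n := fun x => κ x + 1) hβ
  have Dd := upN (n := fun x => κ x + 1) hd
  have L := last (D := D) (ctx := ctx) (n := fun x => κ x + 1)
  exact PolyB.exists_lt (φ := fun p : α × ℕ => (decide (nbN p.2 (τ p.1) = τ' p.1) &&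
      decide ((p.2 * β p.1 + s'' p.1 + (d p.1 - (s' p.1 - (β p.1 - g p.1)))) % d p.1 < g p.1)))
    hκ.succ
    ((PolyB.natEq (poly_nbN L T N2 (fun x hx => hx.2)) T').and
      (PolyB.lt (PolyN.modz (((L.mul Bb).add S').add (PolyN.sub Dd (PolyN.sub S
        (PolyN.sub Bb Gg)))) Dd) Gg))

end GPolyAAux

open GPolyAAux

theorem poly_rk (hw : PolyC D ctx (fun x => inCode (G x) (s x))) {u v : α → ℕ}
    (hu : PolyN D ctx u) (hv : PolyN D ctx v) : PolyN D ctx (fun x => rk (G x).F (u x) (v x)) := by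
  have W := up (n := v) hw
  have U := upN (n := v) hu
  have L := last (D := D) (ctx := ctx) (n := v)
  exact PolyN.count (φ := fun p : α × ℕ => (G p.1).F (u p.1) p.2) hv (poly_F W U L)

theorem poly_crk (hw : PolyC D ctx (fun x => inCode (G x) (s x))) {u v : α → ℕ}
    (hu : PolyN D ctx u) (hv : PolyN D ctx v) : PolyN D ctx (fun x => crk (G x).F (u x) (v x)) := by
  have W := up (n := u) hw
  have V := upN (n := u) hv
  have L := last (D := D) (ctx := ctx) (n := u)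
  exact PolyN.count (φ := fun p : α × ℕ => (G p.1).F p.2 (v p.1)) hu (poly_F W L V)

/-- `r` is the number of removed edges at the vertex in question -/
theorem poly_cadj {κ g β d r τ s' τ' s'' : α → ℕ} (hκ : PolyN D ctx κ)
    (h2 : PolyN D ctx (fun x => 2 ^ κ x)) (hg : PolyN D ctx g) (hβ : PolyN D ctx β)
    (hd : PolyN D ctx d) (hr : PolyN D ctx r) (h3 : PolyN D ctx τ) (h4 : PolyN D ctx s')
    (h5 : PolyN D ctx τ') (h6 : PolyN D ctx s'') :
    PolyB D ctx (fun x => cadj (κ x) (g x) (β x) (d x) (fun _ => r x) (τ x) (s' x) (τ' x)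
      (s'' x)) := by
  have hbg := PolyN.sub hβ hg
  have b1 := PolyB.lt h6 hβ
  have b2 := PolyB.lt h4 hbg
  have e1 := poly_exA hκ h2 h3 h5
  have e2 := poly_exB hκ h2 hg hβ hd h3 h4 h5 h6
  have c1 := e1.and ((PolyB.natEq h4 (PolyN.const 0)).and
    ((PolyB.natEq h5 h3).and (PolyB.lt h6 hr))).not
  have c2 := b2.not.and (PolyB.natEq h3 h5)
  have c3 := PolyB.ite b2 (PolyC.mono c1 fun _ h => h.1) (PolyC.mono e2 fun _ h => h.1)
  exact PolyB.ite b1 (PolyC.mono c3 fun _ h => h.1) (PolyC.mono c2 fun _ h => h.1)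

theorem poly_gadj (hw : PolyC D ctx (fun x => inCode (G x) (s x))) {κ g β d X Y : α → ℕ}
    (hκ : PolyN D ctx κ) (h2 : PolyN D ctx (fun x => 2 ^ κ x)) (hg : PolyN D ctx g)
    (hβ : PolyN D ctx β) (hd : PolyN D ctx d) (hX : PolyN D ctx X) (hY : PolyN D ctx Y) :
    PolyB D ctx (fun x => gadj (G x).F (G x).a (G x).b (κ x) (g x) (β x) (d x) (X x) (Y x)) := by
  have hP := (PolyN.sub hβ hg).add hd
  have hQ := hβ.add (PolyN.sub hd hg)
  have mP := h2.mul hP
  have mQ := h2.mul hQ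
  have b1 := PolyB.lt hX mP
  have b2 := PolyB.lt hY mQ
  have X1 := PolyN.divz hX hP
  have X2 := PolyN.modz hX hP
  have Y1 := PolyN.divz hY hQ
  have Y2 := PolyN.modz hY hQ
  have X3 := PolyN.divz (PolyN.sub hX mP) hQ
  have X4 := PolyN.modz (PolyN.sub hX mP) hQ
  have Y3 := PolyN.divz (PolyN.sub hY mQ) hP
  have Y4 := PolyN.modz (PolyN.sub hY mQ) hP
  have r1 := poly_rk hw X1 (poly_b hw)
  have r2 := poly_crk hw (poly_a hw) Y3
  have A := poly_cadj hκ h2 hg hβ hd r1 X1 X2 Y1 Y2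
  have B := (poly_F hw X1 Y3).and ((PolyB.natEq X2 (PolyN.const 0)).and
    (PolyB.natEq Y4 (PolyN.const 0)))
  have C := (poly_F hw Y1 X3).and ((PolyB.natEq Y2 (poly_rk hw Y1 X3)).and
    (PolyB.natEq X4 (poly_crk hw Y1 X3)))
  have E := poly_cadj hκ h2 hg hβ hd r2 Y3 Y4 X3 X4
  have c1 := PolyB.ite b2 (PolyC.mono A fun _ h => h.1) (PolyC.mono B fun _ h => h.1)
  have c2 := PolyB.ite b2 (PolyC.mono C fun _ h => h.1) (PolyC.mono E fun _ h => h.1)
  exact PolyB.ite b1 (PolyC.mono c1 fun _ h => h.1) (PolyC.mono c2 fun _ h => h.1)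

end Pool.Agent.Lib.Pa7c826m
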