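import Pool.Agent.Lib.Pa7c826m.Defs
import Pool.Agent.Lib.Pa7c826y.Mul

/-!
Transfer of randomised approximation from a set of pairs (graph, precision).

PROOF. `transfer4`: the proof of `HasFPRAS.transfer3` (Lib/Pa7c826y/Mul.lean) word for word, with `P (red G t) (2 * t)` in place of `C' (red G t)`.
`HasRApx.mono`, `HasRApx.of_fpras`: the proof of `HasFPRAS.mono` (Lib/Pa7c826/Transfer.lean): restrict the domain of the machine. `HasApx.mono`: the same without random bits.
-/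

namespace Pool.Agent.Lib.Pa7c826m

open Finset Pool.Agent.Lib.Pa7c826 Pool.Agent.Lib.Pa7c826y
open Pool.Agent.Lib.PolyTime

theorem transfer4 {C : BGraph → Prop} {P : BGraph → ℕ → Prop} (red : BGraph → ℕ → BGraph)
    (K u l : BGraph → ℕ → ℕ)
    (hred : PolyC (fun x : BGraph × ℕ => C x.1 ∧ 1 ≤ x.2) [fun x => inCode x.1 x.2]
      (fun x => inCode (red x.1 x.2) (2 * x.2)))
    (hK : PolyN (fun x : BGraph × ℕ => C x.1 ∧ 1 ≤ x.2) [fun x => inCode x.1 x.2]
      (fun x => K x.1 x.2))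
    (hl : PolyN (fun x : BGraph × ℕ => C x.1 ∧ 1 ≤ x.2) [fun x => inCode x.1 x.2]
      (fun x => l x.1 x.2))
    (hu : PolyBin (fun x : BGraph × ℕ => C x.1 ∧ 1 ≤ x.2) [fun x => inCode x.1 x.2]
      (fun x => u x.1 x.2))
    (hul : ∀ G t, C G → 1 ≤ t → u G t < 2 ^ l G t)
    (hC : ∀ G t, C G → 1 ≤ t → P (red G t) (2 * t))
    (h12 : ∀ G t, C G → 1 ≤ t → |(numIndep (red G t).graph : ℚ) * u G t / 2 ^ K G t -
      numIndep G.graph| ≤ numIndep G.graph / (2 * t + 1))
    (h : HasRApx P) : HasFPRAS C := by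
  obtain ⟨m', f', hf', hgood⟩ := h
  obtain ⟨pr, hpr⟩ := hred.length_le
  let M' : BGraph → ℕ → ℕ := fun G t => m'.eval (inCode (red G t) (2 * t)).length
  let m : Polynomial ℕ := m'.comp pr
  have hM : ∀ G t, C G → 1 ≤ t → M' G t ≤ m.eval (inCode G t).length := by
    intro G t hG ht
    have h3 := hpr (G, t) ⟨hG, ht⟩
    simp only [vals_cons, vals_nil, total_cons, total_nil, Nat.add_zero] at h3
    simp only [M', m, Polynomial.eval_comp]
    exact eval_mono _ h3
  let f : BGraph → ℕ → List Bool → List Bool := fun G t r =>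
    rescale (K G t) (u G t) (l G t) (f' (red G t) (2 * t) (r.take (M' G t)))
  refine ⟨m, f, ?_, ?_⟩
  · -- the machine
    let D : BGraph × ℕ × List Bool → Prop := fun x =>
      C x.1 ∧ 1 ≤ x.2.1 ∧ x.2.2.length = m.eval (inCode x.1 x.2.1).length
    let enc : BGraph × ℕ × List Bool → List Bool := fun x => inCode x.1 x.2.1 ++ x.2.2
    have hw : PolyC D [enc] enc := PolyC.var (by simp)
    have hlen : PolyN D [enc] (fun x => (inCode x.1 x.2.1).length) :=
      (((poly_tOf hw).add ((poly_aOf hw).add ((poly_bOf hw).add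
        ((poly_aOf hw).mul (poly_bOf hw))))).add (PolyN.const 3)).congr (fun x _ =>
          lenOf_append x.1 x.2.1 x.2.2)
    have hpre : PolyC D [enc] (fun x => inCode x.1 x.2.1) :=
      (PolyC.take hw hlen).congr (fun x _ => List.take_left)
    have hsuf : PolyC D [enc] (fun x => x.2.2) :=
      (PolyC.drop hw hlen).congr (fun x _ => List.drop_left)
    have hsub : ∀ {t : BGraph × ℕ → List Bool},
        PolyC (fun x : BGraph × ℕ => C x.1 ∧ 1 ≤ x.2) [fun x => inCode x.1 x.2] t →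
        PolyC D [enc] (fun x => t (x.1, x.2.1)) := by
      intro t ht
      have h3 := ht.reindex (β := BGraph × ℕ × List Bool) (D' := D) (fun x => (x.1, x.2.1))
        (fun x hx => ⟨hx.1, hx.2.1⟩)
      refine h3.comp ?_
      intro g hg
      simp only [List.map_cons, List.map_nil, List.mem_singleton] at hg
      subst hg
      exact hpre
    have hred' : PolyC D [enc] (fun x => inCode (red x.1 x.2.1) (2 * x.2.1)) := hsub hred
    have hK' : PolyN D [enc] (fun x => K x.1 x.2.1) := hsub hK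
    have hl' : PolyN D [enc] (fun x => l x.1 x.2.1) := hsub hl
    have hu' : PolyBin D [enc] (fun x => u x.1 x.2.1) := by
      obtain ⟨s, h3, h4⟩ := hu
      exact ⟨fun x => s (x.1, x.2.1), hsub h3, fun x hx => h4 (x.1, x.2.1) ⟨hx.1, hx.2.1⟩⟩
    have hM' : PolyN D [enc] (fun x => M' x.1 x.2.1) :=
      PolyN.polyEval (PolyN.length hred') m'
    have hin : PolyC D [enc] (fun x => inCode (red x.1 x.2.1) (2 * x.2.1) ++
        x.2.2.take (M' x.1 x.2.1)) := hred'.append (PolyC.take hsuf hM')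
    have hcall : PolyC D [enc] (fun x => f' (red x.1 x.2.1) (2 * x.2.1)
        (x.2.2.take (M' x.1 x.2.1))) := by
      refine PolyC.applyTM2 hf' _ _ hin ?_
      rintro ⟨G, t, r⟩ ⟨hG, ht, hr⟩
      refine ⟨⟨(red G t, 2 * t, r.take (M' G t)), hC G t hG ht, ?_, ?_⟩, rfl, rfl⟩
      · have ht' : 1 ≤ t := ht
        show 1 ≤ 2 * t
        omega
      · show (r.take (M' G t)).length = M' G t
        have hr' : r.length = m.eval (inCode G t).length := hr
        rw [List.length_take, hr', min_eq_left (hM G t hG ht)]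
    have haft := PolyC.afterTrue hcall
    have hprod : PolyBin D [enc] (fun x => bval (afterTrue (f' (red x.1 x.2.1) (2 * x.2.1)
        (x.2.2.take (M' x.1 x.2.1)))) * u x.1 x.2.1) :=
      PolyBin.mul ⟨_, haft, fun _ _ => rfl⟩ hu'
    have hcan := PolyBin.canon ((PolyN.length haft).add hl') hprod
    have hones : PolyN D [enc] (fun x => K x.1 x.2.1 + ((f' (red x.1 x.2.1) (2 * x.2.1)
        (x.2.2.take (M' x.1 x.2.1))).takeWhile id).length) :=
      hK'.add (PolyN.length (PolyC.takeTrue hcall))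
    have hout : PolyC D [enc] (fun x => f x.1 x.2.1 x.2.2) :=
      PolyC.append hones (PolyC.cons false hcan)
    exact PolyC.toTM2 enc (fun x => f x.1 x.2.1 x.2.2) id hout
  · intro G t hG ht
    obtain ⟨j, hj⟩ := Nat.exists_eq_add_of_le (hM G t hG ht)
    rw [hj]
    have h3 := hgood (red G t) (2 * t) (hC G t hG ht) (by omega)
    have h4 : Nat.card {r : Fin (M' G t + j) → Bool //
        Good (red G t) (2 * t) (f' (red G t) (2 * t) ((List.ofFn r).take (M' G t)))} ≤
        Nat.card {r : Fin (M' G t + j) → Bool // Good G t (f G t (List.ofFn r))} := by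
      refine Nat.card_le_card_of_injective (fun r => ⟨r.1, ?_⟩) ?_
      · exact Good.transfer3 ht (hul G t hG ht) r.2 (h12 G t hG ht)
      · intro r r' hrr
        simp only [Subtype.mk.injEq] at hrr
        exact Subtype.ext hrr
    rw [card_prefix (M' G t) j (fun s => Good (red G t) (2 * t) (f' (red G t) (2 * t) s))] at h4
    have h5 : 3 * 2 ^ M' G t ≤ 4 * Nat.card {r : Fin (M' G t) → Bool //
        Good (red G t) (2 * t) (f' (red G t) (2 * t) (List.ofFn r))} := h3
    calc 3 * 2 ^ (M' G t + j) = (3 * 2 ^ M' G t) * 2 ^ j := by rw [pow_add]; ring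
      _ ≤ (4 * Nat.card {r : Fin (M' G t) → Bool //
        Good (red G t) (2 * t) (f' (red G t) (2 * t) (List.ofFn r))}) * 2 ^ j :=
          Nat.mul_le_mul_right _ h5
      _ = 4 * (Nat.card {r : Fin (M' G t) → Bool //
        Good (red G t) (2 * t) (f' (red G t) (2 * t) (List.ofFn r))} * 2 ^ j) := by ring
      _ ≤ _ := Nat.mul_le_mul_left _ h4

theorem HasRApx.mono {P Q : BGraph → ℕ → Prop} (hPQ : ∀ G t, P G t → Q G t) (h : HasRApx Q) :
    HasRApx P := by
  obtain ⟨m, f, ⟨⟨⟨tm, e0, e1⟩, time, hout⟩⟩, hgood⟩ := h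
  refine ⟨m, f, ⟨⟨⟨tm, e0, e1⟩, time, fun x => ?_⟩⟩, fun G t hG ht => hgood G t (hPQ G t hG) ht⟩
  exact hout ⟨x.1, hPQ _ _ x.2.1, x.2.2⟩

theorem HasRApx.of_fpras {P : BGraph → ℕ → Prop} (h : HasFPRAS (fun _ => True)) : HasRApx P := by
  obtain ⟨m, f, ⟨⟨⟨tm, e0, e1⟩, time, hout⟩⟩, hgood⟩ := h
  refine ⟨m, f, ⟨⟨⟨tm, e0, e1⟩, time, fun x => ?_⟩⟩, fun G t _ ht => hgood G t trivial ht⟩
  exact hout ⟨x.1, trivial, x.2.2⟩

theorem HasApx.mono {P Q : BGraph → ℕ → Prop} (hPQ : ∀ G t, P G t → Q G t) (h : HasApx Q) :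
    HasApx P := by
  obtain ⟨f, ⟨⟨⟨tm, e0, e1⟩, time, hout⟩⟩, hgood⟩ := h
  refine ⟨fun x => f ⟨x.1, hPQ _ _ x.2.1, x.2.2⟩, ⟨⟨⟨tm, e0, e1⟩, time, fun x => ?_⟩⟩,
    fun x => hgood ⟨x.1, hPQ _ _ x.2.1, x.2.2⟩⟩
  exact hout ⟨x.1, hPQ _ _ x.2.1, x.2.2⟩

end Pool.Agent.Lib.Pa7c826m
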