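import Pool.Agent.Lib.Pa7c826m.ENum
import Pool.Agent.Lib.Pa7c826m.GPolyA
import Pool.Agent.Lib.Pa7c826m.HRed

/-!
The general form of the reduction.

PROOF. `transfer4` with `red G t = redG (gf G t) (bf G t) G`, `K G t = KG G.a G.b (gf G t) (bf G t)`,
`u G t = wB (gf G t) ^ (2 * 2 ^ (2 * gf G t))`, `l G t = 7 * gf G t * (2 * 2 ^ (2 * gf G t))` (`wB_lt`; the exponent `2 * 2 ^ _` is positive).
`hred`: `poly_inCode` (Lib/Pa7c826/Transfer.lean) with `poly_gadj`, as in `poly_red1` (Lib/Pa7c826/NearHalf.lean): `2 ^ (2 g) = (2 ^ g) ^ 2` is `PolyN`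
(`PolyN.pow`), `wP`, `wQ` are sums and differences. `hu`: `PolyBin.powN` with base `wB g < 2 ^ (7 g)`; `2 ^ g - 1`, `2 ^ (2 g) + 1`,
`2 ^ (4 g) + 1` are `PolyN` (powers of `2 ^ g`), so `PolyBin.ofN`, `PolyBin.mul`. `h12`: `redG_est`.
-/

namespace Pool.Agent.Lib.Pa7c826m

open Finset Pool.Agent.Lib.Pa7c826 Pool.Agent.Lib.Pa7c826s Pool.Agent.Lib.Pa7c826y
open Pool.Agent.Lib.PolyTime

theorem hard_gen {C : BGraph → Prop} {P : BGraph → ℕ → Prop} (gf bf : BGraph → ℕ → ℕ)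
    (hg : PolyN (fun x : BGraph × ℕ => C x.1 ∧ 1 ≤ x.2) [fun x => inCode x.1 x.2]
      (fun x => gf x.1 x.2))
    (hb : PolyN (fun x : BGraph × ℕ => C x.1 ∧ 1 ≤ x.2) [fun x => inCode x.1 x.2]
      (fun x => bf x.1 x.2))
    (h2 : PolyN (fun x : BGraph × ℕ => C x.1 ∧ 1 ≤ x.2) [fun x => inCode x.1 x.2]
      (fun x => 2 ^ gf x.1 x.2))
    (hok : ∀ G t, C G → 1 ≤ t → GOk G t (gf G t) (bf G t))
    (hC : ∀ G t, C G → 1 ≤ t → P (redG (gf G t) (bf G t) G) (2 * t))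
    (h : HasRApx P) : HasFPRAS C := by
  have hw : PolyC (fun x : BGraph × ℕ => C x.1 ∧ 1 ≤ x.2) [fun x => inCode x.1 x.2]
      (fun x => inCode x.1 x.2) := PolyC.var (by simp)
  have ha := poly_a hw
  have hb' := poly_b hw
  have ht := poly_s hw
  have h2t := (PolyN.const 2).mul ht
  have h22 : PolyN (fun x : BGraph × ℕ => C x.1 ∧ 1 ≤ x.2) [fun x => inCode x.1 x.2]
      (fun x => 2 ^ (2 * gf x.1 x.2)) :=
    (PolyN.pow h2 2).congr (fun x _ => by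
      show (2 ^ gf x.1 x.2) ^ 2 = 2 ^ (2 * gf x.1 x.2)
      rw [← pow_mul, mul_comm])
  have h24 : PolyN (fun x : BGraph × ℕ => C x.1 ∧ 1 ≤ x.2) [fun x => inCode x.1 x.2]
      (fun x => 2 ^ (4 * gf x.1 x.2)) :=
    (PolyN.pow h2 4).congr (fun x _ => by
      show (2 ^ gf x.1 x.2) ^ 4 = 2 ^ (4 * gf x.1 x.2)
      rw [← pow_mul, mul_comm])
  have hκ : PolyN (fun x : BGraph × ℕ => C x.1 ∧ 1 ≤ x.2) [fun x => inCode x.1 x.2]
      (fun x => 2 * gf x.1 x.2) := (PolyN.const 2).mul hg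
  have hd : PolyN (fun x : BGraph × ℕ => C x.1 ∧ 1 ≤ x.2) [fun x => inCode x.1 x.2]
      (fun x => (2 * gf x.1 x.2 + 1) * bf x.1 x.2) := (hκ.add (PolyN.const 1)).mul hb
  have hwP : PolyN (fun x : BGraph × ℕ => C x.1 ∧ 1 ≤ x.2) [fun x => inCode x.1 x.2]
      (fun x => wP (gf x.1 x.2) (bf x.1 x.2) ((2 * gf x.1 x.2 + 1) * bf x.1 x.2)) :=
    (PolyN.sub hb hg).add hd
  have hwQ : PolyN (fun x : BGraph × ℕ => C x.1 ∧ 1 ≤ x.2) [fun x => inCode x.1 x.2]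
      (fun x => wQ (gf x.1 x.2) (bf x.1 x.2) ((2 * gf x.1 x.2 + 1) * bf x.1 x.2)) :=
    hb.add (PolyN.sub hd hg)
  have hm : PolyN (fun x : BGraph × ℕ => C x.1 ∧ 1 ≤ x.2) [fun x => inCode x.1 x.2]
      (fun x => 2 * 2 ^ (2 * gf x.1 x.2)) := (PolyN.const 2).mul h22
  have h7 : PolyN (fun x : BGraph × ℕ => C x.1 ∧ 1 ≤ x.2) [fun x => inCode x.1 x.2]
      (fun x => 7 * gf x.1 x.2) := (PolyN.const 7).mul hg
  refine transfer4 (fun G t => redG (gf G t) (bf G t) G) (fun G t => KG G.a G.b (gf G t) (bf G t))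
    (fun G t => wB (gf G t) ^ (2 * 2 ^ (2 * gf G t)))
    (fun G t => 7 * gf G t * (2 * 2 ^ (2 * gf G t))) ?_ ?_ ?_ ?_ ?_ hC ?_ h
  · let A : BGraph × ℕ → ℕ := fun x =>
      2 ^ (2 * gf x.1 x.2) * wP (gf x.1 x.2) (bf x.1 x.2) ((2 * gf x.1 x.2 + 1) * bf x.1 x.2) +
        2 ^ (2 * gf x.1 x.2) * wQ (gf x.1 x.2) (bf x.1 x.2) ((2 * gf x.1 x.2 + 1) * bf x.1 x.2)
    let B : BGraph × ℕ → ℕ := fun x =>
      2 ^ (2 * gf x.1 x.2) * wQ (gf x.1 x.2) (bf x.1 x.2) ((2 * gf x.1 x.2 + 1) * bf x.1 x.2) +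
        2 ^ (2 * gf x.1 x.2) * wP (gf x.1 x.2) (bf x.1 x.2) ((2 * gf x.1 x.2 + 1) * bf x.1 x.2)
    have hA : PolyN (fun x : BGraph × ℕ => C x.1 ∧ 1 ≤ x.2) [fun x => inCode x.1 x.2] A :=
      (h22.mul hwP).add (h22.mul hwQ)
    have hB : PolyN (fun x : BGraph × ℕ => C x.1 ∧ 1 ≤ x.2) [fun x => inCode x.1 x.2] B :=
      (h22.mul hwQ).add (h22.mul hwP)
    let n2 : (BGraph × ℕ) × ℕ → ℕ := fun p => B p.1
    have W1 := up (n := A) hw
    have W2 := up (n := n2) W1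
    have K1 := upN (n := A) hκ
    have K2 := upN (n := n2) K1
    have T1 := upN (n := A) h22
    have T2 := upN (n := n2) T1
    have G1 := upN (n := A) hg
    have G2 := upN (n := n2) G1
    have B1 := upN (n := A) hb
    have B2 := upN (n := n2) B1
    have D1 := upN (n := A) hd
    have D2 := upN (n := n2) D1
    have I1 := last (D := fun x : BGraph × ℕ => C x.1 ∧ 1 ≤ x.2)
      (ctx := [fun x => inCode x.1 x.2]) (n := A)
    have I2 := upN (n := n2) I1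
    have J2 := last (D := fun p : (BGraph × ℕ) × ℕ => (C p.1.1 ∧ 1 ≤ p.1.2) ∧ p.2 < A p.1)
      (ctx := PolyTime.lift [fun x : BGraph × ℕ => inCode x.1 x.2] ++
        [fun p : (BGraph × ℕ) × ℕ => un p.2]) (n := n2)
    have hF := poly_gadj (G := fun q : ((BGraph × ℕ) × ℕ) × ℕ => q.1.1.1)
      (s := fun q => q.1.1.2) W2 K2 T2 G2 B2 D2 I2 J2
    have hred := poly_inCode
      (F := fun x : BGraph × ℕ => gadj x.1.F x.1.a x.1.b (2 * gf x.1 x.2) (gf x.1 x.2)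
        (bf x.1 x.2) ((2 * gf x.1 x.2 + 1) * bf x.1 x.2)) hA hB h2t hF
    exact hred
  · exact (PolyN.sub ((PolyN.const 2).mul ((PolyN.sub hb hg).mul h22)) (ha.add hb')).add
      ((hd.add h7).mul hm)
  · exact h7.mul hm
  · have hwB : PolyBin (fun x : BGraph × ℕ => C x.1 ∧ 1 ≤ x.2) [fun x => inCode x.1 x.2]
        (fun x => wB (gf x.1 x.2)) :=
      PolyBin.mul (PolyBin.ofN (PolyN.sub h2 (PolyN.const 1)))
        (PolyBin.mul (PolyBin.ofN (h22.add (PolyN.const 1))) (PolyBin.ofN (h24.add (PolyN.const 1))))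
    exact PolyBin.powN hwB hm h7 (fun x _ => wB_lt _)
  · intro G t _ _
    show wB (gf G t) ^ (2 * 2 ^ (2 * gf G t)) < 2 ^ (7 * gf G t * (2 * 2 ^ (2 * gf G t)))
    rw [pow_mul 2 (7 * gf G t)]
    exact Nat.pow_lt_pow_left (wB_lt _) (by positivity)
  · intro G t hG ht1
    exact redG_est (hok G t hG ht1)

end Pool.Agent.Lib.Pa7c826m
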