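import Pool.Agent.Lib.Pa7c826m.HGen
import Pool.Agent.Lib.Pa7c826s.TPolyA
import Pool.Agent.Lib.Pa7c826h.Class

/-!
The parameters of the reduction.

PROOF. `two_Lh`: `Nat.lt_pow_succ_log_self`. `poly_Lh`, `poly_two_Lh`: as `poly_Lx`, `two_Lx` in Lib/Pa7c826s/TPolyA.lean (`n_log`, `n_pow`; `2 ^ Lh ≤ 2 * (a + b + 2 t + 2)`).
`exists_C`: exponentials grow faster: for instance `q h + 1 ≤ (q + 1) h` and `h ^ m ≤ (m !) 2 ^ h`..., or `tendsto_pow_const_div_const_pow_of_one_lt`, or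
with the elementary inequality `h ≤ 2 ^ (h / m) * m + m`; take the maximum of the thresholds of the three conditions, of `10` and of `e`.
`GOk_A`: `L = Lh a b t ≥ 1`, `2 ^ L > a + b + 2 t + 2`, `h = C L ≥ C`, `g = q h ≥ h ≥ 10`, `g - 5 ≥ h - 5 ≥ L` (`C ≥ 10`), `β = 2 ^ (2 p h) ≥ 2 ^ (2 h) ≥ 2 ^ L`;
`rk F i b ≤ b`, `crk F a j ≤ a`. `GOk_B`: `β = 16 g ^ 2 ≥ 16 C ^ 2 > Δ`, and `rk G.F i G.b ≤ Δ`: it is `G.rowDeg i` if `i < G.a` and `0` otherwise.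
-/

namespace Pool.Agent.Lib.Pa7c826m

open Finset Pool.Agent.Lib Pool.Agent.Lib.Pa7c826 Pool.Agent.Lib.Pa7c826s Pool.Agent.Lib.Pa7c826y
open Pool.Agent.Lib.PolyTime

/-- a bound for the logarithm of the size of the input -/
def Lh (G : BGraph) (t : ℕ) : ℕ := Nat.log 2 (G.a + G.b + 2 * t + 2) + 1

theorem two_Lh (G : BGraph) (t : ℕ) :
    G.a + G.b + 2 * t + 2 < 2 ^ Lh G t ∧ 2 ^ Lh G t ≤ 2 * (G.a + G.b + 2 * t + 2) := by
  unfold Lh
  refine ⟨Nat.lt_pow_succ_log_self (by norm_num) _, ?_⟩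
  rw [pow_succ, mul_comm]
  exact Nat.mul_le_mul_left _ (Nat.pow_log_le_self 2 (by omega))

namespace HSizeAux

theorem poly_sum (D : BGraph × ℕ → Prop) :
    PolyN D [fun x => inCode x.1 x.2] (fun x => x.1.a + x.1.b + 2 * x.2 + 2) := by
  have hw : PolyC D [fun x => inCode x.1 x.2] (fun x => inCode x.1 x.2) := PolyC.var (by simp)
  exact (((poly_a hw).add (poly_b hw)).add ((PolyN.const 2).mul (poly_s hw))).add (PolyN.const 2)

theorem pow_le (K m : ℕ) : ∃ C, ∀ h, C ≤ h → (K * h) ^ m ≤ 2 ^ (2 * h) := by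
  have ht := tendsto_pow_const_div_const_pow_of_one_lt m (show (1 : ℝ) < 4 by norm_num)
  have hpos : (0 : ℝ) < 1 / ((K : ℝ) ^ m + 1) := by positivity
  obtain ⟨C, hC⟩ := Filter.eventually_atTop.mp (ht.eventually (gt_mem_nhds hpos))
  refine ⟨C, fun h hh => ?_⟩
  have h1 := hC h hh
  have h4 : (0 : ℝ) < 4 ^ h := by positivity
  have hK : (0 : ℝ) < (K : ℝ) ^ m + 1 := by positivity
  rw [div_lt_div_iff₀ h4 hK] at h1
  have h2 : ((K * h : ℕ) : ℝ) ^ m ≤ 4 ^ h := by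
    push_cast
    rw [mul_pow]
    have : (0 : ℝ) ≤ (h : ℝ) ^ m := by positivity
    nlinarith
  have h3 : (((K * h) ^ m : ℕ) : ℝ) ≤ ((2 ^ (2 * h) : ℕ) : ℝ) := by
    push_cast
    rw [pow_mul]
    norm_num
    push_cast at h2
    exact h2
  exact_mod_cast h3

theorem rk_le (E : ℕ → ℕ → Bool) (i j : ℕ) : rk E i j ≤ j := by
  unfold rk
  exact (card_filter_le _ _).trans (by rw [card_range])

theorem crk_le (E : ℕ → ℕ → Bool) (i j : ℕ) : crk E i j ≤ i := by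
  unfold crk
  exact (card_filter_le _ _).trans (by rw [card_range])

theorem rk_deg (G : BGraph) {Δ : ℕ} (hG : ∀ i, G.rowDeg i ≤ Δ) (i : ℕ) : rk G.F i G.b ≤ Δ := by
  unfold rk
  by_cases hi : i < G.a
  · refine le_trans ?_ (hG ⟨i, hi⟩)
    unfold BGraph.rowDeg
    refine card_le_card_of_surjOn (fun j : Fin G.b => (j : ℕ)) ?_
    intro j hj
    rw [mem_coe, mem_filter, mem_range] at hj
    refine ⟨⟨j, hj.1⟩, ?_, rfl⟩
    rw [mem_coe, mem_filter]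
    refine ⟨mem_univ _, ?_⟩
    have := hj.2
    unfold BGraph.F at this
    rw [dif_pos ⟨hi, hj.1⟩] at this
    exact this
  · rw [filter_false_of_mem, card_empty]
    · exact Nat.zero_le _
    · intro j _
      unfold BGraph.F
      rw [dif_neg (fun h => hi h.1)]
      exact Bool.false_ne_true

theorem crk_deg (G : BGraph) {Δ : ℕ} (hG : ∀ j, G.colDeg j ≤ Δ) (j : ℕ) :
    crk G.F G.a j ≤ Δ := by
  unfold crk
  by_cases hj : j < G.b
  · refine le_trans ?_ (hG ⟨j, hj⟩)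
    unfold BGraph.colDeg
    refine card_le_card_of_surjOn (fun i : Fin G.a => (i : ℕ)) ?_
    intro i hi
    rw [mem_coe, mem_filter, mem_range] at hi
    refine ⟨⟨i, hi.1⟩, ?_, rfl⟩
    rw [mem_coe, mem_filter]
    refine ⟨mem_univ _, ?_⟩
    have := hi.2
    unfold BGraph.F at this
    rw [dif_pos ⟨hi.1, hj⟩] at this
    exact this
  · rw [filter_false_of_mem, card_empty]
    · exact Nat.zero_le _
    · intro i _
      unfold BGraph.F
      rw [dif_neg (fun h => hj h.2)]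
      exact Bool.false_ne_true

theorem one_le_Lh (G : BGraph) (t : ℕ) : 1 ≤ Lh G t := Nat.succ_le_succ (Nat.zero_le _)

end HSizeAux

open HSizeAux

theorem poly_Lh (D : BGraph × ℕ → Prop) :
    PolyN D [fun x => inCode x.1 x.2] (fun x => Lh x.1 x.2) :=
  (Pool.Agent.Lib.P8e91ed.PT.n_log (poly_sum D)).add (PolyN.const 1)

theorem poly_two_Lh (D : BGraph × ℕ → Prop) (m : ℕ) :
    PolyN D [fun x => inCode x.1 x.2] (fun x => 2 ^ (m * Lh x.1 x.2)) := by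
  have h1 : PolyN D [fun x => inCode x.1 x.2] (fun x => 2 ^ Lh x.1 x.2) :=
    Pool.Agent.Lib.P8e91ed.PT.n_pow (PolyN.const 2) (poly_Lh D)
      ((Pool.Agent.Lib.P8e91ed.PT.Bdd.ofN ((PolyN.const 2).mul (poly_sum D))).le
        fun x _ => (two_Lh x.1 x.2).2)
  exact (PolyN.pow h1 m).congr fun x _ => by rw [← pow_mul, mul_comm]

theorem exists_C (p1 q q2 e : ℕ) (hq : 1 ≤ q) : ∃ C, 10 ≤ C ∧ e ≤ C ∧ ∀ h, C ≤ h →
    (8 * (q * h + 1)) ^ p1 ≤ 2 ^ (2 * h) ∧ (2 * (q * h) + 1) ^ q2 ≤ 2 ^ (2 * h) ∧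
      16 * (q * h) ^ 2 ≤ 2 ^ (2 * h) := by
  obtain ⟨C1, h1⟩ := pow_le (8 * (q + 1)) p1
  obtain ⟨C2, h2⟩ := pow_le (2 * (q + 1)) q2
  obtain ⟨C3, h3⟩ := pow_le (4 * q) 2
  refine ⟨max 10 (max e (max C1 (max C2 C3))), le_max_left _ _,
    (le_max_left _ _).trans (le_max_right _ _), fun h hh => ?_⟩
  simp only [max_le_iff] at hh
  obtain ⟨h10, -, hh1, hh2, hh3⟩ := hh
  refine ⟨(Nat.pow_le_pow_left ?_ _).trans (h1 h hh1),
    (Nat.pow_le_pow_left ?_ _).trans (h2 h hh2), le_trans (le_of_eq ?_) (h3 h hh3)⟩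
  · nlinarith
  · nlinarith
  · ring

theorem GOk_A {p q C : ℕ} (hp : 1 ≤ p) (hq : 1 ≤ q) (hC : 10 ≤ C)
    (h3 : ∀ h, C ≤ h → 16 * (q * h) ^ 2 ≤ 2 ^ (2 * h)) (G : BGraph) (t : ℕ) :
    GOk G t (q * (C * Lh G t)) (2 ^ (2 * p * (C * Lh G t))) := by
  have hL := one_le_Lh G t
  have h2 := (two_Lh G t).1
  have hCL : C ≤ C * Lh G t := Nat.le_mul_of_pos_right _ hL
  have h10L : 10 * Lh G t ≤ C * Lh G t := Nat.mul_le_mul_right _ hC
  have hg : C * Lh G t ≤ q * (C * Lh G t) := Nat.le_mul_of_pos_left _ hq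
  have hph : 2 * (C * Lh G t) ≤ 2 * p * (C * Lh G t) := by
    rw [mul_assoc]
    exact Nat.mul_le_mul_left _ (Nat.le_mul_of_pos_left _ hp)
  have hb1 : (2 : ℕ) ^ Lh G t ≤ 2 ^ (q * (C * Lh G t) - 5) :=
    Nat.pow_le_pow_right (by norm_num) (by omega)
  have hb2 : (2 : ℕ) ^ Lh G t ≤ 2 ^ (2 * p * (C * Lh G t)) :=
    Nat.pow_le_pow_right (by norm_num) (by omega)
  have hb3 : (2 : ℕ) ^ Lh G t ≤ 2 ^ (q * (C * Lh G t)) :=
    Nat.pow_le_pow_right (by norm_num) (by omega)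
  refine ⟨by omega, (h3 _ hCL).trans (Nat.pow_le_pow_right (by norm_num) hph), by omega,
    by omega, fun i => ?_, fun j => ?_, by omega⟩
  · have := rk_le G.F i G.b
    omega
  · have := crk_le G.F G.a j
    omega

theorem GOk_B {Δ C : ℕ} (hC : 10 ≤ C) (hΔ : Δ ≤ C) (G : BGraph) (t : ℕ)
    (hG : Pa7c826h.MaxDeg Δ G) : GOk G t (C * Lh G t) (16 * (C * Lh G t) ^ 2) := by
  have hL := one_le_Lh G t
  have h2 := (two_Lh G t).1
  have hCL : C ≤ C * Lh G t := Nat.le_mul_of_pos_right _ hL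
  have h10L : 10 * Lh G t ≤ C * Lh G t := Nat.mul_le_mul_right _ hC
  have hb1 : (2 : ℕ) ^ Lh G t ≤ 2 ^ (C * Lh G t - 5) :=
    Nat.pow_le_pow_right (by norm_num) (by omega)
  have hb3 : (2 : ℕ) ^ Lh G t ≤ 2 ^ (C * Lh G t) :=
    Nat.pow_le_pow_right (by norm_num) (by omega)
  have hβ : C < 16 * (C * Lh G t) ^ 2 := by nlinarith
  refine ⟨by omega, le_rfl, by omega, by omega, fun i => ?_, fun j => ?_, by omega⟩
  · have := rk_deg G hG.1 i
    omega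
  · have := crk_deg G hG.2 j
    omega

end Pool.Agent.Lib.Pa7c826m
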