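import Mathlib.Analysis.Matrix.Spectrum
import Mathlib.Analysis.InnerProductSpace.PiL2

/-!
The number of eigenvalues above a level and subspaces on which the quadratic form is above the level.

PROOF. Let `v i` be the orthonormal basis of eigenvectors (`Matrix.IsHermitian.eigenvectorBasis`), `λ i = hA.eigenvalues i`. For `f = ∑ c i • v i`:
`f ⬝ᵥ f = ∑ c i ^ 2`, `f ⬝ᵥ A *ᵥ f = ∑ λ i * c i ^ 2` (`Matrix.IsHermitian.mulVec_eigenvectorBasis`, orthonormality; use `EuclideanSpace ℝ n` and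
`WithLp` conversions). `few_of_sub`: let `S = {i | y < λ i}` and suppose `S.ncard < k ≤ finrank U`. The linear map `U → (S → ℝ)`, `f ↦ (⟨v i, f⟩)_{i ∈ S}` has a
kernel vector `f ≠ 0` (`LinearMap.exists_ne_zero_of_finrank_lt` / `LinearMap.ker_ne_bot_of_finrank_lt`), so `f` is a combination of the
`v i`, `i ∉ S`, and `f ⬝ᵥ A *ᵥ f ≤ y (f ⬝ᵥ f)`, a contradiction. `sub_of_many`: `U` = the span of the `v i`, `i ∈ S`: its dimension is `|S|`, and for `f ≠ 0` in it
`f ⬝ᵥ A *ᵥ f = ∑ i ∈ S, λ i c i ^ 2 > y ∑ c i ^ 2`.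
-/

namespace Pool.Agent.Lib.Pa7c826m

open Matrix

variable {n : Type} [Fintype n] [DecidableEq n] {A : Matrix n n ℝ}

namespace SpMMAux

/-- The eigenvectors as plain vectors. -/
noncomputable def ev (hA : A.IsHermitian) (i : n) : n → ℝ := WithLp.ofLp (hA.eigenvectorBasis i)

theorem dot_eq_inner (x y : EuclideanSpace ℝ n) : WithLp.ofLp x ⬝ᵥ WithLp.ofLp y = inner ℝ x y := by
  rw [EuclideanSpace.inner_eq_star_dotProduct, dotProduct_comm]
  rfl

theorem expand (hA : A.IsHermitian) (f : n → ℝ) : f = ∑ i, (ev hA i ⬝ᵥ f) • ev hA i := by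
  have h := hA.eigenvectorBasis.sum_repr' (WithLp.toLp 2 f)
  have h2 := congrArg WithLp.ofLp h
  rw [WithLp.ofLp_sum] at h2
  calc f = ∑ i, WithLp.ofLp (inner ℝ (hA.eigenvectorBasis i) (WithLp.toLp 2 f) • hA.eigenvectorBasis i) := h2.symm
    _ = ∑ i, (ev hA i ⬝ᵥ f) • ev hA i := by
        refine Finset.sum_congr rfl (fun i _ => ?_)
        rw [WithLp.ofLp_smul, ← dot_eq_inner]
        rfl

theorem mul_ev (hA : A.IsHermitian) (i : n) : A *ᵥ ev hA i = hA.eigenvalues i • ev hA i :=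
  hA.mulVec_eigenvectorBasis i

theorem norm_eq (hA : A.IsHermitian) (f : n → ℝ) : f ⬝ᵥ f = ∑ i, (ev hA i ⬝ᵥ f) ^ 2 := by
  conv_lhs => rw [expand hA f]
  rw [sum_dotProduct]
  refine Finset.sum_congr rfl (fun i _ => ?_)
  rw [smul_dotProduct, smul_eq_mul, ← expand hA f]
  ring

theorem form_eq (hA : A.IsHermitian) (f : n → ℝ) :
    f ⬝ᵥ A *ᵥ f = ∑ i, hA.eigenvalues i * (ev hA i ⬝ᵥ f) ^ 2 := by
  have h1 : A *ᵥ f = ∑ i, ((ev hA i ⬝ᵥ f) * hA.eigenvalues i) • ev hA i := by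
    conv_lhs => rw [expand hA f]
    rw [mulVec_sum]
    refine Finset.sum_congr rfl (fun i _ => ?_)
    rw [mulVec_smul, mul_ev, smul_smul]
  rw [h1, dotProduct_sum]
  refine Finset.sum_congr rfl (fun i _ => ?_)
  rw [dotProduct_smul, smul_eq_mul, dotProduct_comm f]
  ring

theorem ncard_eq (hA : A.IsHermitian) (y : ℝ) :
    {i | y < hA.eigenvalues i}.ncard = Fintype.card {i // y < hA.eigenvalues i} := by
  rw [← Nat.card_coe_set_eq, Nat.card_eq_fintype_card]
  rfl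

/-- Coordinates in the directions `i` with `p i`. -/
noncomputable def coordMap (hA : A.IsHermitian) (p : n → Prop) : (n → ℝ) →ₗ[ℝ] ({i // p i} → ℝ) where
  toFun f i := ev hA i.1 ⬝ᵥ f
  map_add' f g := by
    funext i
    simp [dotProduct_add]
  map_smul' c f := by
    funext i
    simp [dotProduct_smul]

end SpMMAux

open SpMMAux

theorem few_of_sub (hA : A.IsHermitian) {y : ℝ} {k : ℕ} (U : Submodule ℝ (n → ℝ))
    (hk : k ≤ Module.finrank ℝ U) (hU : ∀ f ∈ U, f ≠ 0 → y * (f ⬝ᵥ f) < f ⬝ᵥ A *ᵥ f) :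
    k ≤ {i | y < hA.eigenvalues i}.ncard := by
  by_contra hcon
  push Not at hcon
  rw [ncard_eq] at hcon
  set φ : U →ₗ[ℝ] ({i // y < hA.eigenvalues i} → ℝ) := (coordMap hA (fun i => y < hA.eigenvalues i)).comp U.subtype with hφ
  have h1 : Module.finrank ℝ ({i // y < hA.eigenvalues i} → ℝ) < Module.finrank ℝ U := by
    rw [Module.finrank_fintype_fun_eq_card]
    omega
  have h2 := LinearMap.ker_ne_bot_of_finrank_lt (f := φ) h1
  obtain ⟨f, hf, hf0⟩ := Submodule.exists_mem_ne_zero_of_ne_bot h2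
  have hf1 : (f : n → ℝ) ≠ 0 := fun h => hf0 (Subtype.ext h)
  have h3 := hU f f.2 hf1
  have h4 : ∀ i, y < hA.eigenvalues i → ev hA i ⬝ᵥ (f : n → ℝ) = 0 := by
    intro i hi
    have h5 : φ f = 0 := hf
    exact congrFun h5 ⟨i, hi⟩
  rw [form_eq hA, norm_eq hA, Finset.mul_sum] at h3
  refine absurd h3 (not_lt.mpr (Finset.sum_le_sum (fun i _ => ?_)))
  by_cases hi : y < hA.eigenvalues i
  · rw [h4 i hi]
    simp
  · exact mul_le_mul_of_nonneg_right (not_lt.mp hi) (sq_nonneg _)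

theorem sub_of_many (hA : A.IsHermitian) {y : ℝ} {k : ℕ}
    (hk : k ≤ {i | y < hA.eigenvalues i}.ncard) : ∃ U : Submodule ℝ (n → ℝ),
    k ≤ Module.finrank ℝ U ∧ ∀ f ∈ U, f ≠ 0 → y * (f ⬝ᵥ f) < f ⬝ᵥ A *ᵥ f := by
  rw [ncard_eq] at hk
  refine ⟨LinearMap.ker (coordMap hA (fun i => ¬ y < hA.eigenvalues i)), ?_, ?_⟩
  · have h1 := LinearMap.finrank_range_add_finrank_ker (coordMap hA (fun i => ¬ y < hA.eigenvalues i))
    have h2 := Submodule.finrank_le (LinearMap.range (coordMap hA (fun i => ¬ y < hA.eigenvalues i)))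
    rw [Module.finrank_fintype_fun_eq_card] at h1 h2
    have h3 := Fintype.card_subtype_compl (fun i => y < hA.eigenvalues i)
    have h4 := Fintype.card_subtype_le (fun i => y < hA.eigenvalues i)
    omega
  · intro f hf hf0
    have h4 : ∀ i, ¬ y < hA.eigenvalues i → ev hA i ⬝ᵥ f = 0 := by
      intro i hi
      have h5 : coordMap hA (fun i => ¬ y < hA.eigenvalues i) f = 0 := hf
      exact congrFun h5 ⟨i, hi⟩
    have h6 : ∃ i, ev hA i ⬝ᵥ f ≠ 0 := by
      by_contra h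
      push Not at h
      apply hf0
      rw [expand hA f]
      refine Finset.sum_eq_zero (fun i _ => ?_)
      rw [h i, zero_smul]
    obtain ⟨j, hj⟩ := h6
    have hj1 : y < hA.eigenvalues j := by
      by_contra h
      exact hj (h4 j h)
    rw [form_eq hA, norm_eq hA, Finset.mul_sum]
    refine Finset.sum_lt_sum (fun i _ => ?_) ⟨j, Finset.mem_univ j, ?_⟩
    · by_cases hi : y < hA.eigenvalues i
      · exact mul_le_mul_of_nonneg_right hi.le (sq_nonneg _)
      · rw [h4 i hi]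
        simp
    · exact mul_lt_mul_of_pos_right hj1 (by positivity)

end Pool.Agent.Lib.Pa7c826m
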