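import Pool.Agent.Lib.Pa7c826m.SpDef
import Pool.Agent.Lib.Pa7c826m.SpMM

/-!
Few large eigenvalues give large multiway expansion (the easy direction of the higher order Cheeger inequality).

PROOF. `quad_form`: `f ⬝ᵥ (adjM G) *ᵥ f = 2 ∑_{(i, j), E i j} f (.inl i) f (.inr j)` and
`d ∑ f v ^ 2 = ∑_{(i, j), E i j} (f (.inl i) ^ 2 + f (.inr j) ^ 2)` (`RegularOf`), so
`d (f ⬝ᵥ f) - f ⬝ᵥ (adjM G) *ᵥ f = ∑_{(i, j), E i j} (f (.inl i) - f (.inr j)) ^ 2`.
`multi_of_few`: suppose there are disjoint nonempty `W 1, …, W k` with `bdry (W i) < x |W i|` for all `i`. Let `U` be the set of the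
`f = ∑ c i 1_{W i}` (the range of an injective linear map from `Fin k → ℝ`, as the `W i` are disjoint and nonempty; dimension `k`). For `f ≠ 0`
in `U`: every pair `(i, j)` with `E i j = true` has `(f (.inl i) - f (.inr j)) ^ 2 ≤ 2 ∑ l, c l ^ 2 [exactly one end is in W l]` (if both ends are in the same
`W l` or in none: `0`; if they are in `W l` and `W l'`: `(c l - c l') ^ 2 ≤ 2 c l ^ 2 + 2 c l' ^ 2`). So
`d (f ⬝ᵥ f) - f ⬝ᵥ A *ᵥ f ≤ 2 ∑ c l ^ 2 bdry (W l) < 2 x ∑ c l ^ 2 |W l| = 2 x (f ⬝ᵥ f)`. By `few_of_sub` at least `k` eigenvalues are `> d - 2 x`.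
-/

namespace Pool.Agent.Lib.Pa7c826m

open Finset Matrix Pool.Agent.Lib.Pa7c826

namespace SpEasyAux

/-- the entry of the adjacency matrix -/
def en (G : BGraph) (i : Fin G.a) (j : Fin G.b) : ℝ := if G.E i j = true then 1 else 0

lemma row_sum {G : BGraph} {d : ℕ} (h : RegularOf d G) (i : Fin G.a) : ∑ j, en G i j = d := by
  unfold en
  rw [Finset.sum_boole]
  exact_mod_cast h.1 i

lemma col_sum {G : BGraph} {d : ℕ} (h : RegularOf d G) (j : Fin G.b) : ∑ i, en G i j = d := by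
  unfold en
  rw [Finset.sum_boole]
  exact_mod_cast h.2 j

lemma mulVec_inl (G : BGraph) (f : Fin G.a ⊕ Fin G.b → ℝ) (i : Fin G.a) :
    ((adjM G) *ᵥ f) (.inl i) = ∑ j, en G i j * f (.inr j) := by
  rw [Matrix.mulVec, dotProduct, Fintype.sum_sum_type]
  simp [adjM, en]

lemma mulVec_inr (G : BGraph) (f : Fin G.a ⊕ Fin G.b → ℝ) (j : Fin G.b) :
    ((adjM G) *ᵥ f) (.inr j) = ∑ i, en G i j * f (.inl i) := by
  rw [Matrix.mulVec, dotProduct, Fintype.sum_sum_type]
  simp [adjM, en]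

/-- the combination of indicator functions -/
def L {V : Type} [DecidableEq V] {k : ℕ} (W : Fin k → Finset V) :
    (Fin k → ℝ) →ₗ[ℝ] (V → ℝ) where
  toFun c := fun v => ∑ l, if v ∈ W l then c l else 0
  map_add' c c' := by
    funext v
    rw [Pi.add_apply, ← Finset.sum_add_distrib]
    refine Finset.sum_congr rfl fun l _ => ?_
    split_ifs <;> simp
  map_smul' r c := by
    funext v
    rw [Pi.smul_apply, smul_eq_mul, Finset.mul_sum]
    refine Finset.sum_congr rfl fun l _ => ?_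
    split_ifs <;> simp

section

variable {V : Type} [DecidableEq V] {k : ℕ} {W : Fin k → Finset V}

lemma L_apply (c : Fin k → ℝ) (v : V) : L W c v = ∑ l, if v ∈ W l then c l else 0 := rfl

lemma sum_mem (hW : ∀ i j, i ≠ j → Disjoint (W i) (W j)) (g : Fin k → ℝ) {v : V} {l : Fin k}
    (hv : v ∈ W l) : (∑ j, if v ∈ W j then g j else 0) = g l := by
  rw [Finset.sum_eq_single l]
  · rw [if_pos hv]
  · intro j _ hj
    rw [if_neg]
    intro h
    exact Finset.disjoint_left.mp (hW j l hj) h hv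
  · intro h
    exact absurd (Finset.mem_univ _) h

lemma L_sq (hW : ∀ i j, i ≠ j → Disjoint (W i) (W j)) (c : Fin k → ℝ) (v : V) :
    L W c v ^ 2 = ∑ l, if v ∈ W l then c l ^ 2 else 0 := by
  by_cases h : ∃ l, v ∈ W l
  · obtain ⟨l, hl⟩ := h
    rw [L_apply, sum_mem hW c hl, sum_mem hW (fun j => c j ^ 2) hl]
  · have h' : ∀ l, v ∉ W l := fun l hl => h ⟨l, hl⟩
    rw [L_apply]
    simp [h']

lemma L_inj (hW : ∀ i j, i ≠ j → Disjoint (W i) (W j)) (hne : ∀ i, (W i).Nonempty) :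
    Function.Injective (L W) := by
  intro c c' h
  funext l
  obtain ⟨v, hv⟩ := hne l
  have h1 := congrFun h v
  rw [L_apply, L_apply, sum_mem hW c hv, sum_mem hW c' hv] at h1
  exact h1

lemma pair_le (hW : ∀ i j, i ≠ j → Disjoint (W i) (W j)) (c : Fin k → ℝ) (u w : V) :
    (L W c u - L W c w) ^ 2 ≤ 2 * ∑ l, if ¬ (u ∈ W l ↔ w ∈ W l) then c l ^ 2 else 0 := by
  by_cases h : ∃ l, u ∈ W l ∧ w ∈ W l
  · obtain ⟨l, hu, hw⟩ := h
    rw [L_apply, L_apply, sum_mem hW c hu, sum_mem hW c hw, sub_self]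
    have : 0 ≤ ∑ l, if ¬ (u ∈ W l ↔ w ∈ W l) then c l ^ 2 else 0 :=
      Finset.sum_nonneg fun l _ => by split_ifs <;> positivity
    nlinarith
  · have h' : ∀ l, ¬ (u ∈ W l ∧ w ∈ W l) := fun l hl => h ⟨l, hl⟩
    have e : (∑ l, if ¬ (u ∈ W l ↔ w ∈ W l) then c l ^ 2 else 0) =
        L W c u ^ 2 + L W c w ^ 2 := by
      rw [L_sq hW, L_sq hW, ← Finset.sum_add_distrib]
      refine Finset.sum_congr rfl fun l _ => ?_
      have := h' l
      by_cases h1 : u ∈ W l <;> by_cases h2 : w ∈ W l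
      · exact absurd ⟨h1, h2⟩ this
      · simp [h1, h2]
      · simp [h1, h2]
      · simp [h1, h2]
    rw [e]
    nlinarith [sq_nonneg (L W c u + L W c w)]

lemma norm_sq [Fintype V] (hW : ∀ i j, i ≠ j → Disjoint (W i) (W j)) (c : Fin k → ℝ) :
    (L W c) ⬝ᵥ (L W c) = ∑ l, c l ^ 2 * (W l).card := by
  have e : (L W c) ⬝ᵥ (L W c) = ∑ v, ∑ l, if v ∈ W l then c l ^ 2 else 0 := by
    unfold dotProduct
    refine Finset.sum_congr rfl fun v _ => ?_
    rw [← L_sq hW c v]
    ring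
  rw [e, Finset.sum_comm]
  refine Finset.sum_congr rfl fun l _ => ?_
  rw [Finset.sum_ite_mem, Finset.univ_inter, Finset.sum_const, nsmul_eq_mul]
  ring

end

lemma bdry_eq (G : BGraph) (W : Finset (Fin G.a ⊕ Fin G.b)) :
    (bdry G W : ℝ) = ∑ i, ∑ j, if G.E i j = true then
      (if ¬ (Sum.inl i ∈ W ↔ Sum.inr j ∈ W) then (1 : ℝ) else 0) else 0 := by
  unfold bdry
  rw [← Finset.sum_boole, Fintype.sum_prod_type]
  refine Finset.sum_congr rfl fun i _ => Finset.sum_congr rfl fun j _ => ?_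
  by_cases h1 : G.E i j = true <;> by_cases h2 : (Sum.inl i ∈ W ↔ Sum.inr j ∈ W) <;>
    simp [h1, h2]

end SpEasyAux

open SpEasyAux

theorem quad_form {G : BGraph} {d : ℕ} (h : RegularOf d G) (f : Fin G.a ⊕ Fin G.b → ℝ) :
    d * (f ⬝ᵥ f) - f ⬝ᵥ (adjM G) *ᵥ f =
      ∑ i, ∑ j, if G.E i j = true then (f (.inl i) - f (.inr j)) ^ 2 else 0 := by
  have e1 : (d : ℝ) * (f ⬝ᵥ f) = ∑ i, ∑ j, en G i j * f (.inl i) ^ 2 +
      ∑ i, ∑ j, en G i j * f (.inr j) ^ 2 := by
    rw [dotProduct, Fintype.sum_sum_type, mul_add, Finset.mul_sum, Finset.mul_sum]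
    congr 1
    · refine Finset.sum_congr rfl fun i _ => ?_
      rw [← Finset.sum_mul, row_sum h]
      ring
    · rw [Finset.sum_comm]
      refine Finset.sum_congr rfl fun j _ => ?_
      rw [← Finset.sum_mul, col_sum h]
      ring
  have e2 : f ⬝ᵥ (adjM G) *ᵥ f = ∑ i, ∑ j, en G i j * (f (.inl i) * f (.inr j)) +
      ∑ i, ∑ j, en G i j * (f (.inl i) * f (.inr j)) := by
    rw [dotProduct, Fintype.sum_sum_type]
    congr 1
    · refine Finset.sum_congr rfl fun i _ => ?_
      rw [mulVec_inl, Finset.mul_sum]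
      refine Finset.sum_congr rfl fun j _ => ?_
      ring
    · rw [Finset.sum_comm]
      refine Finset.sum_congr rfl fun j _ => ?_
      rw [mulVec_inr, Finset.mul_sum]
      refine Finset.sum_congr rfl fun i _ => ?_
      ring
  rw [e1, e2, ← Finset.sum_add_distrib, ← Finset.sum_add_distrib, ← Finset.sum_sub_distrib]
  refine Finset.sum_congr rfl fun i _ => ?_
  rw [← Finset.sum_add_distrib, ← Finset.sum_add_distrib, ← Finset.sum_sub_distrib]
  refine Finset.sum_congr rfl fun j _ => ?_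
  unfold en
  split_ifs <;> ring

theorem multi_of_few {G : BGraph} {d k : ℕ} (h : RegularOf d G) {x : ℝ}
    (hF : FewEig k (d - 2 * x) G) : MultiExp k x G := by
  intro W hne hdis
  by_contra hcon
  have hb : ∀ i, (bdry G (W i) : ℝ) < x * (W i).card := by
    intro i
    by_contra hi
    exact hcon ⟨i, not_lt.mp hi⟩
  have hk := few_of_sub (adjM_herm G) (y := d - 2 * x) (k := k) (LinearMap.range (L W)) (by
    rw [LinearMap.finrank_range_of_inj (L_inj hdis hne), Module.finrank_fintype_fun_eq_card,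
      Fintype.card_fin]) (by
    intro f hf hf0
    obtain ⟨c, rfl⟩ := hf
    have hc : ∃ l, c l ≠ 0 := by
      by_contra hcc
      apply hf0
      have : c = 0 := by
        funext l
        by_contra hl
        exact hcc ⟨l, hl⟩
      rw [this, map_zero]
    have h1 := quad_form h (L W c)
    have h2 : (∑ i, ∑ j, if G.E i j = true then
        (L W c (.inl i) - L W c (.inr j)) ^ 2 else 0) ≤ 2 * ∑ l, c l ^ 2 * bdry G (W l) := by
      have h3 : (2 * ∑ l, c l ^ 2 * bdry G (W l) : ℝ) = ∑ i, ∑ j, if G.E i j = true then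
          2 * ∑ l, (if ¬ ((.inl i : Fin G.a ⊕ Fin G.b) ∈ W l ↔ .inr j ∈ W l) then c l ^ 2 else 0)
          else 0 := by
        have h4 : ∀ l, (c l ^ 2 * bdry G (W l) : ℝ) = ∑ i, ∑ j, if G.E i j = true then
            (if ¬ ((.inl i : Fin G.a ⊕ Fin G.b) ∈ W l ↔ .inr j ∈ W l) then c l ^ 2 else 0)
            else 0 := by
          intro l
          rw [bdry_eq, Finset.mul_sum]
          refine Finset.sum_congr rfl fun i _ => ?_
          rw [Finset.mul_sum]
          refine Finset.sum_congr rfl fun j _ => ?_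
          split_ifs <;> simp
        simp only [h4]
        rw [Finset.sum_comm, Finset.mul_sum]
        refine Finset.sum_congr rfl fun i _ => ?_
        rw [Finset.sum_comm, Finset.mul_sum]
        refine Finset.sum_congr rfl fun j _ => ?_
        split_ifs
        · rfl
        · simp
      rw [h3]
      refine Finset.sum_le_sum fun i _ => Finset.sum_le_sum fun j _ => ?_
      split_ifs
      · exact pair_le hdis c _ _
      · exact le_refl _
    have h5 : ∑ l, c l ^ 2 * bdry G (W l) < ∑ l, c l ^ 2 * (x * (W l).card) := by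
      obtain ⟨l, hl⟩ := hc
      refine Finset.sum_lt_sum (fun i _ => mul_le_mul_of_nonneg_left (hb i).le (sq_nonneg _))
        ⟨l, Finset.mem_univ _, mul_lt_mul_of_pos_left (hb l) (by positivity)⟩
    have h6 : ∑ l, c l ^ 2 * (x * (W l).card) = x * ((L W c) ⬝ᵥ (L W c)) := by
      rw [norm_sq hdis, Finset.mul_sum]
      refine Finset.sum_congr rfl fun l _ => ?_
      ring
    rw [h6] at h5
    have h7 : ((d : ℝ) - 2 * x) * ((L W c) ⬝ᵥ (L W c)) =
        d * ((L W c) ⬝ᵥ (L W c)) - 2 * (x * ((L W c) ⬝ᵥ (L W c))) := by ring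
    rw [h7]
    linarith)
  exact absurd hF (not_lt.mpr hk)

end Pool.Agent.Lib.Pa7c826m
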