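import Pool.Agent.Lib.Pa7c826m.SpCopy
import Pool.Agent.Lib.Pa7c826m.SpEasy
import Pool.Agent.Lib.Pa7c826m.ENum

/-!
The graph of the reduction has at most two eigenvalues larger than `d - g / 3`.

PROOF. `sum_gap`: with `fp₁ x = F (.inl (.inl x))`, `fq₁ y = F (.inr (.inl y))`, `fp₂ x = F (.inr (.inr x))`, `fq₂ y = F (.inl (.inr y))`: the sum over all
pairs `(x, y)` with `GR x y` of the squares of the differences is at least the sum over the pairs in copy 1 (`.inl`, `.inl`) and in copy 2 (`.inr`, `.inr`), that is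
`EEC2 … fp₁ fq₁ + EEC2 … fp₂ fq₂` (`(u - v) ^ 2 = (v - u) ^ 2`); `copy_gap` for both (hypotheses `h1`, `h2`).
`redG_few`: suppose at least `3` eigenvalues of `adjM (redG g β G)` are larger than `y = d - g / 3`, where `d = (2 g + 1) β` (`k ≥ 3`; `FewEig k` fails). By `sub_of_many` there is
`U` with `3 ≤ finrank U` and `y (f ⬝ᵥ f) < f ⬝ᵥ A *ᵥ f` for `f ≠ 0` in `U`. The linear map `U → ℝ × ℝ`, `f ↦` (sum of `f` over copy 1, sum over copy 2), has a kernel vector `f ≠ 0`. By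
`quad_form` (`redG_reg`), `d (f ⬝ᵥ f) - f ⬝ᵥ A *ᵥ f` is the sum over the edges of `(f (.inl i) - f (.inr j)) ^ 2`, and by `sum_gap`, for
`F = f ∘ (eL, eR)`, it is at least `(g / 3) (f ⬝ᵥ f)` (`Fintype.sum_equiv` with `eL`, `eR`, `GR_iff`), a contradiction.
-/

namespace Pool.Agent.Lib.Pa7c826m

open Finset Matrix Pool.Agent.Lib.Pa7c826 Pool.Agent.Lib.Pa7c826s

namespace SpGAux

variable {E : ℕ → ℕ → Bool} {a b κ g β d : ℕ}

/-- the two copies together have at most the energy of the whole graph -/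
theorem two_le (F : (PT κ g β d ⊕ QT κ g β d) ⊕ (QT κ g β d ⊕ PT κ g β d) → ℝ) :
    EEC2 κ g β d (fun τ => rk E τ b) (fun x => F (.inl (.inl x))) (fun y => F (.inr (.inl y))) +
      EEC2 κ g β d (fun τ => crk E a τ) (fun x => F (.inr (.inr x))) (fun y => F (.inl (.inr y))) ≤
      ∑ x, ∑ y, if GR E a b κ g β d x y = true then (F (.inl x) - F (.inr y)) ^ 2 else 0 := by
  have e2 : EEC2 κ g β d (fun τ => crk E a τ) (fun x => F (.inr (.inr x)))
      (fun y => F (.inl (.inr y))) =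
      ∑ y : QT κ g β d, ∑ x : PT κ g β d, if GR E a b κ g β d (.inr y) (.inr x) = true then
        (F (.inl (.inr y)) - F (.inr (.inr x))) ^ 2 else 0 := by
    unfold EEC2
    rw [sum_comm]
    refine sum_congr rfl fun y _ => sum_congr rfl fun x _ => ?_
    rw [sub_sq_comm]
    rfl
  have e1 : EEC2 κ g β d (fun τ => rk E τ b) (fun x => F (.inl (.inl x)))
      (fun y => F (.inr (.inl y))) =
      ∑ x : PT κ g β d, ∑ y : QT κ g β d, if GR E a b κ g β d (.inl x) (.inl y) = true then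
        (F (.inl (.inl x)) - F (.inr (.inl y))) ^ 2 else 0 := rfl
  rw [e1, e2, Fintype.sum_sum_type]
  simp only [Fintype.sum_sum_type]
  refine add_le_add (sum_le_sum fun x _ => ?_) (sum_le_sum fun y _ => ?_)
  · refine le_add_of_nonneg_right (sum_nonneg fun y _ => ?_)
    split_ifs
    · exact sq_nonneg _
    · exact le_refl _
  · refine le_add_of_nonneg_left (sum_nonneg fun x _ => ?_)
    split_ifs
    · exact sq_nonneg _
    · exact le_refl _

end SpGAux

open SpGAux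

theorem sum_gap {E : ℕ → ℕ → Bool} {a b κ g β d : ℕ} (hg : 1 ≤ g) (hκ : κ = 2 * g)
    (hβ : 16 * g ^ 2 ≤ β) (hd : d = (κ + 1) * β)
    (F : (PT κ g β d ⊕ QT κ g β d) ⊕ (QT κ g β d ⊕ PT κ g β d) → ℝ)
    (h1 : ∑ x, F (.inl (.inl x)) + ∑ y, F (.inr (.inl y)) = 0)
    (h2 : ∑ x, F (.inr (.inr x)) + ∑ y, F (.inl (.inr y)) = 0) :
    g * ∑ v, F v ^ 2 ≤ 3 * ∑ x, ∑ y,
      if GR E a b κ g β d x y = true then (F (.inl x) - F (.inr y)) ^ 2 else 0 := by
  have c1 := copy_gap (ρ := fun τ => rk E τ b) (fun x => F (.inl (.inl x)))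
    (fun y => F (.inr (.inl y))) hg hκ hβ hd h1
  have c2 := copy_gap (ρ := fun τ => crk E a τ) (fun x => F (.inr (.inr x)))
    (fun y => F (.inl (.inr y))) hg hκ hβ hd h2
  have c3 := two_le (E := E) (a := a) (b := b) F
  have hS : ∑ v, F v ^ 2 = (∑ x, F (.inl (.inl x)) ^ 2 + ∑ y, F (.inr (.inl y)) ^ 2) +
      (∑ x, F (.inr (.inr x)) ^ 2 + ∑ y, F (.inl (.inr y)) ^ 2) := by
    simp only [Fintype.sum_sum_type]
    ring
  rw [hS, mul_add]
  linarith

namespace SpGAux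

variable {G : BGraph} {g β : ℕ}

/-- the sums over the two copies -/
noncomputable def two (g β d : ℕ) (κ : ℕ) :
    (Fin (2 ^ κ * wP g β d + 2 ^ κ * wQ g β d) ⊕ Fin (2 ^ κ * wQ g β d + 2 ^ κ * wP g β d) → ℝ)
      →ₗ[ℝ] ℝ × ℝ where
  toFun f := (∑ x, f (.inl (eL κ g β d (.inl x))) + ∑ y, f (.inr (eR κ g β d (.inl y))),
    ∑ x, f (.inr (eR κ g β d (.inr x))) + ∑ y, f (.inl (eL κ g β d (.inr y))))
  map_add' f f' := by
    simp only [Pi.add_apply, sum_add_distrib, Prod.mk_add_mk]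
    refine Prod.ext ?_ ?_
    · simp only
      ring
    · simp only
      ring
  map_smul' c f := by
    simp only [Pi.smul_apply, smul_eq_mul, RingHom.id_apply, Prod.smul_mk, ← mul_sum, mul_add]

theorem exists_ker {n : Type} [Fintype n] (U : Submodule ℝ (n → ℝ))
    (hU : 3 ≤ Module.finrank ℝ U) (φ : (n → ℝ) →ₗ[ℝ] ℝ × ℝ) : ∃ f ∈ U, f ≠ 0 ∧ φ f = 0 := by
  have h1 : Module.finrank ℝ (ℝ × ℝ) < Module.finrank ℝ U := by
    rw [Module.finrank_prod, Module.finrank_self]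
    omega
  have h2 := LinearMap.ker_ne_bot_of_finrank_lt (f := φ.comp U.subtype) h1
  obtain ⟨f, hf, hf0⟩ := Submodule.exists_mem_ne_zero_of_ne_bot h2
  refine ⟨f, f.2, fun h => hf0 (Subtype.ext h), ?_⟩
  exact LinearMap.mem_ker.1 hf

end SpGAux

theorem redG_few {G : BGraph} {t g β : ℕ} (h : GOk G t g β) {k : ℕ} (hk : 3 ≤ k) {x : ℝ}
    (hx : x ≤ (g : ℝ) / 3) :
    FewEig k ((((2 * g + 1) * β : ℕ) : ℝ) - x) (redG g β G) := by
  unfold FewEig
  by_contra hcon
  rw [not_lt] at hcon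
  obtain ⟨U, hU1, hU2⟩ := sub_of_many _ hcon
  obtain ⟨f, hfU, hf0, hφ⟩ := exists_ker U (hk.trans hU1) (two g β ((2 * g + 1) * β) (2 * g))
  have hlt := hU2 f hfU hf0
  have hq := quad_form (redG_reg h) f
  have hg10 := h.g10
  have hβ := h.bet
  have hgβ : g < β := by nlinarith
  have hE := redG_ok h
  -- the function on the vertices of the two copies
  set F : (PT (2 * g) g β ((2 * g + 1) * β) ⊕ QT (2 * g) g β ((2 * g + 1) * β)) ⊕
    (QT (2 * g) g β ((2 * g + 1) * β) ⊕ PT (2 * g) g β ((2 * g + 1) * β)) → ℝ :=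
    fun v => f (Equiv.sumCongr (eL (2 * g) g β ((2 * g + 1) * β))
      (eR (2 * g) g β ((2 * g + 1) * β)) v) with hF
  have hφ' : (∑ x, F (.inl (.inl x)) + ∑ y, F (.inr (.inl y)),
    ∑ x, F (.inr (.inr x)) + ∑ y, F (.inl (.inr y))) = ((0 : ℝ), (0 : ℝ)) := hφ
  have h1 := congrArg Prod.fst hφ'
  have h2 := congrArg Prod.snd hφ'
  have hgap := sum_gap (E := G.F) (a := G.a) (b := G.b) (by omega : 1 ≤ g) rfl hβ rfl F h1 h2
  have hsum : ∑ v, F v ^ 2 = f ⬝ᵥ f := by
    unfold dotProduct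
    refine Fintype.sum_equiv (Equiv.sumCongr (eL (2 * g) g β ((2 * g + 1) * β))
      (eR (2 * g) g β ((2 * g + 1) * β))) _ _ fun v => ?_
    exact sq (F v)
  have hen : (∑ x, ∑ y, if GR G.F G.a G.b (2 * g) g β ((2 * g + 1) * β) x y = true then
      (F (.inl x) - F (.inr y)) ^ 2 else 0) =
      ∑ i, ∑ j, if (redG g β G).E i j = true then (f (.inl i) - f (.inr j)) ^ 2 else 0 := by
    refine Fintype.sum_equiv (eL (2 * g) g β ((2 * g + 1) * β)) _ _ fun x => ?_
    refine Fintype.sum_equiv (eR (2 * g) g β ((2 * g + 1) * β)) _ _ fun y => ?_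
    have h5 := GR_iff hE hgβ x y
    by_cases h6 : GR G.F G.a G.b (2 * g) g β ((2 * g + 1) * β) x y = true
    · rw [if_pos h6]
      have h7 := h5.1 h6
      exact (if_pos h7).symm
    · rw [if_neg h6]
      have h7 := fun h8 => h6 (h5.2 h8)
      exact (if_neg h7).symm
  rw [hsum, hen, ← hq] at hgap
  have hff : 0 ≤ f ⬝ᵥ f := by
    unfold dotProduct
    exact sum_nonneg fun v _ => mul_self_nonneg _
  have hm := mul_nonneg (sub_nonneg.2 hx) hff
  nlinarith [hm]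

end Pool.Agent.Lib.Pa7c826m
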