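import Pool.Agent.Lib.Pa7c826m.HardA
import Pool.Agent.Lib.Pa7c826m.SpG

/-!
Hardness at densities between two powers of the number of vertices, for graphs with few large eigenvalues.

PROOF. Copy the proof of `hard_dense` (HardA.lean); the class has one more condition, which holds by `redG_few`:
`logb_le3`: `logb 2 (n / d) / 7 ≤ g / 3`, as `logb 2 (n / d) ≤ 2 g + 3 ≤ 7 g / 3` for `g ≥ 9` (see `logb_le`).
-/

namespace Pool.Agent.Lib.Pa7c826m

open Finset Pool.Agent.Lib.Pa7c826 Pool.Agent.Lib.Pa7c826s Pool.Agent.Lib.Pa7c826y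
open Pool.Agent.Lib.PolyTime

namespace HardCAux

theorem logb_aux {g β n d : ℕ} (hβ : 1 ≤ β) (hd : d = (2 * g + 1) * β)
    (hn : n = 4 * 2 ^ (2 * g) * (β + (2 * g + 1) * β - g)) :
    Real.logb 2 ((n : ℝ) / d) ≤ 2 * (g : ℝ) + 3 := by
  have hgd : g ≤ (2 * g + 1) * β := by nlinarith
  have hn1 : 1 ≤ n := by
    rw [hn]
    have h1 : 1 ≤ β + (2 * g + 1) * β - g := by omega
    have h2 : 1 ≤ 2 ^ (2 * g) := Nat.one_le_two_pow
    nlinarith
  have hd1 : 1 ≤ d := by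
    rw [hd]
    nlinarith
  have hle : n ≤ 2 ^ (2 * g + 3) * d := by
    rw [hn, hd]
    have h1 : β + (2 * g + 1) * β - g ≤ 2 * ((2 * g + 1) * β) := by
      have : β ≤ (2 * g + 1) * β := by nlinarith
      omega
    calc 4 * 2 ^ (2 * g) * (β + (2 * g + 1) * β - g)
        ≤ 4 * 2 ^ (2 * g) * (2 * ((2 * g + 1) * β)) := Nat.mul_le_mul_left _ h1
      _ = 2 ^ (2 * g + 3) * ((2 * g + 1) * β) := by ring
  have hdR : (0 : ℝ) < d := by exact_mod_cast hd1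
  have hnR : (0 : ℝ) < n := by exact_mod_cast hn1
  have h1 : (n : ℝ) / d ≤ 2 ^ (2 * g + 3) := by
    rw [div_le_iff₀ hdR]
    exact_mod_cast hle
  have h2 : Real.logb 2 ((n : ℝ) / d) ≤ Real.logb 2 ((2 : ℝ) ^ (2 * g + 3)) :=
    Real.logb_le_logb_of_le (by norm_num) (div_pos hnR hdR) h1
  rw [Real.logb_pow, Real.logb_self_eq_one (by norm_num)] at h2
  push_cast at h2
  linarith

theorem size_aux {p1 q1 p2 q2 p q h n d β g : ℕ} (hp : p = p1 + p2) (hpq : p + q = q1 + q2)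
    (h12 : p1 * q2 < p2 * q1) (hg : g = q * h) (hβ : β = 2 ^ (2 * p * h))
    (hd : d = (2 * g + 1) * β) (hn : n = 4 * 2 ^ (2 * g) * (β + (2 * g + 1) * β - g))
    (hc1 : (8 * (q * h + 1)) ^ p1 ≤ 2 ^ (2 * h))
    (hc2 : (2 * (q * h) + 1) ^ q2 ≤ 2 ^ (2 * h)) :
    n ^ p1 ≤ d ^ q1 ∧ d ^ q2 ≤ n ^ p2 ∧ 2 ^ (2 * g) ≤ n := by
  have hβ1 : 1 ≤ β := by
    rw [hβ]
    exact Nat.one_le_two_pow
  have hgd : g ≤ (2 * g + 1) * β := by nlinarith
  have e1 : 2 ^ (2 * g) * β = 2 ^ (2 * (p + q) * h) := by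
    rw [hg, hβ, ← pow_add]
    congr 1
    ring
  have n1 : 2 ^ (2 * g) * β ≤ n := by
    rw [hn]
    have h1 : β ≤ β + (2 * g + 1) * β - g := by omega
    calc 2 ^ (2 * g) * β ≤ 2 ^ (2 * g) * (β + (2 * g + 1) * β - g) := Nat.mul_le_mul_left _ h1
      _ ≤ 4 * 2 ^ (2 * g) * (β + (2 * g + 1) * β - g) :=
          Nat.mul_le_mul_right _ (Nat.le_mul_of_pos_left _ (by norm_num))
  have n2 : n ≤ 8 * (g + 1) * (2 ^ (2 * g) * β) := by
    rw [hn]
    have h1 : β + (2 * g + 1) * β - g ≤ (2 * g + 2) * β := by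
      have : β + (2 * g + 1) * β = (2 * g + 2) * β := by ring
      omega
    calc 4 * 2 ^ (2 * g) * (β + (2 * g + 1) * β - g)
        ≤ 4 * 2 ^ (2 * g) * ((2 * g + 2) * β) := Nat.mul_le_mul_left _ h1
      _ = 8 * (g + 1) * (2 ^ (2 * g) * β) := by ring
  have i1 : 1 + (p + q) * p1 ≤ p * q1 := by
    rw [hpq, hp]
    nlinarith
  have i2 : 1 + p * q2 ≤ (p + q) * p2 := by
    rw [hpq, hp]
    nlinarith
  have dβ : β ≤ d := by
    rw [hd]
    nlinarith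
  refine ⟨?_, ?_, ?_⟩
  · calc n ^ p1 ≤ (8 * (g + 1) * (2 ^ (2 * g) * β)) ^ p1 := Nat.pow_le_pow_left n2 _
      _ = (8 * (q * h + 1)) ^ p1 * 2 ^ (2 * (p + q) * h * p1) := by
          rw [mul_pow, e1, ← pow_mul, hg]
      _ ≤ 2 ^ (2 * h) * 2 ^ (2 * (p + q) * h * p1) := Nat.mul_le_mul_right _ hc1
      _ = 2 ^ (2 * h * (1 + (p + q) * p1)) := by
          rw [← pow_add]
          congr 1
          ring
      _ ≤ 2 ^ (2 * h * (p * q1)) :=
          Nat.pow_le_pow_right (by norm_num) (Nat.mul_le_mul_left _ i1)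
      _ = β ^ q1 := by
          rw [hβ, ← pow_mul]
          congr 1
          ring
      _ ≤ d ^ q1 := Nat.pow_le_pow_left dβ _
  · calc d ^ q2 = (2 * (q * h) + 1) ^ q2 * β ^ q2 := by rw [hd, mul_pow, hg]
      _ ≤ 2 ^ (2 * h) * β ^ q2 := Nat.mul_le_mul_right _ hc2
      _ = 2 ^ (2 * h * (1 + p * q2)) := by
          rw [hβ, ← pow_mul, ← pow_add]
          congr 1
          ring
      _ ≤ 2 ^ (2 * h * ((p + q) * p2)) :=
          Nat.pow_le_pow_right (by norm_num) (Nat.mul_le_mul_left _ i2)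
      _ = (2 ^ (2 * g) * β) ^ p2 := by
          rw [e1, ← pow_mul]
          congr 1
          ring
      _ ≤ n ^ p2 := Nat.pow_le_pow_left n1 _
  · exact (Nat.le_mul_of_pos_right _ hβ1).trans n1

end HardCAux

theorem logb_le3 {g β n d : ℕ} (hg : 9 ≤ g) (hβ : 1 ≤ β) (hd : d = (2 * g + 1) * β)
    (hn : n = 4 * 2 ^ (2 * g) * (β + (2 * g + 1) * β - g)) :
    Real.logb 2 ((n : ℝ) / d) / 7 ≤ (g : ℝ) / 3 := by
  have h := HardCAux.logb_aux hβ hd hn
  have hg' : (9 : ℝ) ≤ g := by exact_mod_cast hg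
  linarith

theorem hard_dense2 {k e p1 q1 p2 q2 : ℕ} (hk : 3 ≤ k) (hp : 0 < p1) (h12 : p1 * q2 < p2 * q1)
    (h2 : p2 < q2) (h : HasRApx (fun G t => t ^ e ≤ G.a + G.b ∧ ∃ d, RegularOf d G ∧
      (G.a + G.b) ^ p1 ≤ d ^ q1 ∧ d ^ q2 ≤ (G.a + G.b) ^ p2 ∧
      MultiExp k (Real.logb 2 (((G.a + G.b : ℕ) : ℝ) / d) / 5) G ∧
      FewEig k (d - Real.logb 2 (((G.a + G.b : ℕ) : ℝ) / d) / 7) G)) :
    HasFPRAS (fun _ => True) := by
  have hq1 : 0 < q1 := by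
    rcases Nat.eq_zero_or_pos q1 with h0 | h0
    · subst h0
      simp at h12
    · exact h0
  have hpq1 : p1 < q1 := by
    by_contra hcon
    push Not at hcon
    have a1 : q1 * q2 ≤ p1 * q2 := Nat.mul_le_mul_right _ hcon
    have a2 : p2 * q1 ≤ q2 * q1 := Nat.mul_le_mul_right _ h2.le
    have a3 : q2 * q1 = q1 * q2 := Nat.mul_comm _ _
    omega
  obtain ⟨p, hpdef⟩ : ∃ p, p = p1 + p2 := ⟨_, rfl⟩
  obtain ⟨q, hqdef⟩ : ∃ q, q = q1 + q2 - p1 - p2 := ⟨_, rfl⟩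
  have hq : 1 ≤ q := by omega
  have hpp : 1 ≤ p := by omega
  have hpq : p + q = q1 + q2 := by omega
  obtain ⟨C, hC10, hCe, hC⟩ := exists_C p1 q q2 e hq
  have hok : ∀ (G : BGraph) (t : ℕ),
      GOk G t (q * (C * Lh G t)) (2 ^ (2 * p * (C * Lh G t))) :=
    GOk_A hpp hq hC10 fun h hh => (hC h hh).2.2
  refine hard_gen (C := fun _ => True) (fun G t => q * (C * Lh G t))
    (fun G t => 2 ^ (2 * p * (C * Lh G t))) ?_ ?_ ?_ (fun G t _ _ => hok G t) ?_ h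
  · exact (PolyN.const q).mul ((PolyN.const C).mul (poly_Lh _))
  · refine (poly_two_Lh _ (2 * p * C)).congr fun x _ => ?_
    rw [mul_assoc]
  · refine (poly_two_Lh _ (q * C)).congr fun x _ => ?_
    rw [mul_assoc]
  · intro G t _ _
    have hG := hok G t
    obtain ⟨L, hL⟩ : ∃ L, L = Lh G t := ⟨_, rfl⟩
    have hL2 := (two_Lh G t).1
    rw [← hL] at hG hL2 ⊢
    have hL1 : 1 ≤ L := by
      rw [hL]
      unfold Lh
      omega
    have hh : C ≤ C * L := Nat.le_mul_of_pos_right _ hL1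
    obtain ⟨c1, c2, -⟩ := hC (C * L) hh
    obtain ⟨β, hβ⟩ : ∃ β, β = 2 ^ (2 * p * (C * L)) := ⟨_, rfl⟩
    obtain ⟨g, hg⟩ : ∃ g, g = q * (C * L) := ⟨_, rfl⟩
    rw [← hβ, ← hg] at hG ⊢
    have hg10 := hG.g10
    have hβ1 : 1 ≤ β := by
      rw [hβ]
      exact Nat.one_le_two_pow
    have hcard := redG_card hG
    obtain ⟨s1, s2, s3⟩ := HardCAux.size_aux hpdef hpq h12 hg hβ rfl hcard c1 c2
    refine ⟨?_, (2 * g + 1) * β, redG_reg hG, s1, s2, ?_, ?_⟩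
    · calc (2 * t) ^ e ≤ (2 ^ L) ^ e := Nat.pow_le_pow_left (by omega) _
        _ = 2 ^ (L * e) := (pow_mul _ _ _).symm
        _ ≤ 2 ^ (2 * g) := by
            apply Nat.pow_le_pow_right (by norm_num)
            rw [hg]
            calc L * e ≤ L * C := Nat.mul_le_mul_left _ hCe
              _ = 1 * (C * L) := by ring
              _ ≤ (2 * q) * (C * L) := Nat.mul_le_mul_right _ (by omega)
              _ = 2 * (q * (C * L)) := by ring
        _ ≤ _ := s3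
    · exact redG_exp hG hk (logb_le (by omega) hβ1 rfl hcard)
    · exact redG_few hG hk (logb_le3 (by omega) hβ1 rfl hcard)

end Pool.Agent.Lib.Pa7c826m
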