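import Pool.Agent.Lib.Pa7c826m.HardB
import Pool.Agent.Lib.Pa7c826m.HardC

/-!
Hardness for polylogarithmic degrees, for graphs with few large eigenvalues.

PROOF. Copy the proof of `hard_sparse` (HardB.lean); one more condition, which holds by `redG_few` and `logb_le3`.
-/

namespace Pool.Agent.Lib.Pa7c826m

open Finset Pool.Agent.Lib Pool.Agent.Lib.Pa7c826 Pool.Agent.Lib.Pa7c826s
open Pool.Agent.Lib.Pa7c826y Pool.Agent.Lib.PolyTime

namespace HardDAux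

theorem cube_le : ∀ g : ℕ, 24 ≤ g → 256 * g ^ 3 ≤ 2 ^ g := by
  intro g hg
  induction g, hg using Nat.le_induction with
  | base => norm_num
  | succ n hn ih =>
    have h1 : (n + 1) ^ 3 ≤ 2 * n ^ 3 := by nlinarith [mul_le_mul hn hn (by omega) (by omega)]
    calc 256 * (n + 1) ^ 3 ≤ 2 * (256 * n ^ 3) := by omega
      _ ≤ 2 * 2 ^ n := Nat.mul_le_mul_left _ ih
      _ = 2 ^ (n + 1) := by ring

theorem size_le {g n : ℕ} (hg : 24 ≤ g)
    (hn : n = 4 * 2 ^ (2 * g) * (16 * g ^ 2 + (2 * g + 1) * (16 * g ^ 2) - g)) :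
    2 ^ (2 * g) ≤ n ∧ n ≤ 2 ^ (3 * g) := by
  have h0 : 1 ≤ 2 ^ (2 * g) := Nat.one_le_two_pow
  have h1 : 1 ≤ 16 * g ^ 2 + (2 * g + 1) * (16 * g ^ 2) - g := by
    have : g ≤ g ^ 2 := by nlinarith
    omega
  have h2 : 16 * g ^ 2 + (2 * g + 1) * (16 * g ^ 2) - g ≤ 64 * g ^ 3 := by
    refine (Nat.sub_le _ _).trans ?_
    have : g ^ 2 ≤ g ^ 3 := Nat.pow_le_pow_right (by omega) (by omega)
    nlinarith
  constructor
  · rw [hn]
    calc 2 ^ (2 * g) = 1 * 2 ^ (2 * g) * 1 := by ring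
      _ ≤ 4 * 2 ^ (2 * g) * (16 * g ^ 2 + (2 * g + 1) * (16 * g ^ 2) - g) :=
        Nat.mul_le_mul (Nat.mul_le_mul_right _ (by norm_num)) h1
  · rw [hn]
    calc 4 * 2 ^ (2 * g) * (16 * g ^ 2 + (2 * g + 1) * (16 * g ^ 2) - g) ≤
        4 * 2 ^ (2 * g) * (64 * g ^ 3) := Nat.mul_le_mul_left _ h2
      _ = 2 ^ (2 * g) * (256 * g ^ 3) := by ring
      _ ≤ 2 ^ (2 * g) * 2 ^ g := Nat.mul_le_mul_left _ (cube_le g hg)
      _ = 2 ^ (3 * g) := by rw [← pow_add]; congr 1; omega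

theorem logb_bds {g n : ℕ} (h1 : 2 ^ (2 * g) ≤ n) (h2 : n ≤ 2 ^ (3 * g)) :
    (2 * g : ℝ) ≤ Real.logb 2 (n : ℝ) ∧ Real.logb 2 (n : ℝ) ≤ 3 * g := by
  have hn : (0 : ℝ) < n := by
    have : 0 < n := lt_of_lt_of_le (by positivity) h1
    exact_mod_cast this
  constructor
  · rw [Real.le_logb_iff_rpow_le (by norm_num) hn]
    have e : ((2 : ℝ) ^ (2 * (g : ℝ))) = ((2 ^ (2 * g) : ℕ) : ℝ) := by
      have := Real.rpow_natCast (2 : ℝ) (2 * g)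
      push_cast at this ⊢
      exact this
    rw [e]
    exact_mod_cast h1
  · rw [Real.logb_le_iff_le_rpow (by norm_num) hn]
    have e : ((2 : ℝ) ^ (3 * (g : ℝ))) = ((2 ^ (3 * g) : ℕ) : ℝ) := by
      have := Real.rpow_natCast (2 : ℝ) (3 * g)
      push_cast at this ⊢
      exact this
    rw [e]
    exact_mod_cast h2

theorem cls {G : BGraph} {t g k e : ℕ} (hk : 3 ≤ k) (hg : 24 ≤ g) (hok : GOk G t g (16 * g ^ 2))
    (he : (2 * t) ^ e ≤ 2 ^ (2 * g)) :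
    (2 * t) ^ e ≤ (redG g (16 * g ^ 2) G).a + (redG g (16 * g ^ 2) G).b ∧
      ∃ d : ℕ, RegularOf d (redG g (16 * g ^ 2) G) ∧
      Real.logb 2 ((redG g (16 * g ^ 2) G).a + (redG g (16 * g ^ 2) G).b : ℕ) ^ 3 ≤ d ∧
      d ≤ 5 * Real.logb 2 ((redG g (16 * g ^ 2) G).a + (redG g (16 * g ^ 2) G).b : ℕ) ^ 3 ∧
      MultiExp k (Real.logb 2
        ((((redG g (16 * g ^ 2) G).a + (redG g (16 * g ^ 2) G).b : ℕ) : ℝ) / d) / 5)
        (redG g (16 * g ^ 2) G) ∧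
      FewEig k (d - Real.logb 2
        ((((redG g (16 * g ^ 2) G).a + (redG g (16 * g ^ 2) G).b : ℕ) : ℝ) / d) / 7)
        (redG g (16 * g ^ 2) G) := by
  have hn := redG_card hok
  have hb : 1 ≤ 16 * g ^ 2 := by nlinarith
  obtain ⟨s1, s2⟩ := size_le hg hn
  obtain ⟨l1, l2⟩ := logb_bds s1 s2
  have hg' : (24 : ℝ) ≤ g := by exact_mod_cast hg
  refine ⟨he.trans s1, (2 * g + 1) * (16 * g ^ 2), redG_reg hok, ?_, ?_, ?_, ?_⟩
  · have h0 : (0 : ℝ) ≤ Real.logb 2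
        ((redG g (16 * g ^ 2) G).a + (redG g (16 * g ^ 2) G).b : ℕ) :=
      le_trans (by positivity) l1
    calc Real.logb 2 ((redG g (16 * g ^ 2) G).a + (redG g (16 * g ^ 2) G).b : ℕ) ^ 3 ≤
        (3 * (g : ℝ)) ^ 3 := pow_le_pow_left₀ h0 l2 3
      _ ≤ (((2 * g + 1) * (16 * g ^ 2) : ℕ) : ℝ) := by
        push_cast
        have : (0 : ℝ) ≤ (g : ℝ) ^ 3 := by positivity
        nlinarith [sq_nonneg (g : ℝ)]
  · have h3 : (2 * (g : ℝ)) ^ 3 ≤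
        Real.logb 2 ((redG g (16 * g ^ 2) G).a + (redG g (16 * g ^ 2) G).b : ℕ) ^ 3 :=
      pow_le_pow_left₀ (by positivity) l1 3
    have h4 : (((2 * g + 1) * (16 * g ^ 2) : ℕ) : ℝ) ≤ 5 * (2 * (g : ℝ)) ^ 3 := by
      push_cast
      nlinarith [mul_nonneg (sq_nonneg (g : ℝ)) (sub_nonneg.mpr hg')]
    linarith
  · exact redG_exp hok hk (logb_le (by omega) hb rfl hn)
  · exact redG_few hok hk (logb_le3 (by omega) hb rfl hn)

theorem two_t_le {G : BGraph} {t e C : ℕ} (heC : e ≤ C) :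
    (2 * t) ^ e ≤ 2 ^ (2 * (C * Lh G t)) := by
  have h1 : 2 * t ≤ 2 ^ Lh G t := by
    have := (two_Lh G t).1
    omega
  calc (2 * t) ^ e ≤ (2 ^ Lh G t) ^ e := Nat.pow_le_pow_left h1 e
    _ = 2 ^ (e * Lh G t) := by rw [← pow_mul, mul_comm]
    _ ≤ 2 ^ (2 * (C * Lh G t)) := by
      refine Nat.pow_le_pow_right (by norm_num) ?_
      have : e * Lh G t ≤ C * Lh G t := Nat.mul_le_mul_right _ heC
      omega

end HardDAux

open HardDAux

theorem hard_sparse2 {k e Δ : ℕ} (hk : 3 ≤ k)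
    (h : HasRApx (fun G t => t ^ e ≤ G.a + G.b ∧ ∃ d : ℕ, RegularOf d G ∧
      Real.logb 2 (G.a + G.b : ℕ) ^ 3 ≤ d ∧ d ≤ 5 * Real.logb 2 (G.a + G.b : ℕ) ^ 3 ∧
      MultiExp k (Real.logb 2 (((G.a + G.b : ℕ) : ℝ) / d) / 5) G ∧
      FewEig k (d - Real.logb 2 (((G.a + G.b : ℕ) : ℝ) / d) / 7) G)) :
    HasFPRAS (Pa7c826h.MaxDeg Δ) := by
  obtain ⟨C, hC⟩ : ∃ C, C = max (max 24 e) Δ := ⟨_, rfl⟩
  have c1 : 24 ≤ C := by rw [hC]; exact (le_max_left _ _).trans (le_max_left _ _)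
  have c2 : e ≤ C := by rw [hC]; exact (le_max_right _ _).trans (le_max_left _ _)
  have c3 : Δ ≤ C := by rw [hC]; exact le_max_right _ _
  refine hard_gen (fun G t => C * Lh G t) (fun G t => 16 * (C * Lh G t) ^ 2)
    ((PolyN.const C).mul (poly_Lh _))
    ((PolyN.const 16).mul (PolyN.pow ((PolyN.const C).mul (poly_Lh _)) 2))
    (poly_two_Lh _ C) ?_ ?_ h
  · intro G t hG _
    exact GOk_B (by omega) c3 G t hG
  · intro G t hG _
    have hL : 1 ≤ Lh G t := by unfold Lh; omega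
    have hg : 24 ≤ C * Lh G t := by nlinarith
    exact cls hk hg (GOk_B (by omega) c3 G t hG) (two_t_le c2)

end Pool.Agent.Lib.Pa7c826m
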