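import Pool.Agent.Lib.Pa7c826m.BSum

/-!
Almost all independent sets of a copy contain no `Q`-vertex, whatever the set of occupied `P(τ, 0)`.

PROOF. `(indC …).card = ∑ q, ((indC …).filter (fun p => qs p.2 = q)).card` (`Finset.card_eq_sum_card_fiberwise`). The term `q = ∅` is `N0`
by `base_card` (lower bound). For the others `fib_le`, grouped by `B = sup q ≠ ∅` (`q ≠ ∅` iff `sup q ≠ ∅`;
`Finset.sum_fiberwise`), `sum_sup_le` and `sum_cB`.
-/

namespace Pool.Agent.Lib.Pa7c826m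

open Finset Pool.Agent.Lib.Pa7c826 Pool.Agent.Lib.Pa7c826s

variable {κ g β d M : ℕ} {ρ : ℕ → ℕ}

namespace LemEAux

theorem sup_eq_empty (q : Fin (2 ^ κ) → Finset (Fin β)) : sup q = ∅ ↔ q = fun _ => ∅ := by
  unfold sup
  rw [Finset.filter_eq_empty_iff]
  constructor
  · intro h
    funext τ
    exact not_not.mp (h (mem_univ τ))
  · intro h τ _
    rw [h]
    simp

end LemEAux

open LemEAux

theorem indC_le (hg : 10 ≤ g) (hκ : κ = 2 * g) (hβ : 16 * g ^ 2 ≤ β) (hd : d = (κ + 1) * β)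
    (hM : M ≤ 2 ^ (g - 5)) (hρ : ∀ τ, M ≤ τ → ρ τ = 0) (α : Finset ℕ) :
    ((indC κ g β d ρ M α).card : ℝ) ≤ N0 κ g β d M * (1 + 4 / 2 ^ (4 * g)) := by
  classical
  have hgβ : g < β := by nlinarith
  have hβd : β ≤ d := by
    rw [hd]
    exact Nat.le_mul_of_pos_left β (Nat.succ_pos κ)
  have hgd : g ≤ d := hgβ.le.trans hβd
  have h1 : (indC κ g β d ρ M α).card = ∑ q : Fin (2 ^ κ) → Finset (Fin β),
      ((indC κ g β d ρ M α).filter (fun p => qs p.2 = q)).card :=
    Finset.card_eq_sum_card_fiberwise (fun _ _ => mem_univ _)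
  have h2 : ((indC κ g β d ρ M α).card : ℝ) = ∑ B : Finset (Fin (2 ^ κ)),
      ∑ q ∈ univ.filter (fun q : Fin (2 ^ κ) → Finset (Fin β) => sup q = B),
        (((indC κ g β d ρ M α).filter (fun p => qs p.2 = q)).card : ℝ) := by
    rw [h1, Nat.cast_sum]
    exact (Finset.sum_fiberwise univ sup _).symm
  have h3 : ∑ q ∈ univ.filter (fun q : Fin (2 ^ κ) → Finset (Fin β) => sup q = ∅),
        (((indC κ g β d ρ M α).filter (fun p => qs p.2 = q)).card : ℝ) = N0 κ g β d M := by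
    have h4 : univ.filter (fun q : Fin (2 ^ κ) → Finset (Fin β) => sup q = ∅) =
        {fun _ => ∅} := by
      ext q
      rw [mem_filter, mem_singleton, sup_eq_empty]
      simp
    rw [h4, Finset.sum_singleton, base_card hgβ α]
  have h5 : ∀ B : Finset (Fin (2 ^ κ)),
      ∑ q ∈ univ.filter (fun q : Fin (2 ^ κ) → Finset (Fin β) => sup q = B),
        (((indC κ g β d ρ M α).filter (fun p => qs p.2 = q)).card : ℝ) ≤
      N0 κ g β d M * cB g β d M B := by
    intro B
    refine le_trans (Finset.sum_le_sum fun q _ => ?_)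
      (sum_sup_le (by omega) hgβ hgd hd M B)
    exact_mod_cast fib_le hgβ hρ α q
  have h6 : ∑ B : Finset (Fin (2 ^ κ)),
      ∑ q ∈ univ.filter (fun q : Fin (2 ^ κ) → Finset (Fin β) => sup q = B),
        (((indC κ g β d ρ M α).filter (fun p => qs p.2 = q)).card : ℝ) =
      ∑ B ∈ univ.filter (fun B : Finset (Fin (2 ^ κ)) => B = ∅),
      ∑ q ∈ univ.filter (fun q : Fin (2 ^ κ) → Finset (Fin β) => sup q = B),
        (((indC κ g β d ρ M α).filter (fun p => qs p.2 = q)).card : ℝ) +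
      ∑ B ∈ univ.filter (fun B : Finset (Fin (2 ^ κ)) => ¬ B = ∅),
      ∑ q ∈ univ.filter (fun q : Fin (2 ^ κ) → Finset (Fin β) => sup q = B),
        (((indC κ g β d ρ M α).filter (fun p => qs p.2 = q)).card : ℝ) :=
    (Finset.sum_filter_add_sum_filter_not univ _ _).symm
  have h7 : univ.filter (fun B : Finset (Fin (2 ^ κ)) => B = ∅) = {∅} := by
    ext B
    simp
  rw [h2, h6, h7, Finset.sum_singleton, h3]
  have h8 : ∑ B ∈ univ.filter (fun B : Finset (Fin (2 ^ κ)) => ¬ B = ∅),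
      ∑ q ∈ univ.filter (fun q : Fin (2 ^ κ) → Finset (Fin β) => sup q = B),
        (((indC κ g β d ρ M α).filter (fun p => qs p.2 = q)).card : ℝ) ≤
      N0 κ g β d M * (4 / 2 ^ (4 * g)) := by
    calc _ ≤ ∑ B ∈ univ.filter (fun B : Finset (Fin (2 ^ κ)) => B ≠ ∅),
          N0 κ g β d M * cB g β d M B := Finset.sum_le_sum fun B _ => h5 B
      _ = N0 κ g β d M * ∑ B ∈ univ.filter (fun B : Finset (Fin (2 ^ κ)) => B ≠ ∅),
          cB g β d M B := by rw [Finset.mul_sum]
      _ ≤ _ := mul_le_mul_of_nonneg_left (sum_cB hg hκ hβ hβd hM) (Nat.cast_nonneg _)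
  linarith

end Pool.Agent.Lib.Pa7c826m
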