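import Pool.Agent.Lib.Pa7c826m.EasyFin
import Pool.Agent.Lib.Pa7c826m.HardB

/-!
The threshold for the multiway expansion.

PROOF. First part: `C = CM k K + 1`, `easy_multi`, `HasApx.mono`: `Nat.log 2 n ≤ logb 2 n` (`Real.natLog_le_logb`; `n = 0`: both are `0`), and `MultiExp` is decreasing in `x`.
Second part: `hard_dense` and `HasRApx.of_fpras`. Third part: `hard_sparse`.
-/

namespace Pool.Agent.Lib.Pa7c826m

open Finset Pool.Agent.Lib Pool.Agent.Lib.Pa7c826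

theorem multiway :
    (∀ k K : ℕ, ∃ C : ℝ, 0 < C ∧ HasApx (fun G t => t ≤ (G.a + G.b) ^ K ∧ (∃ d, RegularOf d G) ∧
      MultiExp k (C * Real.logb 2 (G.a + G.b : ℕ)) G)) ∧
    (∀ k e p1 q1 p2 q2 : ℕ, 3 ≤ k → 0 < p1 → p1 * q2 < p2 * q1 → p2 < q2 →
      (HasRApx (fun G t => t ^ e ≤ G.a + G.b ∧ ∃ d, RegularOf d G ∧
        (G.a + G.b) ^ p1 ≤ d ^ q1 ∧ d ^ q2 ≤ (G.a + G.b) ^ p2 ∧
        MultiExp k (Real.logb 2 (((G.a + G.b : ℕ) : ℝ) / d) / 5) G) ↔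
      HasFPRAS (fun _ => True))) ∧
    ∀ k e Δ : ℕ, 3 ≤ k → HasRApx (fun G t => t ^ e ≤ G.a + G.b ∧ ∃ d : ℕ, RegularOf d G ∧
        Real.logb 2 (G.a + G.b : ℕ) ^ 3 ≤ d ∧ d ≤ 5 * Real.logb 2 (G.a + G.b : ℕ) ^ 3 ∧
        MultiExp k (Real.logb 2 (((G.a + G.b : ℕ) : ℝ) / d) / 5) G) →
      HasFPRAS (Pa7c826h.MaxDeg Δ) := by
  refine ⟨fun k K => ⟨(CM k K : ℝ) + 1, by positivity, ?_⟩,
    fun k e p1 q1 p2 q2 hk hp h12 h2 => ⟨fun h => hard_dense hk hp h12 h2 h, fun h => HasRApx.of_fpras h⟩,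
    fun k e Δ hk h => hard_sparse hk h⟩
  refine HasApx.mono (fun G t hG => ⟨hG.1, hG.2.1, ?_⟩) (easy_multi k K)
  intro W h1 h2
  obtain ⟨i, hi⟩ := hG.2.2 W h1 h2
  refine ⟨i, le_trans (mul_le_mul_of_nonneg_right ?_ (Nat.cast_nonneg _)) hi⟩
  have h3 : (Nat.log 2 (G.a + G.b) : ℝ) ≤ Real.logb 2 ((G.a + G.b : ℕ) : ℝ) := by
    have h4 := Real.natLog_le_logb (G.a + G.b) 2
    exact_mod_cast h4
  have h5 : (0 : ℝ) ≤ Nat.log 2 (G.a + G.b) := Nat.cast_nonneg _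
  have h6 : (0 : ℝ) ≤ CM k K := Nat.cast_nonneg _
  rw [Nat.cast_mul]
  calc (CM k K : ℝ) * Nat.log 2 (G.a + G.b) ≤ (CM k K : ℝ) * Real.logb 2 ((G.a + G.b : ℕ) : ℝ) :=
        mul_le_mul_of_nonneg_left h3 h6
    _ ≤ ((CM k K : ℝ) + 1) * Real.logb 2 ((G.a + G.b : ℕ) : ℝ) :=
        mul_le_mul_of_nonneg_right (by linarith) (h5.trans h3)

end Pool.Agent.Lib.Pa7c826m
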