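import Pool.Agent.Lib.Pa7c826m.MultiFin
import Pool.Agent.Lib.Pa7c826m.HardD

/-!
The threshold for the multiway expansion and for the spectrum.

PROOF. First part: from `easy_multi` (as in MultiFin.lean) with `C = 2 (CM k K + 1)`: `MultiExp` is decreasing in `x`, and
`multi_of_few` with `x = C / 2 * logb 2 n` (`d - C * logb 2 n = d - 2 * x`). Second part: `hard_dense2`, `HasRApx.of_fpras`. Third part: `hard_sparse2`.
-/

namespace Pool.Agent.Lib.Pa7c826m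

open Finset Pool.Agent.Lib Pool.Agent.Lib.Pa7c826

theorem multiway_spectral :
    (∀ k K : ℕ, ∃ C : ℝ, 0 < C ∧ HasApx (fun G t => t ≤ (G.a + G.b) ^ K ∧ ∃ d, RegularOf d G ∧
      (MultiExp k (C * Real.logb 2 (G.a + G.b : ℕ)) G ∨
        FewEig k (d - C * Real.logb 2 (G.a + G.b : ℕ)) G))) ∧
    (∀ k e p1 q1 p2 q2 : ℕ, 3 ≤ k → 0 < p1 → p1 * q2 < p2 * q1 → p2 < q2 →
      (HasRApx (fun G t => t ^ e ≤ G.a + G.b ∧ ∃ d, RegularOf d G ∧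
        (G.a + G.b) ^ p1 ≤ d ^ q1 ∧ d ^ q2 ≤ (G.a + G.b) ^ p2 ∧
        MultiExp k (Real.logb 2 (((G.a + G.b : ℕ) : ℝ) / d) / 5) G ∧
        FewEig k (d - Real.logb 2 (((G.a + G.b : ℕ) : ℝ) / d) / 7) G) ↔
      HasFPRAS (fun _ => True))) ∧
    ∀ k e Δ : ℕ, 3 ≤ k → HasRApx (fun G t => t ^ e ≤ G.a + G.b ∧ ∃ d : ℕ, RegularOf d G ∧
        Real.logb 2 (G.a + G.b : ℕ) ^ 3 ≤ d ∧ d ≤ 5 * Real.logb 2 (G.a + G.b : ℕ) ^ 3 ∧
        MultiExp k (Real.logb 2 (((G.a + G.b : ℕ) : ℝ) / d) / 5) G ∧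
        FewEig k (d - Real.logb 2 (((G.a + G.b : ℕ) : ℝ) / d) / 7) G) →
      HasFPRAS (Pa7c826h.MaxDeg Δ) := by
  refine ⟨fun k K => ⟨2 * ((CM k K : ℝ) + 1), by positivity, ?_⟩,
    fun k e p1 q1 p2 q2 hk hp h12 h2 =>
      ⟨fun h => hard_dense2 hk hp h12 h2 h, fun h => HasRApx.of_fpras h⟩,
    fun k e Δ hk h => hard_sparse2 hk h⟩
  refine HasApx.mono (fun G t hG => ?_) (easy_multi k K)
  obtain ⟨ht, d, hd, hor⟩ := hG
  refine ⟨ht, ⟨d, hd⟩, ?_⟩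
  have h3 : (Nat.log 2 (G.a + G.b) : ℝ) ≤ Real.logb 2 ((G.a + G.b : ℕ) : ℝ) := by
    have h4 := Real.natLog_le_logb (G.a + G.b) 2
    exact_mod_cast h4
  have h5 : (0 : ℝ) ≤ Nat.log 2 (G.a + G.b) := Nat.cast_nonneg _
  have h6 : (0 : ℝ) ≤ CM k K := Nat.cast_nonneg _
  have h7 : (0 : ℝ) ≤ Real.logb 2 ((G.a + G.b : ℕ) : ℝ) := h5.trans h3
  have hM : MultiExp k (((CM k K : ℝ) + 1) * Real.logb 2 ((G.a + G.b : ℕ) : ℝ)) G := by
    rcases hor with hm | hf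
    · intro W h1 h2
      obtain ⟨i, hi⟩ := hm W h1 h2
      refine ⟨i, le_trans (mul_le_mul_of_nonneg_right ?_ (Nat.cast_nonneg _)) hi⟩
      exact mul_le_mul_of_nonneg_right (by linarith) h7
    · refine multi_of_few hd ?_
      have h8 : (d : ℝ) - 2 * (((CM k K : ℝ) + 1) * Real.logb 2 ((G.a + G.b : ℕ) : ℝ)) =
          d - 2 * ((CM k K : ℝ) + 1) * Real.logb 2 ((G.a + G.b : ℕ) : ℝ) := by ring
      rw [h8]
      exact hf
  intro W h1 h2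
  obtain ⟨i, hi⟩ := hM W h1 h2
  refine ⟨i, le_trans (mul_le_mul_of_nonneg_right ?_ (Nat.cast_nonneg _)) hi⟩
  rw [Nat.cast_mul]
  calc (CM k K : ℝ) * Nat.log 2 (G.a + G.b) ≤ (CM k K : ℝ) * Real.logb 2 ((G.a + G.b : ℕ) : ℝ) :=
        mul_le_mul_of_nonneg_left h3 h6
    _ ≤ ((CM k K : ℝ) + 1) * Real.logb 2 ((G.a + G.b : ℕ) : ℝ) :=
        mul_le_mul_of_nonneg_right (by linarith) h7

end Pool.Agent.Lib.Pa7c826m
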