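import Pool.Agent.Lib.Pa7c826m.ZT

/-!
Independent sets of one copy with given occupied `Q`-vertices and given occupied `P(τ, 0)`, `τ < M`.

PROOF. A pair `(A, B)` corresponds to the family of the sets `pp τ = {s | (τ, .inl s) ∈ A}`, `ll τ = {j | (τ, .inr j) ∈ A}`,
`qs B τ = {s' | (τ, .inl s') ∈ B}`, `rr τ = {j' | (τ, .inr j') ∈ B}`. Let `qs B = q` and let `A`, `B` span no edge, and let the set of the `P(τ, 0) ∈ A`
with `τ < M` be `α`. Then
* if `τ ∈ NS (sup q)`, i.e. `q (nb δ τ) ≠ ∅` for some `δ`: no `s ≠ 0` is in `pp τ` (the edges of `P(τ, s)`, `s ≠ 0`, are all there), and if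
  `M ≤ τ` also `0 ∉ pp τ` because `ρ τ = 0`; so `pp τ` is determined by `α`: at most one choice;
* if `τ ∉ NS (sup q)`: `pp τ` is one of the `2 ^ (β - g)` sets, or of the `2 ^ (β - g - 1)` sets with `0 ∈ pp τ ↔ τ ∈ α` if `τ < M`;
* `rr τ = ∅` and `ll τ ⊆` the set counted by `lf`, or `rr τ ≠ ∅` and `ll τ = ∅`: `zt` choices.
So the fibre injects into a `Fintype.piFinset` over `τ` of products of two finsets of these sizes (`Fintype.card_piFinset`,
`Finset.prod_mul_distrib`). This is `fib_le`. If `q = ∅` the map is a bijection: every choice gives a pair spanning no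
edge (`P` and `R` are not adjacent, there are no `Q`-vertices): `base_card`.
`N0_mul`: `∏ τ, 2 ^ (β - g - [τ < M]) * 2 ^ M = 2 ^ ((β - g) 2 ^ κ)`.
-/

namespace Pool.Agent.Lib.Pa7c826m

open Finset Pool.Agent.Lib.Pa7c826 Pool.Agent.Lib.Pa7c826s

section

variable (κ g β d : ℕ) (ρ : ℕ → ℕ) (M : ℕ) (α : Finset ℕ)

open Classical in
/-- independent sets of a copy in which the occupied `P(τ, 0)` with `τ < M` are those with `τ ∈ α` -/
noncomputable def indC : Finset (Finset (PT κ g β d) × Finset (QT κ g β d)) :=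
  univ.filter (fun p => (∀ x ∈ p.1, ∀ y ∈ p.2, CR κ g β d ρ x y = false) ∧
    ∀ τ : Fin (2 ^ κ), (τ : ℕ) < M → ((∃ x ∈ p.1, x.1 = τ ∧ isP x = true) ↔ (τ : ℕ) ∈ α))

/-- the number of those without `Q`-vertices -/
def N0 : ℕ := (∏ τ : Fin (2 ^ κ), 2 ^ (β - g - if (τ : ℕ) < M then 1 else 0)) * z0 g d ^ 2 ^ κ

end

variable {κ g β d : ℕ}

/-- the occupied `Q`-vertices -/
def qs (B : Finset (QT κ g β d)) (τ : Fin (2 ^ κ)) : Finset (Fin β) :=
  univ.filter (fun s' => (τ, Sum.inl s') ∈ B)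

/-- the points over which there are occupied `Q`-vertices -/
def sup (q : Fin (2 ^ κ) → Finset (Fin β)) : Finset (Fin (2 ^ κ)) :=
  univ.filter (fun τ => q τ ≠ ∅)

namespace NFormAux

variable {κ g β d : ℕ}

/-- the occupied `P`-vertices -/
def pp (A : Finset (PT κ g β d)) (τ : Fin (2 ^ κ)) : Finset (Fin (β - g)) :=
  univ.filter (fun s => (τ, Sum.inl s) ∈ A)

/-- the occupied `Λ`-vertices -/
def ll (A : Finset (PT κ g β d)) (τ : Fin (2 ^ κ)) : Finset (Fin d) :=
  univ.filter (fun j => (τ, Sum.inr j) ∈ A)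

/-- the occupied `R`-vertices -/
def rr (B : Finset (QT κ g β d)) (τ : Fin (2 ^ κ)) : Finset (Fin (d - g)) :=
  univ.filter (fun j => (τ, Sum.inr j) ∈ B)

theorem mem_pp (A : Finset (PT κ g β d)) (τ : Fin (2 ^ κ)) (s : Fin (β - g)) :
    s ∈ pp A τ ↔ (τ, Sum.inl s) ∈ A := by
  simp [pp]

theorem mem_ll (A : Finset (PT κ g β d)) (τ : Fin (2 ^ κ)) (j : Fin d) :
    j ∈ ll A τ ↔ (τ, Sum.inr j) ∈ A := by
  simp [ll]

theorem mem_rr (B : Finset (QT κ g β d)) (τ : Fin (2 ^ κ)) (j : Fin (d - g)) :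
    j ∈ rr B τ ↔ (τ, Sum.inr j) ∈ B := by
  simp [rr]

theorem mem_qs (B : Finset (QT κ g β d)) (τ : Fin (2 ^ κ)) (s : Fin β) :
    s ∈ qs B τ ↔ (τ, Sum.inl s) ∈ B := by
  simp [qs]

theorem extA {A A' : Finset (PT κ g β d)} (h1 : ∀ τ, pp A τ = pp A' τ)
    (h2 : ∀ τ, ll A τ = ll A' τ) : A = A' := by
  ext ⟨τ, x⟩
  rcases x with s | j
  · rw [← mem_pp, ← mem_pp, h1]
  · rw [← mem_ll, ← mem_ll, h2]

theorem extB {B B' : Finset (QT κ g β d)} (h1 : ∀ τ, qs B τ = qs B' τ)
    (h2 : ∀ τ, rr B τ = rr B' τ) : B = B' := by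
  ext ⟨τ, x⟩
  rcases x with s | j
  · rw [← mem_qs, ← mem_qs, h1]
  · rw [← mem_rr, ← mem_rr, h2]

theorem isP_iff (hg : g < β) (x : PT κ g β d) :
    isP x = true ↔ x.2 = Sum.inl ⟨0, by omega⟩ := by
  obtain ⟨τ, x⟩ := x
  rcases x with s | j
  · simp only [isP, decide_eq_true_eq, Sum.inl.injEq]
    constructor
    · intro h
      ext
      exact h
    · intro h
      rw [h]
  · simp [isP]

theorem exP (hg : g < β) (A : Finset (PT κ g β d)) (τ : Fin (2 ^ κ)) :
    (∃ x ∈ A, x.1 = τ ∧ isP x = true) ↔ (⟨0, by omega⟩ : Fin (β - g)) ∈ pp A τ := by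
  rw [mem_pp]
  constructor
  · rintro ⟨⟨τ', x⟩, hx, h1, h2⟩
    rw [isP_iff hg] at h2
    simp only at h1 h2
    rw [← h1, ← h2]
    exact hx
  · intro h
    exact ⟨_, h, rfl, (isP_iff hg _).2 rfl⟩

theorem card_not (n : ℕ) (hn : 0 < n) :
    (univ.filter (fun S : Finset (Fin n) => ¬ (⟨0, hn⟩ : Fin n) ∈ S)).card = 2 ^ (n - 1) := by
  have : (univ.filter (fun S : Finset (Fin n) => ¬ (⟨0, hn⟩ : Fin n) ∈ S)) =
      (univ.erase (⟨0, hn⟩ : Fin n)).powerset := by
    ext S
    simp only [mem_filter, mem_univ, true_and, mem_powerset]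
    constructor
    · intro h x hx
      rw [mem_erase]
      refine ⟨?_, mem_univ _⟩
      rintro rfl
      exact h hx
    · intro h hc
      have := h hc
      simp at this
  rw [this, card_powerset, card_erase_of_mem (mem_univ _), card_univ, Fintype.card_fin]

theorem card_yes (n : ℕ) (hn : 0 < n) :
    (univ.filter (fun S : Finset (Fin n) => (⟨0, hn⟩ : Fin n) ∈ S)).card = 2 ^ (n - 1) := by
  have h := Finset.card_filter_add_card_filter_not (s := (univ : Finset (Finset (Fin n))))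
    (fun S : Finset (Fin n) => (⟨0, hn⟩ : Fin n) ∈ S)
  rw [card_not n hn, card_univ, Fintype.card_finset, Fintype.card_fin] at h
  have e : 2 ^ n = 2 ^ (n - 1) + 2 ^ (n - 1) := by
    obtain ⟨m, rfl⟩ : ∃ m, n = m + 1 := ⟨n - 1, by omega⟩
    rw [Nat.add_sub_cancel, pow_succ]
    ring
  omega

open Classical in
theorem card_half (n : ℕ) (hn : 0 < n) (b : Prop) :
    (univ.filter (fun S : Finset (Fin n) => ((⟨0, hn⟩ : Fin n) ∈ S ↔ b))).card = 2 ^ (n - 1) := by
  by_cases hb : b
  · rw [← card_yes n hn]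
    congr 1
    ext S
    simp [hb]
  · rw [← card_not n hn]
    congr 1
    ext S
    simp [hb]

open Classical in
/-- the possible sets of `P`-vertices over `τ` -/
noncomputable def Ps (hg : g < β) (M : ℕ) (α : Finset ℕ) (q : Fin (2 ^ κ) → Finset (Fin β))
    (τ : Fin (2 ^ κ)) : Finset (Finset (Fin (β - g))) :=
  if τ ∈ NS (sup q) then
    {if (τ : ℕ) < M ∧ (τ : ℕ) ∈ α then {(⟨0, by omega⟩ : Fin (β - g))} else ∅}
  else univ.filter (fun S => (τ : ℕ) < M → ((⟨0, by omega⟩ : Fin (β - g)) ∈ S ↔ (τ : ℕ) ∈ α))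

theorem card_Ps (hg : g < β) (M : ℕ) (α : Finset ℕ) (q : Fin (2 ^ κ) → Finset (Fin β))
    (τ : Fin (2 ^ κ)) : (Ps hg M α q τ).card =
      if τ ∈ NS (sup q) then 1 else 2 ^ (β - g - if (τ : ℕ) < M then 1 else 0) := by
  unfold Ps
  split_ifs with h1 h2 h3
  · simp
  · simp
  · rw [← card_half (β - g) (by omega) ((τ : ℕ) ∈ α)]
    congr 1
    ext S
    simp [h3]
  · rw [Nat.sub_zero]
    have : (univ.filter (fun S : Finset (Fin (β - g)) => (τ : ℕ) < M →
        ((⟨0, by omega⟩ : Fin (β - g)) ∈ S ↔ (τ : ℕ) ∈ α))) = univ := by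
      ext S
      simp [h3]
    rw [this, card_univ, Fintype.card_finset, Fintype.card_fin]

/-- the possible `Λ`-vertices over `τ` -/
def Ls (κ g β d : ℕ) (q : Fin (2 ^ κ) → Finset (Fin β)) (τ : Fin (2 ^ κ)) : Finset (Fin d) :=
  univ.filter (fun j : Fin d => ∀ δ : Fin (κ + 1), ∀ s' ∈ q (nb δ τ),
    ¬ (δ * β + s' + (d - j)) % d < g)

/-- the possible pairs of sets of `Λ`-vertices and of `R`-vertices over `τ` -/
def Zs (κ g β d : ℕ) (q : Fin (2 ^ κ) → Finset (Fin β)) (τ : Fin (2 ^ κ)) :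
    Finset (Finset (Fin d) × Finset (Fin (d - g))) :=
  ((Ls κ g β d q τ).powerset ×ˢ {∅}) ∪ ({∅} ×ˢ (univ.erase ∅))

theorem mem_Zs (q : Fin (2 ^ κ) → Finset (Fin β)) (τ : Fin (2 ^ κ))
    (z : Finset (Fin d) × Finset (Fin (d - g))) :
    z ∈ Zs κ g β d q τ ↔ (z.1 ⊆ Ls κ g β d q τ ∧ z.2 = ∅) ∨ (z.1 = ∅ ∧ z.2 ≠ ∅) := by
  unfold Zs
  rw [mem_union, mem_product, mem_product, mem_powerset, mem_singleton, mem_singleton, mem_erase]
  simp only [mem_univ, and_true]

theorem card_Zs (q : Fin (2 ^ κ) → Finset (Fin β)) (τ : Fin (2 ^ κ)) :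
    (Zs κ g β d q τ).card = zt κ g β d q τ := by
  unfold Zs
  rw [card_union_of_disjoint]
  · rw [card_product, card_product, card_powerset, card_singleton, card_singleton, mul_one,
      one_mul, card_erase_of_mem (mem_univ _), card_univ, Fintype.card_finset, Fintype.card_fin]
    rfl
  · rw [Finset.disjoint_left]
    rintro ⟨a, b⟩ h1 h2
    simp only [mem_product, mem_singleton, mem_erase] at h1 h2
    exact h2.2.1 h1.2

open Classical in
/-- all choices -/
noncomputable def Fs (hg : g < β) (M : ℕ) (α : Finset ℕ) (q : Fin (2 ^ κ) → Finset (Fin β)) :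
    Finset (Fin (2 ^ κ) → Finset (Fin (β - g)) × (Finset (Fin d) × Finset (Fin (d - g)))) :=
  Fintype.piFinset (fun τ => Ps hg M α q τ ×ˢ Zs κ g β d q τ)

theorem card_Fs (hg : g < β) (M : ℕ) (α : Finset ℕ) (q : Fin (2 ^ κ) → Finset (Fin β)) :
    (Fs (d := d) hg M α q).card = ∏ τ : Fin (2 ^ κ), (if τ ∈ NS (sup q) then 1 else
        2 ^ (β - g - if (τ : ℕ) < M then 1 else 0)) * zt κ g β d q τ := by
  unfold Fs
  rw [Fintype.card_piFinset]
  refine prod_congr rfl (fun τ _ => ?_)
  rw [card_product, card_Ps, card_Zs]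

/-- the map -/
def mp (p : Finset (PT κ g β d) × Finset (QT κ g β d)) (τ : Fin (2 ^ κ)) :
    Finset (Fin (β - g)) × (Finset (Fin d) × Finset (Fin (d - g))) :=
  (pp p.1 τ, (ll p.1 τ, rr p.2 τ))

theorem mp_mem {ρ : ℕ → ℕ} {M : ℕ} (hg : g < β) (hρ : ∀ τ, M ≤ τ → ρ τ = 0) (α : Finset ℕ)
    (q : Fin (2 ^ κ) → Finset (Fin β)) (p : Finset (PT κ g β d) × Finset (QT κ g β d))
    (hp : p ∈ indC κ g β d ρ M α) (hq : qs p.2 = q) : mp p ∈ Fs (d := d) hg M α q := by
  classical
  unfold indC at hp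
  rw [mem_filter] at hp
  obtain ⟨-, hE, hA⟩ := hp
  unfold Fs
  rw [Fintype.mem_piFinset]
  intro τ
  rw [mem_product]
  have hA' : (τ : ℕ) < M → ((⟨0, by omega⟩ : Fin (β - g)) ∈ pp p.1 τ ↔ (τ : ℕ) ∈ α) := by
    intro h
    rw [← exP hg]
    exact hA τ h
  constructor
  · show pp p.1 τ ∈ Ps hg M α q τ
    unfold Ps
    by_cases h1 : τ ∈ NS (sup q)
    · -- a neighbour is occupied
      rw [if_pos h1]
      have h1' := h1
      simp only [NS, mem_filter, mem_univ, true_and, sup] at h1'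
      obtain ⟨δ, hδ⟩ := h1'
      obtain ⟨s', hs'⟩ := Finset.nonempty_iff_ne_empty.2 hδ
      rw [← hq, mem_qs] at hs'
      have key : ∀ s ∈ pp p.1 τ, (s : ℕ) = 0 ∧ (τ : ℕ) < M := by
        intro s hs
        rw [mem_pp] at hs
        have := hE _ hs _ hs'
        simp only [CR] at this
        rw [Bool.and_eq_false_iff] at this
        rcases this with h | h
        · rw [decide_eq_false_iff_not] at h
          exact absurd ⟨δ, rfl⟩ h
        · rw [Bool.not_eq_false'] at h
          simp only [Bool.and_eq_true, decide_eq_true_eq] at h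
          refine ⟨h.1, ?_⟩
          by_contra hc
          rw [hρ τ (by omega)] at h
          omega
      rw [mem_singleton]
      ext s
      constructor
      · intro hs
        have hk := key s hs
        have h0 : s = ⟨0, by omega⟩ := by
          ext
          exact hk.1
        have hα : (τ : ℕ) ∈ α := by
          rw [← hA' hk.2, ← h0]
          exact hs
        rw [if_pos ⟨hk.2, hα⟩, mem_singleton]
        exact h0
      · intro hs
        split_ifs at hs with h2
        · rw [mem_singleton] at hs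
          rw [hs]
          exact (hA' h2.1).2 h2.2
        · simp at hs
    · rw [if_neg h1, mem_filter]
      exact ⟨mem_univ _, hA'⟩
  · show (ll p.1 τ, rr p.2 τ) ∈ Zs κ g β d q τ
    rw [mem_Zs]
    by_cases hr : rr p.2 τ = ∅
    · left
      refine ⟨?_, hr⟩
      intro j hj
      simp only at hj
      rw [mem_ll] at hj
      unfold Ls
      rw [mem_filter]
      refine ⟨mem_univ _, ?_⟩
      intro δ s' hs' hc
      rw [← hq, mem_qs] at hs'
      have := hE _ hj _ hs'
      simp only [CR] at this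
      rw [decide_eq_false_iff_not] at this
      exact this ⟨δ, rfl, hc⟩
    · right
      refine ⟨?_, hr⟩
      obtain ⟨j', hj'⟩ := Finset.nonempty_iff_ne_empty.2 hr
      rw [mem_rr] at hj'
      rw [Finset.eq_empty_iff_forall_notMem]
      intro j hj
      simp only at hj
      rw [mem_ll] at hj
      have := hE _ hj _ hj'
      simp [CR] at this

open Classical in
/-- the inverse: the first set -/
noncomputable def mkA
    (F : Fin (2 ^ κ) → Finset (Fin (β - g)) × (Finset (Fin d) × Finset (Fin (d - g)))) :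
    Finset (PT κ g β d) :=
  univ.filter (fun x => Sum.elim (fun s => s ∈ (F x.1).1) (fun j => j ∈ (F x.1).2.1) x.2)

open Classical in
/-- the inverse: the second set -/
noncomputable def mkB
    (F : Fin (2 ^ κ) → Finset (Fin (β - g)) × (Finset (Fin d) × Finset (Fin (d - g)))) :
    Finset (QT κ g β d) :=
  univ.filter (fun y => Sum.elim (fun _ => False) (fun j => j ∈ (F y.1).2.2) y.2)

theorem pp_mkA
    (F : Fin (2 ^ κ) → Finset (Fin (β - g)) × (Finset (Fin d) × Finset (Fin (d - g))))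
    (τ : Fin (2 ^ κ)) : pp (mkA F) τ = (F τ).1 := by
  ext s
  simp [mem_pp, mkA]

theorem ll_mkA
    (F : Fin (2 ^ κ) → Finset (Fin (β - g)) × (Finset (Fin d) × Finset (Fin (d - g))))
    (τ : Fin (2 ^ κ)) : ll (mkA F) τ = (F τ).2.1 := by
  ext s
  simp [mem_ll, mkA]

theorem rr_mkB
    (F : Fin (2 ^ κ) → Finset (Fin (β - g)) × (Finset (Fin d) × Finset (Fin (d - g))))
    (τ : Fin (2 ^ κ)) : rr (mkB (β := β) F) τ = (F τ).2.2 := by
  ext s
  simp [mem_rr, mkB]

theorem qs_mkB
    (F : Fin (2 ^ κ) → Finset (Fin (β - g)) × (Finset (Fin d) × Finset (Fin (d - g)))) :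
    qs (mkB (β := β) F) = fun _ => ∅ := by
  funext τ
  ext s
  simp [mem_qs, mkB]

theorem sup_empty : sup (fun _ : Fin (2 ^ κ) => (∅ : Finset (Fin β))) = ∅ := by
  simp [sup]

theorem NS_empty : NS (∅ : Finset (Fin (2 ^ κ))) = ∅ := by
  simp [NS]

end NFormAux

open NFormAux

variable {ρ : ℕ → ℕ} {M : ℕ}

open Classical in
theorem fib_le (hg : g < β) (hρ : ∀ τ, M ≤ τ → ρ τ = 0) (α : Finset ℕ)
    (q : Fin (2 ^ κ) → Finset (Fin β)) :
    ((indC κ g β d ρ M α).filter (fun p => qs p.2 = q)).card ≤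
      ∏ τ : Fin (2 ^ κ), (if τ ∈ NS (sup q) then 1 else
        2 ^ (β - g - if (τ : ℕ) < M then 1 else 0)) * zt κ g β d q τ := by
  have h := card_Fs (d := d) hg M α q
  have h2 : ((indC κ g β d ρ M α).filter (fun p => qs p.2 = q)).card ≤ (Fs (d := d) hg M α q).card := by
    refine card_le_card_of_injOn mp ?_ ?_
    · intro p hp
      rw [mem_coe, mem_filter] at hp
      exact mp_mem hg hρ α q p hp.1 hp.2
    · intro p hp p' hp' he
      rw [mem_coe, mem_filter] at hp hp'
      have e : ∀ τ, mp p τ = mp p' τ := fun τ => congrFun he τ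
      refine Prod.ext (extA (fun τ => ?_) (fun τ => ?_)) (extB (fun τ => ?_) (fun τ => ?_))
      · exact congrArg Prod.fst (e τ)
      · exact congrArg (fun z => z.2.1) (e τ)
      · rw [hp.2, hp'.2]
      · exact congrArg (fun z => z.2.2) (e τ)
  refine h2.trans (le_of_eq ?_)
  rw [h]

open Classical in
theorem base_card (hg : g < β) (α : Finset ℕ) :
    ((indC κ g β d ρ M α).filter (fun p => qs p.2 = fun _ => ∅)).card = N0 κ g β d M := by
  have h := card_Fs (d := d) hg M α (fun _ : Fin (2 ^ κ) => (∅ : Finset (Fin β)))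
  have h0 : N0 κ g β d M = (Fs (d := d) hg M α (fun _ : Fin (2 ^ κ) => (∅ : Finset (Fin β)))).card := by
    rw [h, prod_mul_distrib]
    unfold N0
    congr 1
    · refine prod_congr rfl (fun τ _ => ?_)
      rw [sup_empty, NS_empty, if_neg (notMem_empty _)]
    · rw [prod_congr rfl (fun τ _ => zt_zero (q := fun _ => ∅) (fun _ => rfl)), prod_const, card_univ,
        Fintype.card_fin]
  rw [h0]
  refine card_bij' (fun p _ => mp p) (fun F _ => (mkA F, mkB F)) ?_ ?_ ?_ ?_
  · intro p hp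
    rw [mem_filter] at hp
    obtain ⟨hp1, hp2⟩ := hp
    -- the proof of `mp_mem` does not need the hypothesis on `ρ` here
    unfold Fs
    rw [Fintype.mem_piFinset]
    intro τ
    unfold indC at hp1
    rw [mem_filter] at hp1
    obtain ⟨-, hE, hA⟩ := hp1
    rw [mem_product]
    constructor
    · show pp p.1 τ ∈ Ps hg M α (fun _ => ∅) τ
      unfold Ps
      rw [sup_empty, NS_empty, if_neg (notMem_empty _), mem_filter]
      refine ⟨mem_univ _, fun h => ?_⟩
      rw [← exP hg]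
      exact hA τ h
    · show (ll p.1 τ, rr p.2 τ) ∈ Zs κ g β d (fun _ => ∅) τ
      rw [mem_Zs]
      by_cases hr : rr p.2 τ = ∅
      · left
        refine ⟨?_, hr⟩
        intro j _
        simp [Ls]
      · right
        refine ⟨?_, hr⟩
        obtain ⟨j', hj'⟩ := Finset.nonempty_iff_ne_empty.2 hr
        rw [mem_rr] at hj'
        rw [Finset.eq_empty_iff_forall_notMem]
        intro j hj
        simp only at hj
        rw [mem_ll] at hj
        have := hE _ hj _ hj'
        simp [CR] at this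
  · intro F hF
    unfold Fs at hF
    rw [Fintype.mem_piFinset] at hF
    rw [mem_filter]
    refine ⟨?_, qs_mkB F⟩
    unfold indC
    rw [mem_filter]
    refine ⟨mem_univ _, ?_, ?_⟩
    · rintro ⟨τ, x⟩ hx ⟨τ', y⟩ hy
      simp only at hx hy
      rcases y with s' | j'
      · exfalso
        rw [← mem_qs, qs_mkB] at hy
        simp at hy
      · rcases x with s | j
        · simp [CR]
        · rw [← mem_ll, ll_mkA] at hx
          rw [← mem_rr, rr_mkB] at hy
          simp only [CR, decide_eq_false_iff_not]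
          rintro rfl
          have hz := (mem_product.1 (hF τ)).2
          rw [mem_Zs] at hz
          rcases hz with hz | hz
          · rw [hz.2] at hy
            simp at hy
          · rw [hz.1] at hx
            simp at hx
    · intro τ hτ
      rw [exP hg]
      simp only
      rw [pp_mkA]
      have hz := (mem_product.1 (hF τ)).1
      unfold Ps at hz
      rw [sup_empty, NS_empty, if_neg (notMem_empty _), mem_filter] at hz
      exact hz.2 hτ
  · intro p hp
    rw [mem_filter] at hp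
    refine Prod.ext (extA (fun τ => ?_) (fun τ => ?_)) (extB (fun τ => ?_) (fun τ => ?_))
    · rw [pp_mkA]; rfl
    · rw [ll_mkA]; rfl
    · rw [qs_mkB, hp.2]
    · rw [rr_mkB]; rfl
  · intro F hF
    funext τ
    refine Prod.ext ?_ (Prod.ext ?_ ?_)
    · exact pp_mkA F τ
    · exact ll_mkA F τ
    · exact rr_mkB F τ

theorem N0_mul (hg : g < β) (hM : M ≤ 2 ^ κ) :
    N0 κ g β d M * 2 ^ M = 2 ^ ((β - g) * 2 ^ κ) * z0 g d ^ 2 ^ κ := by
  have h1 : ∏ τ : Fin (2 ^ κ), (2 : ℕ) ^ (if (τ : ℕ) < M then 1 else 0) = 2 ^ M := by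
    rw [prod_pow_eq_pow_sum]
    congr 1
    rw [← card_filter]
    have : (univ.filter (fun τ : Fin (2 ^ κ) => (τ : ℕ) < M)).card = M := by
      have e := Fin.sum_univ_eq_sum_range (fun i => if i < M then 1 else 0) (2 ^ κ)
      rw [card_filter, e, ← card_filter]
      have : (range (2 ^ κ)).filter (fun i => i < M) = range M := by
        ext i
        simp only [mem_filter, mem_range]
        omega
      rw [this, card_range]
    exact this
  have h2 : (∏ τ : Fin (2 ^ κ), 2 ^ (β - g - if (τ : ℕ) < M then 1 else 0)) *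
      ∏ τ : Fin (2 ^ κ), 2 ^ (if (τ : ℕ) < M then 1 else 0) = 2 ^ ((β - g) * 2 ^ κ) := by
    rw [← prod_mul_distrib]
    have : ∀ τ ∈ (univ : Finset (Fin (2 ^ κ))), 2 ^ (β - g - if (τ : ℕ) < M then 1 else 0) *
        2 ^ (if (τ : ℕ) < M then 1 else 0) = 2 ^ (β - g) := by
      intro τ _
      rw [← pow_add]
      congr 1
      split_ifs <;> omega
    rw [prod_congr rfl this, prod_const, card_univ, Fintype.card_fin, ← pow_mul]
  unfold N0
  rw [← h2, ← h1]
  ring

end Pool.Agent.Lib.Pa7c826m
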