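import Pool.Agent.Lib.Pa7c826m.GDef

/-!
The hypercube: closed neighbourhoods and vertex isoperimetry.

PROOF. `nb 0 τ = τ` and `nb i.succ τ = flip i τ` (`Fin.cases_zero`, `Fin.cases_succ`). `nb_nb`: `flip_flip`
(Lib/Pa7c826s/Cube.lean). `nb_inj`: `flip i τ ≠ τ` (`flip_ne`) and `flip i τ ≠ flip j τ` for `i ≠ j`: if `i < j`, compare the
digits number `i` (`flipN i` changes the digit `i`, `digit_flip`; `flipN j` changes only the quotient by `2 ^ j`: the numbers
`τ % 2 ^ j` and `flipN j τ % 2 ^ j` agree, and the digit `i` of `x` is the digit `i` of `x % 2 ^ j`).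
`iso_small`: `cube` (Lib/Pa7c826s/Cube.lean) gives `|S| ≤ ∑ i, #{τ ∈ S | flip i τ ∉ S}`, and `flip i` maps
`{τ ∈ S | flip i τ ∉ S}` injectively into `NS S \ S`, so `|S| ≤ κ (|NS S| - |S|)`.
`iso_large`: put `C = Sᶜ`, `U = (NS S)ᶜ`. Then `U ⊆ C`, `2 |U| ≤ 2 |C| ≤ 2 ^ κ`, and `NS U ⊆ C` (if `nb δ τ ∈ U` and `τ ∈ S`, then
`nb δ τ ∈ NS S` by `nb_nb`). By `iso_small`, `(κ + 1) |U| ≤ κ |NS U| ≤ κ |C|`, and `|NS S| = 2 ^ κ - |U|`, `|S| = 2 ^ κ - |C|`.
-/

namespace Pool.Agent.Lib.Pa7c826m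

open Finset Pool.Agent.Lib.Pa7c826 Pool.Agent.Lib.Pa7c826s

variable {κ : ℕ}

namespace NbhAux

open CubeAux

/-- flipping the digit number `j` does not change the digit number `i < j` -/
theorem digit_other {i j : ℕ} (hij : i < j) (τ : ℕ) : flipN j τ / 2 ^ i % 2 = τ / 2 ^ i % 2 := by
  have hpos : 0 < 2 ^ i := by positivity
  have hposj : 0 < 2 ^ j := by positivity
  obtain ⟨k, rfl⟩ : ∃ k, j = i + 1 + k := ⟨j - (i + 1), by omega⟩
  have e : 2 ^ (i + 1 + k) = 2 ^ i * (2 * 2 ^ k) := by rw [pow_add, pow_succ]; ring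
  rcases Nat.mod_two_eq_zero_or_one (τ / 2 ^ (i + 1 + k)) with h | h
  · have e1 : flipN (i + 1 + k) τ = τ + 2 ^ (i + 1 + k) := by simp [flipN, h]
    rw [e1, e, Nat.add_mul_div_left _ _ hpos]
    omega
  · have e1 : flipN (i + 1 + k) τ = τ - 2 ^ (i + 1 + k) := by simp [flipN, h]
    have h2 : 2 ^ (i + 1 + k) ≤ τ := by
      by_contra hc
      rw [Nat.div_eq_of_lt (by omega)] at h
      omega
    obtain ⟨r, hr⟩ : ∃ r, τ = r + 2 ^ (i + 1 + k) := ⟨τ - 2 ^ (i + 1 + k), by omega⟩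
    rw [e1, hr, Nat.add_sub_cancel, e, Nat.add_mul_div_left _ _ hpos]
    omega

theorem flipN_inj {i j τ : ℕ} (h : flipN i τ = flipN j τ) : i = j := by
  by_contra hne
  rcases lt_or_gt_of_ne hne with hlt | hlt
  · have h1 := digit_other hlt τ
    have h2 := digit_flip i τ
    rw [h] at h2
    omega
  · have h1 := digit_other hlt τ
    have h2 := digit_flip j τ
    rw [← h] at h2
    omega

end NbhAux

theorem nb_zero (τ : Fin (2 ^ κ)) : nb 0 τ = τ := by
  simp [nb]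

theorem nb_succ (i : Fin κ) (τ : Fin (2 ^ κ)) : nb i.succ τ = flip i τ := by
  simp [nb]

theorem nb_nb (δ : Fin (κ + 1)) (τ : Fin (2 ^ κ)) : nb δ (nb δ τ) = τ := by
  induction δ using Fin.cases with
  | zero => rw [nb_zero, nb_zero]
  | succ i => rw [nb_succ, nb_succ, Pa7c826s.flip_flip]

theorem nb_inj (τ : Fin (2 ^ κ)) : Function.Injective (fun δ : Fin (κ + 1) => nb δ τ) := by
  intro δ δ' h
  change nb δ τ = nb δ' τ at h
  induction δ using Fin.cases with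
  | zero =>
    induction δ' using Fin.cases with
    | zero => rfl
    | succ i =>
      rw [nb_zero, nb_succ] at h
      exact absurd h.symm (flip_ne i τ)
  | succ i =>
    induction δ' using Fin.cases with
    | zero =>
      rw [nb_zero, nb_succ] at h
      exact absurd h (flip_ne i τ)
    | succ j =>
      rw [nb_succ, nb_succ] at h
      have h1 : flipN i τ = flipN j τ := congrArg Fin.val h
      have h2 : i = j := Fin.ext (NbhAux.flipN_inj h1)
      rw [h2]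

theorem nb_symm (τ τ' : Fin (2 ^ κ)) : (∃ δ, nb δ τ = τ') ↔ ∃ δ, nb δ τ' = τ := by
  constructor
  · rintro ⟨δ, rfl⟩
    exact ⟨δ, nb_nb δ τ⟩
  · rintro ⟨δ, rfl⟩
    exact ⟨δ, nb_nb δ τ'⟩

/-- `nb δ` as a permutation -/
theorem nb_bij (δ : Fin (κ + 1)) : Function.Bijective (nb (κ := κ) δ) := by
  have h : Function.Involutive (nb (κ := κ) δ) := fun τ => nb_nb δ τ
  exact h.bijective

/-- the value of `nb` -/
theorem nb_val (δ : Fin (κ + 1)) (τ : Fin (2 ^ κ)) : ((nb δ τ : Fin (2 ^ κ)) : ℕ) = nbN δ τ := by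
  induction δ using Fin.cases with
  | zero => simp [nb_zero, nbN]
  | succ i =>
    rw [nb_succ]
    simp [nbN, Pa7c826s.flip]

/-- the closed neighbourhood of a set -/
def NS (S : Finset (Fin (2 ^ κ))) : Finset (Fin (2 ^ κ)) := univ.filter (fun τ => ∃ δ, nb δ τ ∈ S)

theorem sub_NS (S : Finset (Fin (2 ^ κ))) : S ⊆ NS S := by
  intro τ hτ
  rw [NS, mem_filter]
  exact ⟨mem_univ _, 0, by rwa [nb_zero]⟩

namespace NbhAux

theorem card_dir (S : Finset (Fin (2 ^ κ))) (i : Fin κ) :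
    (∑ τ ∈ S, if flip i τ ∈ S then 0 else 1) ≤ (NS S \ S).card := by
  have h1 : (∑ τ ∈ S, if flip i τ ∈ S then 0 else 1) = (S.filter (fun τ => flip i τ ∉ S)).card := by
    rw [card_filter]
    apply sum_congr rfl
    intro τ _
    by_cases h : flip i τ ∈ S <;> simp [h]
  rw [h1]
  apply card_le_card_of_injOn (fun τ => flip i τ)
  · intro τ hτ
    rw [mem_coe, mem_filter] at hτ
    rw [mem_coe, mem_sdiff]
    refine ⟨?_, hτ.2⟩
    rw [NS, mem_filter]
    refine ⟨mem_univ _, i.succ, ?_⟩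
    rw [nb_succ, Pa7c826s.flip_flip]
    exact hτ.1
  · intro x _ y _ hxy
    have : flip i (flip i x) = flip i (flip i y) := by
      change flip i x = flip i y at hxy
      rw [hxy]
    rwa [Pa7c826s.flip_flip, Pa7c826s.flip_flip] at this

end NbhAux

theorem iso_small (S : Finset (Fin (2 ^ κ))) (h : 2 * S.card ≤ 2 ^ κ) :
    (κ + 1) * S.card ≤ κ * (NS S).card := by
  have h1 := cube S
  have h2 : ∑ i : Fin κ, ∑ τ ∈ S, (if flip i τ ∈ S then 0 else 1) ≤ κ * (NS S \ S).card := by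
    calc ∑ i : Fin κ, ∑ τ ∈ S, (if flip i τ ∈ S then 0 else 1)
        ≤ ∑ _i : Fin κ, (NS S \ S).card := sum_le_sum (fun i _ => NbhAux.card_dir S i)
      _ = κ * (NS S \ S).card := by simp
  have h3 : min S.card (2 ^ κ - S.card) = S.card := min_eq_left (by omega)
  rw [h3] at h1
  have h4 : (NS S \ S).card + S.card = (NS S).card := card_sdiff_add_card_eq_card (sub_NS S)
  rw [← h4]
  nlinarith

theorem iso_large (S : Finset (Fin (2 ^ κ))) (h : 2 ^ κ ≤ 2 * S.card) :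
    Sᶜ.card + (κ + 1) * S.card ≤ (κ + 1) * (NS S).card := by
  have hU1 : (NS S)ᶜ ⊆ Sᶜ := compl_subset_compl.2 (sub_NS S)
  have hc1 : (NS S)ᶜ.card ≤ Sᶜ.card := card_le_card hU1
  have hcS : S.card + Sᶜ.card = 2 ^ κ := by
    rw [card_add_card_compl, Fintype.card_fin]
  have hcN : (NS S).card + (NS S)ᶜ.card = 2 ^ κ := by
    rw [card_add_card_compl, Fintype.card_fin]
  have hsub : NS (NS S)ᶜ ⊆ Sᶜ := by
    intro τ hτ
    rw [NS, mem_filter] at hτ
    obtain ⟨_, δ, hδ⟩ := hτ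
    rw [mem_compl] at hδ ⊢
    intro hS
    apply hδ
    rw [NS, mem_filter]
    exact ⟨mem_univ _, δ, by rwa [nb_nb]⟩
  have hc2 : (NS (NS S)ᶜ).card ≤ Sᶜ.card := card_le_card hsub
  have h1 := iso_small (NS S)ᶜ (by omega)
  have h2 : κ * (NS (NS S)ᶜ).card ≤ κ * Sᶜ.card := Nat.mul_le_mul_left _ hc2
  have h3 : (κ + 1) * (NS S)ᶜ.card ≤ κ * Sᶜ.card := h1.trans h2
  have h4 : (κ + 1) * ((NS S).card + (NS S)ᶜ.card) = (κ + 1) * (S.card + Sᶜ.card) := by
    rw [hcS, hcN]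
  nlinarith

end Pool.Agent.Lib.Pa7c826m
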