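import Pool.Agent.Lib.Pa7c826m.EdLem

/-!
Matchings and `nu`.

PROOF. `nu_matching`, `nu_indep`, `indep_nu` of `Pa7c826t/Nu.lean` (for `hbip` use `RegBip.bip`). `mat_le_nu`: an independent set `Y ⊆ S` with
`|Y| + nu S = |S|` misses an end of every edge of the matching `M`, different ends for different edges (`IsMat`); so
`|M| ≤ |S \ Y| = nu S` (as in the proof of `indep_nu`). `nu_sub`: a matching in `T` with `nu T` edges is a matching in `S`.
`nu_le_of_cover`: `S \ C` is independent, so `|S \ C| + nu S ≤ |S|`. `nu_disj`: the union of matchings in disjoint sets.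
`nu_edges`: the edges between `X` and `Y` are covered by `nu` vertices, each of degree `≤ d`.
`cov_le`: `cov_matching` and `mat_le_nu`. `leaf_exact`: `leaf_small` of `Pa7c826/Leaf.lean`.
`leaf_le_ind`: `leaf_le`.
-/

namespace Pool.Agent.Lib.Pa7c826m

open Finset Pool.Agent.Lib.Pa7c826 Pool.Agent.Lib.Pa7c826t

variable {n a d : ℕ} {adj : ℕ → ℕ → Bool}

namespace NuLemAux

theorem loopless (h : RegBip n a d adj) (u : ℕ) : adj u u = false := by
  by_contra hc
  rw [Bool.not_eq_false] at hc
  have := h.bip u u hc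
  tauto

theorem mat_mono {p : ℕ → Prop} {S T : Finset ℕ} {M : Finset (ℕ × ℕ)} (h : IsMat adj p T M)
    (hT : T ⊆ S) : IsMat adj p S M :=
  ⟨fun e he => hT (h.left_mem e he), h.left_p, fun e he => hT (h.right_mem e he), h.edge,
    h.inj_left, h.inj_right⟩

end NuLemAux

open NuLemAux

theorem mat_le_nu (h : RegBip n a d adj) {S : Finset ℕ} (hS : S ⊆ range n)
    {M : Finset (ℕ × ℕ)} (hM : IsMat adj (fun v => v < a) S M) : M.card ≤ nu n a adj S := by
  classical
  obtain ⟨J, hJ, hc, hI⟩ := nu_indep hS h.symm h.bip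
  have hside : ∀ e ∈ M, ¬ e.2 < a := fun e he =>
    (h.bip _ _ (hM.edge e he)).1 (hM.left_p e he)
  have h1 : M.card ≤ (S \ J).card := by
    refine card_le_card_of_injOn (fun e => if e.1 ∈ J then e.2 else e.1) ?_ ?_
    · intro e he
      have he' : e ∈ M := he
      simp only [coe_sdiff, Set.mem_sdiff, mem_coe]
      by_cases h : e.1 ∈ J
      · rw [if_pos h]
        refine ⟨hM.right_mem e he', fun h2 => ?_⟩
        have h3 := hI _ h _ h2
        rw [hM.edge e he'] at h3
        exact absurd h3 (by simp)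
      · rw [if_neg h]
        exact ⟨hM.left_mem e he', h⟩
    · intro e he f hf hef
      have he' : e ∈ M := he
      have hf' : f ∈ M := hf
      simp only at hef
      have a1 := hM.left_p e he'
      have a2 := hM.left_p f hf'
      have b1 := hside e he'
      have b2 := hside f hf'
      by_cases h : e.1 ∈ J
      · by_cases h' : f.1 ∈ J
        · rw [if_pos h, if_pos h'] at hef
          exact hM.inj_right e he' f hf' hef
        · rw [if_pos h, if_neg h'] at hef
          rw [hef] at b1
          exact absurd a2 b1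
      · by_cases h' : f.1 ∈ J
        · rw [if_neg h, if_pos h'] at hef
          rw [← hef] at b2
          exact absurd a1 b2
        · rw [if_neg h, if_neg h'] at hef
          exact hM.inj_left e he' f hf' hef
  have h2 := card_sdiff_add_card_eq_card hJ
  omega

theorem nu_sub (h : RegBip n a d adj) {S T : Finset ℕ} (hS : S ⊆ range n) (hT : T ⊆ S) :
    nu n a adj T ≤ nu n a adj S := by
  obtain ⟨M, hM, hc⟩ := nu_matching (hT.trans hS) h.symm h.bip
  rw [← hc]
  exact mat_le_nu h hS (mat_mono hM hT)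

theorem nu_le_of_cover (h : RegBip n a d adj) {S C : Finset ℕ} (hS : S ⊆ range n) (hC : C ⊆ S)
    (hcov : ∀ u ∈ S, ∀ v ∈ S, adj u v = true → u ∈ C ∨ v ∈ C) : nu n a adj S ≤ C.card := by
  have h1 := indep_nu hS h.symm h.bip (J := S \ C) sdiff_subset (fun u hu v hv => by
    rw [mem_sdiff] at hu hv
    by_contra hh
    rw [Bool.not_eq_false] at hh
    rcases hcov u hu.1 v hv.1 hh with h1 | h1
    · exact hu.2 h1
    · exact hv.2 h1)
  have h2 := card_sdiff_add_card_eq_card hC
  omega

/-- matchings in disjoint sets -/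
theorem nu_disj (h : RegBip n a d adj) {ι : Type*} (I : Finset ι) (F : ι → Finset ℕ)
    (hF : ∀ i ∈ I, F i ⊆ range n) (hd : ∀ i ∈ I, ∀ j ∈ I, i ≠ j → Disjoint (F i) (F j))
    {S : Finset ℕ} (hS : S ⊆ range n) (hFS : ∀ i ∈ I, F i ⊆ S) :
    ∑ i ∈ I, nu n a adj (F i) ≤ nu n a adj S := by
  classical
  have hex : ∀ i, ∃ M : Finset (ℕ × ℕ), i ∈ I →
      IsMat adj (fun v => v < a) (F i) M ∧ M.card = nu n a adj (F i) := by
    intro i
    by_cases hi : i ∈ I
    · obtain ⟨M, hM, hc⟩ := nu_matching (hF i hi) h.symm h.bip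
      exact ⟨M, fun _ => ⟨hM, hc⟩⟩
    · exact ⟨∅, fun hc => absurd hc hi⟩
  choose M hM using hex
  have key : ∀ i ∈ I, ∀ j ∈ I, ∀ x, x ∈ F i → x ∈ F j → i = j := by
    intro i hi j hj x hx hy
    by_contra hne
    exact (Finset.disjoint_left.mp (hd i hi j hj hne)) hx hy
  have hcard : (I.biUnion M).card = ∑ i ∈ I, nu n a adj (F i) := by
    rw [card_biUnion]
    · exact sum_congr rfl fun i hi => (hM i hi).2
    · intro i hi j hj hne
      show Disjoint (M i) (M j)
      rw [Finset.disjoint_left]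
      intro e he hf
      exact hne (key i hi j hj e.1 ((hM i hi).1.left_mem e he) ((hM j hj).1.left_mem e hf))
  rw [← hcard]
  refine mat_le_nu h hS ⟨?_, ?_, ?_, ?_, ?_, ?_⟩
  · intro e he
    obtain ⟨i, hi, he⟩ := mem_biUnion.mp he
    exact hFS i hi ((hM i hi).1.left_mem e he)
  · intro e he
    obtain ⟨i, hi, he⟩ := mem_biUnion.mp he
    exact (hM i hi).1.left_p e he
  · intro e he
    obtain ⟨i, hi, he⟩ := mem_biUnion.mp he
    exact hFS i hi ((hM i hi).1.right_mem e he)
  · intro e he
    obtain ⟨i, hi, he⟩ := mem_biUnion.mp he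
    exact (hM i hi).1.edge e he
  · intro e he f hf hef
    obtain ⟨i, hi, he⟩ := mem_biUnion.mp he
    obtain ⟨j, hj, hf⟩ := mem_biUnion.mp hf
    have hij : i = j := key i hi j hj e.1 ((hM i hi).1.left_mem e he)
      (by rw [hef]; exact (hM j hj).1.left_mem f hf)
    subst hij
    exact (hM i hi).1.inj_left e he f hf hef
  · intro e he f hf hef
    obtain ⟨i, hi, he⟩ := mem_biUnion.mp he
    obtain ⟨j, hj, hf⟩ := mem_biUnion.mp hf
    have hij : i = j := key i hi j hj e.2 ((hM i hi).1.right_mem e he)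
      (by rw [hef]; exact (hM j hj).1.right_mem f hf)
    subst hij
    exact (hM i hi).1.inj_right e he f hf hef

/-- few edges if `nu` is small -/
theorem nu_edges (h : RegBip n a d adj) {S X Y : Finset ℕ} (hS : S ⊆ range n) (hX : X ⊆ S)
    (hY : Y ⊆ S) (hXa : ∀ u ∈ X, u < a) (hYa : ∀ v ∈ Y, ¬ v < a) :
    ed adj X Y ≤ d * nu n a adj S := by
  classical
  obtain ⟨J, hJ, hc, hI⟩ := nu_indep hS h.symm h.bip
  set C := S \ J with hC
  have hCc : C.card = nu n a adj S := by
    have := card_sdiff_add_card_eq_card hJ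
    rw [← hC] at this
    omega
  have e1 : ed adj X Y = ed adj (X ∩ C) Y + ed adj (X \ C) Y := by
    rw [← ed_union_left]
    · congr 1
      ext x
      simp only [mem_union, mem_inter, mem_sdiff]
      tauto
    · rw [Finset.disjoint_left]
      intro x hx hy
      exact (mem_sdiff.mp hy).2 (mem_inter.mp hx).2
  have e2 : ed adj (X \ C) Y = ed adj (X \ C) (Y ∩ C) + ed adj (X \ C) (Y \ C) := by
    rw [← ed_union_right]
    · congr 1
      ext x
      simp only [mem_union, mem_inter, mem_sdiff]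
      tauto
    · rw [Finset.disjoint_left]
      intro x hx hy
      exact (mem_sdiff.mp hy).2 (mem_inter.mp hx).2
  have e3 : ed adj (X \ C) (Y \ C) = 0 := by
    unfold ed
    refine sum_eq_zero fun v hv => ?_
    unfold dg
    rw [card_eq_zero, filter_eq_empty_iff]
    intro u hu hadj
    have hvJ : v ∈ J := by
      by_contra hn
      exact (mem_sdiff.mp hv).2 (mem_sdiff.mpr ⟨hX (mem_sdiff.mp hv).1, hn⟩)
    have huJ : u ∈ J := by
      by_contra hn
      exact (mem_sdiff.mp hu).2 (mem_sdiff.mpr ⟨hY (mem_sdiff.mp hu).1, hn⟩)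
    rw [hI v hvJ u huJ] at hadj
    exact absurd hadj (by simp)
  have hXn := hX.trans hS
  have hYn := hY.trans hS
  have e4 : ed adj (X ∩ C) Y ≤ d * (X ∩ C).card :=
    ed_le_mul h (inter_subset_left.trans hXn) hYn
  have e5 : ed adj (X \ C) (Y ∩ C) ≤ d * (Y ∩ C).card :=
    ed_le_mul' h (sdiff_subset.trans hXn) (inter_subset_left.trans hYn)
  have e6 : (X ∩ C).card + (Y ∩ C).card ≤ C.card := by
    rw [← card_union_of_disjoint]
    · refine card_le_card ?_
      intro x hx
      rcases mem_union.mp hx with hx | hx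
      · exact (mem_inter.mp hx).2
      · exact (mem_inter.mp hx).2
    · rw [Finset.disjoint_left]
      intro x hx hy
      exact hYa x (mem_inter.mp hy).1 (hXa x (mem_inter.mp hx).1)
  calc ed adj X Y ≤ d * (X ∩ C).card + d * (Y ∩ C).card := by omega
    _ = d * ((X ∩ C).card + (Y ∩ C).card) := by ring
    _ ≤ d * C.card := Nat.mul_le_mul_left _ e6
    _ = _ := by rw [hCc]

theorem leaf_exact (h : RegBip n a d adj) {S : Finset ℕ} (hS : S ⊆ range n) {X K : ℕ}
    (hX : nu n a adj S ≤ X) (hK : 4 ^ X ≤ K) : leaf n adj K S = ind adj S := by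
  refine leaf_small h.symm (loopless h) hS ?_
  obtain ⟨M, hM, hc⟩ := cov_matching h.symm (loopless h) (fun v => v < a) h.bip hS
  have h1 := mat_le_nu h hS hM
  rw [hc, pow_mul]
  exact (Nat.pow_le_pow_right (by norm_num) (h1.trans hX)).trans hK

theorem leaf_le_ind (h : RegBip n a d adj) {S : Finset ℕ} (hS : S ⊆ range n) (K : ℕ) :
    leaf n adj K S ≤ ind adj S := by
  exact leaf_le h.symm (loopless h) hS K

end Pool.Agent.Lib.Pa7c826m
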