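import Pool.Agent.Lib.Pa7c826m.Nbh

/-!
An `L¹` Poincaré inequality on the bipartite double cover of the hypercube with loops.
-/

namespace Pool.Agent.Lib.Pa7c826m

open Finset Pool.Agent.Lib.Pa7c826 Pool.Agent.Lib.Pa7c826s

namespace PoinAux

theorem nbN_zero (τ : ℕ) : nbN 0 τ = τ := by simp [nbN]

theorem nbN_succ (i τ : ℕ) : nbN (i + 1) τ = flipN i τ := by simp [nbN]

theorem nbN_add (κ δ τ : ℕ) (hδ : δ < κ + 1) (h : τ < 2 ^ κ) :
    nbN δ (τ + 2 ^ κ) = nbN δ τ + 2 ^ κ := by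
  cases δ with
  | zero => simp [nbN_zero]
  | succ i =>
    rw [nbN_succ, nbN_succ]
    exact CubeAux.flipN_add κ i τ (by omega) h

/-- the mean -/
noncomputable def M (κ : ℕ) (P Q : ℕ → ℝ) : ℝ :=
  (∑ τ ∈ range (2 ^ κ), (P τ + Q τ)) / (2 * 2 ^ κ)

theorem main : ∀ (κ : ℕ) (P Q : ℕ → ℝ),
    ∑ τ ∈ range (2 ^ κ), (|P τ - M κ P Q| + |Q τ - M κ P Q|) ≤
      ∑ τ ∈ range (2 ^ κ), ∑ δ ∈ range (κ + 1), |P τ - Q (nbN δ τ)| := by
  intro κ
  induction κ with
  | zero =>
    intro P Q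
    simp only [pow_zero, range_one, sum_singleton, M, nbN_zero, zero_add]
    have e1 : P 0 - (P 0 + Q 0) / (2 * 1) = (P 0 - Q 0) / 2 := by ring
    have e2 : Q 0 - (P 0 + Q 0) / (2 * 1) = -((P 0 - Q 0) / 2) := by ring
    rw [e1, e2, abs_neg, abs_div]
    norm_num
  | succ κ ih =>
    intro P Q
    have h0 := ih P Q
    have h1 := ih (fun x => P (x + 2 ^ κ)) (fun x => Q (x + 2 ^ κ))
    set m0 := M κ P Q with hm0
    set m1 := M κ (fun x => P (x + 2 ^ κ)) (fun x => Q (x + 2 ^ κ)) with hm1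
    have hH : (0 : ℝ) < 2 ^ κ := by positivity
    have hpow : 2 ^ (κ + 1) = 2 ^ κ + 2 ^ κ := by rw [pow_succ]; ring
    have hm : M (κ + 1) P Q = (m0 + m1) / 2 := by
      rw [hm0, hm1, M, M, M, hpow, sum_range_add]
      have e : ∑ x ∈ range (2 ^ κ), (P (2 ^ κ + x) + Q (2 ^ κ + x)) =
          ∑ x ∈ range (2 ^ κ), (P (x + 2 ^ κ) + Q (x + 2 ^ κ)) :=
        sum_congr rfl fun x _ => by rw [add_comm (2 ^ κ) x]
      rw [e, pow_succ]
      field_simp
      try ring
    rw [hm, hpow, sum_range_add, sum_range_add]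
    have e3 : ∑ x ∈ range (2 ^ κ), ∑ δ ∈ range (κ + 1 + 1), |P x - Q (nbN δ x)| =
        ∑ x ∈ range (2 ^ κ), ∑ δ ∈ range (κ + 1), |P x - Q (nbN δ x)| +
          ∑ x ∈ range (2 ^ κ), |P x - Q (x + 2 ^ κ)| := by
      rw [← sum_add_distrib]
      refine sum_congr rfl fun x hx => ?_
      rw [sum_range_succ, nbN_succ, CubeAux.flipN_top κ x (mem_range.1 hx)]
    have e4 : ∑ x ∈ range (2 ^ κ), ∑ δ ∈ range (κ + 1 + 1),
        |P (2 ^ κ + x) - Q (nbN δ (2 ^ κ + x))| =
        ∑ x ∈ range (2 ^ κ), ∑ δ ∈ range (κ + 1), |P (x + 2 ^ κ) - Q (nbN δ x + 2 ^ κ)| +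
          ∑ x ∈ range (2 ^ κ), |P (x + 2 ^ κ) - Q x| := by
      rw [← sum_add_distrib]
      refine sum_congr rfl fun x hx => ?_
      rw [sum_range_succ, add_comm (2 ^ κ) x, nbN_succ, CubeAux.flipN_top' κ x (mem_range.1 hx)]
      congr 1
      refine sum_congr rfl fun δ hδ => ?_
      rw [nbN_add κ δ x (mem_range.1 hδ) (mem_range.1 hx)]
    rw [e3, e4]
    -- the left side
    have t0 : ∑ x ∈ range (2 ^ κ), (|P x - (m0 + m1) / 2| + |Q x - (m0 + m1) / 2|) ≤
        ∑ x ∈ range (2 ^ κ), (|P x - m0| + |Q x - m0|) + 2 ^ κ * |m0 - m1| := by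
      calc _ ≤ ∑ x ∈ range (2 ^ κ), ((|P x - m0| + |Q x - m0|) + |m0 - m1|) := by
            refine sum_le_sum fun x _ => ?_
            have a1 : |P x - (m0 + m1) / 2| ≤ |P x - m0| + |m0 - m1| / 2 := by
              have : P x - (m0 + m1) / 2 = (P x - m0) + (m0 - m1) / 2 := by ring
              rw [this]
              refine (abs_add_le _ _).trans ?_
              rw [abs_div]
              norm_num
            have a2 : |Q x - (m0 + m1) / 2| ≤ |Q x - m0| + |m0 - m1| / 2 := by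
              have : Q x - (m0 + m1) / 2 = (Q x - m0) + (m0 - m1) / 2 := by ring
              rw [this]
              refine (abs_add_le _ _).trans ?_
              rw [abs_div]
              norm_num
            linarith
        _ = _ := by
            rw [sum_add_distrib, sum_const, card_range, nsmul_eq_mul]
            push_cast
            ring
    have t1 : ∑ x ∈ range (2 ^ κ),
        (|P (2 ^ κ + x) - (m0 + m1) / 2| + |Q (2 ^ κ + x) - (m0 + m1) / 2|) ≤
        ∑ x ∈ range (2 ^ κ), (|P (x + 2 ^ κ) - m1| + |Q (x + 2 ^ κ) - m1|) +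
          2 ^ κ * |m0 - m1| := by
      calc _ ≤ ∑ x ∈ range (2 ^ κ), ((|P (x + 2 ^ κ) - m1| + |Q (x + 2 ^ κ) - m1|) +
              |m0 - m1|) := by
            refine sum_le_sum fun x _ => ?_
            rw [add_comm (2 ^ κ) x]
            have a1 : |P (x + 2 ^ κ) - (m0 + m1) / 2| ≤ |P (x + 2 ^ κ) - m1| + |m0 - m1| / 2 := by
              have : P (x + 2 ^ κ) - (m0 + m1) / 2 = (P (x + 2 ^ κ) - m1) + -((m0 - m1) / 2) := by
                ring
              rw [this]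
              refine (abs_add_le _ _).trans ?_
              rw [abs_neg, abs_div]
              norm_num
            have a2 : |Q (x + 2 ^ κ) - (m0 + m1) / 2| ≤ |Q (x + 2 ^ κ) - m1| + |m0 - m1| / 2 := by
              have : Q (x + 2 ^ κ) - (m0 + m1) / 2 = (Q (x + 2 ^ κ) - m1) + -((m0 - m1) / 2) := by
                ring
              rw [this]
              refine (abs_add_le _ _).trans ?_
              rw [abs_neg, abs_div]
              norm_num
            linarith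
        _ = _ := by
            rw [sum_add_distrib, sum_const, card_range, nsmul_eq_mul]
            push_cast
            ring
    have t2 : 2 * 2 ^ κ * |m0 - m1| ≤ ∑ x ∈ range (2 ^ κ), |P x - Q (x + 2 ^ κ)| +
        ∑ x ∈ range (2 ^ κ), |P (x + 2 ^ κ) - Q x| := by
      have e5 : 2 * 2 ^ κ * (m0 - m1) =
          ∑ x ∈ range (2 ^ κ), ((P x - Q (x + 2 ^ κ)) - (P (x + 2 ^ κ) - Q x)) := by
        rw [hm0, hm1, M, M, mul_sub, mul_div_cancel₀ _ (by positivity),
          mul_div_cancel₀ _ (by positivity), ← sum_sub_distrib]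
        exact sum_congr rfl fun x _ => by ring
      have e6 : 2 * 2 ^ κ * |m0 - m1| = |2 * 2 ^ κ * (m0 - m1)| := by
        rw [abs_mul, abs_of_pos (by positivity : (0 : ℝ) < 2 * 2 ^ κ)]
      rw [e6, e5, ← sum_add_distrib]
      refine (abs_sum_le_sum_abs _ _).trans (sum_le_sum fun x _ => abs_sub _ _)
    linarith

end PoinAux

theorem poincare_cube {κ : ℕ} (P Q : Fin (2 ^ κ) → ℝ) :
    ∃ m : ℝ, ∑ τ, (|P τ - m| + |Q τ - m|) ≤ ∑ τ, ∑ δ, |P τ - Q (nb δ τ)| := by
  classical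
  set P' : ℕ → ℝ := fun x => if h : x < 2 ^ κ then P ⟨x, h⟩ else 0 with hP'
  set Q' : ℕ → ℝ := fun x => if h : x < 2 ^ κ then Q ⟨x, h⟩ else 0 with hQ'
  have eP : ∀ τ : Fin (2 ^ κ), P' τ = P τ := fun τ => by simp [hP']
  have eQ : ∀ τ : Fin (2 ^ κ), Q' τ = Q τ := fun τ => by simp [hQ']
  refine ⟨PoinAux.M κ P' Q', ?_⟩
  have h := PoinAux.main κ P' Q'
  rw [← Fin.sum_univ_eq_sum_range (fun x => |P' x - PoinAux.M κ P' Q'| + |Q' x - PoinAux.M κ P' Q'|),
    ← Fin.sum_univ_eq_sum_range (fun x => ∑ δ ∈ range (κ + 1), |P' x - Q' (nbN δ x)|)] at h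
  refine (le_of_eq ?_).trans (h.trans (le_of_eq ?_))
  · exact sum_congr rfl fun τ _ => by rw [eP, eQ]
  · refine sum_congr rfl fun τ _ => ?_
    rw [← Fin.sum_univ_eq_sum_range (fun δ => |P' τ - Q' (nbN δ τ)|)]
    refine sum_congr rfl fun δ _ => ?_
    rw [eP, ← nb_val, eQ]

end Pool.Agent.Lib.Pa7c826m
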