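import Pool.Agent.Lib.Pa7c826m.Nbh

/-!
The `L²` Poincaré inequality on the bipartite double cover of the hypercube with loops (spectral gap 2).

PROOF. As `poincare_cube` (PoinB.lean), by induction on `κ` for functions `P Q : ℕ → ℝ` with `m` = the mean
`(∑ τ ∈ range (2 ^ κ), (P τ + Q τ)) / (2 * 2 ^ κ)`: `2 ∑ τ, ((P τ - m) ^ 2 + (Q τ - m) ^ 2) ≤ ∑ τ, ∑ δ ≤ κ, (P τ - Q (nbN δ τ)) ^ 2`. `κ = 0`: equality.
Step, `H = 2 ^ κ`: with the means `m0`, `m1` of the halves, `m = (m0 + m1) / 2`,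
`∑ over half c of (F - m) ^ 2 = ∑ over half c of (F - mc) ^ 2 + 2 H (mc - m) ^ 2`, so the left side is the sum of the two left sides plus
`2 (2 * 2 H ((m0 - m1) / 2) ^ 2) = 2 H (m0 - m1) ^ 2`. The terms with `δ = κ + 1` are the squares of the `2 H` numbers `P τ - Q (τ + H)`, `P (τ + H) - Q τ`, whose
sum with signs is `∑ ((P τ - Q (τ + H)) + (Q τ - P (τ + H))) = 2 H (m0 - m1)`, so by Cauchy-Schwarz their sum of squares is at least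
`(2 H (m0 - m1)) ^ 2 / (2 H) = 2 H (m0 - m1) ^ 2`.
-/

namespace Pool.Agent.Lib.Pa7c826m

open Finset Pool.Agent.Lib.Pa7c826 Pool.Agent.Lib.Pa7c826s

namespace PoinLAux

open Pool.Agent.Lib.Pa7c826s.CubeAux

theorem nbN_zero (τ : ℕ) : nbN 0 τ = τ := by
  simp [nbN]

theorem nbN_succ (i τ : ℕ) : nbN (i + 1) τ = flipN i τ := by
  simp [nbN]

theorem nbN_add (κ δ τ : ℕ) (hδ : δ < κ + 1) (h : τ < 2 ^ κ) :
    nbN δ (τ + 2 ^ κ) = nbN δ τ + 2 ^ κ := by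
  cases δ with
  | zero => rw [nbN_zero, nbN_zero]
  | succ i =>
    rw [nbN_succ, nbN_succ]
    exact flipN_add κ i τ (by omega) h

/-- the Dirichlet form -/
noncomputable def DD (κ : ℕ) (P Q : ℕ → ℝ) : ℝ :=
  ∑ τ ∈ range (2 ^ κ), ∑ δ ∈ range (κ + 1), (P τ - Q (nbN δ τ)) ^ 2

/-- the sum of the squares -/
noncomputable def AA (κ : ℕ) (P Q : ℕ → ℝ) : ℝ := ∑ τ ∈ range (2 ^ κ), (P τ ^ 2 + Q τ ^ 2)

/-- the sum -/
noncomputable def SS (κ : ℕ) (P Q : ℕ → ℝ) : ℝ := ∑ τ ∈ range (2 ^ κ), (P τ + Q τ)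

/-- the form of the new direction -/
noncomputable def CC (κ : ℕ) (P Q : ℕ → ℝ) : ℝ :=
  ∑ τ ∈ range (2 ^ κ), ((P τ - Q (τ + 2 ^ κ)) ^ 2 + (P (τ + 2 ^ κ) - Q τ) ^ 2)

theorem DD_succ (κ : ℕ) (P Q : ℕ → ℝ) : DD (κ + 1) P Q =
    DD κ P Q + DD κ (fun τ => P (τ + 2 ^ κ)) (fun τ => Q (τ + 2 ^ κ)) + CC κ P Q := by
  have e : 2 ^ (κ + 1) = 2 ^ κ + 2 ^ κ := by ring
  unfold DD CC
  rw [e, Finset.sum_range_add, ← Finset.sum_add_distrib, ← Finset.sum_add_distrib,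
    ← Finset.sum_add_distrib]
  refine Finset.sum_congr rfl fun τ hτ => ?_
  rw [Finset.mem_range] at hτ
  rw [Finset.sum_range_succ _ (κ + 1), Finset.sum_range_succ _ (κ + 1)]
  have h1 : nbN (κ + 1) τ = τ + 2 ^ κ := by
    rw [nbN_succ, flipN_top κ τ hτ]
  have h2 : nbN (κ + 1) (2 ^ κ + τ) = τ := by
    rw [nbN_succ, add_comm, flipN_top' κ τ hτ]
  have h3 : ∑ δ ∈ range (κ + 1), (P (2 ^ κ + τ) - Q (nbN δ (2 ^ κ + τ))) ^ 2 =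
      ∑ δ ∈ range (κ + 1), (P (τ + 2 ^ κ) - Q (nbN δ τ + 2 ^ κ)) ^ 2 := by
    refine Finset.sum_congr rfl fun δ hδ => ?_
    rw [Finset.mem_range] at hδ
    rw [add_comm (2 ^ κ) τ, nbN_add κ δ τ hδ hτ]
  rw [h1, h2, h3, add_comm (2 ^ κ) τ]
  ring

theorem AA_succ (κ : ℕ) (P Q : ℕ → ℝ) : AA (κ + 1) P Q =
    AA κ P Q + AA κ (fun τ => P (τ + 2 ^ κ)) (fun τ => Q (τ + 2 ^ κ)) := by
  have e : 2 ^ (κ + 1) = 2 ^ κ + 2 ^ κ := by ring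
  unfold AA
  rw [e, Finset.sum_range_add]
  simp only [add_comm]

theorem SS_succ (κ : ℕ) (P Q : ℕ → ℝ) : SS (κ + 1) P Q =
    SS κ P Q + SS κ (fun τ => P (τ + 2 ^ κ)) (fun τ => Q (τ + 2 ^ κ)) := by
  have e : 2 ^ (κ + 1) = 2 ^ κ + 2 ^ κ := by ring
  unfold SS
  rw [e, Finset.sum_range_add]
  congr 1
  refine Finset.sum_congr rfl fun τ _ => ?_
  rw [add_comm (2 ^ κ) τ]

theorem CS_CC (κ : ℕ) (P Q : ℕ → ℝ) :
    (SS κ P Q - SS κ (fun τ => P (τ + 2 ^ κ)) (fun τ => Q (τ + 2 ^ κ))) ^ 2 ≤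
      2 * 2 ^ κ * CC κ P Q := by
  have h1 : SS κ P Q - SS κ (fun τ => P (τ + 2 ^ κ)) (fun τ => Q (τ + 2 ^ κ)) =
      ∑ τ ∈ range (2 ^ κ), ((P τ - Q (τ + 2 ^ κ)) - (P (τ + 2 ^ κ) - Q τ)) := by
    unfold SS
    rw [← Finset.sum_sub_distrib]
    refine Finset.sum_congr rfl fun τ _ => ?_
    ring
  have h2 := sq_sum_le_card_mul_sum_sq (s := range (2 ^ κ))
    (f := fun τ => (P τ - Q (τ + 2 ^ κ)) - (P (τ + 2 ^ κ) - Q τ))
  rw [h1]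
  refine h2.trans ?_
  rw [Finset.card_range]
  push_cast
  rw [mul_comm (2 : ℝ), mul_assoc]
  refine mul_le_mul_of_nonneg_left ?_ (by positivity)
  unfold CC
  rw [Finset.mul_sum]
  refine Finset.sum_le_sum fun τ _ => ?_
  nlinarith [sq_nonneg ((P τ - Q (τ + 2 ^ κ)) + (P (τ + 2 ^ κ) - Q τ))]

theorem core (κ : ℕ) : ∀ P Q : ℕ → ℝ,
    2 * 2 ^ κ * AA κ P Q - SS κ P Q ^ 2 ≤ 2 ^ κ * DD κ P Q := by
  induction κ with
  | zero =>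
    intro P Q
    simp only [AA, SS, DD, pow_zero, Finset.sum_range_one, zero_add, nbN_zero]
    nlinarith
  | succ κ ih =>
    intro P Q
    rw [DD_succ, AA_succ, SS_succ]
    have h0 := ih P Q
    have h1 := ih (fun τ => P (τ + 2 ^ κ)) (fun τ => Q (τ + 2 ^ κ))
    have h2 := CS_CC κ P Q
    rw [pow_succ]
    nlinarith

end PoinLAux

open PoinLAux in
theorem poincare_cube2 {κ : ℕ} (P Q : Fin (2 ^ κ) → ℝ) :
    ∃ m : ℝ, 2 * ∑ τ, ((P τ - m) ^ 2 + (Q τ - m) ^ 2) ≤ ∑ τ, ∑ δ, (P τ - Q (nb δ τ)) ^ 2 := by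
  set P' : ℕ → ℝ := fun x => if h : x < 2 ^ κ then P ⟨x, h⟩ else 0 with hP'
  set Q' : ℕ → ℝ := fun x => if h : x < 2 ^ κ then Q ⟨x, h⟩ else 0 with hQ'
  have eP : ∀ τ : Fin (2 ^ κ), P τ = P' τ := by
    intro τ
    simp [hP', τ.2]
  have eQ : ∀ τ : Fin (2 ^ κ), Q τ = Q' τ := by
    intro τ
    simp [hQ', τ.2]
  have hH : (0 : ℝ) < 2 ^ κ := by positivity
  refine ⟨SS κ P' Q' / (2 * 2 ^ κ), ?_⟩
  set m : ℝ := SS κ P' Q' / (2 * 2 ^ κ) with hm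
  have h1 : ∑ τ : Fin (2 ^ κ), ((P τ - m) ^ 2 + (Q τ - m) ^ 2) =
      AA κ P' Q' - 2 * m * SS κ P' Q' + 2 * 2 ^ κ * m ^ 2 := by
    have e1 : ∑ τ : Fin (2 ^ κ), ((P τ - m) ^ 2 + (Q τ - m) ^ 2) =
        ∑ x ∈ range (2 ^ κ), ((P' x - m) ^ 2 + (Q' x - m) ^ 2) := by
      rw [← Fin.sum_univ_eq_sum_range (fun x => (P' x - m) ^ 2 + (Q' x - m) ^ 2)]
      exact Finset.sum_congr rfl fun τ _ => by rw [eP, eQ]
    rw [e1]
    have e2 : ∀ x, (P' x - m) ^ 2 + (Q' x - m) ^ 2 =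
        (P' x ^ 2 + Q' x ^ 2) - 2 * m * (P' x + Q' x) + 2 * m ^ 2 := by
      intro x
      ring
    simp only [e2]
    rw [Finset.sum_add_distrib, Finset.sum_sub_distrib, ← Finset.mul_sum, Finset.sum_const,
      Finset.card_range, nsmul_eq_mul]
    unfold AA SS
    push_cast
    ring
  have h2 : ∑ τ : Fin (2 ^ κ), ∑ δ, (P τ - Q (nb δ τ)) ^ 2 = DD κ P' Q' := by
    unfold DD
    rw [← Fin.sum_univ_eq_sum_range (fun x => ∑ δ ∈ range (κ + 1), (P' x - Q' (nbN δ x)) ^ 2)]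
    refine Finset.sum_congr rfl fun τ _ => ?_
    rw [← Fin.sum_univ_eq_sum_range (fun δ => (P' τ - Q' (nbN δ τ)) ^ 2)]
    refine Finset.sum_congr rfl fun δ _ => ?_
    rw [eP, eQ, nb_val]
  rw [h1, h2]
  have h3 := core κ P' Q'
  have h4 : m * (2 * 2 ^ κ) = SS κ P' Q' := by
    rw [hm]
    field_simp
  rw [← h4] at h3 ⊢
  have h5 : 2 ^ κ * (2 * (AA κ P' Q' - 2 * m * (m * (2 * 2 ^ κ)) + 2 * 2 ^ κ * m ^ 2)) ≤
      2 ^ κ * DD κ P' Q' := by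
    nlinarith
  exact le_of_mul_le_mul_left h5 hH

end Pool.Agent.Lib.Pa7c826m
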