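import Pool.Agent.Lib.Pa7c826m.NForm

/-!
The sum over the sets of occupied `Q`-vertices that meet exactly the clusters in `B`.

PROOF. Write `X = NS B`, `m = #{τ ∈ X | τ < M}`, `t τ = ∑ δ, |q (nb δ τ)|`.
`term_le`: for `τ ∉ X` (`B = sup q`) all `q (nb δ τ)` are empty, `zt = z0` and the factor is the one of `N0`. For `τ ∈ X` (`zt_le`):
`zt ≤ 2 ^ (β - g - [τ < M]) z0 * (2 ^ [τ < M] (1 + 2 ^ g / 2 ^ t τ) / (2 ^ β q0))`. So the product is at most
`N0 * ∏ τ ∈ X, (2 ^ [τ < M] (1 + 2 ^ g / 2 ^ t τ) / (2 ^ β q0))`. For `τ ∈ B` use `t τ ≥ |q τ|` (`nb 0 τ = τ`), for `τ ∈ X \ B` use `t τ ≥ 1` and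
`1 + 2 ^ g / 2 ≤ 2 ^ g` (`g ≥ 1`); `B ⊆ X` (`sub_NS`).
`sum_fix`: the `q` with `sup q = B` are the functions with `q τ ≠ ∅` for `τ ∈ B` and `q τ = ∅` for `τ ∉ B`; `Finset.prod_univ_sum` (with
`Fintype.piFinset`) gives `∏ τ ∈ B, ∑ s ≠ ∅, (1 + 2 ^ g / 2 ^ |s|) ≤ (2 ^ β + 2 ^ g (3 / 2) ^ β) ^ |B|`, because
`∑ s : Finset (Fin β), (1 / 2) ^ |s| = (3 / 2) ^ β` (`Finset.sum_pow_mul_eq_add_pow` or `Finset.prod_add`).
`2 ^ (β |B|) 2 ^ (g (|X| - |B|)) / 2 ^ (β |X|) = 1 / 2 ^ ((β - g) (|X| - |B|))`.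
-/

namespace Pool.Agent.Lib.Pa7c826m

open Finset Pool.Agent.Lib.Pa7c826 Pool.Agent.Lib.Pa7c826s

variable {κ g β d : ℕ}

/-- the bound for the sum over the `q` with `sup q = B` -/
noncomputable def cB (g β d M : ℕ) (B : Finset (Fin (2 ^ κ))) : ℝ :=
  2 ^ ((NS B).filter (fun τ : Fin (2 ^ κ) => (τ : ℕ) < M)).card * (1 + 2 ^ g * (3 / 4) ^ β) ^ B.card /
    (2 ^ ((β - g) * ((NS B).card - B.card)) * q0 g d ^ (NS B).card)

namespace QSumAux

/-- the factor over one point -/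
noncomputable def hfac (g β : ℕ) (q : Fin (2 ^ κ) → Finset (Fin β)) (τ : Fin (2 ^ κ)) : ℝ :=
  if τ ∈ sup q then 1 + 2 ^ g / 2 ^ (q τ).card else 2 ^ g

theorem z0_nonneg (g d : ℕ) : (0 : ℝ) ≤ (z0 g d : ℝ) := Nat.cast_nonneg _

theorem pow_split (hgβ : g < β) (τ : Fin (2 ^ κ)) (M : ℕ) :
    (2 : ℝ) ^ (β - g - if (τ : ℕ) < M then 1 else 0) * 2 ^ (if (τ : ℕ) < M then 1 else 0) * 2 ^ g =
      2 ^ β := by
  rw [← pow_add, ← pow_add]
  congr 1
  split_ifs <;> omega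

theorem one_add_half (hg : 1 ≤ g) : (1 : ℝ) + 2 ^ g / 2 ^ 1 ≤ 2 ^ g := by
  obtain ⟨k, rfl⟩ : ∃ k, g = k + 1 := ⟨g - 1, by omega⟩
  have h1 : (1 : ℝ) ≤ 2 ^ k := one_le_pow₀ (by norm_num)
  have h2 : (2 : ℝ) ^ (k + 1) / 2 ^ 1 = 2 ^ k := by rw [pow_succ]; field_simp
  rw [h2, pow_succ]
  linarith

theorem zt_hh (hg : 1 ≤ g) (hgd : g ≤ d) (hd : d = (κ + 1) * β)
    (q : Fin (2 ^ κ) → Finset (Fin β)) (τ : Fin (2 ^ κ)) (hτ : τ ∈ NS (sup q)) :
    2 ^ g * q0 g d * (zt κ g β d q τ : ℝ) ≤ z0 g d * hfac g β q τ := by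
  by_cases hB : τ ∈ sup q
  · have ht : (q τ).card ≤ ∑ δ, (q (nb δ τ)).card := by
      have h0 : (q (nb 0 τ)).card ≤ ∑ δ, (q (nb δ τ)).card :=
        Finset.single_le_sum (f := fun δ : Fin (κ + 1) => (q (nb δ τ)).card)
          (fun _ _ => Nat.zero_le _) (mem_univ (0 : Fin (κ + 1)))
      rwa [nb_zero] at h0
    have := zt_le (g := g) (β := β) (d := d) (q := q) (τ := τ) hg hgd hd ht
    simpa [hfac, hB] using this
  · obtain ⟨δ, hδ⟩ : ∃ δ, nb δ τ ∈ sup q := by simpa [NS] using hτ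
    have h1 : 1 ≤ (q (nb δ τ)).card := by
      rw [Nat.one_le_iff_ne_zero]
      intro h
      have : q (nb δ τ) = ∅ := Finset.card_eq_zero.1 h
      simp [sup] at hδ
      exact hδ this
    have ht : 1 ≤ ∑ δ, (q (nb δ τ)).card :=
      h1.trans (Finset.single_le_sum (f := fun δ : Fin (κ + 1) => (q (nb δ τ)).card)
          (fun _ _ => Nat.zero_le _) (mem_univ δ))
    have h2 := zt_le (g := g) (β := β) (d := d) (q := q) (τ := τ) hg hgd hd ht
    have h3 : (z0 g d : ℝ) * (1 + 2 ^ g / 2 ^ 1) ≤ z0 g d * 2 ^ g :=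
      mul_le_mul_of_nonneg_left (one_add_half hg) (z0_nonneg g d)
    simpa [hfac, hB] using h2.trans h3

theorem q0_pos (hgd : g ≤ d) : 0 < q0 g d := lt_of_lt_of_le one_pos (one_le_q0 hgd)

theorem fac_le (hg : 1 ≤ g) (hgβ : g < β) (hgd : g ≤ d) (hd : d = (κ + 1) * β) (M : ℕ)
    (q : Fin (2 ^ κ) → Finset (Fin β)) (τ : Fin (2 ^ κ)) :
    (((if τ ∈ NS (sup q) then 1 else
        2 ^ (β - g - if (τ : ℕ) < M then 1 else 0)) * zt κ g β d q τ : ℕ) : ℝ) ≤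
      (2 ^ (β - g - if (τ : ℕ) < M then 1 else 0) * (z0 g d : ℝ)) *
        (if τ ∈ NS (sup q) then
          2 ^ (if (τ : ℕ) < M then 1 else 0) * hfac g β q τ / (2 ^ β * q0 g d) else 1) := by
  by_cases hX : τ ∈ NS (sup q)
  · rw [if_pos hX, if_pos hX, one_mul]
    have hq := q0_pos hgd
    have h1 := zt_hh (β := β) hg hgd hd q τ hX
    have h2 := pow_split (g := g) hgβ τ M
    have h3 : (0 : ℝ) < 2 ^ β * q0 g d := by positivity
    rw [← mul_div_assoc, le_div_iff₀ h3]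
    have h4 : (2 : ℝ) ^ (β - g - if (τ : ℕ) < M then 1 else 0) * (z0 g d : ℝ) *
        (2 ^ (if (τ : ℕ) < M then 1 else 0) * hfac g β q τ) =
        (2 ^ (β - g - if (τ : ℕ) < M then 1 else 0) * 2 ^ (if (τ : ℕ) < M then 1 else 0)) *
          (z0 g d * hfac g β q τ) := by ring
    rw [h4]
    have h5 : (zt κ g β d q τ : ℝ) * (2 ^ β * q0 g d) =
        (2 ^ (β - g - if (τ : ℕ) < M then 1 else 0) * 2 ^ (if (τ : ℕ) < M then 1 else 0)) *
          (2 ^ g * q0 g d * (zt κ g β d q τ : ℝ)) := by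
      rw [← h2]; ring
    rw [h5]
    exact mul_le_mul_of_nonneg_left h1 (by positivity)
  · rw [if_neg hX, if_neg hX, mul_one]
    have h0 : ∀ δ, q (nb δ τ) = ∅ := by
      intro δ
      by_contra h
      apply hX
      simp only [NS, mem_filter, mem_univ, true_and]
      exact ⟨δ, by simpa [sup] using h⟩
    rw [zt_zero h0]
    push_cast
    exact le_of_eq (by norm_cast)

theorem prod_base (κ g β d M : ℕ) :
    ∏ τ : Fin (2 ^ κ), (2 ^ (β - g - if (τ : ℕ) < M then 1 else 0) * (z0 g d : ℝ)) =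
      (N0 κ g β d M : ℝ) := by
  rw [Finset.prod_mul_distrib, N0]
  push_cast
  congr 1
  simp

theorem sum_w (g β : ℕ) :
    ∑ s ∈ (univ : Finset (Finset (Fin β))).filter (fun s => s ≠ ∅), (1 + 2 ^ g / 2 ^ s.card : ℝ) ≤
      2 ^ β * (1 + 2 ^ g * (3 / 4) ^ β) := by
  have h1 : ∑ s ∈ (univ : Finset (Finset (Fin β))).filter (fun s => s ≠ ∅),
      (1 + 2 ^ g / 2 ^ s.card : ℝ) ≤ ∑ s : Finset (Fin β), (1 + 2 ^ g / 2 ^ s.card : ℝ) :=
    Finset.sum_le_sum_of_subset_of_nonneg (filter_subset _ _) (fun _ _ _ => by positivity)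
  refine h1.trans (le_of_eq ?_)
  have h2 : ∑ s : Finset (Fin β), ((1 / 2 : ℝ)) ^ s.card * 1 ^ (β - s.card) = (1 / 2 + 1) ^ β :=
    Fin.sum_pow_mul_eq_add_pow (1 / 2 : ℝ) 1
  have h3 : ∀ s : Finset (Fin β), (1 + 2 ^ g / 2 ^ s.card : ℝ) =
      1 + 2 ^ g * ((1 / 2 : ℝ) ^ s.card * 1 ^ (β - s.card)) := by
    intro s
    rw [one_pow, mul_one, one_div, inv_pow]
    rfl
  rw [Finset.sum_congr rfl (fun s _ => h3 s), Finset.sum_add_distrib, ← Finset.mul_sum, h2]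
  have h4 : (1 / 2 + 1 : ℝ) ^ β = 2 ^ β * (3 / 4) ^ β := by
    rw [← mul_pow]; norm_num
  rw [h4]
  simp only [Finset.sum_const, Finset.card_univ, Fintype.card_finset, Fintype.card_fin, nsmul_eq_mul,
    mul_one, Nat.cast_pow, Nat.cast_ofNat]
  ring

end QSumAux

open QSumAux

theorem term_le (hg : 1 ≤ g) (hgβ : g < β) (hgd : g ≤ d) (hd : d = (κ + 1) * β) (M : ℕ)
    (q : Fin (2 ^ κ) → Finset (Fin β)) :
    ((∏ τ : Fin (2 ^ κ), (if τ ∈ NS (sup q) then 1 else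
        2 ^ (β - g - if (τ : ℕ) < M then 1 else 0)) * zt κ g β d q τ : ℕ) : ℝ) ≤
      N0 κ g β d M * (2 ^ ((NS (sup q)).filter (fun τ : Fin (2 ^ κ) => (τ : ℕ) < M)).card *
        (2 ^ g) ^ ((NS (sup q)).card - (sup q).card) / (2 ^ β * q0 g d) ^ (NS (sup q)).card *
        ∏ τ ∈ sup q, (1 + 2 ^ g / 2 ^ (q τ).card)) := by
  have h1 : ((∏ τ : Fin (2 ^ κ), (if τ ∈ NS (sup q) then 1 else
        2 ^ (β - g - if (τ : ℕ) < M then 1 else 0)) * zt κ g β d q τ : ℕ) : ℝ) ≤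
      ∏ τ : Fin (2 ^ κ), ((2 ^ (β - g - if (τ : ℕ) < M then 1 else 0) * (z0 g d : ℝ)) *
        (if τ ∈ NS (sup q) then
          2 ^ (if (τ : ℕ) < M then 1 else 0) * hfac g β q τ / (2 ^ β * q0 g d) else 1)) := by
    rw [Nat.cast_prod]
    exact Finset.prod_le_prod (fun _ _ => Nat.cast_nonneg _)
      (fun τ _ => fac_le hg hgβ hgd hd M q τ)
  refine h1.trans (le_of_eq ?_)
  rw [Finset.prod_mul_distrib, prod_base]
  congr 1
  rw [Finset.prod_ite_mem, Finset.univ_inter, Finset.prod_div_distrib, Finset.prod_mul_distrib,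
    Finset.prod_const, Finset.prod_pow_eq_pow_sum, ← Finset.card_filter]
  have hsub := sub_NS (sup q)
  have h2 : ∏ τ ∈ NS (sup q), hfac g β q τ =
      (∏ τ ∈ sup q, (1 + 2 ^ g / 2 ^ (q τ).card : ℝ)) *
        (2 ^ g) ^ ((NS (sup q)).card - (sup q).card) := by
    rw [← Finset.prod_sdiff hsub, mul_comm]
    congr 1
    · refine Finset.prod_congr rfl (fun τ hτ => ?_)
      rw [hfac, if_pos hτ]
    · have : ∀ τ ∈ NS (sup q) \ sup q, hfac g β q τ = 2 ^ g := by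
        intro τ hτ
        rw [hfac, if_neg (Finset.mem_sdiff.1 hτ).2]
      rw [Finset.prod_congr rfl this, Finset.prod_const, Finset.card_sdiff_of_subset hsub]
  rw [h2]
  ring

theorem sum_fix (g β : ℕ) (B : Finset (Fin (2 ^ κ))) :
    ∑ q ∈ univ.filter (fun q : Fin (2 ^ κ) → Finset (Fin β) => sup q = B),
      ∏ τ ∈ sup q, (1 + 2 ^ g / 2 ^ (q τ).card : ℝ) ≤
      (2 ^ β * (1 + 2 ^ g * (3 / 4) ^ β)) ^ B.card := by
  have hE : univ.filter (fun q : Fin (2 ^ κ) → Finset (Fin β) => sup q = B) =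
      Fintype.piFinset (fun τ => if τ ∈ B then
        (univ : Finset (Finset (Fin β))).filter (fun s => s ≠ ∅) else {∅}) := by
    ext q
    simp only [mem_filter, mem_univ, true_and, Fintype.mem_piFinset]
    constructor
    · intro h τ
      by_cases hτ : τ ∈ B
      · rw [if_pos hτ]
        rw [← h] at hτ
        simpa [sup] using hτ
      · rw [if_neg hτ]
        rw [← h] at hτ
        simpa [sup] using hτ
    · intro h
      ext τ
      have hτ := h τ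
      by_cases hB : τ ∈ B
      · rw [if_pos hB] at hτ
        simp only [mem_filter, mem_univ, true_and] at hτ
        simp [sup, hB, hτ]
      · rw [if_neg hB] at hτ
        simp only [mem_singleton] at hτ
        simp [sup, hB, hτ]
  have h1 : ∑ q ∈ univ.filter (fun q : Fin (2 ^ κ) → Finset (Fin β) => sup q = B),
      ∏ τ ∈ sup q, (1 + 2 ^ g / 2 ^ (q τ).card : ℝ) =
      ∑ q ∈ univ.filter (fun q : Fin (2 ^ κ) → Finset (Fin β) => sup q = B),
        ∏ τ, (if τ ∈ B then (1 + 2 ^ g / 2 ^ (q τ).card : ℝ) else 1) := by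
    refine Finset.sum_congr rfl (fun q hq => ?_)
    rw [(mem_filter.1 hq).2, Finset.prod_ite_mem, Finset.univ_inter]
  rw [h1, hE]
  have h2 := Finset.prod_univ_sum (fun τ : Fin (2 ^ κ) => if τ ∈ B then
        (univ : Finset (Finset (Fin β))).filter (fun s => s ≠ ∅) else {∅})
        (fun τ s => (if τ ∈ B then (1 + 2 ^ g / 2 ^ s.card : ℝ) else 1))
  rw [← h2]
  have h3 : ∀ τ : Fin (2 ^ κ), ∑ s ∈ (if τ ∈ B then
        (univ : Finset (Finset (Fin β))).filter (fun s => s ≠ ∅) else {∅}),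
        (if τ ∈ B then (1 + 2 ^ g / 2 ^ s.card : ℝ) else 1) ≤
      (if τ ∈ B then (2 ^ β * (1 + 2 ^ g * (3 / 4) ^ β) : ℝ) else 1) := by
    intro τ
    by_cases hB : τ ∈ B
    · simp only [if_pos hB]
      exact sum_w g β
    · simp only [if_neg hB]
      simp
  refine (Finset.prod_le_prod (fun τ _ => Finset.sum_nonneg (fun s _ => ?_))
    (fun τ _ => h3 τ)).trans (le_of_eq ?_)
  · split_ifs <;> positivity
  · rw [Finset.prod_ite_mem, Finset.univ_inter, Finset.prod_const]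

theorem sum_sup_le (hg : 1 ≤ g) (hgβ : g < β) (hgd : g ≤ d) (hd : d = (κ + 1) * β) (M : ℕ)
    (B : Finset (Fin (2 ^ κ))) :
    ∑ q ∈ univ.filter (fun q : Fin (2 ^ κ) → Finset (Fin β) => sup q = B),
      ((∏ τ : Fin (2 ^ κ), (if τ ∈ NS (sup q) then 1 else
        2 ^ (β - g - if (τ : ℕ) < M then 1 else 0)) * zt κ g β d q τ : ℕ) : ℝ) ≤
      N0 κ g β d M * cB g β d M B := by
  have hN : (0 : ℝ) ≤ N0 κ g β d M := Nat.cast_nonneg _
  have hq := q0_pos hgd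
  set x := (NS B).card with hx
  set b := B.card with hb
  set m := ((NS B).filter (fun τ : Fin (2 ^ κ) => (τ : ℕ) < M)).card with hm
  have hbx : b ≤ x := Finset.card_le_card (sub_NS B)
  have h1 : ∑ q ∈ univ.filter (fun q : Fin (2 ^ κ) → Finset (Fin β) => sup q = B),
      ((∏ τ : Fin (2 ^ κ), (if τ ∈ NS (sup q) then 1 else
        2 ^ (β - g - if (τ : ℕ) < M then 1 else 0)) * zt κ g β d q τ : ℕ) : ℝ) ≤
      ∑ q ∈ univ.filter (fun q : Fin (2 ^ κ) → Finset (Fin β) => sup q = B),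
        N0 κ g β d M * (2 ^ m * (2 ^ g) ^ (x - b) / (2 ^ β * q0 g d) ^ x) *
        ∏ τ ∈ sup q, (1 + 2 ^ g / 2 ^ (q τ).card : ℝ) := by
    refine Finset.sum_le_sum (fun q hq => ?_)
    have hs := (mem_filter.1 hq).2
    have := term_le hg hgβ hgd hd M q
    rw [hs] at this
    rw [hs, mul_assoc]
    exact this
  refine h1.trans ?_
  rw [← Finset.mul_sum]
  refine (mul_le_mul_of_nonneg_left (sum_fix g β B) (by positivity)).trans (le_of_eq ?_)
  rw [mul_assoc]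
  congr 1
  rw [cB, ← hx, ← hb, ← hm]
  have h2 : (2 : ℝ) ^ β = 2 ^ g * 2 ^ (β - g) := by rw [← pow_add]; congr 1; omega
  have h3 : ((2 : ℝ) ^ β * q0 g d) ^ x =
      (2 ^ g) ^ (x - b) * (2 ^ ((β - g) * (x - b)) * q0 g d ^ x) * (2 ^ β) ^ b := by
    rw [mul_pow, pow_mul]
    have h4 : ((2 : ℝ) ^ β) ^ x = (2 ^ β) ^ (x - b) * (2 ^ β) ^ b := by
      rw [← pow_add]; congr 1; omega
    rw [h4]
    have h5 : ((2 : ℝ) ^ β) ^ (x - b) = (2 ^ g) ^ (x - b) * (2 ^ (β - g)) ^ (x - b) := by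
      rw [h2, mul_pow]
    rw [h5]; ring
  rw [h3, mul_pow]
  have hq' : (0 : ℝ) < q0 g d ^ x := by positivity
  field_simp

end Pool.Agent.Lib.Pa7c826m
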