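import Pool.Agent.Lib.Pa7c826m.Nbh
import Pool.Agent.Lib.Pa7c826m.SatE

/-!
The `L²` inequality for the `Λ`- and `R`-vertices of a copy over one point of the hypercube.

PROOF. Compare SatE.lean (the `L¹` version). Fix `τ`, write `l j = fp (τ, .inr j)` (`j < d`), `r j' = fq (τ, .inr j')` (`j' < d' = d - g`),
`q δ s' = fq (nb δ τ, .inl s')`, `lm = (∑ j, l j) / d`, `rm = (∑ j', r j') / d'`, `x = (∑ δ, ∑ s', q δ s') / d` (`d = (κ + 1) β` terms).
(1) `g d (lm - x) ^ 2 ≤ ELQ2`: the `g d` edges between `Λ(τ, ·)` and `Q` satisfy `∑ (l j - q δ s') = g ∑ j l j - g ∑ δ ∑ s' q δ s' = g d (lm - x)` (every `j` has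
exactly `g` pairs `(δ, s')` with `(δ β + s' + (d - j)) % d < g` and every pair has exactly `g` such `j`), then Cauchy-Schwarz.
(2) `∑ j, (l j - lm) ^ 2 ≤ ∑ j, (l j - rm) ^ 2 ≤ ESR2 / d'`, `∑ j', (r j' - lm) ^ 2 ≤ ESR2 / d`.
(3) `∑ j, (l j - m) ^ 2 = ∑ j, (l j - lm) ^ 2 + d (lm - m) ^ 2`; `∑ j', (r j' - m) ^ 2 ≤ 3 ∑ j', (r j' - lm) ^ 2 + (3 / 2) d' (lm - m) ^ 2`. Together at most
`4 ESR2 / d' + (5 / 2) d (lm - m) ^ 2`, and `(lm - m) ^ 2 ≤ (6 / 5) (lm - x) ^ 2 + 6 (x - m) ^ 2`, `(5 / 2) (6 / 5) d (lm - x) ^ 2 ≤ 3 ELQ2 / g`,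
`15 d (x - m) ^ 2 = (15 / d) (∑ δ, ∑ s', (q δ s' - m)) ^ 2 ≤ (15 / d) (κ + 1) ∑ δ, (∑ s', (q δ s' - m)) ^ 2 = (15 / β) ∑ δ, (…) ^ 2`.
-/

namespace Pool.Agent.Lib.Pa7c826m

open Finset Pool.Agent.Lib.Pa7c826 Pool.Agent.Lib.Pa7c826s

section

variable (κ g β d : ℕ) (fp : PT κ g β d → ℝ) (fq : QT κ g β d → ℝ) (τ : Fin (2 ^ κ))

/-- squares of the differences along the edges between `Λ(τ, ·)` and `Q` -/
def ELQ2 : ℝ := ∑ j : Fin d, ∑ τ', ∑ s' : Fin β,
  if decide (∃ δ, nb δ τ = τ' ∧ (δ * β + s' + (d - j)) % d < g) = true then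
    (fp (τ, .inr j) - fq (τ', .inl s')) ^ 2 else 0

/-- squares of the differences along the edges between `Λ(τ, ·)` and `R(τ, ·)` -/
def ESR2 : ℝ := ∑ j : Fin d, ∑ j' : Fin (d - g), (fp (τ, .inr j) - fq (τ, .inr j')) ^ 2

end

namespace SatLAux

/-- comparison of the sums over the closed neighbourhood with `ELQ2` -/
theorem elq2 (κ g β d : ℕ) (fp : PT κ g β d → ℝ) (fq : QT κ g β d → ℝ) (τ : Fin (2 ^ κ)) :
    ∑ j : Fin d, ∑ δ : Fin (κ + 1), ∑ s' : Fin β,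
      (if ((δ : ℕ) * β + s' + (d - j)) % d < g then
        (fp (τ, .inr j) - fq (nb δ τ, .inl s')) ^ 2 else 0) ≤ ELQ2 κ g β d fp fq τ := by
  unfold ELQ2
  refine sum_le_sum fun j _ => ?_
  have h1 : ∑ δ : Fin (κ + 1), ∑ s' : Fin β,
      (if ((δ : ℕ) * β + s' + (d - j)) % d < g then
        (fp (τ, .inr j) - fq (nb δ τ, .inl s')) ^ 2 else 0) ≤
      ∑ δ : Fin (κ + 1), (fun τ' : Fin (2 ^ κ) => ∑ s' : Fin β,
        if decide (∃ δ : Fin (κ + 1), nb δ τ = τ' ∧ ((δ : ℕ) * β + s' + (d - j)) % d < g) = true then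
          (fp (τ, .inr j) - fq (τ', .inl s')) ^ 2 else 0) (nb δ τ) := by
    refine sum_le_sum fun δ _ => sum_le_sum fun s' _ => ?_
    by_cases h : ((δ : ℕ) * β + s' + (d - j)) % d < g
    · rw [if_pos h, if_pos (decide_eq_true ⟨δ, rfl, h⟩)]
    · rw [if_neg h]
      split_ifs
      · exact sq_nonneg _
      · exact le_rfl
  refine h1.trans ?_
  have h2 := Finset.sum_image (s := (univ : Finset (Fin (κ + 1)))) (g := fun δ => nb δ τ)
    (f := (fun τ' : Fin (2 ^ κ) => ∑ s' : Fin β,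
        if decide (∃ δ : Fin (κ + 1), nb δ τ = τ' ∧ ((δ : ℕ) * β + s' + (d - j)) % d < g) = true then
          (fp (τ, .inr j) - fq (τ', .inl s')) ^ 2 else 0)) ((nb_inj τ).injOn)
  rw [← h2]
  refine sum_le_sum_of_subset_of_nonneg (subset_univ _) fun τ' _ _ => sum_nonneg fun s' _ => ?_
  split_ifs
  · exact sq_nonneg _
  · exact le_rfl

/-- decomposition around the mean -/
theorem mean_dec (d : ℕ) (hd : 1 ≤ d) (l : Fin d → ℝ) (c : ℝ) :
    ∑ j, (l j - c) ^ 2 = ∑ j, (l j - (∑ j, l j) / d) ^ 2 + d * ((∑ j, l j) / d - c) ^ 2 := by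
  have d0 : (0 : ℝ) < d := by exact_mod_cast hd
  set lm : ℝ := (∑ j, l j) / d with hlm
  have h0 : ∑ j, (l j - lm) = 0 := by
    rw [sum_sub_distrib]
    simp only [sum_const, card_univ, Fintype.card_fin, nsmul_eq_mul]
    rw [hlm]
    field_simp
    ring
  have h1 : ∀ j, (l j - c) ^ 2 = (l j - lm) ^ 2 + (2 * (lm - c) * (l j - lm) + (lm - c) ^ 2) := by
    intro j
    ring
  simp only [h1]
  rw [sum_add_distrib, sum_add_distrib, ← mul_sum, h0]
  simp only [sum_const, card_univ, Fintype.card_fin, nsmul_eq_mul]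
  ring

/-- Cauchy-Schwarz for a mean -/
theorem mean_sq (e : ℕ) (he : 1 ≤ e) (r : Fin e → ℝ) (c : ℝ) :
    (c - (∑ j, r j) / e) ^ 2 ≤ (∑ j, (c - r j) ^ 2) / e := by
  have e0 : (0 : ℝ) < e := by exact_mod_cast he
  have h1 : c - (∑ j, r j) / e = (∑ j : Fin e, (c - r j)) / e := by
    rw [sum_sub_distrib]
    simp only [sum_const, card_univ, Fintype.card_fin, nsmul_eq_mul]
    field_simp
  rw [h1, div_pow, div_le_div_iff₀ (by positivity) e0]
  have h2 := sq_sum_le_card_mul_sum_sq (s := (univ : Finset (Fin e))) (f := fun j => c - r j)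
  rw [card_univ, Fintype.card_fin] at h2
  have h3 : (∑ j, (c - r j)) ^ 2 * (e : ℝ) ≤ ((e : ℝ) * ∑ j, (c - r j) ^ 2) * e := by
    gcongr
  refine h3.trans (le_of_eq ?_)
  ring

/-- the two sides of a complete bipartite graph -/
theorem avg2 (d e : ℕ) (hd : 1 ≤ d) (he : 1 ≤ e) (hed : e ≤ d) (l : Fin d → ℝ) (r : Fin e → ℝ)
    (m : ℝ) :
    ∑ j, (l j - m) ^ 2 + ∑ j', (r j' - m) ^ 2 ≤
      4 * (∑ j, ∑ j', (l j - r j') ^ 2) / (e : ℝ) + 5 / 2 * (d * ((∑ j, l j) / d - m) ^ 2) := by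
  set ES : ℝ := ∑ j, ∑ j', (l j - r j') ^ 2 with hES
  have d0 : (0 : ℝ) < d := by exact_mod_cast hd
  have e0 : (0 : ℝ) < e := by exact_mod_cast he
  have ed : (e : ℝ) ≤ d := by exact_mod_cast hed
  have ES0 : 0 ≤ ES := sum_nonneg fun _ _ => sum_nonneg fun _ _ => sq_nonneg _
  have h1 := mean_dec d hd l m
  have h2 := mean_dec d hd l ((∑ j', r j') / e)
  set lm : ℝ := (∑ j, l j) / d with hlm
  set rm : ℝ := (∑ j, r j) / e with hrm
  have h3 : ∑ j, (l j - rm) ^ 2 ≤ ES / e := by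
    rw [hES, sum_div]
    exact sum_le_sum fun j _ => mean_sq e he r (l j)
  have h4 : ∑ j', (r j' - lm) ^ 2 ≤ ES / d := by
    rw [hES, sum_comm, sum_div]
    refine sum_le_sum fun j' _ => ?_
    have := mean_sq d hd l (r j')
    refine this.trans (le_of_eq ?_)
    congr 1
    exact sum_congr rfl fun j _ => by ring
  have h5 : ES / d ≤ ES / e := by gcongr
  have h6 : ∑ j', (r j' - m) ^ 2 ≤ 3 * ∑ j', (r j' - lm) ^ 2 + 3 / 2 * (e * (lm - m) ^ 2) := by
    have : ∀ j', (r j' - m) ^ 2 ≤ 3 * (r j' - lm) ^ 2 + 3 / 2 * (lm - m) ^ 2 := by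
      intro j'
      nlinarith [sq_nonneg (2 * (r j' - lm) - (lm - m))]
    refine (sum_le_sum fun j' _ => this j').trans (le_of_eq ?_)
    rw [sum_add_distrib, ← mul_sum]
    simp only [sum_const, card_univ, Fintype.card_fin, nsmul_eq_mul]
    ring
  have h7 : (e : ℝ) * (lm - m) ^ 2 ≤ d * (lm - m) ^ 2 := by gcongr
  have h8 : 0 ≤ (d : ℝ) * (lm - rm) ^ 2 := by positivity
  have h9 : 4 * ES / (e : ℝ) = 4 * (ES / e) := by ring
  rw [h9]
  linarith

end SatLAux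

theorem sat_est2 {κ g β d : ℕ} (fp : PT κ g β d → ℝ) (fq : QT κ g β d → ℝ) (hg : 1 ≤ g)
    (hgd : g < d) (hd : d = (κ + 1) * β) (τ : Fin (2 ^ κ)) (m : ℝ) :
    ∑ j, (fp (τ, .inr j) - m) ^ 2 + ∑ j', (fq (τ, .inr j') - m) ^ 2 ≤
      4 * ESR2 κ g β d fp fq τ / ((d : ℝ) - g) + 3 * ELQ2 κ g β d fp fq τ / g +
        15 / β * ∑ δ, (∑ s' : Fin β, (fq (nb δ τ, .inl s') - m)) ^ 2 := by
  have hd1 : 1 ≤ d := by omega
  have he1 : 1 ≤ d - g := by omega
  have h1 := SatLAux.avg2 d (d - g) hd1 he1 (Nat.sub_le _ _) (fun j => fp (τ, .inr j))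
    (fun j' => fq (τ, .inr j')) m
  have hc : ((d - g : ℕ) : ℝ) = (d : ℝ) - g := by
    rw [Nat.cast_sub hgd.le]
  rw [hc] at h1
  have g0 : (0 : ℝ) < g := by exact_mod_cast hg
  have d0 : (0 : ℝ) < d := by exact_mod_cast hd1
  have β0 : (0 : ℝ) < β := by
    have : 0 < β := by
      rcases Nat.eq_zero_or_pos β with h | h
      · subst h
        omega
      · exact h
    exact_mod_cast this
  have hdr : (d : ℝ) = ((κ : ℝ) + 1) * β := by
    rw [hd]
    push_cast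
    ring
  -- the edges between `Λ(τ, ·)` and `Q`
  have e1 : ∑ j : Fin d, ∑ δ : Fin (κ + 1), ∑ s' : Fin β,
      (if ((δ : ℕ) * β + s' + (d - j)) % d < g then
        (fp (τ, .inr j) - m) - (fq (nb δ τ, .inl s') - m) else 0) =
      (g : ℝ) * ∑ j, (fp (τ, .inr j) - m) -
        (g : ℝ) * ∑ δ, ∑ s' : Fin β, (fq (nb δ τ, .inl s') - m) := by
    have a1 : ∀ (j : Fin d) (δ : Fin (κ + 1)) (s' : Fin β),
        (if ((δ : ℕ) * β + s' + (d - j)) % d < g then
          (fp (τ, .inr j) - m) - (fq (nb δ τ, .inl s') - m) else 0) =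
        (fp (τ, .inr j) - m) *
          (if ((δ : ℕ) * β + s' + (d - j)) % d < g then (1 : ℝ) else 0) -
        (fq (nb δ τ, .inl s') - m) *
          (if ((δ : ℕ) * β + s' + (d - j)) % d < g then (1 : ℝ) else 0) := by
      intro j δ s'
      split_ifs <;> ring
    simp only [a1]
    rw [SatEAux.sum3_sub]
    congr 1
    · rw [mul_sum]
      refine sum_congr rfl fun j _ => ?_
      simp only [← mul_sum]
      rw [SatEAux.wsum_pair κ β g d hgd.le hd j, mul_comm]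
    · rw [sum_comm, mul_sum]
      refine sum_congr rfl fun δ _ => ?_
      rw [sum_comm, mul_sum]
      refine sum_congr rfl fun s' _ => ?_
      rw [← mul_sum, SatEAux.wsum_j g d _ hgd.le, mul_comm]
  set X : ℝ := ∑ δ, ∑ s' : Fin β, (fq (nb δ τ, .inl s') - m) with hX
  set L : ℝ := ∑ j, (fp (τ, .inr j) - m) with hL
  -- Cauchy-Schwarz
  have e2 : ((g : ℝ) * L - g * X) ^ 2 ≤ (g * d) * ELQ2 κ g β d fp fq τ := by
    have b1 : (∑ p : Fin d × Fin (κ + 1) × Fin β,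
        (if ((p.2.1 : ℕ) * β + p.2.2 + (d - p.1)) % d < g then
          (fp (τ, .inr p.1) - m) - (fq (nb p.2.1 τ, .inl p.2.2) - m) else 0)) ^ 2 ≤
        (∑ p : Fin d × Fin (κ + 1) × Fin β,
          (if ((p.2.1 : ℕ) * β + p.2.2 + (d - p.1)) % d < g then (1 : ℝ) else 0) ^ 2) *
        (∑ p : Fin d × Fin (κ + 1) × Fin β,
          (if ((p.2.1 : ℕ) * β + p.2.2 + (d - p.1)) % d < g then
          (fp (τ, .inr p.1) - m) - (fq (nb p.2.1 τ, .inl p.2.2) - m) else 0) ^ 2) := by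
      have := Finset.sum_mul_sq_le_sq_mul_sq (univ : Finset (Fin d × Fin (κ + 1) × Fin β))
        (fun p => (if ((p.2.1 : ℕ) * β + p.2.2 + (d - p.1)) % d < g then (1 : ℝ) else 0))
        (fun p => (if ((p.2.1 : ℕ) * β + p.2.2 + (d - p.1)) % d < g then
          (fp (τ, .inr p.1) - m) - (fq (nb p.2.1 τ, .inl p.2.2) - m) else 0))
      refine le_trans (le_of_eq ?_) this
      congr 1
      refine sum_congr rfl fun p _ => ?_
      split_ifs <;> ring
    have b2 : ∑ p : Fin d × Fin (κ + 1) × Fin β,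
        (if ((p.2.1 : ℕ) * β + p.2.2 + (d - p.1)) % d < g then
          (fp (τ, .inr p.1) - m) - (fq (nb p.2.1 τ, .inl p.2.2) - m) else 0) =
        (g : ℝ) * L - g * X := by
      rw [← e1, Fintype.sum_prod_type]
      refine sum_congr rfl fun j _ => ?_
      rw [Fintype.sum_prod_type]
    have b3 : ∑ p : Fin d × Fin (κ + 1) × Fin β,
          (if ((p.2.1 : ℕ) * β + p.2.2 + (d - p.1)) % d < g then (1 : ℝ) else 0) ^ 2 =
        (g : ℝ) * d := by
      rw [Fintype.sum_prod_type]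
      have : ∀ j : Fin d, ∑ p : Fin (κ + 1) × Fin β,
          (if ((p.1 : ℕ) * β + p.2 + (d - j)) % d < g then (1 : ℝ) else 0) ^ 2 = g := by
        intro j
        rw [Fintype.sum_prod_type]
        rw [← SatEAux.wsum_pair κ β g d hgd.le hd j]
        refine sum_congr rfl fun δ _ => sum_congr rfl fun s' _ => ?_
        split_ifs <;> norm_num
      simp only [this, sum_const, card_univ, Fintype.card_fin, nsmul_eq_mul]
      ring
    have b4 : ∑ p : Fin d × Fin (κ + 1) × Fin β,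
          (if ((p.2.1 : ℕ) * β + p.2.2 + (d - p.1)) % d < g then
          (fp (τ, .inr p.1) - m) - (fq (nb p.2.1 τ, .inl p.2.2) - m) else 0) ^ 2 ≤
        ELQ2 κ g β d fp fq τ := by
      refine le_trans (le_of_eq ?_) (SatLAux.elq2 κ g β d fp fq τ)
      rw [Fintype.sum_prod_type]
      refine sum_congr rfl fun j _ => ?_
      rw [Fintype.sum_prod_type]
      refine sum_congr rfl fun δ _ => sum_congr rfl fun s' _ => ?_
      split_ifs <;> ring
    rw [b2, b3] at b1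
    refine b1.trans ?_
    gcongr
  -- the mean of the values on `Λ(τ, ·)`
  have e3 : (∑ j, fp (τ, .inr j)) / d - m = L / d := by
    rw [hL, sum_sub_distrib]
    simp only [sum_const, card_univ, Fintype.card_fin, nsmul_eq_mul]
    field_simp
  have e4 : (L - X) ^ 2 ≤ d * ELQ2 κ g β d fp fq τ / g := by
    rw [le_div_iff₀ g0]
    have : ((g : ℝ) * L - g * X) ^ 2 = (g * ((L - X) ^ 2 * g)) := by ring
    rw [this, mul_assoc] at e2
    exact le_of_mul_le_mul_left e2 g0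
  have e5 : X ^ 2 ≤ ((κ : ℝ) + 1) * ∑ δ, (∑ s' : Fin β, (fq (nb δ τ, .inl s') - m)) ^ 2 := by
    have := sq_sum_le_card_mul_sum_sq (s := (univ : Finset (Fin (κ + 1))))
      (f := fun δ => ∑ s' : Fin β, (fq (nb δ τ, .inl s') - m))
    rw [card_univ, Fintype.card_fin] at this
    push_cast at this
    exact this
  set SX : ℝ := ∑ δ, (∑ s' : Fin β, (fq (nb δ τ, .inl s') - m)) ^ 2 with hSX
  have e6 : L ^ 2 ≤ 6 / 5 * (L - X) ^ 2 + 6 * X ^ 2 := by
    nlinarith [sq_nonneg ((L - X) - 5 * X)]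
  have e7 : 5 / 2 * ((d : ℝ) * (L / d) ^ 2) ≤ 3 * ELQ2 κ g β d fp fq τ / g + 15 / β * SX := by
    have c1 : 5 / 2 * ((d : ℝ) * (L / d) ^ 2) = 5 / 2 * L ^ 2 / d := by
      field_simp
    rw [c1, div_le_iff₀ d0]
    have c2 : (3 * ELQ2 κ g β d fp fq τ / g + 15 / β * SX) * (d : ℝ) =
        3 * (d * ELQ2 κ g β d fp fq τ / g) + 15 * (((κ : ℝ) + 1) * SX) := by
      have : 15 / (β : ℝ) * SX * d = 15 * (((κ : ℝ) + 1) * SX) := by
        rw [hdr]
        field_simp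
      rw [add_mul, this]
      ring
    rw [c2]
    linarith
  rw [e3] at h1
  unfold ESR2
  linarith

end Pool.Agent.Lib.Pa7c826m
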