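import Pool.Agent.Lib.Pa7c826m.CoreL
import Pool.Agent.Lib.Pa7c826m.SatL

/-!
The spectral gap of a copy.

PROOF. `EE2_split`: as `EE_split` (GExpA.lean): `Fintype.sum_prod_type`, `Fintype.sum_sum_type`, `CR` is `false` between `P` and `R`.
`copy_l2`: `m` from `core_est2`, sum `sat_est2` over `τ`; `∑ τ ∑ δ (∑ s' (fq (nb δ τ, .inl s') - m)) ^ 2 = (κ + 1) ∑ τ (∑ s' (fq (τ, .inl s') - m)) ^ 2` (`nb_bij`), at most
`(κ + 1) β EPQ2 / (2 b)` with `b = β - g - 1`. Total `(5 + 15 (κ + 1) / 2) EPQ2 / b + 4 (∑ ESR2) / (d - g) + 3 (∑ ELQ2) / g`, and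
`(5 + 15 (2 g + 1) / 2) g = 15 g ^ 2 + 25 g / 2 ≤ 3 b` from `16 g ^ 2 ≤ β`, `4 g ≤ 3 (d - g)`.
`copy_gap`: if the sum of all values is `0` then `∑ f ^ 2 ≤ ∑ (f - m) ^ 2` for every `m`.
-/

namespace Pool.Agent.Lib.Pa7c826m

open Finset Pool.Agent.Lib.Pa7c826 Pool.Agent.Lib.Pa7c826s

section

variable (κ g β d : ℕ) (ρ : ℕ → ℕ) (fp : PT κ g β d → ℝ) (fq : QT κ g β d → ℝ)

/-- squares of the differences along all edges -/
def EEC2 : ℝ := ∑ x, ∑ y, if CR κ g β d ρ x y = true then (fp x - fq y) ^ 2 else 0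

end

variable {κ g β d : ℕ} {ρ : ℕ → ℕ}

namespace SpCopyAux

theorem EPQ2_nonneg (fp : PT κ g β d → ℝ) (fq : QT κ g β d → ℝ) :
    0 ≤ EPQ2 κ g β d ρ fp fq := by
  unfold EPQ2
  refine sum_nonneg fun τ _ => sum_nonneg fun τ' _ => sum_nonneg fun s _ =>
    sum_nonneg fun s' _ => ?_
  split_ifs
  · exact sq_nonneg _
  · exact le_refl _

theorem ELQ2_nonneg (fp : PT κ g β d → ℝ) (fq : QT κ g β d → ℝ) (τ : Fin (2 ^ κ)) :
    0 ≤ ELQ2 κ g β d fp fq τ := by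
  unfold ELQ2
  refine sum_nonneg fun τ _ => sum_nonneg fun τ' _ => sum_nonneg fun s _ => ?_
  split_ifs
  · exact sq_nonneg _
  · exact le_refl _

theorem ESR2_nonneg (fp : PT κ g β d → ℝ) (fq : QT κ g β d → ℝ) (τ : Fin (2 ^ κ)) :
    0 ≤ ESR2 κ g β d fp fq τ := by
  unfold ESR2
  exact sum_nonneg fun τ _ => sum_nonneg fun τ' _ => sq_nonneg _

theorem sum_nb (F : Fin (2 ^ κ) → ℝ) :
    ∑ τ, ∑ δ : Fin (κ + 1), F (nb δ τ) = ((κ : ℝ) + 1) * ∑ τ, F τ := by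
  rw [sum_comm]
  have h : ∀ δ : Fin (κ + 1), ∑ τ, F (nb δ τ) = ∑ τ, F τ := fun δ =>
    (nb_bij δ).sum_comp F
  rw [sum_congr rfl fun δ _ => h δ, sum_const, card_univ, Fintype.card_fin, nsmul_eq_mul]
  push_cast
  ring

theorem sum_two (fp : PT κ g β d → ℝ) (fq : QT κ g β d → ℝ) (m : ℝ) :
    ∑ x, (fp x - m) ^ 2 + ∑ y, (fq y - m) ^ 2 =
      ∑ τ, (∑ s, (fp (τ, .inl s) - m) ^ 2 + ∑ s', (fq (τ, .inl s') - m) ^ 2) +
      ∑ τ, (∑ j, (fp (τ, .inr j) - m) ^ 2 + ∑ j', (fq (τ, .inr j') - m) ^ 2) := by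
  rw [Fintype.sum_prod_type, Fintype.sum_prod_type, ← sum_add_distrib, ← sum_add_distrib]
  refine sum_congr rfl fun τ _ => ?_
  rw [Fintype.sum_sum_type, Fintype.sum_sum_type]
  ring

theorem arith {g b β D P Q L E1 E2 E3 κ : ℝ} (hg : 1 ≤ g) (hκ : κ = 2 * g)
    (hβ : 16 * g ^ 2 ≤ β) (hb : b = β - g - 1) (hD : 4 * g ≤ 3 * D)
    (h1 : 0 ≤ E1) (h3 : 0 ≤ E3)
    (hP : b * P ≤ 5 * E1) (hQ : 2 * b * Q ≤ β * E1)
    (hL : L ≤ 4 * E3 / D + 3 * E2 / g + 15 / β * ((κ + 1) * Q)) :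
    g * (P + L) ≤ 3 * (E1 + E2 + E3) := by
  have hβ0 : 0 < β := by nlinarith
  have hb0 : 0 < b := by nlinarith
  have hD0 : 0 < D := by linarith
  have hg0 : 0 < g := by linarith
  have e1 : P ≤ 5 * E1 / b := by
    rw [le_div_iff₀ hb0]; linarith
  have e2 : Q ≤ β * E1 / (2 * b) := by
    rw [le_div_iff₀ (by linarith)]; linarith
  have e3 : 15 / β * ((κ + 1) * Q) ≤ 15 * (κ + 1) * E1 / (2 * b) := by
    have : 15 / β * ((κ + 1) * Q) ≤ 15 / β * ((κ + 1) * (β * E1 / (2 * b))) := by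
      refine mul_le_mul_of_nonneg_left (mul_le_mul_of_nonneg_left e2 (by linarith)) (by positivity)
    refine this.trans (le_of_eq ?_)
    field_simp
  have e4 : g * (4 * E3 / D) ≤ 3 * E3 := by
    have : g * (4 * E3 / D) = (4 * g) / D * E3 := by ring
    rw [this]
    refine mul_le_mul_of_nonneg_right ?_ h3
    rw [div_le_iff₀ hD0]; exact hD
  have e5 : g * (3 * E2 / g) = 3 * E2 := by field_simp
  have e6 : g * (5 * E1 / b + 15 * (κ + 1) * E1 / (2 * b)) ≤ 3 * E1 := by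
    have : g * (5 * E1 / b + 15 * (κ + 1) * E1 / (2 * b)) =
        (g * (5 + 15 * (κ + 1) / 2)) / b * E1 := by field_simp
    rw [this]
    refine mul_le_mul_of_nonneg_right ?_ h1
    rw [div_le_iff₀ hb0, hκ, hb]
    nlinarith
  have e7 : P + L ≤ (5 * E1 / b + 15 * (κ + 1) * E1 / (2 * b)) + 4 * E3 / D + 3 * E2 / g := by
    linarith
  have e8 := mul_le_mul_of_nonneg_left e7 hg0.le
  have e9 : g * ((5 * E1 / b + 15 * (κ + 1) * E1 / (2 * b)) + 4 * E3 / D + 3 * E2 / g) =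
      g * (5 * E1 / b + 15 * (κ + 1) * E1 / (2 * b)) + g * (4 * E3 / D) + g * (3 * E2 / g) := by
    ring
  rw [e9, e5] at e8
  linarith

end SpCopyAux

open SpCopyAux

theorem EE2_split (fp : PT κ g β d → ℝ) (fq : QT κ g β d → ℝ) :
    EEC2 κ g β d ρ fp fq = EPQ2 κ g β d ρ fp fq + ∑ τ, ELQ2 κ g β d fp fq τ +
      ∑ τ, ESR2 κ g β d fp fq τ := by
  have h1 : EEC2 κ g β d ρ fp fq = ∑ τ : Fin (2 ^ κ),
      ((∑ s : Fin (β - g), ∑ τ' : Fin (2 ^ κ), ∑ s' : Fin β,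
        if CR κ g β d ρ (τ, .inl s) (τ', .inl s') = true then
          (fp (τ, .inl s) - fq (τ', .inl s')) ^ 2 else 0) +
      (∑ j : Fin d, ((∑ τ' : Fin (2 ^ κ), ∑ s' : Fin β,
        if decide (∃ δ, nb δ τ = τ' ∧ (δ * β + s' + (d - j)) % d < g) = true then
          (fp (τ, .inr j) - fq (τ', .inl s')) ^ 2 else 0) +
        ∑ j' : Fin (d - g), (fp (τ, .inr j) - fq (τ, .inr j')) ^ 2))) := by
    unfold EEC2
    rw [Fintype.sum_prod_type]
    refine sum_congr rfl fun τ _ => ?_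
    rw [Fintype.sum_sum_type]
    congr 1
    · refine sum_congr rfl fun s _ => ?_
      rw [Fintype.sum_prod_type]
      refine sum_congr rfl fun τ' _ => ?_
      rw [Fintype.sum_sum_type]
      have h0 : ∀ j' : Fin (d - g), CR κ g β d ρ (τ, .inl s) (τ', .inr j') = false :=
        fun _ => rfl
      simp only [h0, Bool.false_eq_true, if_false, sum_const_zero, add_zero]
    · refine sum_congr rfl fun j _ => ?_
      rw [Fintype.sum_prod_type]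
      have h2 : ∀ (τ' : Fin (2 ^ κ)), (∑ z : Fin β ⊕ Fin (d - g),
          if CR κ g β d ρ (τ, .inr j) (τ', z) = true then
            (fp (τ, .inr j) - fq (τ', z)) ^ 2 else 0) =
          (∑ s' : Fin β, if decide (∃ δ, nb δ τ = τ' ∧
              (δ * β + s' + (d - j)) % d < g) = true then
            (fp (τ, .inr j) - fq (τ', .inl s')) ^ 2 else 0) +
          if τ = τ' then ∑ j' : Fin (d - g), (fp (τ, .inr j) - fq (τ', .inr j')) ^ 2 else 0 := by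
        intro τ'
        rw [Fintype.sum_sum_type]
        congr 1
        have h0 : ∀ j' : Fin (d - g), CR κ g β d ρ (τ, .inr j) (τ', .inr j') =
          decide (τ = τ') := fun _ => rfl
        simp only [h0, decide_eq_true_eq]
        by_cases h : τ = τ'
        · simp only [h, if_true]
        · simp only [h, if_false, sum_const_zero]
      rw [sum_congr rfl fun τ' _ => h2 τ', sum_add_distrib]
      congr 1
      rw [sum_ite_eq]
      simp only [mem_univ, if_true]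
  rw [h1]
  unfold EPQ2 ELQ2 ESR2
  rw [← sum_add_distrib, ← sum_add_distrib]
  refine sum_congr rfl fun τ _ => ?_
  rw [sum_add_distrib, ← add_assoc]
  congr 2
  exact sum_comm

theorem copy_l2 (fp : PT κ g β d → ℝ) (fq : QT κ g β d → ℝ) (hg : 1 ≤ g) (hκ : κ = 2 * g)
    (hβ : 16 * g ^ 2 ≤ β) (hd : d = (κ + 1) * β) :
    ∃ m : ℝ, g * (∑ x, (fp x - m) ^ 2 + ∑ y, (fq y - m) ^ 2) ≤ 3 * EEC2 κ g β d ρ fp fq := by
  have h16 : 16 ≤ β := by nlinarith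
  have hgβ : g + 2 ≤ β := by nlinarith
  have hβd : 3 * β ≤ d := by
    rw [hd, hκ]
    nlinarith
  have hgd : g < d := by omega
  obtain ⟨m, h1, h2⟩ := core_est2 (ρ := ρ) fp fq (κ := κ) (g := g) (β := β) (d := d)
    (by omega) (by omega)
  refine ⟨m, ?_⟩
  have h3 := sum_le_sum fun (τ : Fin (2 ^ κ)) (_ : τ ∈ univ) =>
    sat_est2 fp fq hg hgd hd τ m
  have h4 : ∑ τ, (4 * ESR2 κ g β d fp fq τ / ((d : ℝ) - g) + 3 * ELQ2 κ g β d fp fq τ / g +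
        15 / β * ∑ δ, (∑ s' : Fin β, (fq (nb δ τ, .inl s') - m)) ^ 2) =
      4 * (∑ τ, ESR2 κ g β d fp fq τ) / ((d : ℝ) - g) + 3 * (∑ τ, ELQ2 κ g β d fp fq τ) / g +
        15 / β * (((κ : ℝ) + 1) * ∑ τ, (∑ s' : Fin β, (fq (τ, .inl s') - m)) ^ 2) := by
    rw [sum_add_distrib, sum_add_distrib, ← sum_div, ← mul_sum, ← sum_div, ← mul_sum,
      ← mul_sum, sum_nb (fun τ => (∑ s' : Fin β, (fq (τ, .inl s') - m)) ^ 2)]
  rw [h4] at h3
  rw [sum_two, EE2_split]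
  have hgr : (1 : ℝ) ≤ g := by exact_mod_cast hg
  have hκr : (κ : ℝ) = 2 * g := by rw [hκ]; push_cast; ring
  have hβr : 16 * (g : ℝ) ^ 2 ≤ β := by exact_mod_cast hβ
  have hDr : 4 * (g : ℝ) ≤ 3 * ((d : ℝ) - g) := by
    have : 7 * g ≤ 3 * d := by omega
    have h : (7 : ℝ) * g ≤ 3 * d := by exact_mod_cast this
    linarith
  exact arith hgr hκr hβr rfl hDr (EPQ2_nonneg fp fq)
    (sum_nonneg fun τ _ => ESR2_nonneg fp fq τ) h1 h2 h3

theorem copy_gap (fp : PT κ g β d → ℝ) (fq : QT κ g β d → ℝ) (hg : 1 ≤ g) (hκ : κ = 2 * g)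
    (hβ : 16 * g ^ 2 ≤ β) (hd : d = (κ + 1) * β) (h0 : ∑ x, fp x + ∑ y, fq y = 0) :
    g * (∑ x, fp x ^ 2 + ∑ y, fq y ^ 2) ≤ 3 * EEC2 κ g β d ρ fp fq := by
  obtain ⟨m, hm⟩ := copy_l2 (ρ := ρ) fp fq hg hκ hβ hd
  refine le_trans ?_ hm
  refine mul_le_mul_of_nonneg_left ?_ (by positivity)
  have e1 : ∑ x, (fp x - m) ^ 2 = ∑ x, fp x ^ 2 - 2 * m * ∑ x, fp x +
      (Fintype.card (PT κ g β d) : ℝ) * m ^ 2 := by
    have : ∀ x, (fp x - m) ^ 2 = fp x ^ 2 - 2 * m * fp x + m ^ 2 := fun x => by ring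
    rw [sum_congr rfl fun x _ => this x, sum_add_distrib, sum_sub_distrib, ← mul_sum,
      sum_const, card_univ, nsmul_eq_mul]
  have e2 : ∑ y, (fq y - m) ^ 2 = ∑ y, fq y ^ 2 - 2 * m * ∑ y, fq y +
      (Fintype.card (QT κ g β d) : ℝ) * m ^ 2 := by
    have : ∀ x, (fq x - m) ^ 2 = fq x ^ 2 - 2 * m * fq x + m ^ 2 := fun x => by ring
    rw [sum_congr rfl fun x _ => this x, sum_add_distrib, sum_sub_distrib, ← mul_sum,
      sum_const, card_univ, nsmul_eq_mul]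
  rw [e1, e2]
  have h1 : 0 ≤ (Fintype.card (PT κ g β d) : ℝ) * m ^ 2 := by positivity
  have h2 : 0 ≤ (Fintype.card (QT κ g β d) : ℝ) * m ^ 2 := by positivity
  have h3 : ∑ y, fq y = -∑ x, fp x := by linarith
  rw [h3]
  linarith

end Pool.Agent.Lib.Pa7c826m
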