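import Pool.Agent.Lib.Pa7c826m.Defs
import Mathlib.Analysis.Matrix.Spectrum

/-!
The eigenvalues of the adjacency matrix of a bipartite graph.
-/

namespace Pool.Agent.Lib.Pa7c826m

open Finset Pool.Agent.Lib.Pa7c826

/-- the adjacency matrix -/
def adjM (G : BGraph) : Matrix (Fin G.a ⊕ Fin G.b) (Fin G.a ⊕ Fin G.b) ℝ :=
  Matrix.of fun x y =>
    match x, y with
    | .inl i, .inr j => if G.E i j = true then 1 else 0
    | .inr j, .inl i => if G.E i j = true then 1 else 0
    | _, _ => 0

theorem adjM_herm (G : BGraph) : (adjM G).IsHermitian := by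
  refine Matrix.IsHermitian.ext fun x y => ?_
  rcases x with i | j <;> rcases y with i' | j' <;> simp [adjM]

/-- fewer than `k` eigenvalues of the adjacency matrix, counted with multiplicity, are larger
than `y` -/
def FewEig (k : ℕ) (y : ℝ) (G : BGraph) : Prop :=
  {i | y < (adjM_herm G).eigenvalues i}.ncard < k

end Pool.Agent.Lib.Pa7c826m
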