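import Pool.Agent.Lib.Pa7c826m.Nbh

/-!
The weight of the `Λ`- and `R`-vertices over one point of the hypercube, given the occupied
`Q`-vertices.

PROOF. `lf_zero`: the filter is everything. `lf_le`: the map `(δ, s') ↦ δ β + s'` on the pairs with `s' ∈ q (nb δ τ)` is injective into
`Fin d` (`d = (κ + 1) β`), and the `Λ(τ, j)` with `j = δ β + s'` is not counted in `lf`: `(δ β + s' + (d - j)) % d = d % d = 0 < g`.
`zt_le`: `zt ≤ 2 ^ lf + 2 ^ (d - g)`, `2 ^ lf ≤ 2 ^ d / 2 ^ t`, so `2 ^ g zt / 2 ^ d ≤ 2 ^ g / 2 ^ t + 1`, and `z0 = 2 ^ d q0` (`z0_eq`).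
-/

namespace Pool.Agent.Lib.Pa7c826m

open Finset Pool.Agent.Lib.Pa7c826 Pool.Agent.Lib.Pa7c826s

section

variable (κ g β d : ℕ) (q : Fin (2 ^ κ) → Finset (Fin β)) (τ : Fin (2 ^ κ))

/-- number of vertices `Λ(τ, j)` without a neighbour `Q(τ', s')`, `s' ∈ q τ'` -/
def lf : ℕ := (univ.filter (fun j : Fin d => ∀ δ : Fin (κ + 1), ∀ s' ∈ q (nb δ τ),
  ¬ (δ * β + s' + (d - j)) % d < g)).card

/-- number of sets of vertices `Λ(τ, ·)`, `R(τ, ·)` compatible with `q` -/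
def zt : ℕ := 2 ^ lf κ g β d q τ + (2 ^ (d - g) - 1)

end

/-- `zt` for `q = ∅` -/
def z0 (g d : ℕ) : ℕ := 2 ^ d + (2 ^ (d - g) - 1)

/-- `z0 / 2 ^ d` -/
noncomputable def q0 (g d : ℕ) : ℝ := 1 + 1 / 2 ^ g - 1 / 2 ^ d

variable {κ g β d : ℕ} {q : Fin (2 ^ κ) → Finset (Fin β)} {τ : Fin (2 ^ κ)}

theorem lf_zero (h : ∀ δ, q (nb δ τ) = ∅) : lf κ g β d q τ = d := by
  unfold lf
  rw [Finset.filter_true_of_mem]
  · simp
  · intro j _ δ s' hs'
    rw [h δ] at hs'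
    simp at hs'

theorem zt_zero (h : ∀ δ, q (nb δ τ) = ∅) : zt κ g β d q τ = z0 g d := by
  unfold zt z0
  rw [lf_zero h]

theorem lf_le (hg : 1 ≤ g) (hd : d = (κ + 1) * β) :
    lf κ g β d q τ + ∑ δ, (q (nb δ τ)).card ≤ d := by
  classical
  have hlt : ∀ (δ : Fin (κ + 1)) (s' : Fin β), (δ : ℕ) * β + s' < d := by
    intro δ s'
    have h1 := δ.2
    have h2 := s'.2
    have h3 : ((δ : ℕ) + 1) * β ≤ (κ + 1) * β := Nat.mul_le_mul_right β (by omega)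
    rw [hd]
    calc (δ : ℕ) * β + s' < (δ : ℕ) * β + β := by omega
      _ = ((δ : ℕ) + 1) * β := by ring
      _ ≤ (κ + 1) * β := h3
  have key : (∑ δ, (q (nb δ τ)).card) ≤ (univ.filter (fun j : Fin d => ¬ ∀ δ : Fin (κ + 1),
      ∀ s' ∈ q (nb δ τ), ¬ (δ * β + s' + (d - j)) % d < g)).card := by
    rw [← Finset.card_sigma]
    refine Finset.card_le_card_of_injOn
      (fun x : (_ : Fin (κ + 1)) × Fin β => (⟨(x.1 : ℕ) * β + x.2, hlt x.1 x.2⟩ : Fin d)) ?_ ?_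
    · rintro ⟨δ, s'⟩ hx
      simp only [Finset.coe_sigma, Set.mem_sigma_iff, Finset.coe_univ, Set.mem_univ, true_and,
        Finset.mem_coe] at hx
      simp only [Finset.coe_filter, Finset.mem_univ, true_and, Set.mem_ofPred_eq]
      intro hall
      refine hall δ s' hx ?_
      have e : (δ : ℕ) * β + s' + (d - ((δ : ℕ) * β + s')) = d := by
        have := hlt δ s'
        omega
      rw [e, Nat.mod_self]
      omega
    · rintro ⟨δ, s'⟩ _ ⟨δ', t'⟩ _ h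
      simp only [Fin.mk.injEq] at h
      have h1 := s'.2
      have h2 := t'.2
      have hδ : (δ : ℕ) = δ' := by
        rcases lt_trichotomy (δ : ℕ) δ' with hh | hh | hh
        · have h3 : ((δ : ℕ) + 1) * β ≤ δ' * β := Nat.mul_le_mul_right β (by omega)
          have h4 : ((δ : ℕ) + 1) * β = δ * β + β := by ring
          omega
        · exact hh
        · have h3 : ((δ' : ℕ) + 1) * β ≤ δ * β := Nat.mul_le_mul_right β (by omega)
          have h4 : ((δ' : ℕ) + 1) * β = δ' * β + β := by ring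
          omega
      have hδ' : δ = δ' := Fin.ext hδ
      subst hδ'
      have hs : s' = t' := Fin.ext (by omega)
      subst hs
      rfl
  have hsum : lf κ g β d q τ + (univ.filter (fun j : Fin d => ¬ ∀ δ : Fin (κ + 1),
      ∀ s' ∈ q (nb δ τ), ¬ (δ * β + s' + (d - j)) % d < g)).card = d := by
    unfold lf
    rw [Finset.card_filter_add_card_filter_not]
    simp
  omega

theorem z0_eq (hgd : g ≤ d) : (z0 g d : ℝ) = 2 ^ d * q0 g d := by
  unfold z0 q0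
  have h1 : 1 ≤ 2 ^ (d - g) := Nat.one_le_two_pow
  rw [Nat.cast_add, Nat.cast_sub h1, Nat.cast_pow, Nat.cast_pow, Nat.cast_one, Nat.cast_ofNat]
  have e : (2 : ℝ) ^ d = 2 ^ g * 2 ^ (d - g) := by
    rw [← pow_add]
    congr 1
    omega
  have hg0 : (2 : ℝ) ^ g ≠ 0 := by positivity
  have hd0 : (2 : ℝ) ^ (d - g) ≠ 0 := by positivity
  rw [e]
  field_simp
  ring

theorem one_le_q0 (hgd : g ≤ d) : 1 ≤ q0 g d := by
  unfold q0
  have h : (1 : ℝ) / 2 ^ d ≤ 1 / 2 ^ g :=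
    one_div_le_one_div_of_le (by positivity) (pow_le_pow_right₀ (by norm_num) hgd)
  linarith

theorem zt_le (hg : 1 ≤ g) (hgd : g ≤ d) (hd : d = (κ + 1) * β) {t : ℕ}
    (ht : t ≤ ∑ δ, (q (nb δ τ)).card) :
    2 ^ g * q0 g d * (zt κ g β d q τ : ℝ) ≤ z0 g d * (1 + 2 ^ g / 2 ^ t) := by
  have hlf := lf_le (κ := κ) (g := g) (β := β) (d := d) (q := q) (τ := τ) hg hd
  have hl : lf κ g β d q τ + t ≤ d := by omega
  have hq : 1 ≤ q0 g d := one_le_q0 hgd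
  have hzt : (zt κ g β d q τ : ℝ) ≤ 2 ^ lf κ g β d q τ + 2 ^ (d - g) := by
    have : zt κ g β d q τ ≤ 2 ^ lf κ g β d q τ + 2 ^ (d - g) := by
      unfold zt
      exact Nat.add_le_add_left (Nat.sub_le _ _) _
    exact_mod_cast this
  have e1 : (2 : ℝ) ^ g * 2 ^ (d - g) = 2 ^ d := by
    rw [← pow_add]
    congr 1
    omega
  have e2 : (2 : ℝ) ^ lf κ g β d q τ ≤ 2 ^ d / 2 ^ t := by
    rw [le_div_iff₀ (by positivity), ← pow_add]
    exact pow_le_pow_right₀ (by norm_num) hl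
  have e3 : (2 : ℝ) ^ g * (zt κ g β d q τ : ℝ) ≤ 2 ^ d * (1 + 2 ^ g / 2 ^ t) := by
    calc (2 : ℝ) ^ g * (zt κ g β d q τ : ℝ)
        ≤ 2 ^ g * (2 ^ lf κ g β d q τ + 2 ^ (d - g)) :=
          mul_le_mul_of_nonneg_left hzt (by positivity)
      _ = 2 ^ g * 2 ^ lf κ g β d q τ + 2 ^ d := by rw [mul_add, e1]
      _ ≤ 2 ^ g * (2 ^ d / 2 ^ t) + 2 ^ d := by
          have := mul_le_mul_of_nonneg_left e2 (show (0 : ℝ) ≤ 2 ^ g by positivity)
          linarith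
      _ = 2 ^ d * (1 + 2 ^ g / 2 ^ t) := by ring
  rw [z0_eq hgd]
  calc 2 ^ g * q0 g d * (zt κ g β d q τ : ℝ)
      = q0 g d * (2 ^ g * (zt κ g β d q τ : ℝ)) := by ring
    _ ≤ q0 g d * (2 ^ d * (1 + 2 ^ g / 2 ^ t)) :=
        mul_le_mul_of_nonneg_left e3 (by linarith)
    _ = 2 ^ d * q0 g d * (1 + 2 ^ g / 2 ^ t) := by ring

end Pool.Agent.Lib.Pa7c826m
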